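import Pool.Agent.S9.TLev

/-!
# Project S10 (note 4276): definitions

S9 with an activity predicate. `act v w`: the wall of the edge `v` at the vertex `w` of the Davis complex is active.
Only the cubes all of whose walls are active are used.
-/

set_option autoImplicit false
set_option linter.unusedSectionVars false

open Finset

namespace Pool.Agent.S10

open Pool.Agent.S9

variable {V : Type} [DecidableEq V] [Fintype V] {G : SimpleGraph V} {W : Type} [Group W]

/-- **activity**: a set of walls of the Davis complex which is invariant under `Γ` -/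
structure IsActv (R : Rac G W) (Γ : Subgroup W) (act : V → W → Prop) : Prop where
  inv : ∀ v, ∀ g ∈ Γ, ∀ w, act v (g * w) ↔ act v w
  self : ∀ v w, act v (w * R.s v) ↔ act v w
  adj : ∀ u v, G.Adj u v → ∀ w, act v (w * R.s u) ↔ act v w

theorem IsActv.mono {R : Rac G W} {Γ Γ' : Subgroup W} {act : V → W → Prop} (h : IsActv R Γ act) (hle : Γ' ≤ Γ) :
    IsActv R Γ' act := ⟨fun v g hg w => h.inv v g (hle hg) w, h.self, h.adj⟩

/-- the activity of a clique does not change along its edges -/
theorem IsActv.all {R : Rac G W} {Γ : Subgroup W} {act : V → W → Prop} (h : IsActv R Γ act) {A : Finset V}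
    (hA : G.IsClique (A : Set V)) {v : V} (hv : v ∈ A) (w : W) :
    (∀ u ∈ A, act u (w * R.s v)) ↔ ∀ u ∈ A, act u w := by
  refine forall₂_congr fun u hu => ?_
  by_cases huv : v = u
  · subst huv
    exact h.self v w
  · exact h.adj v u (hA (mem_coe.2 hv) (mem_coe.2 hu) huv) w

section Cpx

variable (R : Rac G W) (act : V → W → Prop) {K : Type} [Field K]
  {N : Type} [AddCommGroup N] [Module K N]

/-- the functions on the cubes which are supported on the active cubes -/
def Sup (act : V → W → Prop) (K : Type) [Field K] (N : Type) [AddCommGroup N] [Module K N] :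
    Submodule K (Finset V → W → N) where
  carrier := {c | ∀ A w, c A w ≠ 0 → ∀ v ∈ A, act v w}
  zero_mem' := fun A w h => absurd rfl h
  add_mem' := by
    intro c d h1 h2 A w h v hv
    by_cases hz : c A w = 0
    · exact h2 A w (fun h0 => h (by rw [Pi.add_apply, Pi.add_apply, hz, h0, add_zero])) v hv
    · exact h1 A w hz v hv
  smul_mem' := by
    intro a c h1 A w h v hv
    exact h1 A w (fun h0 => h (by rw [Pi.smul_apply, Pi.smul_apply, h0, smul_zero])) v hv

theorem mem_Sup {c : Finset V → W → N} : c ∈ Sup act K N ↔ ∀ A w, c A w ≠ 0 → ∀ v ∈ A, act v w := Iff.rfl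

/-- **chains and cochains of degree `k`** of the active subcomplex, equivariant under `Γ` -/
def Ca (Γ : Subgroup W) (ρ : Γ →* Module.End K N) (k : ℕ) : Submodule K (Finset V → W → N) :=
  Cc R Γ ρ k ⊓ Sup act K N

theorem mem_Ca {Γ : Subgroup W} {ρ : Γ →* Module.End K N} {k : ℕ} {c : Finset V → W → N} :
    c ∈ Ca R act Γ ρ k ↔ c ∈ Cc R Γ ρ k ∧ ∀ A w, c A w ≠ 0 → ∀ v ∈ A, act v w := Iff.rfl

open Classical in
/-- the coboundary of cochains of the active subcomplex -/
noncomputable def cba (c : Finset V → W → N) : Finset V → W → N := fun A w =>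
  if ∀ v ∈ A, act v w then cb R c A w else 0

/-- cycles of degree `k` of the active subcomplex -/
def Za (Γ : Subgroup W) (ρ : Γ →* Module.End K N) (k : ℕ) : Submodule K (Finset V → W → N) :=
  Ca R act Γ ρ k ⊓ LinearMap.ker (bd K)

/-- boundaries in degree `k` of the active subcomplex -/
def Ba (Γ : Subgroup W) (ρ : Γ →* Module.End K N) (k : ℕ) : Submodule K (Finset V → W → N) :=
  (Ca R act Γ ρ (k + 1)).map (bd K)

/-- the dimension of the homology of the active subcomplex -/
noncomputable def hha (Γ : Subgroup W) (ρ : Γ →* Module.End K N) (k : ℕ) : ℤ :=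
  (Module.finrank K (Za R act Γ ρ k) : ℤ) - Module.finrank K (Ba R act Γ ρ k)

/-- **Lifting**: the cycle `z₀` with coefficients in `χ` lifts to `χ ⊗ ρ` for every triangular module `ρ` with weights
in the squares of `χ` and every invariant linear form `π ≠ 0` -/
def LiftsA (Γ : Subgroup W) (χ : Γ →* Kˣ) (k : ℕ) (z₀ : Finset V → W → K) : Prop :=
  ∀ (N : Type) [AddCommGroup N] [Module K N] [FiniteDimensional K N] (ρ : Γ →* Module.End K N)
    (π : N →ₗ[K] K), Tri (sqr χ) ρ → Function.Surjective π → (∀ g y, π (ρ g y) = π y) →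
    ∃ z ∈ Za R act Γ (tw χ ρ) k, ∀ A w, π (z A w) = z₀ A w

/-- **Effaceability**: every cocycle of degree `k + 1` of the active subcomplex with coefficients in a triangular module
becomes a coboundary in a larger triangular module -/
def EffA (K : Type) [Field K] (Γ : Subgroup W) (Λ : Subgroup Kˣ) : Prop :=
  ∀ (k : ℕ) (E : Type) [AddCommGroup E] [Module K E] [FiniteDimensional K E]
    (ρ : Γ →* Module.End K E), Tri Λ ρ → ∀ x ∈ Ca R act Γ ρ (k + 1), cba R act x = 0 →
    ∃ (E' : Type) (_ : AddCommGroup E') (_ : Module K E') (_ : FiniteDimensional K E')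
      (ρ' : Γ →* Module.End K E') (ι : E →ₗ[K] E') (y : Finset V → W → E'),
      Tri Λ ρ' ∧ Function.Injective ι ∧ (∀ g e, ι (ρ g e) = ρ' g (ι e)) ∧ y ∈ Ca R act Γ ρ' k ∧
        ∀ A w, cba R act y A w = ι (x A w)

/-- **The mod 2 homology growth of the active subcomplex vanishes in degree `i`**, for subgroups of `Φ` -/
def GZA (Φ : Subgroup W) (i : ℕ) : Prop :=
  ∀ ε : ℝ, 0 < ε → ∃ N : Subgroup W, N.Normal ∧ N.FiniteIndex ∧ N ≤ Φ ∧
    (hha R act N (1 : N →* Module.End (ZMod 2) (ZMod 2)) i : ℝ) ≤ ε * N.index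

end Cpx

end Pool.Agent.S10
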