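import Pool.Agent.S10.Defs
import Pool.Agent.S9.GAct
import Pool.Agent.S9.G.Fin

/-!
# Project S10, block G: effaceability on the active subcomplex

The representative cocycles of positive degree on the active cells are coboundaries of representative cochains
(`gex_act`, `pot0`); so every cocycle of positive degree with coefficients in a triangular module becomes a coboundary in
a larger triangular module.
-/

set_option autoImplicit false
set_option linter.unusedSectionVars false

open Finset

namespace Pool.Agent.S10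

open Pool.Agent.S9

variable {V : Type} [DecidableEq V] [Fintype V] {G : SimpleGraph V} {W : Type} [Group W]

section Rep

variable (R : Rac G W) (act : V → W → Prop) {K : Type} [Field K]

/-- **Acyclicity of the representative cochains on the active cells** -/
def RepAct (Γ : Subgroup W) (Λ : Subgroup Kˣ) : Prop :=
  ∀ (k : ℕ) (x : Finset V → W → K), (∀ A, x A ∈ OW Γ Λ) →
    (∀ A, ∀ v ∈ A, ∀ w, x A (w * R.s v) = x A w) →
    (∀ A w, x A w ≠ 0 → G.IsClique (A : Set V) ∧ A.card = k + 1 ∧ ∀ v ∈ A, act v w) →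
    (∀ A : Finset V, G.IsClique (A : Set V) → ∀ w, (∀ v ∈ A, act v w) → gd R.s x A w = 0) →
    ∃ η : Finset V → W → K, (∀ A : Finset V, G.IsClique (A : Set V) → A.card = k →
        η A ∈ OW Γ Λ ∧ ∀ v ∈ A, ∀ w, η A (w * R.s v) = η A w) ∧
      ∀ A : Finset V, G.IsClique (A : Set V) → A.card = k + 1 → ∀ w, (∀ v ∈ A, act v w) →
        gd R.s η A w = x A w

end Rep

/-- the product of a representative function and the indicator of an invariant set -/
theorem OW_ite {Γ : Subgroup W} {K : Type} [Field K] {Λ : Subgroup Kˣ} {f : W → K}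
    (hf : f ∈ OW Γ Λ) (P : W → Prop) [DecidablePred P] (hP : ∀ g ∈ Γ, ∀ w, P (g * w) ↔ P w) :
    (fun w => if P w then f w else 0) ∈ OW Γ Λ := by
  intro w
  by_cases h : P w
  · have e : (fun x : Γ => if P (x * w) then f (x * w) else 0) = fun x : Γ => f (x * w) := by
      funext x
      rw [if_pos ((hP x x.2 w).2 h)]
    exact (congrArg (· ∈ Orep Λ Γ) e).mpr (hf w)
  · have e : (fun x : Γ => if P (x * w) then f (x * w) else 0) = 0 := by
      funext x
      rw [if_neg fun h' => h ((hP x x.2 w).1 h')]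
      rfl
    exact (congrArg (· ∈ Orep Λ Γ) e).mpr (zero_mem _)

/-- primitives of tuples of scalar cocycles -/
theorem effa_prim {R : Rac G W} {Γ : Subgroup W} {act : V → W → Prop} (ha : IsActv R Γ act) {K : Type} [Field K]
    {Λ : Subgroup Kˣ} (hG : RepAct R act Γ Λ) {d k : ℕ} (x : Fin d → Finset V → W → K)
    (hO : ∀ i A, x i A ∈ OW Γ Λ)
    (hinv : ∀ i A, ∀ v ∈ A, ∀ w, x i A (w * R.s v) = x i A w)
    (hsup : ∀ i A w, x i A w ≠ 0 → G.IsClique (A : Set V) ∧ A.card = k + 1 ∧ ∀ v ∈ A, act v w)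
    (hco : ∀ i (A : Finset V), G.IsClique (A : Set V) → ∀ w, (∀ v ∈ A, act v w) →
      gd R.s (x i) A w = 0) :
    ∃ η : Fin d → Finset V → W → K, (∀ i A, η i A ∈ OW Γ Λ) ∧
      (∀ i (A : Finset V) w, η i A w ≠ 0 → G.IsClique (A : Set V) ∧ A.card = k ∧ ∀ v ∈ A, act v w) ∧
      (∀ i A, ∀ v ∈ A, ∀ w, η i A (w * R.s v) = η i A w) ∧
      ∀ i (A : Finset V), G.IsClique (A : Set V) → A.card = k + 1 → ∀ w, (∀ v ∈ A, act v w) →
        gd R.s (η i) A w = x i A w := by
  classical
  have key : ∀ i, ∃ η : Finset V → W → K, (∀ A : Finset V, G.IsClique (A : Set V) → A.card = k →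
      η A ∈ OW Γ Λ ∧ ∀ v ∈ A, ∀ w, η A (w * R.s v) = η A w) ∧
      ∀ A : Finset V, G.IsClique (A : Set V) → A.card = k + 1 → ∀ w, (∀ v ∈ A, act v w) →
        gd R.s η A w = x i A w := fun i => hG k (x i) (hO i) (hinv i) (hsup i) (hco i)
  choose η h1 h2 using key
  obtain ⟨η', hη'⟩ : ∃ η' : Fin d → Finset V → W → K, ∀ i A, η' i A =
      if G.IsClique (A : Set V) ∧ A.card = k then (fun w => if ∀ v ∈ A, act v w then η i A w else 0)
      else 0 := ⟨_, fun _ _ => rfl⟩
  refine ⟨η', fun i A => ?_, fun i A w hA => ?_, fun i A v hv w => ?_, fun i A hA hk w hw => ?_⟩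
  · rw [hη']
    split_ifs with h
    · exact OW_ite (h1 i A h.1 h.2).1 _ fun g hg w => forall₂_congr fun v _ => ha.inv v g hg w
    · exact zero_mem _
  · by_cases h : G.IsClique (A : Set V) ∧ A.card = k
    · rw [hη', if_pos h] at hA
      refine ⟨h.1, h.2, ?_⟩
      by_contra h3
      exact hA (if_neg h3)
    · rw [hη', if_neg h] at hA
      exact absurd rfl hA
  · rw [hη']
    split_ifs with h
    · change (if ∀ v ∈ A, act v (w * R.s _) then η i A (w * R.s _) else 0) =
        if ∀ v ∈ A, act v w then η i A w else 0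
      rw [(h1 i A h.1 h.2).2 v hv w]
      simp only [ha.all h.1 hv w]
    · rfl
  · rw [← h2 i A hA hk w hw]
    refine sum_congr rfl fun v hv => ?_
    have hcl : G.IsClique ((A.erase v : Finset V) : Set V) :=
      hA.subset (by exact_mod_cast erase_subset v A)
    have hck : (A.erase v).card = k := by
      rw [card_erase_of_mem hv, hk, Nat.add_sub_cancel]
    have hw' : ∀ u ∈ A, act u (w * R.s v) := (ha.all hA hv w).2 hw
    rw [hη', if_pos ⟨hcl, hck⟩]
    rw [if_pos fun u hu => hw u (mem_of_mem_erase hu), if_pos fun u hu => hw' u (mem_of_mem_erase hu)]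

/-- **Effaceability on the active cells** -/
theorem effA_of_rep (R : Rac G W) {Γ : Subgroup W} (hn : Γ.Normal) (hfi : Γ.FiniteIndex)
    {act : V → W → Prop} (ha : IsActv R Γ act) (K : Type) [Field K] (Λ : Subgroup Kˣ)
    (hG : RepAct R act Γ Λ) : EffA R act K Γ Λ := by
  classical
  intro k E _ _ _ ρ hρ x hx hcb
  obtain ⟨hx0, hxa⟩ := (mem_Ca R act).1 hx
  obtain ⟨hx1, hx2, hx3⟩ := (mem_Cc R).1 hx0
  have hxs : ∀ A w, x A w ≠ 0 → G.IsClique (A : Set V) ∧ A.card = k + 1 := fun A w h =>
    hx1 A fun h1 => h (by rw [h1]; rfl)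
  have hxz : ∀ (A : Finset V) (w : W), ¬ (G.IsClique (A : Set V) ∧ A.card = k + 1) → x A w = 0 := by
    intro A w h
    by_contra h0
    exact h (hxs A w h0)
  obtain ⟨d, ⟨b⟩⟩ : ∃ d : ℕ, Nonempty (Module.Basis (Fin d) K E) :=
    ⟨_, ⟨Module.finBasis K E⟩⟩
  obtain ⟨cr, hcr⟩ : ∃ cr : Fin d → E →ₗ[K] K, ∀ i e, cr i e = b.repr e i :=
    ⟨fun i => b.coord i, fun i e => rfl⟩
  obtain ⟨η, hηO, hη1, hη2, hηd⟩ := effa_prim ha hG (d := d) (k := k)
    (fun i A w => cr i (x A w)) (fun i A w => by
      have h := coeff hρ (cr i) (x A w)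
      refine (congrArg (· ∈ Orep Λ Γ) (funext fun g => ?_)).mp h
      change cr i (ρ g (x A w)) = cr i (x A (g * w))
      rw [hx3])
    (fun i A v hv w => by rw [hx2 A v hv w])
    (fun i A w h => by
      have h0 : x A w ≠ 0 := fun h0 => h (by rw [h0, map_zero])
      exact ⟨(hxs A w h0).1, (hxs A w h0).2, hxa A w h0⟩)
    (fun i A hA w hw => by
      have h := congrFun (congrFun hcb A) w
      have h1 : cba R act x A w = ∑ v ∈ A, (x (A.erase v) w + x (A.erase v) (w * R.s v)) := by
        rw [cba, if_pos hw, cb, if_pos hA]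
      rw [h1] at h
      have h2 := congrArg (cr i) h
      rw [map_sum] at h2
      simp only [map_add] at h2
      rw [gd, h2]
      exact map_zero _)
  -- one triangular space with all the functions
  have hfin : Finite (W ⧸ Γ) := Subgroup.finite_quotient_of_finiteIndex
  obtain ⟨F, hF, hmem⟩ := exists_triO (Lam := Λ) (H := Γ)
    (ι := (Fin d × Finset V × (W ⧸ Γ)) ⊕ (Fin d × Fin d))
    (fun t => Sum.elim (fun t (g : Γ) => η t.1 t.2.1 (g * t.2.2.out))
      (fun t (g : Γ) => cr t.1 (ρ g (b t.2))) t) (fun t => by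
        rcases t with t | t
        · exact hηO t.1 t.2.1 t.2.2.out
        · exact coeff hρ (cr t.1) (b t.2))
  have hst := hF.stable
  have hη : ∀ i A w, (fun g : Γ => η i A (g * w)) ∈ F := by
    intro i A w
    have h1 := hmem (Sum.inl (i, A, (w : W ⧸ Γ)))
    obtain ⟨γ, hγ⟩ : ∃ γ : Γ, w = γ * (w : W ⧸ Γ).out := by
      have h2 : ((w : W ⧸ Γ).out)⁻¹ * w ∈ Γ := by
        rw [← QuotientGroup.eq, QuotientGroup.out_eq']
      refine ⟨⟨w * ((w : W ⧸ Γ).out)⁻¹, ?_⟩, by simp⟩
      have h3 := hn.conj_mem _ h2 ((w : W ⧸ Γ).out)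
      simpa [mul_assoc] using h3
    have h4 := hst γ _ h1
    refine (congrArg (· ∈ F) (funext fun g => ?_)).mp h4
    change η i A (((g * γ : Γ) : W) * (w : W ⧸ Γ).out) = η i A (g * w)
    conv_rhs => rw [hγ]
    rw [Subgroup.coe_mul, mul_assoc]
  have hρF : ∀ i e, (fun g : Γ => cr i (ρ g e)) ∈ F := by
    intro i e
    have h1 : (fun g : Γ => cr i (ρ g e)) = ∑ j, b.repr e j • fun g : Γ => cr i (ρ g (b j)) := by
      funext g
      conv_lhs => rw [← b.sum_repr e]
      rw [map_sum, map_sum, Finset.sum_apply]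
      refine sum_congr rfl fun j _ => ?_
      rw [map_smul, map_smul]
      rfl
    rw [h1]
    exact Submodule.sum_mem _ fun j _ => Submodule.smul_mem _ _ (hmem (Sum.inr (i, j)))
  refine ⟨Fin d → F, inferInstance, inferInstance, hF.finiteDimensional d, rtF F hst d,
    { toFun := fun e i => ⟨fun g => cr i (ρ g e), hρF i e⟩
      map_add' := fun e e' => by
        funext i
        refine Subtype.ext (funext fun g => ?_)
        change cr i (ρ g (e + e')) = cr i (ρ g e) + cr i (ρ g e')
        rw [map_add, map_add]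
      map_smul' := fun c e => by
        funext i
        refine Subtype.ext (funext fun g => ?_)
        change cr i (ρ g (c • e)) = c • cr i (ρ g e)
        rw [map_smul, map_smul] },
    fun A w i => ⟨fun g => η i A (g * w), hη i A w⟩, tri_pow hF d, ?_, ?_, ?_, ?_⟩
  · -- injectivity
    intro e e' h
    refine b.repr.injective (Finsupp.ext fun i => ?_)
    have h1 := congrFun (congrArg Subtype.val (congrFun h i)) 1
    change cr i (ρ 1 e) = cr i (ρ 1 e') at h1
    rw [map_one] at h1
    rw [← hcr, ← hcr]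
    exact h1
  · -- equivariance
    intro g e
    funext i
    refine Subtype.ext (funext fun x => ?_)
    change cr i (ρ x (ρ g e)) = cr i (ρ (x * g) e)
    rw [map_mul]
    rfl
  · -- the cochain
    refine ⟨⟨fun A hA => ?_, fun A v hv w => ?_, fun A g w => ?_⟩, fun A w hA => ?_⟩
    · by_contra h
      refine hA (funext fun w => funext fun i => Subtype.ext (funext fun g => ?_))
      change η i A (g * w) = 0
      by_contra h0
      exact h ⟨(hη1 i A _ h0).1, (hη1 i A _ h0).2.1⟩
    · funext i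
      refine Subtype.ext (funext fun g => ?_)
      change η i A (g * (w * R.s v)) = η i A (g * w)
      rw [← mul_assoc, hη2 i A v hv]
    · funext i
      refine Subtype.ext (funext fun x => ?_)
      change η i A (x * (g * w)) = η i A (((x * g : Γ) : W) * w)
      rw [Subgroup.coe_mul, mul_assoc]
    · by_contra h
      refine hA (funext fun i => Subtype.ext (funext fun g => ?_))
      change η i A (g * w) = 0
      by_contra h0
      exact h fun v hv => (ha.inv v g g.2 w).1 ((hη1 i A _ h0).2.2 v hv)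
  · -- the coboundary
    intro A w
    funext i
    refine Subtype.ext (funext fun g => ?_)
    change _ = cr i (ρ g (x A w))
    rw [← hx3]
    by_cases hA : G.IsClique (A : Set V) ∧ ∀ v ∈ A, act v w
    · rw [cba, if_pos hA.2, cb, if_pos hA.1, Finset.sum_apply]
      have e1 : ∀ (s : Finset V) (f : V → F), ((∑ v ∈ s, f v : F) : Γ → K) g =
          ∑ v ∈ s, (f v : Γ → K) g := by
        intro s f
        rw [AddSubmonoidClass.coe_finsetSum, Finset.sum_apply]
      rw [e1]
      change ∑ v ∈ A, (η i (A.erase v) (g * w) + η i (A.erase v) (g * (w * R.s v))) = _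
      simp only [← mul_assoc]
      by_cases hk : A.card = k + 1
      · exact hηd i A hA.1 hk (g * w) fun v hv => (ha.inv v g g.2 w).2 (hA.2 v hv)
      · rw [hxz A _ fun h => hk h.2, map_zero]
        refine sum_eq_zero fun v hv => ?_
        have h0 : ∀ w', η i (A.erase v) w' = 0 := by
          intro w'
          by_contra h0
          have h1 := (hη1 i _ _ h0).2.1
          rw [card_erase_of_mem hv] at h1
          have h2 := card_pos.2 ⟨v, hv⟩
          omega
        rw [h0, h0, add_zero]
    · have hz : cba R act (fun A w i => (⟨fun g => η i A (g * w), hη i A w⟩ : F)) A w = 0 := by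
        unfold cba cb
        by_cases h2 : ∀ v ∈ A, act v w
        · rw [if_pos h2, if_neg fun h1 => hA ⟨h1, h2⟩]
        · rw [if_neg h2]
      rw [hz]
      have h0 : x A (g * w) = 0 := by
        by_contra h0
        exact hA ⟨(hxs A _ h0).1, fun v hv => (ha.inv v g g.2 w).1 (hxa A _ h0 v hv)⟩
      rw [h0, map_zero]
      rfl

theorem repAct (R : Rac G W) {Γ : Subgroup W} (hΓ : Lev0 R Γ) {act : V → W → Prop}
    (ha : IsActv R Γ act) {K : Type} [Field K] [CharP K 2] (Λ : Subgroup Kˣ) : RepAct R act Γ Λ := by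
  classical
  intro k x hO hinv hsup hco
  have hM : ∀ a : K, a + a = 0 := fun a => CharTwo.add_self_eq_zero a
  have hact : Activ G R.s (OW (K := K) Γ Λ) act := by
    refine ⟨ha.self, ha.adj, fun v f hf f' h1 h2 => ?_⟩
    have e : f' = fun w => if act v w then f w else 0 := by
      funext w
      by_cases h : act v w
      · rw [if_pos h, h1 w h]
      · rw [if_neg h, h2 w h]
    rw [e]
    exact OW_ite hf _ fun g hg w => ha.inv v g hg w
  have hfull : ∀ T C : Finset V, G.IsClique (C : Set V) → (∀ u ∈ T, ∀ a ∈ C, G.Adj u a) →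
      GEx G R.s (OW (K := K) Γ Λ) (fun _ _ => True) T C := by
    intro T C hC hTC k hk γ h1 h2
    obtain ⟨η, h3, h4⟩ := g_ind G R.s R.sq R.comm hM (OW Γ Λ) (fun f hf v => OW_right hf (R.s v))
      (fun T C hC hTC c hc hci hcc => pot0 hΓ.normal hΓ.fin hΓ.ret ⟨hC, hTC, hci, hcc⟩ hc) T.card T C
      le_rfl hC hTC k hk γ h1 fun A hA hAc hAk w => h2 A hA hAc hAk w fun _ _ => trivial
    exact ⟨η, h3, fun A hA hAc hAk w _ => h4 A hA hAc hAk w⟩
  obtain ⟨η, h1, h2⟩ := gex_act G R.s R.sq R.comm hM (OW (K := K) Γ Λ) (fun f hf v => OW_right hf (R.s v))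
    hfull (univ : Finset V).card univ ∅ le_rfl (by rw [coe_empty]; exact Set.pairwise_empty _)
    (fun u _ a ha => absurd ha (notMem_empty a)) act hact (k + 1) (Nat.le_add_left 1 k) x
    (fun A _ _ _ => ⟨hO A, fun a ha w => hinv A a (by rwa [union_empty] at ha) w⟩)
    fun A _ hA _ w hw => hco A hA w hw
  exact ⟨η, fun A hA hk => ⟨(h1 A (subset_univ _) hA (by rw [hk])).1, fun v hv w =>
    (h1 A (subset_univ _) hA (by rw [hk])).2 v (by rwa [union_empty]) w⟩,
    fun A hA hk w hw => h2 A (subset_univ _) hA hk w hw⟩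

/-- **Block G: effaceability on the active subcomplex** -/
theorem G_mainA (R : Rac G W) {Γ : Subgroup W} (hΓ : Lev0 R Γ) {act : V → W → Prop}
    (ha : IsActv R Γ act) (K : Type) [Field K] [CharP K 2] (Λ : Subgroup Kˣ) : EffA R act K Γ Λ :=
  effA_of_rep R hΓ.normal hΓ.fin ha K Λ (repAct R hΓ ha Λ)

end Pool.Agent.S10
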