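import Pool.Agent.S10.Defs
import Pool.Agent.H19.Cub.Stmt

/-!
# Project S10: the finite W-set of a finite special cube complex

`W` = the right-angled Coxeter group of the graph of `Q`. It acts from the right on the vertices of `Q`: the letter `v`
moves `x` to the other end of the edge `v` at `x`, or fixes `x` if there is no such edge. `pt Q R x₀ w = x₀ w`,
`acQ Q R x₀` is the activity.
-/

set_option autoImplicit false
set_option linter.unusedSectionVars false

open Finset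

namespace Pool.Agent.S10

open Pool.Agent.S9 Pool.Agent.H19.Cub

variable {V X : Type} [DecidableEq V] [Fintype V] (Q : CubeComplex V X)

/-- the other end of the edge `v` at `x`, or `x` if there is no such edge -/
def mv (v : V) (x : X) : X := if v ∈ Q.lab x then Q.nb v x else x

theorem mv_pos {v : V} {x : X} (h : v ∈ Q.lab x) : mv Q v x = Q.nb v x := if_pos h

theorem mv_neg {v : V} {x : X} (h : v ∉ Q.lab x) : mv Q v x = x := if_neg h

theorem mv_mv (v : V) (x : X) : mv Q v (mv Q v x) = x := by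
  by_cases h : v ∈ Q.lab x
  · rw [mv_pos Q h, mv_pos Q (Q.lab_nb v x h), Q.nb_nb v x h]
  · rw [mv_neg Q h, mv_neg Q h]

theorem mem_lab_mv_self (v : V) (x : X) : v ∈ Q.lab (mv Q v x) ↔ v ∈ Q.lab x := by
  by_cases h : v ∈ Q.lab x
  · rw [mv_pos Q h]
    exact ⟨fun _ => h, fun _ => Q.lab_nb v x h⟩
  · rw [mv_neg Q h]

theorem mem_lab_mv {u v : V} (huv : Q.graph.Adj u v) (x : X) : v ∈ Q.lab (mv Q u x) ↔ v ∈ Q.lab x := by
  have h1 : ∀ y, v ∈ Q.lab y → v ∈ Q.lab (mv Q u y) := by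
    intro y hy
    by_cases h : u ∈ Q.lab y
    · rw [mv_pos Q h]
      exact Q.lab_adj v u y huv.symm hy h
    · rwa [mv_neg Q h]
  refine ⟨fun h => ?_, h1 x⟩
  have h2 := h1 _ h
  rwa [mv_mv] at h2

theorem mv_comm {u v : V} (huv : Q.graph.Adj u v) (x : X) : mv Q u (mv Q v x) = mv Q v (mv Q u x) := by
  have hu := mem_lab_mv Q huv.symm x
  have hv := mem_lab_mv Q huv x
  by_cases h1 : u ∈ Q.lab x
  · by_cases h2 : v ∈ Q.lab x
    · rw [mv_pos Q (hu.2 h1), mv_pos Q h2, mv_pos Q (hv.2 h2), mv_pos Q h1, Q.nb_comm u v x huv h1 h2]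
    · rw [mv_neg Q h2, mv_neg Q fun h => h2 (hv.1 h)]
  · by_cases h2 : v ∈ Q.lab x
    · rw [mv_neg Q h1, mv_neg Q fun h => h1 (hu.1 h)]
    · rw [mv_neg Q h2, mv_neg Q h1, mv_neg Q h2]

/-- the permutation of the vertices -/
def mvp (v : V) : Equiv.Perm X := ⟨mv Q v, mv Q v, mv_mv Q v, mv_mv Q v⟩

variable {W : Type} [Group W] (R : Rac Q.graph W)

theorem exists_xh : ∃ f : W →* (Equiv.Perm X)ᵐᵒᵖ, ∀ v, f (R.s v) = MulOpposite.op (mvp Q v) := by
  refine R.lift _ _ (fun v => ?_) fun u v h => ?_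
  · rw [← MulOpposite.op_mul]
    refine MulOpposite.unop_injective (Equiv.ext fun x => ?_)
    exact mv_mv Q v x
  · rw [← MulOpposite.op_mul, ← MulOpposite.op_mul]
    refine MulOpposite.unop_injective (Equiv.ext fun x => ?_)
    exact mv_comm Q h.symm x

/-- the right action of `W` on the vertices -/
noncomputable def xh : W →* (Equiv.Perm X)ᵐᵒᵖ := (exists_xh Q R).choose

theorem xh_s (v : V) : xh Q R (R.s v) = MulOpposite.op (mvp Q v) := (exists_xh Q R).choose_spec v

/-- the vertex `x₀ w` -/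
noncomputable def pt (x₀ : X) (w : W) : X := (xh Q R w).unop x₀

theorem pt_one (x₀ : X) : pt Q R x₀ 1 = x₀ := by
  unfold pt
  rw [map_one]
  rfl

theorem pt_mul (x₀ : X) (w w' : W) : pt Q R x₀ (w * w') = pt Q R (pt Q R x₀ w) w' := by
  unfold pt
  rw [map_mul]
  rfl

theorem pt_s (x : X) (v : V) : pt Q R x (R.s v) = mv Q v x := by
  unfold pt
  rw [xh_s]
  rfl

theorem pt_mul_s (x₀ : X) (w : W) (v : V) : pt Q R x₀ (w * R.s v) = mv Q v (pt Q R x₀ w) := by
  rw [pt_mul, pt_s]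

theorem pt_of_ker (x₀ : X) {g : W} (hg : xh Q R g = 1) (w : W) : pt Q R x₀ (g * w) = pt Q R x₀ w := by
  rw [pt_mul]
  congr 1
  unfold pt
  rw [hg]
  rfl

/-- **the activity**: the edge `v` exists at the vertex `x₀ w` -/
def acQ (x₀ : X) (v : V) (w : W) : Prop := v ∈ Q.lab (pt Q R x₀ w)

theorem isActv (x₀ : X) {Γ : Subgroup W} (hΓ : ∀ g ∈ Γ, xh Q R g = 1) : IsActv R Γ (acQ Q R x₀) where
  inv v g hg w := by
    unfold acQ
    rw [pt_of_ker Q R x₀ (hΓ g hg)]
  self v w := by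
    unfold acQ
    rw [pt_mul_s, mem_lab_mv_self]
  adj u v h w := by
    unfold acQ
    rw [pt_mul_s, mem_lab_mv Q h]

end Pool.Agent.S10
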