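import Pool.Agent.S10.L2End
import Pool.Agent.S10.Wset

/-!
# Project S10: vanishing growth of the active subcomplex implies the vanishing of the reduced `ℓ²`-homology

`N` is a normal subgroup of finite index of `W` which acts trivially on the vertices `X` of `Q`, `P = W ⧸ N`. The
functions on the cells of `X × P` are the families (`c : X`) of `N`-invariant functions on the active cells:
`d c A w = z A (x₀ w) (u_c⁻¹ w)`, where `x₀ u_c = c`.
-/

set_option autoImplicit false
set_option linter.unusedSectionVars false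

open Finset

namespace Pool.Agent.S10

open Pool.Agent.S9 Pool.Agent.H19.Cub Pool.Agent.H19.LG Pool.Agent.H37.TM Pool.Agent.H73.GC
  Pool.Agent.H77.SX

variable {V X : Type} [DecidableEq V] [Fintype V] {Q : CubeComplex V X} {W : Type} [Group W]
  (R : Rac Q.graph W) {x₀ : X} {N : Subgroup W} [N.Normal]

/-- the marked elements of the quotient -/
def gN (N : Subgroup W) [N.Normal] (v : V) : W ⧸ N := QuotientGroup.mk (R.s v)

theorem gN_sq (v : V) : gN R N v * gN R N v = 1 := by
  unfold gN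
  rw [← QuotientGroup.mk_mul, R.sq]
  rfl

theorem gN_comm (u v : V) (h : Q.graph.Adj u v) : gN R N u * gN R N v = gN R N v * gN R N u := by
  unfold gN
  rw [← QuotientGroup.mk_mul, R.comm u v h]
  rfl

theorem mk_mul_s (w : W) (v : V) :
    (QuotientGroup.mk (w * R.s v) : W ⧸ N) = QuotientGroup.mk w * gN R N v := rfl

theorem mk_left {n : W} (hn : n ∈ N) (w : W) :
    (QuotientGroup.mk (n * w) : W ⧸ N) = QuotientGroup.mk w := by
  rw [QuotientGroup.mk_mul, (QuotientGroup.eq_one_iff n).2 hn, one_mul]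

theorem mk_mid {n : W} (hn : n ∈ N) (u w : W) :
    (QuotientGroup.mk (u * (n * w)) : W ⧸ N) = QuotientGroup.mk (u * w) := by
  rw [QuotientGroup.mk_mul, mk_left hn, ← QuotientGroup.mk_mul]

theorem out_eq (w : W) : ∃ n ∈ N, (QuotientGroup.mk w : W ⧸ N).out = n * w := by
  refine ⟨(QuotientGroup.mk w : W ⧸ N).out * w⁻¹, ?_, by rw [inv_mul_cancel_right]⟩
  rw [← QuotientGroup.eq_one_iff, QuotientGroup.mk_mul, QuotientGroup.out_eq', QuotientGroup.mk_inv,
    mul_inv_cancel]

section Maps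

variable (Q) (x₀) (N) (u : X → W)

/-- from the cells of `X × P` to the active cells -/
noncomputable def Th : (Finset V → X → W ⧸ N → F2) →ₗ[F2] (X → Finset V → W → F2) where
  toFun z c A w := z A (pt Q R x₀ w) (QuotientGroup.mk ((u c)⁻¹ * w))
  map_add' z z' := rfl
  map_smul' a z := rfl

/-- from the active cells to the cells of `X × P` -/
noncomputable def Xi : (X → Finset V → W → F2) →ₗ[F2] (Finset V → X → W ⧸ N → F2) where
  toFun d A x p := d (pt Q R x p.out⁻¹) A (u (pt Q R x p.out⁻¹) * p.out)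
  map_add' z z' := rfl
  map_smul' a z := rfl

end Maps

theorem Th_apply (u : X → W) (z : Finset V → X → W ⧸ N → F2) (c : X) (A : Finset V) (w : W) :
    Th Q R x₀ N u z c A w = z A (pt Q R x₀ w) (QuotientGroup.mk ((u c)⁻¹ * w)) := rfl

theorem Xi_apply (u : X → W) (d : X → Finset V → W → F2) (A : Finset V) (x : X) (p : W ⧸ N) :
    Xi Q R N u d A x p = d (pt Q R x p.out⁻¹) A (u (pt Q R x p.out⁻¹) * p.out) := rfl

theorem pt_inv (x : X) (w : W) : pt Q R (pt Q R x w⁻¹) w = x := by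
  rw [← pt_mul, inv_mul_cancel, pt_one]

theorem pt_triv (hN : ∀ g ∈ N, xh Q R g = 1) {n : W} (hn : n ∈ N) (x : X) : pt Q R x n = x := by
  have h := pt_of_ker Q R x (hN n hn) 1
  rwa [mul_one, pt_one] at h

theorem pt_triv_r (hN : ∀ g ∈ N, xh Q R g = 1) {n : W} (hn : n ∈ N) (x : X) (w : W) :
    pt Q R x (w * n) = pt Q R x w := by
  rw [pt_mul, pt_triv R hN hn]

/-- the map to the families is injective -/
theorem Th_inj {u : X → W} (hu : ∀ c, pt Q R x₀ (u c) = c) :
    Function.Injective (Th Q R x₀ N u) := by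
  intro z z' h
  funext A x p
  have h1 := congrFun (congrFun (congrFun h (pt Q R x p.out⁻¹)) A) (u (pt Q R x p.out⁻¹) * p.out)
  rw [Th_apply, Th_apply] at h1
  have h2 : pt Q R x₀ (u (pt Q R x p.out⁻¹) * p.out) = x := by
    rw [pt_mul, hu, pt_inv]
  have h3 : (QuotientGroup.mk ((u (pt Q R x p.out⁻¹))⁻¹ * (u (pt Q R x p.out⁻¹) * p.out)) :
      W ⧸ N) = p := by
    rw [inv_mul_cancel_left, QuotientGroup.out_eq']
  rw [h2, h3] at h1
  exact h1

/-- the map from the invariant families is injective -/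
theorem Xi_inj (hN : ∀ g ∈ N, xh Q R g = 1) {u : X → W} (hu : ∀ c, pt Q R x₀ (u c) = c)
    {d : X → Finset V → W → F2} (hd : ∀ c A, ∀ n ∈ N, ∀ w, d c A (n * w) = d c A w)
    (h : Xi Q R N u d = 0) : d = 0 := by
  funext c A w
  have h1 := congrFun (congrFun (congrFun h A) (pt Q R x₀ w))
    (QuotientGroup.mk ((u c)⁻¹ * w) : W ⧸ N)
  rw [Xi_apply] at h1
  obtain ⟨n, hn, hn'⟩ := out_eq (N := N) ((u c)⁻¹ * w)
  have h2 : pt Q R (pt Q R x₀ w) (QuotientGroup.mk ((u c)⁻¹ * w) : W ⧸ N).out⁻¹ = c := by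
    rw [hn', mul_inv_rev, mul_inv_rev, inv_inv, pt_triv_r R hN (N.inv_mem hn), ← pt_mul,
      mul_inv_cancel_left, hu]
  rw [h2, hn'] at h1
  have h3 : u c * (n * ((u c)⁻¹ * w)) = (u c * n * (u c)⁻¹) * w := by group
  rw [h3, hd c A _ (Subgroup.Normal.conj_mem inferInstance n hn (u c))] at h1
  exact h1

/-- a clique which is not contained in the labels of a vertex is not contained in those of a neighbour -/
private theorem lab_mv {A : Finset V} (hA : Q.graph.IsClique (A : Set V)) {v : V} (hv : v ∈ A)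
    (x : X) : A ⊆ Q.lab (mv Q v x) ↔ A ⊆ Q.lab x := by
  refine forall₂_congr fun a ha => ?_
  by_cases hav : v = a
  · subst hav
    exact mem_lab_mv_self Q v x
  · exact mem_lab_mv Q (hA (mem_coe.2 hv) (mem_coe.2 ha) hav) x

/-- the families of chains -/
theorem Th_mem (u : X → W) {k : ℕ} {z : Finset V → X → W ⧸ N → F2}
    (h1 : ∀ σ x, z σ x ≠ 0 → σ ⊆ Q.lab x ∧ Q.graph.IsClique (σ : Set V) ∧ σ.card = k)
    (h2 : ∀ σ x, σ ⊆ Q.lab x → ∀ v ∈ σ, z σ (Q.nb v x) = regP (gN R N) v (z σ x))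
    (hN : ∀ g ∈ N, xh Q R g = 1) (c : X) :
    Th Q R x₀ N u z c ∈ Ca R (acQ Q R x₀) N (1 : N →* Module.End F2 F2) k := by
  have hs : ∀ A w, Th Q R x₀ N u z c A w ≠ 0 →
      A ⊆ Q.lab (pt Q R x₀ w) ∧ Q.graph.IsClique (A : Set V) ∧ A.card = k := by
    intro A w h
    rw [Th_apply] at h
    exact h1 A _ fun h0 => h (congrFun h0 _)
  rw [mem_Ca, mem_Cc]
  refine ⟨⟨fun A h => ?_, fun A v hv w => ?_, fun A n w => ?_⟩, fun A w h v hv => ?_⟩
  · obtain ⟨w, hw⟩ : ∃ w, Th Q R x₀ N u z c A w ≠ 0 := by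
      by_contra hcon
      push Not at hcon
      exact h (funext hcon)
    exact (hs A w hw).2
  · rw [Th_apply, Th_apply, pt_mul_s, ← mul_assoc, mk_mul_s R]
    by_cases hA : A ⊆ Q.lab (pt Q R x₀ w)
    · rw [mv_pos Q (hA hv), h2 A _ hA v hv]
      show z A (pt Q R x₀ w) (QuotientGroup.mk ((u c)⁻¹ * w) * gN R N v * gN R N v) = _
      rw [mul_assoc, gN_sq, mul_one]
    · have h3 : z A (pt Q R x₀ w) = 0 := by
        by_contra hne
        exact hA (h1 A _ hne).1
      have h4 : z A (mv Q v (pt Q R x₀ w)) = 0 := by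
        by_contra hne
        obtain ⟨h5, h6, -⟩ := h1 A _ hne
        exact hA ((lab_mv h6 hv _).1 h5)
      rw [h3, h4]
      rfl
  · rw [Th_apply, Th_apply, pt_of_ker Q R x₀ (hN _ n.2), mk_mid n.2]
    rfl
  · exact (hs A w h).1 hv

theorem Th_memZ (u : X → W) {k : ℕ} {z : Finset V → X → W ⧸ N → F2}
    (hz : z ∈ ZQ F2 Q k (regP (gN R N))) (hN : ∀ g ∈ N, xh Q R g = 1) (c : X) :
    Th Q R x₀ N u z c ∈ Za R (acQ Q R x₀) N (1 : N →* Module.End F2 F2) k := by
  rw [mem_ZQ] at hz
  obtain ⟨h1, h2, h3⟩ := hz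
  refine ⟨Th_mem R u h1 h2 hN c, ?_⟩
  rw [SetLike.mem_coe, LinearMap.mem_ker]
  funext A w
  rw [bd_apply]
  have h4 := congrFun (h3 A (pt Q R x₀ w)) (QuotientGroup.mk ((u c)⁻¹ * w))
  rw [Finset.sum_apply] at h4
  exact h4

section Dim

variable [N.FiniteIndex]

/-- the invariant chains are finite dimensional -/
theorem finite_Ca (act : V → W → Prop) (k : ℕ) :
    FiniteDimensional F2 (Ca R act N (1 : N →* Module.End F2 F2) k) := by
  have : Finite (W ⧸ N) := inferInstance
  have : FiniteDimensional F2 (Finset V → W ⧸ N → F2) := inferInstance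
  let f : (Finset V → W → F2) →ₗ[F2] (Finset V → W ⧸ N → F2) :=
    { toFun := fun c A p => c A p.out
      map_add' := fun _ _ => rfl
      map_smul' := fun _ _ => rfl }
  refine FiniteDimensional.of_injective (f.domRestrict (Ca R act N (1 : N →* Module.End F2 F2) k)) ?_
  intro c d h
  apply Subtype.ext
  funext A w
  have h1 : c.1 A (QuotientGroup.mk w : W ⧸ N).out = d.1 A (QuotientGroup.mk w : W ⧸ N).out :=
    congrFun (congrFun h A) (QuotientGroup.mk w)
  obtain ⟨n, hn, hn'⟩ := out_eq (N := N) w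
  rw [hn'] at h1
  have h2 := c.2.1.2.2 A ⟨n, hn⟩ w
  have h3 := d.2.1.2.2 A ⟨n, hn⟩ w
  exact h2.symm.trans (h1.trans h3)

theorem hha_eq (act : V → W → Prop) (k : ℕ) :
    hha R act N (1 : N →* Module.End F2 F2) k =
      (Module.finrank F2 (Za R act N (1 : N →* Module.End F2 F2) k) : ℤ) +
        Module.finrank F2 (Za R act N (1 : N →* Module.End F2 F2) (k + 1)) -
        Module.finrank F2 (Ca R act N (1 : N →* Module.End F2 F2) (k + 1)) := by
  have h0 := finite_Ca R (N := N) act (k + 1)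
  let f : Ca R act N (1 : N →* Module.End F2 F2) (k + 1) →ₗ[F2] (Finset V → W → F2) :=
    (bd F2).domRestrict _
  have h1 : LinearMap.range f = Ba R act N (1 : N →* Module.End F2 F2) k :=
    LinearMap.range_domRestrict _ _
  have h2 : Module.finrank F2 (LinearMap.ker f) =
      Module.finrank F2 (Za R act N (1 : N →* Module.End F2 F2) (k + 1)) := by
    have h3 : (LinearMap.ker f).map (Ca R act N (1 : N →* Module.End F2 F2) (k + 1)).subtype =
        Za R act N (1 : N →* Module.End F2 F2) (k + 1) := by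
      ext x
      simp only [Submodule.mem_map, LinearMap.mem_ker]
      constructor
      · rintro ⟨y, hy, rfl⟩
        exact ⟨y.2, LinearMap.mem_ker.2 hy⟩
      · rintro ⟨hx, hx'⟩
        exact ⟨⟨x, hx⟩, LinearMap.mem_ker.1 hx', rfl⟩
    rw [← h3]
    exact (LinearEquiv.finrank_eq
      (Submodule.equivMapOfInjective _ (Submodule.injective_subtype _) _))
  have h4 := LinearMap.finrank_range_add_finrank_ker f
  rw [h1, h2] at h4
  unfold hha
  omega

variable [Fintype X]

/-- the cycles of the covering -/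
theorem finrank_ZQ_le (hN : ∀ g ∈ N, xh Q R g = 1) (hc : ∀ x, ∃ w, pt Q R x₀ w = x) (k : ℕ) :
    Module.finrank F2 (ZQ F2 Q k (regP (gN R N))) ≤
      Fintype.card X * Module.finrank F2 (Za R (acQ Q R x₀) N (1 : N →* Module.End F2 F2) k) := by
  choose u hu using hc
  have h0 := finite_Ca R (N := N) (acQ Q R x₀) k
  have h1 : FiniteDimensional F2 (Za R (acQ Q R x₀) N (1 : N →* Module.End F2 F2) k) :=
    FiniteDimensional.of_injective
      (Submodule.inclusion (inf_le_left : Za R (acQ Q R x₀) N (1 : N →* Module.End F2 F2) k ≤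
        Ca R (acQ Q R x₀) N (1 : N →* Module.End F2 F2) k)) (Submodule.inclusion_injective _)
  have h2 : Module.finrank F2 (X → Za R (acQ Q R x₀) N (1 : N →* Module.End F2 F2) k) =
      Fintype.card X * Module.finrank F2 (Za R (acQ Q R x₀) N (1 : N →* Module.End F2 F2) k) := by
    rw [Module.finrank_pi_fintype, sum_const, card_univ, smul_eq_mul]
  rw [← h2]
  let f : ZQ F2 Q k (regP (gN R N)) →ₗ[F2]
      (X → Za R (acQ Q R x₀) N (1 : N →* Module.End F2 F2) k) :=
    { toFun := fun z c => ⟨Th Q R x₀ N u z.1 c, Th_memZ R u z.2 hN c⟩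
      map_add' := fun z z' => rfl
      map_smul' := fun a z => rfl }
  refine LinearMap.finrank_le_finrank_of_injective (f := f) ?_
  intro z z' h
  apply Subtype.ext
  apply Th_inj R (x₀ := x₀) (N := N) hu
  funext c
  exact congrArg Subtype.val (congrFun h c)

/-- the families of invariant chains inside the chains of the covering -/
private theorem Xi_mem (hN : ∀ g ∈ N, xh Q R g = 1) {u : X → W} (hu : ∀ c, pt Q R x₀ (u c) = c)
    {k : ℕ} {d : X → Finset V → W → F2}
    (hd : ∀ c, d c ∈ Ca R (acQ Q R x₀) N (1 : N →* Module.End F2 F2) k) :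
    (fun (σ : Finset V) (y : X × (W ⧸ N)) (_ : Unit) => Xi Q R N u d σ y.1 y.2) ∈
      SCh F2 Q.graph (prY Q.lab (W ⧸ N)) (fun _ => (1 : Matrix Unit Unit F2))
        (prS Q.cs (gN R N)) k := by
  have hinv : ∀ c A, ∀ n ∈ N, ∀ w, d c A (n * w) = d c A w := by
    intro c A n hn w
    exact (hd c).1.2.2 A ⟨n, hn⟩ w
  have hpt : ∀ (x : X) (p : W ⧸ N), pt Q R x₀ (u (pt Q R x p.out⁻¹) * p.out) = x := by
    intro x p
    rw [pt_mul, hu, pt_inv]
  refine ⟨fun σ y h => ?_, fun σ v hv y => ?_⟩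
  · have h1 : Xi Q R N u d σ y.1 y.2 ≠ 0 := fun h0 => h (funext fun _ => h0)
    rw [Xi_apply] at h1
    have h2 := (hd _).2 σ _ h1
    have h3 := (hd _).1.1 σ (fun h0 => h1 (congrFun h0 _))
    refine ⟨fun v hv => ?_, fun a ha b hb hab => h3.1 (mem_coe.2 ha) (mem_coe.2 hb) hab, h3.2⟩
    have h4 := h2 v hv
    unfold acQ at h4
    rw [hpt] at h4
    exact h4
  · rw [Matrix.one_mulVec]
    funext _
    show Xi Q R N u d σ (Q.cs v y.1) (y.2 * gN R N v) = -(Xi Q R N u d σ y.1 y.2)
    rw [ZModModule.neg_eq_self, Xi_apply, Xi_apply]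
    obtain ⟨x, p⟩ := y
    show d (pt Q R (Q.cs v x) (p * gN R N v).out⁻¹) σ
      (u (pt Q R (Q.cs v x) (p * gN R N v).out⁻¹) * (p * gN R N v).out) =
      d (pt Q R x p.out⁻¹) σ (u (pt Q R x p.out⁻¹) * p.out)
    have h1 : (p * gN R N v) = (QuotientGroup.mk (p.out * R.s v) : W ⧸ N) := by
      rw [mk_mul_s R, QuotientGroup.out_eq']
    obtain ⟨n, hn, hn'⟩ := out_eq (N := N) (p.out * R.s v)
    rw [h1, hn']
    have hcs : Q.cs v x = pt Q R x (R.s v) := by
      rw [pt_s]
      rfl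
    have hss : R.s v * (R.s v)⁻¹ = 1 := mul_inv_cancel _
    have h2 : pt Q R (Q.cs v x) (n * (p.out * R.s v))⁻¹ = pt Q R x p.out⁻¹ := by
      rw [mul_inv_rev, mul_inv_rev, pt_triv_r R hN (N.inv_mem hn), hcs, ← pt_mul, ← mul_assoc, hss,
        one_mul]
    rw [h2]
    have h3 : u (pt Q R x p.out⁻¹) * (n * (p.out * R.s v)) =
        (u (pt Q R x p.out⁻¹) * n * (u (pt Q R x p.out⁻¹))⁻¹) *
          (u (pt Q R x p.out⁻¹) * p.out * R.s v) := by group
    rw [h3, hinv _ _ _ (Subgroup.Normal.conj_mem inferInstance n hn _)]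
    exact (hd _).1.2.1 σ v hv _

/-- the chains of the covering -/
theorem card_mul_finrank_Ca_le {bit : X → V → ZMod 2} (hbit : IsBit Q bit)
    (hN : ∀ g ∈ N, xh Q R g = 1) (hNb : ∀ g ∈ N, ∀ v, R.b g v = 0)
    (hc : ∀ x, ∃ w, pt Q R x₀ w = x) (k : ℕ) :
    Fintype.card X * Module.finrank F2 (Ca R (acQ Q R x₀) N (1 : N →* Module.End F2 F2) k) ≤
      nC Q bit k * N.index := by
  classical
  choose u hu using hc
  have hfin : Finite (W ⧸ N) := inferInstance
  let _ : Fintype (W ⧸ N) := Fintype.ofFinite _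
  have h0 := finite_Ca R (N := N) (acQ Q R x₀) k
  -- the bits of the quotient
  have hbb : ∀ w w' : W, (QuotientGroup.mk w : W ⧸ N) = QuotientGroup.mk w' →
      ∀ v, R.b w v = R.b w' v := by
    intro w w' h v
    have h1 : w⁻¹ * w' ∈ N := QuotientGroup.eq.1 h
    have h2 : R.b w' v = R.b (w * (w⁻¹ * w')) v := by rw [mul_inv_cancel_left]
    rw [h2, R.b_mul, hNb _ h1, add_zero]
  let b : X × (W ⧸ N) → V → Bool := fun y v => decide (R.b y.2.out v = 1)
  have hb : ∀ (y : X × (W ⧸ N)) (a v : V), b (prS Q.cs (gN R N) a y) v =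
      if a = v then !(b y v) else b y v := by
    rintro ⟨x, p⟩ a v
    show decide (R.b (p * gN R N a).out v = 1) = _
    have h1 : R.b (p * gN R N a).out v = R.b p.out v + R.b (R.s a) v := by
      rw [← R.b_mul]
      refine hbb _ _ ?_ v
      rw [QuotientGroup.out_eq', mk_mul_s R, QuotientGroup.out_eq']
    rw [h1, R.b_s]
    by_cases hav : a = v
    · rw [if_pos hav, if_pos hav]
      have key : ∀ x : ZMod 2, decide (x + 1 = 1) = !(decide (x = 1)) := by decide
      exact key _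
    · rw [if_neg hav, if_neg hav, add_zero]
  have hs : IsSpec Q.graph (prY Q.lab (W ⧸ N)) (prS Q.cs (gN R N)) :=
    isSpec_pr Q.isSpec (gN R N) (gN_sq R) (gN_comm R)
  have h3 := two_pow_cT F2 Q.graph (prY Q.lab (W ⧸ N)) (prS Q.cs (gN R N)) hs b hb k
  rw [nn_pr, ← nC_nn hbit] at h3
  have h4 : cT F2 Q.graph (prY Q.lab (W ⧸ N)) (prS Q.cs (gN R N)) k =
      nC Q bit k * Fintype.card (W ⧸ N) := by
    refine Nat.eq_of_mul_eq_mul_left (pow_pos two_pos k) (h3.trans ?_)
    ring
  have h5 : N.index = Fintype.card (W ⧸ N) := by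
    unfold Subgroup.index
    rw [Nat.card_eq_fintype_card]
  rw [h5, ← h4]
  have h2 : Module.finrank F2 (X → Ca R (acQ Q R x₀) N (1 : N →* Module.End F2 F2) k) =
      Fintype.card X * Module.finrank F2 (Ca R (acQ Q R x₀) N (1 : N →* Module.End F2 F2) k) := by
    rw [Module.finrank_pi_fintype, sum_const, card_univ, smul_eq_mul]
  rw [← h2]
  unfold cT
  let f : (X → Ca R (acQ Q R x₀) N (1 : N →* Module.End F2 F2) k) →ₗ[F2]
      SCh F2 Q.graph (prY Q.lab (W ⧸ N)) (fun _ => (1 : Matrix Unit Unit F2))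
        (prS Q.cs (gN R N)) k :=
    { toFun := fun d => ⟨fun σ y _ => Xi Q R N u (fun c => (d c).1) σ y.1 y.2,
        Xi_mem R hN hu fun c => (d c).2⟩
      map_add' := fun d d' => rfl
      map_smul' := fun a d => rfl }
  refine LinearMap.finrank_le_finrank_of_injective (f := f) ?_
  rw [injective_iff_map_eq_zero]
  intro d hd
  have h6 : Xi Q R N u (fun c => (d c).1) = 0 := by
    funext σ x p
    exact congrFun (congrFun (congrFun (congrArg Subtype.val hd) σ) (x, p)) ()
  have h7 := Xi_inj R (x₀ := x₀) hN hu (d := fun c => (d c).1)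
    (fun c A n hn w => (d c).2.1.2.2 A ⟨n, hn⟩ w) h6
  funext c
  apply Subtype.ext
  exact congrFun h7 c

end Dim

/-- **Vanishing growth implies the vanishing of the reduced `ℓ²`-homology.** `Q` is a finite special cube complex with
bits, `x₀` a vertex from which all vertices can be reached, `Φ` a group of elements of the right-angled Coxeter group
which fix all vertices and have even letters. If the mod 2 homology growth of the active subcomplex vanishes in degree
`i`, then the reduced `ℓ²`-homology of the universal cover of `Q` vanishes in this degree. -/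
theorem l2_of_gza [Fintype X] {bit : X → V → ZMod 2} (hbit : IsBit Q bit)
    (hc : ∀ x, ∃ w, pt Q R x₀ w = x) {Φ : Subgroup W} (hΦ : ∀ g ∈ Φ, xh Q R g = 1)
    (hΦb : ∀ g ∈ Φ, ∀ v, R.b g v = 0) {i : ℕ} (h : GZA R (acQ Q R x₀) Φ i) :
    L2HomologyZero (Q.cover x₀) i := by
  classical
  refine l2_end Q bit hbit i (fun ε hε => ?_) x₀
  have hX : (0 : ℝ) < Fintype.card X := by
    have : Nonempty X := ⟨x₀⟩
    exact_mod_cast Fintype.card_pos
  obtain ⟨N, hn, hf, hle, hh⟩ := h (ε / Fintype.card X) (div_pos hε hX)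
  have hfin : Finite (W ⧸ N) := inferInstance
  let _ : Fintype (W ⧸ N) := Fintype.ofFinite _
  have hN : ∀ g ∈ N, xh Q R g = 1 := fun g hg => hΦ g (hle hg)
  have hNb : ∀ g ∈ N, ∀ v, R.b g v = 0 := fun g hg => hΦb g (hle hg)
  refine ⟨W ⧸ N, inferInstance, inferInstance, gN R N, gN_sq R, gN_comm R, ?_⟩
  have h1 := finrank_ZQ_le R (x₀ := x₀) hN hc i
  have h2 := finrank_ZQ_le R (x₀ := x₀) hN hc (i + 1)
  have h3 := card_mul_finrank_Ca_le R (x₀ := x₀) hbit hN hNb hc (i + 1)
  have h4 := hha_eq R (N := N) (acQ Q R x₀) i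
  have h5 : N.index = Fintype.card (W ⧸ N) := by
    unfold Subgroup.index
    rw [Nat.card_eq_fintype_card]
  have h6 : (hha R (acQ Q R x₀) N (1 : N →* Module.End F2 F2) i : ℝ) ≤
    ε / Fintype.card X * N.index := hh
  rw [h4, h5] at h6
  rw [h5] at h3
  push_cast at h6
  have h1' : (Module.finrank F2 (ZQ F2 Q i (regP (gN R N))) : ℝ) ≤
      Fintype.card X * Module.finrank F2 (Za R (acQ Q R x₀) N (1 : N →* Module.End F2 F2) i) := by
    exact_mod_cast h1
  have h2' : (Module.finrank F2 (ZQ F2 Q (i + 1) (regP (gN R N))) : ℝ) ≤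
      Fintype.card X *
        Module.finrank F2 (Za R (acQ Q R x₀) N (1 : N →* Module.End F2 F2) (i + 1)) := by
    exact_mod_cast h2
  have h3' : (Fintype.card X : ℝ) *
      Module.finrank F2 (Ca R (acQ Q R x₀) N (1 : N →* Module.End F2 F2) (i + 1)) ≤
      nC Q bit (i + 1) * Fintype.card (W ⧸ N) := by
    exact_mod_cast h3
  have h7 := mul_le_mul_of_nonneg_left h6 hX.le
  have h8 : (Fintype.card X : ℝ) * (ε / Fintype.card X * Fintype.card (W ⧸ N)) =
      ε * Fintype.card (W ⧸ N) := by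
    field_simp
  rw [h8] at h7
  have h9 : (Fintype.card X : ℝ) *
      ((Module.finrank F2 (Za R (acQ Q R x₀) N (1 : N →* Module.End F2 F2) i) : ℝ) +
        Module.finrank F2 (Za R (acQ Q R x₀) N (1 : N →* Module.End F2 F2) (i + 1)) -
        Module.finrank F2 (Ca R (acQ Q R x₀) N (1 : N →* Module.End F2 F2) (i + 1))) =
      Fintype.card X * Module.finrank F2 (Za R (acQ Q R x₀) N (1 : N →* Module.End F2 F2) i) +
      Fintype.card X *
        Module.finrank F2 (Za R (acQ Q R x₀) N (1 : N →* Module.End F2 F2) (i + 1)) -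
      Fintype.card X *
        Module.finrank F2 (Ca R (acQ Q R x₀) N (1 : N →* Module.End F2 F2) (i + 1)) := by
    ring
  rw [h9] at h7
  show (Module.finrank F2 (ZQ F2 Q i (regP (gN R N))) : ℝ) +
    Module.finrank F2 (ZQ F2 Q (i + 1) (regP (gN R N))) ≤ (nC Q bit (i + 1) + ε) *
      Fintype.card (W ⧸ N)
  rw [add_mul]
  linarith

/-- the vertices which can be reached by paths -/
theorem exists_pt_fin (l : List V) : ∀ x : X, Q.IsPath x l → ∃ w, pt Q R x w = Q.fin x l := by
  induction l with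
  | nil => exact fun x _ => ⟨1, pt_one Q R x⟩
  | cons v l ih =>
    intro x h
    obtain ⟨w, hw⟩ := ih (Q.nb v x) h.2
    refine ⟨R.s v * w, ?_⟩
    rw [pt_mul, pt_s, mv_pos Q h.1, hw]
    rfl

theorem exists_pt_of_surj (hs : Function.Surjective (Q.proj x₀)) (x : X) :
    ∃ w, pt Q R x₀ w = x := by
  obtain ⟨c, rfl⟩ := hs x
  induction c using Quot.ind with
  | mk l => exact exists_pt_fin R l.1 x₀ l.2

/-- **BLOCK L2**, in the form of `S10.Main` -/
theorem L2_mainA {X : Type} [Fintype X] (Q : CubeComplex V X) (x₀ : X) {bit : X → V → ZMod 2}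
    (hbit : IsBit Q bit) (hsurj : Function.Surjective (Q.proj x₀)) (R : Rac Q.graph W)
    {Φ : Subgroup W} (hΦ : Lev0 R Φ) (hker : ∀ g ∈ Φ, xh Q R g = 1) {i : ℕ}
    (h : GZA R (acQ Q R x₀) Φ i) : L2HomologyZero (Q.cover x₀) i := by
  exact l2_of_gza R hbit (exists_pt_of_surj R hsurj) hker hΦ.bits h

end Pool.Agent.S10
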