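import Pool.Agent.S10.Emb
import Pool.Agent.H37.TM.StarC
import Pool.Agent.H73.HVN.Two

/-!
# Project S10, block M: the universal cover of a special cube complex is acyclic

The vertices of the universal cover of `Q` embed into the right-angled Coxeter group of `Q.graph` (`em`). A right
descent of the image of a vertex is the label of an edge at this vertex (`rd_lab`), because the completed involutions
do not increase the length. So the contraction of the Davis complex restricts to the universal cover (`dQ_exact`).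
-/

set_option autoImplicit false
set_option linter.unusedSectionVars false

open Finset

namespace Pool.Agent.S10

open Pool.Agent.H19.Cub Pool.Agent.H77.SX Pool.Agent.H37.TM Pool.Agent.S9
open Pool.Agent.H4.Singer (RGrp gen exists_lift gen_mul_gen gen_inv gen_comm racg racg_not_adj)

/-! ### right descents -/

section Rd

variable {V : Type} [DecidableEq V] [Fintype V] (G : SimpleGraph V)

/-- right descents -/
private def RD (w : RGrp G) (v : V) : Prop := (racg G).toCoxeterSystem.IsRightDescent w v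

/-- the length -/
private noncomputable def ln (w : RGrp G) : ℕ := (racg G).toCoxeterSystem.length w

variable {G}

private theorem ln_rd {w : RGrp G} {v : V} (h : RD G w v) : ln G (w * gen G v) < ln G w := h

private theorem ln_one : ln G (1 : RGrp G) = 0 := (racg G).toCoxeterSystem.length_one

private theorem ln_mul_le (w : RGrp G) (v : V) : ln G (w * gen G v) ≤ ln G w + 1 := by
  have h : ln G (w * gen G v) = ln G w + 1 ∨ ln G (w * gen G v) + 1 = ln G w :=
    (racg G).toCoxeterSystem.length_mul_simple w v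
  omega

private theorem rd_self {w : RGrp G} {v : V} : RD G (w * gen G v) v ↔ ¬ RD G w v := by
  have h := (racg G).toCoxeterSystem.isRightDescent_iff_not_isRightDescent_mul
    (w := w * gen G v) (i := v)
  have e : w * gen G v * (racg G).toCoxeterSystem.simple v = w := by
    show w * gen G v * gen G v = w
    rw [mul_assoc, gen_mul_gen, mul_one]
  rw [e] at h
  exact h

private theorem adj_of_rd {w : RGrp G} {u v : V} (huv : u ≠ v) (hu : RD G w u) (hv : RD G w v) :
    G.Adj u v := by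
  by_contra h
  exact (Pool.Agent.H73.HVN.two_descents (racg G).toCoxeterSystem huv hu hv).1
    (racg_not_adj G huv h)

private theorem rd_adj1 {w : RGrp G} {u v : V} (h : G.Adj u v) (hv : RD G w v) :
    RD G (w * gen G u) v := by
  by_cases hu : RD G w u
  · exact (Pool.Agent.H73.HVN.two_descents (racg G).toCoxeterSystem h.ne hu hv).2
  · by_contra h1
    have e1 := (racg G).toCoxeterSystem.not_isRightDescent_iff.1 hu
    have e2 := (racg G).toCoxeterSystem.not_isRightDescent_iff.1 h1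
    have e3 := (racg G).toCoxeterSystem.isRightDescent_iff.1 hv
    have e4 : w * gen G u * gen G v = w * gen G v * gen G u := by
      rw [mul_assoc, gen_comm G u v h, mul_assoc]
    have e5 := (racg G).toCoxeterSystem.length_mul_simple (w * gen G v) u
    have e6 : (racg G).toCoxeterSystem.length (w * gen G u * gen G v) =
        (racg G).toCoxeterSystem.length (w * gen G u) + 1 := e2
    have e7 : (racg G).toCoxeterSystem.length (w * gen G u) =
        (racg G).toCoxeterSystem.length w + 1 := e1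
    have e8 : (racg G).toCoxeterSystem.length (w * gen G v) + 1 =
        (racg G).toCoxeterSystem.length w := e3
    have e9 : (racg G).toCoxeterSystem.length (w * gen G v * gen G u) =
        (racg G).toCoxeterSystem.length (w * gen G v) + 1 ∨
        (racg G).toCoxeterSystem.length (w * gen G v * gen G u) + 1 =
        (racg G).toCoxeterSystem.length (w * gen G v) := e5
    rw [e4] at e6
    omega

private theorem rd_adj {w : RGrp G} {u v : V} (h : G.Adj u v) : RD G (w * gen G u) v ↔ RD G w v := by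
  refine ⟨fun h1 => ?_, rd_adj1 h⟩
  have h2 := rd_adj1 h h1
  rwa [mul_assoc, gen_mul_gen, mul_one] at h2

private theorem exists_rd {w : RGrp G} (hw : w ≠ 1) : ∃ v, RD G w v :=
  (racg G).toCoxeterSystem.exists_rightDescent_of_ne_one hw

private theorem not_rd_one (v : V) : ¬ RD G (1 : RGrp G) v := by
  intro h
  have h1 := ln_rd h
  rw [ln_one] at h1
  omega

/-! ### products over cliques -/

/-- the product of the generators in a clique -/
private noncomputable def gW (G : SimpleGraph V) (C : Finset V) : RGrp G :=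
  (C.toList.map (gen G)).prod

private theorem gW_empty : gW G ∅ = 1 := by
  simp [gW]

private theorem cl_comm {C : Finset V} (hC : G.IsClique (C : Set V)) {u v : V} (hu : u ∈ C)
    (hv : v ∈ C) : Commute (gen G u) (gen G v) := by
  by_cases h : u = v
  · rw [h]
  · exact gen_comm G u v (hC (mem_coe.2 hu) (mem_coe.2 hv) h)

private theorem gW_insert {C : Finset V} {v : V} (hv : v ∉ C)
    (hC : G.IsClique ((insert v C : Finset V) : Set V)) : gW G (insert v C) = gen G v * gW G C := by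
  unfold gW
  have h1 : ((insert v C).toList.map (gen G)).Perm ((v :: C.toList).map (gen G)) :=
    (Finset.toList_insert hv).map _
  rw [h1.prod_eq' ?_, List.map_cons, List.prod_cons]
  refine List.Pairwise.map _ (R := fun u w => Commute (gen G u) (gen G w)) (fun _ _ h => h) ?_
  refine List.pairwise_of_forall_mem_list fun a ha b hb => ?_
  exact cl_comm hC (mem_toList.1 ha) (mem_toList.1 hb)

private theorem gW_erase {C : Finset V} {v : V} (hv : v ∈ C)
    (hC : G.IsClique (C : Set V)) : gW G C = gen G v * gW G (C.erase v) := by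
  conv_lhs => rw [← insert_erase hv]
  exact gW_insert (notMem_erase v C) (by rwa [insert_erase hv])

private theorem gW_comm {C : Finset V} {v : V} (hC : G.IsClique ((insert v C : Finset V) : Set V)) :
    gW G C * gen G v = gen G v * gW G C := by
  refine (Commute.list_prod_right _ (gen G v) fun y hy => ?_).eq.symm
  obtain ⟨u, hu, rfl⟩ := List.mem_map.1 hy
  exact cl_comm hC (mem_insert_self v C) (mem_insert_of_mem (mem_toList.1 hu))

private theorem gW_sq {C : Finset V} (hC : G.IsClique (C : Set V)) : gW G C * gW G C = 1 := by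
  induction C using Finset.induction_on with
  | empty => rw [gW_empty, one_mul]
  | insert a C ha ih =>
    have h1 : G.IsClique (C : Set V) := hC.subset (by
      rw [coe_insert]; exact Set.subset_insert _ _)
    rw [gW_insert ha hC, mul_assoc, ← mul_assoc (gW G C), gW_comm hC, mul_assoc, ih h1, mul_one,
      gen_mul_gen]

private theorem rd_gW {C : Finset V} {v : V} (hC : G.IsClique ((insert v C : Finset V) : Set V))
    (w : RGrp G) : RD G (w * gW G C) v ↔ (RD G w v ↔ v ∉ C) := by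
  induction C using Finset.induction_on generalizing w with
  | empty => simp [gW_empty]
  | insert a C ha ih =>
    have h0 : G.IsClique ((insert a C : Finset V) : Set V) := hC.subset (by
      rw [coe_insert v]; exact Set.subset_insert _ _)
    have h1 : G.IsClique ((insert v C : Finset V) : Set V) := hC.subset (by
      exact_mod_cast insert_subset_insert v (subset_insert a C))
    rw [gW_insert ha h0, ← mul_assoc, ih h1 (w * gen G a)]
    by_cases hav : a = v
    · subst hav
      rw [rd_self]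
      simp only [mem_insert_self, not_true_eq_false, iff_false]
      have h2 : (a ∉ C) ↔ True := iff_true_intro ha
      rw [h2, iff_true]
    · have h3 : G.Adj a v := by
        refine hC ?_ ?_ hav
        · exact_mod_cast mem_insert_of_mem (mem_insert_self a C)
        · exact_mod_cast mem_insert_self v _
      rw [rd_adj h3]
      have h4 : v ∉ insert a C ↔ v ∉ C := by
        rw [mem_insert, not_or]
        exact ⟨fun h => h.2, fun h => ⟨fun h' => hav h'.symm, h⟩⟩
      rw [h4]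

end Rd

private theorem sub_cl {V : Type} {G : SimpleGraph V} {τ S : Finset V} (hτ : G.IsClique (τ : Set V))
    (h : S ⊆ τ) : G.IsClique (S : Set V) := hτ.subset (by exact_mod_cast h)

private theorem z2 {a : ZMod 2} (h : a ≠ 0) : a = 1 := by
  revert h
  revert a
  decide

section Cov

variable {V X : Type} [DecidableEq V] [Fintype V] (Q : CubeComplex V X) (x₀ : X)

/-! ### the vertices of the universal cover in the right-angled Coxeter group -/

/-- the embedding of the vertices of the universal cover into the right-angled Coxeter group -/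
private noncomputable def ex (c : Q.Cover x₀) : RGrp Q.graph := em Q (racR Q.graph) x₀ c

private theorem ex_nbc (c : Q.Cover x₀) {v : V} (hv : v ∈ Q.lab (Q.proj x₀ c)) :
    ex Q x₀ (Q.nbc x₀ v c) = ex Q x₀ c * gen Q.graph v := em_nbc Q (racR Q.graph) x₀ c hv

private theorem ex_bp : ex Q x₀ (bp Q x₀) = 1 := em_bp Q (racR Q.graph) x₀

private theorem ex_inj {c c' : Q.Cover x₀} (h : ex Q x₀ c = ex Q x₀ c') : c = c' :=
  em_inj Q (racR Q.graph) x₀ h

/-- the action of the Coxeter group on the vertices of the universal cover by the completed involutions -/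
private noncomputable def mA (c : Q.Cover x₀) (w : RGrp Q.graph) : Q.Cover x₀ :=
  ra (Q.cover x₀) (racR Q.graph) c w

private theorem mA_one (c : Q.Cover x₀) : mA Q x₀ c 1 = c :=
  ra_one (Q.cover x₀) (racR Q.graph) c

private theorem mA_mul (c : Q.Cover x₀) (w w' : RGrp Q.graph) :
    mA Q x₀ c (w * w') = mA Q x₀ (mA Q x₀ c w) w' :=
  ra_mul (Q.cover x₀) (racR Q.graph) c w w'

private theorem mA_gen (c : Q.Cover x₀) (v : V) : mA Q x₀ c (gen Q.graph v) = Q.nbc x₀ v c := by
  refine (ra_s (Q.cover x₀) (racR Q.graph) c v).trans ?_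
  by_cases h : v ∈ Q.lab (Q.proj x₀ c)
  · exact (Q.cover x₀).cs_of_mem h
  · rw [nbc_of_notMem h]
    exact (Q.cover x₀).cs_of_not_mem h

private theorem mA_ex (c : Q.Cover x₀) : mA Q x₀ (bp Q x₀) (ex Q x₀ c) = c := by
  refine cover_ind Q x₀ (fun c => mA Q x₀ (bp Q x₀) (ex Q x₀ c) = c) ?_ (fun c v hv ih => ?_) c
  · show mA Q x₀ (bp Q x₀) (ex Q x₀ (bp Q x₀)) = bp Q x₀
    rw [ex_bp, mA_one]
  · show mA Q x₀ (bp Q x₀) (ex Q x₀ (Q.nbc x₀ v c)) = Q.nbc x₀ v c
    rw [ex_nbc Q x₀ c hv, mA_mul, ih, mA_gen]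

/-- the completed involutions do not increase the length -/
private theorem ln_mA (n : ℕ) : ∀ w : RGrp Q.graph, ln Q.graph w ≤ n →
    ln Q.graph (ex Q x₀ (mA Q x₀ (bp Q x₀) w)) ≤ ln Q.graph w := by
  induction n with
  | zero =>
    intro w hw
    have h1 : w = 1 := by
      by_contra h
      obtain ⟨v, hv⟩ := exists_rd h
      have := ln_rd hv
      omega
    rw [h1, mA_one, ex_bp]
  | succ n ih =>
    intro w hw
    by_cases h : w = 1
    · rw [h, mA_one, ex_bp]
    · obtain ⟨v, hv⟩ := exists_rd h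
      have h1 := ln_rd hv
      obtain ⟨w', hw'⟩ : ∃ w', w' = w * gen Q.graph v := ⟨_, rfl⟩
      have h2 : w = w' * gen Q.graph v := by rw [hw', mul_assoc, gen_mul_gen, mul_one]
      rw [← hw'] at h1
      have h3 := ih w' (by omega)
      have h4 : mA Q x₀ (bp Q x₀) w = Q.nbc x₀ v (mA Q x₀ (bp Q x₀) w') := by
        rw [h2, mA_mul, mA_gen]
      rw [h4]
      by_cases h5 : v ∈ Q.lab (Q.proj x₀ (mA Q x₀ (bp Q x₀) w'))
      · rw [ex_nbc Q x₀ _ h5]
        have h6 := ln_mul_le (ex Q x₀ (mA Q x₀ (bp Q x₀) w')) v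
        omega
      · rw [nbc_of_notMem h5]
        omega

/-- **a right descent of the image of a vertex is the label of an edge at the vertex** -/
private theorem rd_lab {c : Q.Cover x₀} {v : V} (h : RD Q.graph (ex Q x₀ c) v) :
    v ∈ Q.lab (Q.proj x₀ c) := by
  by_contra h1
  have h2 : mA Q x₀ (bp Q x₀) (ex Q x₀ c * gen Q.graph v) = c := by
    rw [mA_mul, mA_ex, mA_gen, nbc_of_notMem h1]
  have h3 := ln_mA Q x₀ _ (ex Q x₀ c * gen Q.graph v) le_rfl
  rw [h2] at h3
  have h4 := ln_rd h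
  omega

private theorem rd_sub {c : Q.Cover x₀} {τ : Finset V} (hd : ∀ v ∈ τ, RD Q.graph (ex Q x₀ c) v) :
    τ ⊆ Q.lab (Q.proj x₀ c) := fun v hv => rd_lab Q x₀ (hd v hv)

private theorem lab_self (c : Q.Cover x₀) (v : V) :
    v ∈ Q.lab (Q.proj x₀ (Q.nbc x₀ v c)) ↔ v ∈ Q.lab (Q.proj x₀ c) := by
  by_cases h : v ∈ Q.lab (Q.proj x₀ c)
  · rw [Pool.Agent.S10.proj_nbc Q x₀ c h]
    exact ⟨fun _ => h, fun _ => Q.lab_nb v _ h⟩
  · rw [nbc_of_notMem h]

private theorem lab_step (c : Q.Cover x₀) {u v : V} (huv : Q.graph.Adj u v) :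
    v ∈ Q.lab (Q.proj x₀ (Q.nbc x₀ u c)) ↔ v ∈ Q.lab (Q.proj x₀ c) := by
  have h := lab_cs_adj (Q.cover x₀) huv c
  by_cases hu : u ∈ Q.lab (Q.proj x₀ c)
  · rw [(Q.cover x₀).cs_of_mem (show u ∈ (Q.cover x₀).lab c from hu)] at h
    exact h
  · rw [nbc_of_notMem hu]

/-! ### motion over a clique -/

/-- the vertex opposite to `c` in the cube spanned by `S` -/
private noncomputable def mv (c : Q.Cover x₀) (S : Finset V) : Q.Cover x₀ :=
  mA Q x₀ c (gW Q.graph S)

private theorem mv_empty (c : Q.Cover x₀) : mv Q x₀ c ∅ = c := by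
  unfold mv
  rw [gW_empty, mA_one]

private theorem mv_insert {S : Finset V} {v : V} (hv : v ∉ S)
    (hS : Q.graph.IsClique ((insert v S : Finset V) : Set V)) (c : Q.Cover x₀) :
    mv Q x₀ c (insert v S) = mv Q x₀ (Q.nbc x₀ v c) S := by
  unfold mv
  rw [gW_insert hv hS, mA_mul, mA_gen]

private theorem mv_nbc {S : Finset V} {v : V}
    (hS : Q.graph.IsClique ((insert v S : Finset V) : Set V)) (c : Q.Cover x₀) :
    Q.nbc x₀ v (mv Q x₀ c S) = mv Q x₀ (Q.nbc x₀ v c) S := by
  rw [← mA_gen, ← mA_gen]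
  unfold mv
  rw [← mA_mul, ← mA_mul, gW_comm hS]

private theorem mv_mv {S : Finset V} (hS : Q.graph.IsClique (S : Set V)) (c : Q.Cover x₀) :
    mv Q x₀ (mv Q x₀ c S) S = c := by
  unfold mv
  rw [← mA_mul, gW_sq hS, mA_one]

private theorem ex_mv {S : Finset V} (hS : Q.graph.IsClique (S : Set V)) {c : Q.Cover x₀}
    (h : S ⊆ Q.lab (Q.proj x₀ c)) : ex Q x₀ (mv Q x₀ c S) = ex Q x₀ c * gW Q.graph S := by
  induction S using Finset.induction_on generalizing c with
  | empty => rw [mv_empty, gW_empty, mul_one]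
  | insert a S ha ih =>
    have h1 : Q.graph.IsClique (S : Set V) := sub_cl hS (subset_insert a S)
    have h2 : S ⊆ Q.lab (Q.proj x₀ (Q.nbc x₀ a c)) := by
      intro v hv
      refine (lab_step Q x₀ c (hS ?_ ?_ ?_)).2 (h (mem_insert_of_mem hv))
      · exact_mod_cast mem_insert_self a S
      · exact_mod_cast mem_insert_of_mem hv
      · rintro rfl
        exact ha hv
    rw [mv_insert Q x₀ ha hS, ih h1 h2, ex_nbc Q x₀ c (h (mem_insert_self a S)),
      gW_insert ha hS, mul_assoc]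

/-! ### bits -/

variable (bit : X → V → ZMod 2)

/-- the bits -/
private def bt (c : Q.Cover x₀) (v : V) : ZMod 2 := bit (Q.proj x₀ c) v

variable {bit}

private theorem bt_nbc (hbit : IsBit Q bit) {c : Q.Cover x₀} {u : V}
    (hu : u ∈ Q.lab (Q.proj x₀ c)) (v : V) :
    bt Q x₀ bit (Q.nbc x₀ u c) v = bt Q x₀ bit c v + if u = v then 1 else 0 := by
  unfold bt
  rw [Pool.Agent.S10.proj_nbc Q x₀ c hu, hbit u _ hu]
  by_cases h : u = v
  · rw [if_pos h, if_pos h.symm]
  · rw [if_neg h, if_neg (Ne.symm h)]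

private theorem bt_mv (hbit : IsBit Q bit) {S : Finset V} (hS : Q.graph.IsClique (S : Set V))
    {c : Q.Cover x₀} (h : S ⊆ Q.lab (Q.proj x₀ c)) (v : V) :
    bt Q x₀ bit (mv Q x₀ c S) v = bt Q x₀ bit c v + if v ∈ S then 1 else 0 := by
  induction S using Finset.induction_on generalizing c with
  | empty => simp [mv_empty]
  | insert a S ha ih =>
    have h1 : Q.graph.IsClique (S : Set V) := sub_cl hS (subset_insert a S)
    have h2 : S ⊆ Q.lab (Q.proj x₀ (Q.nbc x₀ a c)) := by
      intro v hv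
      refine (lab_step Q x₀ c (hS ?_ ?_ ?_)).2 (h (mem_insert_of_mem hv))
      · exact_mod_cast mem_insert_self a S
      · exact_mod_cast mem_insert_of_mem hv
      · rintro rfl
        exact ha hv
    rw [mv_insert Q x₀ ha hS, ih h1 h2, bt_nbc Q x₀ hbit (h (mem_insert_self a S))]
    by_cases hav : a = v
    · subst hav
      rw [if_pos rfl, if_neg ha, if_pos (mem_insert_self a S), add_zero]
    · rw [if_neg hav, add_zero]
      by_cases hv : v ∈ S
      · rw [if_pos hv, if_pos (mem_insert_of_mem hv)]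
      · rw [if_neg hv, if_neg (fun h => (mem_insert.1 h).elim (fun h' => hav h'.symm) hv)]

variable (bit)

/-- the vertex with the bits `0` of the cube spanned by `τ` at `c` -/
private noncomputable def nm (c : Q.Cover x₀) (τ : Finset V) : Q.Cover x₀ :=
  mv Q x₀ c (τ.filter fun v => bt Q x₀ bit c v ≠ 0)

/-- the cell -/
private noncomputable def ce (c : Q.Cover x₀) (τ : Finset V) : Q.Cover x₀ × Finset V :=
  (nm Q x₀ bit c τ, τ)

variable {bit}

private theorem nm_bit (hbit : IsBit Q bit) {c : Q.Cover x₀} {τ : Finset V}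
    (hτ : Q.graph.IsClique (τ : Set V)) (hL : τ ⊆ Q.lab (Q.proj x₀ c)) {v : V} (hv : v ∈ τ) :
    bt Q x₀ bit (nm Q x₀ bit c τ) v = 0 := by
  unfold nm
  rw [bt_mv Q x₀ hbit (sub_cl hτ (filter_subset _ _)) ((filter_subset _ _).trans hL)]
  by_cases h : bt Q x₀ bit c v = 0
  · have h1 : v ∉ τ.filter fun u => bt Q x₀ bit c u ≠ 0 := by
      rw [mem_filter]
      exact fun h' => h'.2 h
    rw [h, if_neg h1, add_zero]
  · rw [if_pos (mem_filter.2 ⟨hv, h⟩), z2 h]
    decide

private theorem lab_mv {S : Finset V} {v : V}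
    (hS : Q.graph.IsClique ((insert v S : Finset V) : Set V)) (c : Q.Cover x₀) :
    v ∈ Q.lab (Q.proj x₀ (mv Q x₀ c S)) ↔ v ∈ Q.lab (Q.proj x₀ c) := by
  induction S using Finset.induction_on generalizing c with
  | empty => rw [mv_empty]
  | insert a S ha ih =>
    have h0 : Q.graph.IsClique ((insert a S : Finset V) : Set V) :=
      sub_cl hS (subset_insert v (insert a S))
    have h1 : Q.graph.IsClique ((insert v S : Finset V) : Set V) :=
      sub_cl hS (insert_subset_insert v (subset_insert a S))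
    rw [mv_insert Q x₀ ha h0, ih h1]
    by_cases hav : a = v
    · subst hav
      exact lab_self Q x₀ c a
    · refine lab_step Q x₀ c (hS ?_ ?_ hav)
      · exact_mod_cast mem_insert_of_mem (mem_insert_self a S)
      · exact_mod_cast mem_insert_self v _

private theorem bd_ce (hbit : IsBit Q bit) (c : Q.Cover x₀) {τ : Finset V}
    (hτ : Q.graph.IsClique (τ : Set V)) (hL : τ ⊆ Q.lab (Q.proj x₀ c)) :
    bdD Q x₀ (ce Q x₀ bit c τ) = ∑ v ∈ τ, (Finsupp.single (ce Q x₀ bit c (τ.erase v)) 1 +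
      Finsupp.single (ce Q x₀ bit (Q.nbc x₀ v c) (τ.erase v)) 1) := by
  unfold bdD
  refine sum_congr rfl fun v hv => ?_
  have h1 : (τ.erase v).filter (fun u => bt Q x₀ bit c u ≠ 0) =
      (τ.filter fun u => bt Q x₀ bit c u ≠ 0).erase v := by
    ext u
    simp only [mem_filter, mem_erase]
    tauto
  have h2 : (τ.erase v).filter (fun u => bt Q x₀ bit (Q.nbc x₀ v c) u ≠ 0) =
      (τ.filter fun u => bt Q x₀ bit c u ≠ 0).erase v := by
    ext u
    simp only [mem_filter, mem_erase]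
    constructor
    · rintro ⟨⟨h3, h4⟩, h5⟩
      rw [bt_nbc Q x₀ hbit (hL hv), if_neg (Ne.symm h3), add_zero] at h5
      exact ⟨h3, h4, h5⟩
    · rintro ⟨h3, h4, h5⟩
      refine ⟨⟨h3, h4⟩, ?_⟩
      rw [bt_nbc Q x₀ hbit (hL hv), if_neg (Ne.symm h3), add_zero]
      exact h5
  obtain ⟨S, hS⟩ : ∃ S, S = τ.filter fun u => bt Q x₀ bit c u ≠ 0 := ⟨_, rfl⟩
  have hSτ : S ⊆ τ := by
    rw [hS]
    exact filter_subset _ _
  have hvS : Q.graph.IsClique ((insert v S : Finset V) : Set V) := sub_cl hτ (insert_subset hv hSτ)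
  have h3 : (ce Q x₀ bit c τ).1 = mv Q x₀ c S := by rw [hS]; rfl
  have h4 : (ce Q x₀ bit c τ).2 = τ := rfl
  have h5 : ce Q x₀ bit c (τ.erase v) = (mv Q x₀ c (S.erase v), τ.erase v) := by
    unfold ce nm
    rw [h1, ← hS]
  have h6 : ce Q x₀ bit (Q.nbc x₀ v c) (τ.erase v) =
      (mv Q x₀ (Q.nbc x₀ v c) (S.erase v), τ.erase v) := by
    unfold ce nm
    rw [h2, ← hS]
  rw [h3, h4, h5, h6, mv_nbc Q x₀ hvS]
  by_cases hv' : v ∈ S
  · have h8 : Q.graph.IsClique ((insert v (S.erase v) : Finset V) : Set V) := by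
      rw [insert_erase hv']
      exact sub_cl hvS (subset_insert v S)
    have e0 : ∀ c : Q.Cover x₀, mv Q x₀ c S = mv Q x₀ (Q.nbc x₀ v c) (S.erase v) := by
      intro c
      have h9 := mv_insert Q x₀ (notMem_erase v S) h8 c
      rwa [insert_erase hv'] at h9
    rw [e0 c, e0 (Q.nbc x₀ v c), nbc_nbc, add_comm]
  · rw [erase_eq_of_notMem hv']

/-! ### the longest vertex of a cell -/

open Classical in
/-- the longest vertex of a cell -/
private noncomputable def tp (e : Q.Cover x₀ × Finset V) : Q.Cover x₀ :=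
  mv Q x₀ e.1 (e.2.filter fun v => ¬ RD Q.graph (ex Q x₀ e.1) v)

private theorem tp_rd {e : Q.Cover x₀ × Finset V} (he : Q.graph.IsClique (e.2 : Set V))
    (hL : e.2 ⊆ Q.lab (Q.proj x₀ e.1)) {v : V} (hv : v ∈ e.2) :
    RD Q.graph (ex Q x₀ (tp Q x₀ e)) v := by
  classical
  unfold tp
  rw [ex_mv Q x₀ (sub_cl he (filter_subset _ _)) ((filter_subset _ _).trans hL),
    rd_gW (sub_cl he (insert_subset hv (filter_subset _ _))), mem_filter]
  tauto

private theorem ce_tp (hbit : IsBit Q bit) {e : Q.Cover x₀ × Finset V}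
    (he : Q.graph.IsClique (e.2 : Set V)) (hL : e.2 ⊆ Q.lab (Q.proj x₀ e.1))
    (hb : ∀ v ∈ e.2, bt Q x₀ bit e.1 v = 0) : ce Q x₀ bit (tp Q x₀ e) e.2 = e := by
  classical
  have h1 : (e.2.filter fun v => bt Q x₀ bit (tp Q x₀ e) v ≠ 0) =
      e.2.filter fun v => ¬ RD Q.graph (ex Q x₀ e.1) v := by
    ext v
    rw [mem_filter, mem_filter]
    refine and_congr_right fun hv => ?_
    unfold tp
    rw [bt_mv Q x₀ hbit (sub_cl he (filter_subset _ _)) ((filter_subset _ _).trans hL), hb v hv,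
      zero_add]
    by_cases h : RD Q.graph (ex Q x₀ e.1) v
    · have h2 : v ∉ e.2.filter fun u => ¬ RD Q.graph (ex Q x₀ e.1) u := by
        rw [mem_filter]
        exact fun h' => h'.2 h
      rw [if_neg h2]
      simp [h]
    · rw [if_pos (mem_filter.2 ⟨hv, h⟩)]
      simp [h]
  refine Prod.ext ?_ rfl
  show nm Q x₀ bit (tp Q x₀ e) e.2 = e.1
  unfold nm
  rw [h1]
  show mv Q x₀ (mv Q x₀ e.1 (e.2.filter fun v => ¬ RD Q.graph (ex Q x₀ e.1) v))
    (e.2.filter fun v => ¬ RD Q.graph (ex Q x₀ e.1) v) = e.1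
  exact mv_mv Q x₀ (sub_cl he (filter_subset _ _)) e.1

private theorem tp_ce {c : Q.Cover x₀} {τ : Finset V} (hτ : Q.graph.IsClique (τ : Set V))
    (hd : ∀ v ∈ τ, RD Q.graph (ex Q x₀ c) v) : tp Q x₀ (ce Q x₀ bit c τ) = c := by
  classical
  have hL := rd_sub Q x₀ hd
  unfold tp
  have h1 : (ce Q x₀ bit c τ).1 = nm Q x₀ bit c τ := rfl
  have h2 : (ce Q x₀ bit c τ).2 = τ := rfl
  rw [h1, h2]
  have h3 : (τ.filter fun v => ¬ RD Q.graph (ex Q x₀ (nm Q x₀ bit c τ)) v) =
      τ.filter fun v => bt Q x₀ bit c v ≠ 0 := by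
    ext v
    rw [mem_filter, mem_filter]
    refine and_congr_right fun hv => ?_
    unfold nm
    rw [ex_mv Q x₀ (sub_cl hτ (filter_subset _ _)) ((filter_subset _ _).trans hL),
      rd_gW (sub_cl hτ (insert_subset hv (filter_subset _ _))), mem_filter]
    have := hd v hv
    tauto
  rw [h3]
  unfold nm
  exact mv_mv Q x₀ (sub_cl hτ (filter_subset _ _)) c

private theorem rd_cl {G : SimpleGraph V} {w : RGrp G} {τ : Finset V} (hd : ∀ v ∈ τ, RD G w v) :
    G.IsClique (τ : Set V) := by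
  intro u hu v hv huv
  exact adj_of_rd huv (hd u (mem_coe.1 hu)) (hd v (mem_coe.1 hv))

/-! ### the contraction -/

variable (bit)

open Classical in
/-- the contraction on the cell with the longest vertex `c` -/
private noncomputable def hh (c : Q.Cover x₀) (σ : Finset V) : NQ Q x₀ :=
  if h : ex Q x₀ c = 1 then 0 else
    if (exists_rd h).choose ∈ σ then 0 else
      Finsupp.single (some (ce Q x₀ bit c (insert (exists_rd h).choose σ))) 1

/-- the contraction -/
private noncomputable def h1 : Option (Q.Cover x₀ × Finset V) → NQ Q x₀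
  | none => Finsupp.single (some (ce Q x₀ bit (bp Q x₀) ∅)) 1
  | some e => hh Q x₀ bit (tp Q x₀ e) e.2

variable {bit}

/-- the rank of a cell -/
private noncomputable def rk : Option (Q.Cover x₀ × Finset V) → ℕ
  | none => 0
  | some e => ln Q.graph (ex Q x₀ (tp Q x₀ e))

private theorem hh_one {c : Q.Cover x₀} (hc : ex Q x₀ c = 1) (σ : Finset V) :
    hh Q x₀ bit c σ = 0 := by
  unfold hh
  rw [dif_pos hc]

private theorem hh_eq {c : Q.Cover x₀} (hc : ex Q x₀ c ≠ 1) : ∃ v, RD Q.graph (ex Q x₀ c) v ∧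
    ∀ σ, hh Q x₀ bit c σ =
      if v ∈ σ then 0 else Finsupp.single (some (ce Q x₀ bit c (insert v σ))) 1 := by
  classical
  refine ⟨(exists_rd hc).choose, (exists_rd hc).choose_spec, fun σ => ?_⟩
  unfold hh
  rw [dif_neg hc]

private theorem h1_ce {c : Q.Cover x₀} {σ : Finset V}
    (hd : ∀ v ∈ σ, RD Q.graph (ex Q x₀ c) v) :
    h1 Q x₀ bit (some (ce Q x₀ bit c σ)) = hh Q x₀ bit c σ := by
  show hh Q x₀ bit (tp Q x₀ (ce Q x₀ bit c σ)) σ = hh Q x₀ bit c σ
  rw [tp_ce Q x₀ (rd_cl hd) hd]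

private theorem rk_ce {c : Q.Cover x₀} {σ : Finset V}
    (hd : ∀ v ∈ σ, RD Q.graph (ex Q x₀ c) v) :
    rk Q x₀ (some (ce Q x₀ bit c σ)) = ln Q.graph (ex Q x₀ c) := by
  show ln Q.graph (ex Q x₀ (tp Q x₀ (ce Q x₀ bit c σ))) = ln Q.graph (ex Q x₀ c)
  rw [tp_ce Q x₀ (rd_cl hd) hd]

/-- the chains on the cells of rank less than `n` -/
private noncomputable def Fl (n : ℕ) : Submodule (ZMod 2) (NQ Q x₀) :=
  Finsupp.supported (ZMod 2) (ZMod 2) {b | rk Q x₀ b < n}

private theorem single_Fl {n : ℕ} {b : Option (Q.Cover x₀ × Finset V)}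
    (h : rk Q x₀ b < n) : (Finsupp.single b 1 : NQ Q x₀) ∈ Fl Q x₀ n :=
  Finsupp.single_mem_supported _ _ h

private theorem ce_Fl {n : ℕ} {c : Q.Cover x₀} {σ : Finset V}
    (hd : ∀ v ∈ σ, RD Q.graph (ex Q x₀ c) v) (h : ln Q.graph (ex Q x₀ c) < n) :
    (Finsupp.single (some (ce Q x₀ bit c σ)) 1 : NQ Q x₀) ∈ Fl Q x₀ n :=
  single_Fl Q x₀ (by rw [rk_ce Q x₀ hd]; exact h)

private theorem hh_Fl {n : ℕ} {c : Q.Cover x₀} {σ : Finset V}
    (hd : ∀ v ∈ σ, RD Q.graph (ex Q x₀ c) v) (h : ln Q.graph (ex Q x₀ c) < n) :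
    hh Q x₀ bit c σ ∈ Fl Q x₀ n := by
  classical
  by_cases hw : ex Q x₀ c = 1
  · rw [hh_one Q x₀ hw]
    exact Submodule.zero_mem _
  · obtain ⟨v, hv, hv'⟩ := hh_eq (bit := bit) Q x₀ hw
    rw [hv']
    by_cases h2 : v ∈ σ
    · rw [if_pos h2]
      exact Submodule.zero_mem _
    · rw [if_neg h2]
      exact ce_Fl Q x₀ (fun u hu => (mem_insert.1 hu).elim (fun e => e ▸ hv) (hd u)) h

private theorem dQ1_ce (hbit : IsBit Q bit) {c : Q.Cover x₀} {σ : Finset V}
    (hσ : Q.graph.IsClique (σ : Set V)) (hL : σ ⊆ Q.lab (Q.proj x₀ c))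
    (hne : σ ≠ ∅) : dQ1 Q x₀ (some (ce Q x₀ bit c σ)) =
      ∑ v ∈ σ, (Finsupp.single (some (ce Q x₀ bit c (σ.erase v))) 1 +
        Finsupp.single (some (ce Q x₀ bit (Q.nbc x₀ v c) (σ.erase v))) 1) := by
  have h0 : (ce Q x₀ bit c σ).2 = σ := rfl
  show (if (ce Q x₀ bit c σ).2 = ∅ then Finsupp.single none 1 else
    (bdD Q x₀ (ce Q x₀ bit c σ)).mapDomain some) = _
  rw [h0, if_neg hne, bd_ce Q x₀ hbit c hσ hL]
  rw [show (Finsupp.mapDomain some (∑ v ∈ σ, (Finsupp.single (ce Q x₀ bit c (σ.erase v))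
      (1 : ZMod 2) + Finsupp.single (ce Q x₀ bit (Q.nbc x₀ v c) (σ.erase v)) 1))) =
      Finsupp.lmapDomain (ZMod 2) (ZMod 2) some (∑ v ∈ σ, (Finsupp.single
        (ce Q x₀ bit c (σ.erase v)) (1 : ZMod 2) +
        Finsupp.single (ce Q x₀ bit (Q.nbc x₀ v c) (σ.erase v)) 1)) from rfl, map_sum]
  refine sum_congr rfl fun v _ => ?_
  rw [map_add, Finsupp.lmapDomain_apply, Finsupp.lmapDomain_apply, Finsupp.mapDomain_single,
    Finsupp.mapDomain_single]

private theorem dQ_single (a : Option (Q.Cover x₀ × Finset V)) :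
    dQ Q x₀ (Finsupp.single a 1) = dQ1 Q x₀ a := lin_single _ _

private theorem rd_step {c : Q.Cover x₀} {σ : Finset V}
    (hd : ∀ v ∈ σ, RD Q.graph (ex Q x₀ c) v) {u : V} (hu : u ∈ σ) :
    ∀ v ∈ σ.erase u, RD Q.graph (ex Q x₀ (Q.nbc x₀ u c)) v := by
  intro v hv
  obtain ⟨h1, h2⟩ := mem_erase.1 hv
  rw [ex_nbc Q x₀ c (rd_lab Q x₀ (hd u hu))]
  exact (rd_adj (adj_of_rd (Ne.symm h1) (hd u hu) (hd v h2))).2 (hd v h2)

private theorem ln_step {c : Q.Cover x₀} {u : V} (hu : RD Q.graph (ex Q x₀ c) u) :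
    ln Q.graph (ex Q x₀ (Q.nbc x₀ u c)) < ln Q.graph (ex Q x₀ c) := by
  rw [ex_nbc Q x₀ c (rd_lab Q x₀ hu)]
  exact ln_rd hu

private theorem low (hbit : IsBit Q bit) {c : Q.Cover x₀} {σ : Finset V}
    (hd : ∀ v ∈ σ, RD Q.graph (ex Q x₀ c) v) (hw : ex Q x₀ c ≠ 1) :
    Finsupp.single (some (ce Q x₀ bit c σ)) 1 +
      dQ Q x₀ (h1 Q x₀ bit (some (ce Q x₀ bit c σ))) +
      lin (h1 Q x₀ bit) (dQ1 Q x₀ (some (ce Q x₀ bit c σ))) ∈
      Fl Q x₀ (ln Q.graph (ex Q x₀ c)) := by
  classical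
  obtain ⟨v, hv, hv'⟩ := hh_eq (bit := bit) Q x₀ hw
  have hlin : σ ≠ ∅ → lin (h1 Q x₀ bit) (dQ1 Q x₀ (some (ce Q x₀ bit c σ))) =
      ∑ u ∈ σ, hh Q x₀ bit c (σ.erase u) +
        ∑ u ∈ σ, hh Q x₀ bit (Q.nbc x₀ u c) (σ.erase u) := by
    intro hne
    rw [dQ1_ce Q x₀ hbit (rd_cl hd) (rd_sub Q x₀ hd) hne, map_sum, ← sum_add_distrib]
    refine sum_congr rfl fun u hu => ?_
    rw [map_add, lin_single, lin_single,
      h1_ce Q x₀ (fun v hv => hd v (mem_of_mem_erase hv)), h1_ce Q x₀ (rd_step Q x₀ hd hu)]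
  have hlow : ∑ u ∈ σ, hh Q x₀ bit (Q.nbc x₀ u c) (σ.erase u) ∈
      Fl Q x₀ (ln Q.graph (ex Q x₀ c)) :=
    Submodule.sum_mem _ fun u hu => hh_Fl Q x₀ (rd_step Q x₀ hd hu) (ln_step Q x₀ (hd u hu))
  rw [h1_ce Q x₀ hd]
  by_cases h2 : v ∈ σ
  · have hne : σ ≠ ∅ := ne_empty_of_mem h2
    have h3 : ∑ u ∈ σ, hh Q x₀ bit c (σ.erase u) =
        Finsupp.single (some (ce Q x₀ bit c σ)) 1 := by
      rw [sum_eq_single v]
      · rw [hv', if_neg (notMem_erase v σ), insert_erase h2]
      · intro u hu huv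
        rw [hv', if_pos (mem_erase.2 ⟨Ne.symm huv, h2⟩)]
      · exact fun h => absurd h2 h
    rw [hv', if_pos h2, map_zero, add_zero, hlin hne, h3, ← add_assoc, chain_add_self, zero_add]
    exact hlow
  · have hd' : ∀ u ∈ insert v σ, RD Q.graph (ex Q x₀ c) u := fun u hu =>
      (mem_insert.1 hu).elim (fun e => e ▸ hv) (hd u)
    have h3 : dQ Q x₀ (Finsupp.single (some (ce Q x₀ bit c (insert v σ))) 1) =
        (Finsupp.single (some (ce Q x₀ bit c σ)) 1 +
          ∑ u ∈ σ, Finsupp.single (some (ce Q x₀ bit c (insert v (σ.erase u)))) 1) +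
        ∑ u ∈ insert v σ,
          Finsupp.single (some (ce Q x₀ bit (Q.nbc x₀ u c) ((insert v σ).erase u))) 1 := by
      rw [dQ_single, dQ1_ce Q x₀ hbit (rd_cl hd') (rd_sub Q x₀ hd') (insert_ne_empty v σ),
        sum_add_distrib]
      congr 1
      rw [sum_insert h2, erase_insert h2]
      congr 1
      refine sum_congr rfl fun u hu => ?_
      rw [erase_insert_of_ne]
      rintro rfl
      exact h2 hu
    have h4 : ∑ u ∈ insert v σ,
        Finsupp.single (some (ce Q x₀ bit (Q.nbc x₀ u c) ((insert v σ).erase u)))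
        (1 : ZMod 2) ∈ Fl Q x₀ (ln Q.graph (ex Q x₀ c)) :=
      Submodule.sum_mem _ fun u hu => ce_Fl Q x₀ (rd_step Q x₀ hd' hu) (ln_step Q x₀ (hd' u hu))
    rw [hv', if_neg h2, h3]
    obtain ⟨A, hA⟩ : ∃ A : NQ Q x₀, A = Finsupp.single (some (ce Q x₀ bit c σ)) 1 := ⟨_, rfl⟩
    obtain ⟨B, hB⟩ : ∃ B : NQ Q x₀,
        B = ∑ u ∈ σ, Finsupp.single (some (ce Q x₀ bit c (insert v (σ.erase u)))) 1 := ⟨_, rfl⟩
    rw [← hA, ← hB]
    by_cases hne : σ = ∅
    · subst hne
      rw [sum_empty] at hB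
      have h5 : lin (h1 Q x₀ bit) (dQ1 Q x₀ (some (ce Q x₀ bit c ∅))) =
          Finsupp.single (some (ce Q x₀ bit (bp Q x₀) ∅)) 1 := by
        have h6 : dQ1 Q x₀ (some (ce Q x₀ bit c ∅)) = Finsupp.single none 1 :=
          dQ1_empty Q x₀ rfl
        rw [h6, lin_single]
        rfl
      rw [h5, hB, add_zero, ← add_assoc, chain_add_self, zero_add]
      refine Submodule.add_mem _ h4 (ce_Fl Q x₀ (fun u hu => absurd hu (notMem_empty u)) ?_)
      have h7 := ln_rd hv
      rw [ex_bp, ln_one]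
      omega
    · have h5 : ∑ u ∈ σ, hh Q x₀ bit c (σ.erase u) = B := by
        rw [hB]
        refine sum_congr rfl fun u hu => ?_
        rw [hv', if_neg (fun h => h2 (mem_of_mem_erase h))]
      rw [hlin hne, h5]
      obtain ⟨C, hC⟩ : ∃ C : NQ Q x₀, C = ∑ u ∈ insert v σ,
        Finsupp.single (some (ce Q x₀ bit (Q.nbc x₀ u c) ((insert v σ).erase u)))
        (1 : ZMod 2) := ⟨_, rfl⟩
      obtain ⟨E, hE⟩ : ∃ E : NQ Q x₀, E = ∑ u ∈ σ, hh Q x₀ bit (Q.nbc x₀ u c) (σ.erase u) :=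
        ⟨_, rfl⟩
      rw [← hC] at h4 ⊢
      rw [← hE] at hlow ⊢
      have h6 : A + (A + B + C) + (B + E) = C + E := by
        have hA2 := chain_add_self A
        have hB2 := chain_add_self B
        calc A + (A + B + C) + (B + E) = (A + A) + (B + B) + (C + E) := by abel
          _ = C + E := by rw [hA2, hB2, zero_add, zero_add]
      rw [h6]
      exact Submodule.add_mem _ h4 hlow

variable (bit)

/-- the cells of the augmented complex -/
private def Ok : ℕ → Set (Option (Q.Cover x₀ × Finset V))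
  | 0 => {none}
  | i + 1 => some '' Cell Q x₀ bit i

private theorem MQ_eq (i : ℕ) :
    MQ Q x₀ bit i = Finsupp.supported (ZMod 2) (ZMod 2) (Ok Q x₀ bit i) := by
  cases i <;> rfl

variable {bit}

private theorem ce_cell (hbit : IsBit Q bit) {c : Q.Cover x₀} {σ : Finset V}
    (hσ : Q.graph.IsClique (σ : Set V)) (hL : σ ⊆ Q.lab (Q.proj x₀ c)) {i : ℕ}
    (hi : σ.card = i) : ce Q x₀ bit c σ ∈ Cell Q x₀ bit i := by
  refine ⟨fun v hv => ?_, hσ, hi, fun v hv => nm_bit Q x₀ hbit hσ hL hv⟩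
  have hv' : v ∈ σ := hv
  exact (lab_mv Q x₀ (sub_cl hσ (insert_subset hv' (filter_subset _ _))) c).2 (hL hv')

private theorem cell_ce (hbit : IsBit Q bit) {e : Q.Cover x₀ × Finset V} {i : ℕ}
    (he : e ∈ Cell Q x₀ bit i) :
    e = ce Q x₀ bit (tp Q x₀ e) e.2 ∧
      (∀ v ∈ e.2, RD Q.graph (ex Q x₀ (tp Q x₀ e)) v) ∧ e.2.card = i := by
  obtain ⟨h0, h1, h2, h3⟩ := he
  exact ⟨(ce_tp Q x₀ hbit h1 h0 h3).symm, fun v hv => tp_rd Q x₀ h1 h0 hv, h2⟩

/-- the contraction shifts the degree -/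
private theorem h1_mem (hbit : IsBit Q bit) {i : ℕ} {a : Option (Q.Cover x₀ × Finset V)}
    (ha : a ∈ Ok Q x₀ bit i) : h1 Q x₀ bit a ∈ MQ Q x₀ bit (i + 1) := by
  classical
  rw [MQ_eq]
  cases i with
  | zero =>
    have h2 : a = none := ha
    subst h2
    refine Finsupp.single_mem_supported _ _ ⟨ce Q x₀ bit (bp Q x₀) ∅,
      ce_cell Q x₀ hbit ?_ (empty_subset _) card_empty, rfl⟩
    simp
  | succ i =>
    obtain ⟨e, he, rfl⟩ := ha
    obtain ⟨-, h2, h3⟩ := cell_ce Q x₀ hbit he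
    show hh Q x₀ bit (tp Q x₀ e) e.2 ∈ _
    by_cases hw : ex Q x₀ (tp Q x₀ e) = 1
    · rw [hh_one Q x₀ hw]
      exact Submodule.zero_mem _
    · obtain ⟨v, hv, hv'⟩ := hh_eq (bit := bit) Q x₀ hw
      rw [hv']
      by_cases h4 : v ∈ e.2
      · rw [if_pos h4]
        exact Submodule.zero_mem _
      · have h5 : ∀ u ∈ insert v e.2, RD Q.graph (ex Q x₀ (tp Q x₀ e)) u := fun u hu =>
          (mem_insert.1 hu).elim (fun e => e ▸ hv) (h2 u)
        rw [if_neg h4]
        refine Finsupp.single_mem_supported _ _ ⟨_, ce_cell Q x₀ hbit (rd_cl h5)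
          (rd_sub Q x₀ h5) ?_, rfl⟩
        rw [card_insert_of_notMem h4, h3]

/-- the boundary of a cell -/
private theorem dQ1_mem (hbit : IsBit Q bit) {i : ℕ} {a : Option (Q.Cover x₀ × Finset V)}
    (ha : a ∈ Ok Q x₀ bit (i + 1)) : dQ1 Q x₀ a ∈ MQ Q x₀ bit i := by
  classical
  obtain ⟨e, he, rfl⟩ := ha
  show (if e.2 = ∅ then Finsupp.single none 1 else (bdD Q x₀ e).mapDomain some) ∈ _
  rw [MQ_eq]
  cases i with
  | zero =>
    rw [if_pos (card_eq_zero.1 he.2.2.1)]
    exact Finsupp.single_mem_supported _ _ rfl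
  | succ i =>
    have h1 : e.2 ≠ ∅ := by
      intro h
      have h2 := he.2.2.1
      rw [h, card_empty] at h2
      omega
    rw [if_neg h1, Finsupp.mem_supported]
    intro b hb
    obtain ⟨c, hc, rfl⟩ := Finset.mem_image.1 (Finsupp.mapDomain_support hb)
    exact ⟨c, bdD_cell hbit he c (Finsupp.mem_support_iff.1 hc), rfl⟩

private theorem dQ1_dQ1 (hbit : IsBit Q bit) {i : ℕ} {a : Option (Q.Cover x₀ × Finset V)}
    (ha : a ∈ Ok Q x₀ bit i) : dQ Q x₀ (dQ1 Q x₀ a) = 0 := by
  cases i with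
  | zero =>
    have h2 : a = none := ha
    subst h2
    exact map_zero _
  | succ i =>
    obtain ⟨e, he, rfl⟩ := ha
    show dQ Q x₀ (if e.2 = ∅ then Finsupp.single none 1 else (bdD Q x₀ e).mapDomain some) = 0
    by_cases h1 : e.2 = ∅
    · rw [if_pos h1, dQ_single]
      rfl
    · rw [if_neg h1]
      have h2 : dQ Q x₀ ((bdD Q x₀ e).mapDomain some) =
          lin (fun c => dQ1 Q x₀ (some c)) (bdD Q x₀ e) := by
        unfold dQ lin
        rw [Finsupp.linearCombination_mapDomain]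
        rfl
      rw [h2]
      rcases Nat.lt_or_ge 1 e.2.card with h3 | h3
      · have h4 : ∀ c, bdD Q x₀ e c ≠ 0 → (bdD Q x₀ c).mapDomain some = dQ1 Q x₀ (some c) := by
          intro c hc
          have h5 : e ∈ Cell Q x₀ bit (e.2.card - 1 + 1) := by
            have h6 := he.2.2.1
            have h7 : e.2.card - 1 + 1 = i := by omega
            rw [h7]
            exact he
          have h6 := (bdD_cell hbit h5 c hc).2.2.1
          have h7 : c.2 ≠ ∅ := by
            intro h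
            rw [h, card_empty] at h6
            omega
          show _ = if c.2 = ∅ then Finsupp.single none 1 else (bdD Q x₀ c).mapDomain some
          rw [if_neg h7]
        rw [← lin_congr (f' := fun c => (bdD Q x₀ c).mapDomain some) h4]
        have h5 := map_lin (Finsupp.lmapDomain (ZMod 2) (ZMod 2)
          (some : _ → Option (Q.Cover x₀ × Finset V))) (f := bdD Q x₀) (x := bdD Q x₀ e)
        rw [bdD_bdD he, map_zero] at h5
        exact h5.symm
      · have h4 : e.2.card = 1 := by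
          have := card_pos.2 (nonempty_iff_ne_empty.2 h1)
          omega
        obtain ⟨v, hv⟩ := card_eq_one.1 h4
        unfold bdD
        rw [hv, sum_singleton, map_add, lin_single, lin_single]
        have h5 : ({v} : Finset V).erase v = ∅ := by simp
        have h6 : ∀ c : Q.Cover x₀, dQ1 Q x₀ (some (c, ({v} : Finset V).erase v)) =
            Finsupp.single none 1 := fun c => if_pos h5
        rw [h6, h6]
        exact chain_add_self _

private theorem lin_Ok {i : ℕ} {x : NQ Q x₀} (hx : x ∈ MQ Q x₀ bit i) :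
    ∀ a, x a ≠ 0 → a ∈ Ok Q x₀ bit i := by
  intro a ha
  rw [MQ_eq] at hx
  exact (Finsupp.mem_supported _ _).1 hx (Finsupp.mem_support_iff.2 ha)

/-- `dQ` squares to zero -/
theorem dQ_dQ (hbit : IsBit Q bit) {i : ℕ} {x : NQ Q x₀} (hx : x ∈ MQ Q x₀ bit i) :
    dQ Q x₀ (dQ Q x₀ x) = 0 := by
  have h1 : dQ Q x₀ (dQ Q x₀ x) = lin (fun a => dQ Q x₀ (dQ1 Q x₀ a)) x :=
    map_lin (dQ Q x₀) (f := dQ1 Q x₀) (x := x)
  rw [h1, lin_congr (f' := fun a => dQ Q x₀ (dQ1 Q x₀ a)) (f := fun _ => 0)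
    (fun a ha => dQ1_dQ1 Q x₀ hbit (lin_Ok Q x₀ hx a ha))]
  unfold lin
  simp [Finsupp.linearCombination_apply]

/-- `dQ` lowers the degree -/
theorem dQ_mem (hbit : IsBit Q bit) {i : ℕ} {x : NQ Q x₀} (hx : x ∈ MQ Q x₀ bit (i + 1)) :
    dQ Q x₀ x ∈ MQ Q x₀ bit i :=
  lin_mem fun a ha => dQ1_mem Q x₀ hbit (lin_Ok Q x₀ hx a ha)

/-- the operator `1 + d h + h d` lowers the rank -/
private theorem low_all (hbit : IsBit Q bit) {i : ℕ} {a : Option (Q.Cover x₀ × Finset V)}
    (ha : a ∈ Ok Q x₀ bit i) :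
    Finsupp.single a 1 + dQ Q x₀ (h1 Q x₀ bit a) + lin (h1 Q x₀ bit) (dQ1 Q x₀ a) ∈
      Fl Q x₀ (rk Q x₀ a) := by
  cases i with
  | zero =>
    have h2 : a = none := ha
    subst h2
    have h3 : dQ Q x₀ (h1 Q x₀ bit none) = Finsupp.single none 1 := by
      show dQ Q x₀ (Finsupp.single (some (ce Q x₀ bit (bp Q x₀) ∅)) 1) = _
      rw [dQ_single]
      exact dQ1_empty Q x₀ rfl
    have h4 : lin (h1 Q x₀ bit) (dQ1 Q x₀ none) = 0 := map_zero _
    rw [h3, h4, add_zero, chain_add_self]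
    exact Submodule.zero_mem _
  | succ i =>
    obtain ⟨e, he, rfl⟩ := ha
    obtain ⟨h2, h3, h4⟩ := cell_ce Q x₀ hbit he
    show _ ∈ Fl Q x₀ (ln Q.graph (ex Q x₀ (tp Q x₀ e)))
    by_cases hw : ex Q x₀ (tp Q x₀ e) = 1
    · have h5 : e.2 = ∅ := by
        by_contra h
        obtain ⟨v, hv⟩ := nonempty_iff_ne_empty.2 h
        have h6 := h3 v hv
        rw [hw] at h6
        exact not_rd_one v h6
      have h6 : h1 Q x₀ bit (some e) = 0 := by
        show hh Q x₀ bit (tp Q x₀ e) e.2 = 0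
        rw [hh_one Q x₀ hw]
      have h7 : lin (h1 Q x₀ bit) (dQ1 Q x₀ (some e)) = Finsupp.single (some e) 1 := by
        have h8 : dQ1 Q x₀ (some e) = Finsupp.single none 1 := if_pos h5
        have h9 : tp Q x₀ e = bp Q x₀ := ex_inj Q x₀ (hw.trans (ex_bp Q x₀).symm)
        rw [h8, lin_single]
        show Finsupp.single (some (ce Q x₀ bit (bp Q x₀) ∅)) 1 = _
        rw [h9, h5] at h2
        rw [← h2]
      rw [h6, map_zero, add_zero, h7, chain_add_self]
      exact Submodule.zero_mem _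
    · have h5 := low Q x₀ hbit h3 hw
      rw [← h2] at h5
      exact h5

/-- **The universal cover of a special cube complex is acyclic.** -/
theorem dQ_exact (hbit : IsBit Q bit) (i : ℕ) (x : NQ Q x₀) (hx : x ∈ MQ Q x₀ bit i)
    (hd : dQ Q x₀ x = 0) : ∃ y ∈ MQ Q x₀ bit (i + 1), dQ Q x₀ y = x := by
  obtain ⟨n, hn⟩ : ∃ n, x ∈ Fl Q x₀ n := by
    refine ⟨x.support.sup (rk Q x₀) + 1, (Finsupp.mem_supported _ _).2 fun a ha => ?_⟩
    show rk Q x₀ a < _
    exact Nat.lt_succ_of_le (le_sup (f := rk Q x₀) ha)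
  induction n generalizing x with
  | zero =>
    have h0 : x = 0 := by
      ext a
      by_contra h
      have h2 := (Finsupp.mem_supported _ _).1 hn (Finsupp.mem_support_iff.2 h)
      exact absurd h2 (Nat.not_lt_zero _)
    exact ⟨0, Submodule.zero_mem _, by rw [h0, map_zero]⟩
  | succ n ih =>
    obtain ⟨y, hy, hy'⟩ : ∃ y, y ∈ MQ Q x₀ bit (i + 1) ∧ y = lin (h1 Q x₀ bit) x :=
      ⟨_, lin_mem fun a ha => h1_mem Q x₀ hbit (lin_Ok Q x₀ hx a ha), rfl⟩
    have h2 : x + dQ Q x₀ y = lin (fun a => Finsupp.single a 1 + dQ Q x₀ (h1 Q x₀ bit a) +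
        lin (h1 Q x₀ bit) (dQ1 Q x₀ a)) x := by
      rw [lin_add, lin_add, lin_lin (f := h1 Q x₀ bit) (e := dQ1 Q x₀),
        ← map_lin (dQ Q x₀) (f := h1 Q x₀ bit), ← hy']
      have h3 : lin (dQ1 Q x₀) x = 0 := hd
      have h4 : lin (fun a : Option (Q.Cover x₀ × Finset V) =>
          (Finsupp.single a 1 : NQ Q x₀)) x = x := by
        unfold lin
        rw [Finsupp.linearCombination_apply]
        simp
      rw [h3, h4, map_zero, add_zero]
    have h3 : x + dQ Q x₀ y ∈ Fl Q x₀ n := by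
      rw [h2]
      refine lin_mem fun a ha => ?_
      have h4 := low_all Q x₀ hbit (lin_Ok Q x₀ hx a ha)
      have h5 : rk Q x₀ a < n + 1 :=
        (Finsupp.mem_supported _ _).1 hn (Finsupp.mem_support_iff.2 ha)
      exact Finsupp.supported_mono (fun b (hb : rk Q x₀ b < rk Q x₀ a) => lt_of_lt_of_le hb
        (Nat.lt_succ_iff.1 h5)) h4
    obtain ⟨y', hy1, hy2⟩ := ih (x + dQ Q x₀ y)
      (Submodule.add_mem _ hx (dQ_mem Q x₀ hbit hy)) (by
      rw [map_add, hd, dQ_dQ Q x₀ hbit hy, add_zero]) h3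
    refine ⟨y' + y, Submodule.add_mem _ hy1 hy, ?_⟩
    rw [map_add, hy2, add_assoc, chain_add_self, add_zero]

end Cov

end Pool.Agent.S10
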