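import Pool.Agent.S10.Lvl
import Pool.Agent.S10.Wset

/-!
# Project S10, block M: the level complex, in terms of `xh` and `acQ`
-/

set_option autoImplicit false
set_option linter.unusedSectionVars false

open Finset

namespace Pool.Agent.S10

open Pool.Agent.H19.Cub Pool.Agent.S9 Pool.Agent.H37.TM

section

variable {V X : Type} [DecidableEq V] [Fintype V] {Q : CubeComplex V X} {W : Type} [Group W]
  {R : Rac Q.graph W}

/-- the two right actions are equal -/
theorem pt_ra (x : X) (w : W) : pt Q R x w = ra Q R x w := by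
  have hw : w ∈ Subgroup.closure (Set.range R.s) := by
    rw [R.gen]
    trivial
  have hs : ∀ (x : X) (v : V), mv Q v x = Q.cs v x := fun _ _ => rfl
  induction hw using Subgroup.closure_induction_right with
  | one => rw [pt_one, ra_one]
  | mul_right w _ s hs' ih =>
    obtain ⟨v, rfl⟩ := hs'
    rw [pt_mul_s, ra_mul_s, ih, hs]
  | mul_inv_cancel w _ s hs' ih =>
    obtain ⟨v, rfl⟩ := hs'
    rw [s_inv, pt_mul_s, ra_mul_s, ih, hs]

theorem acQ_actv (x₀ : X) : acQ Q R x₀ = actv Q R x₀ := by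
  funext v w
  unfold acQ actv
  rw [pt_ra]

theorem le_raKer {Φ : Subgroup W} (hker : ∀ g ∈ Φ, xh Q R g = 1) : Φ ≤ raKer Q R := by
  intro g hg
  refine (mem_raKer Q R).2 fun x => ?_
  rw [← pt_ra]
  have h1 := pt_of_ker Q R x (hker g hg) 1
  rwa [mul_one, pt_one] at h1

end

section

variable {V X : Type} [DecidableEq V] [Fintype V] {Q : CubeComplex V X} {W : Type} [Group W]
  {R : Rac Q.graph W} {Φ : Subgroup W} [Φ.Normal] (hk : Φ ≤ raKer Q R) (x₀ : X)
  {Γ : Type} [Group Γ] [MulAction Γ ((QL hk x₀).Cover 1)]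

/-- **the level complex in all positions** -/
theorem QL_emb (hb : ∀ g ∈ Φ, ∀ v, R.b g v = 0) (hΓ : IsDeck Γ (QL hk x₀) 1) (w : W) :
    ∃ (θ : Γ →* Φ) (j : (QL hk x₀).Cover 1 → W), IsEmb (QL hk x₀) R Φ (acQ Q R x₀) 1 θ j ∧
      (∃ (φ : Φ) (c : (QL hk x₀).Cover 1), w = φ * j c) ∧
      ∃ u : W, ∀ c v, R.b (j c) v = bitL R Φ hb 1 ((QL hk x₀).proj 1 c) v + R.b u v := by
  obtain ⟨u, c, hu, hw⟩ := exists_pos hk x₀ w
  refine ⟨thL hk x₀ hΓ u, jL R hk x₀ u, ?_, ⟨1, c, ?_⟩, u, fun c v => ?_⟩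
  · rw [acQ_actv]
    exact isEmbL hk x₀ hΓ hu
  · rw [hw]
    exact (one_mul _).symm
  · rw [bitL_proj hk x₀ hb 1 c v]
    have h1 : jL R hk x₀ u c = u * jL R hk x₀ 1 c := by
      unfold jL
      rw [one_mul]
    rw [h1, R.b_mul, add_comm]

end

end Pool.Agent.S10
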