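import Pool.Agent.S10.MOf
import Pool.Agent.S10.LvlQ
import Pool.Agent.S10.AcyQ

/-!
# Project S10, block M: the main theorem

`M_mainX`: every cycle of degree `i` of the active subcomplex with coefficients in `χ` bounds, if its lifting property
and effaceability hold and if the end holds for all subgroups of `Γ`. `M_mainA`: for actions on homology manifolds of
dimension less than `2 i`.
-/

set_option autoImplicit false
set_option linter.unusedSectionVars false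

open Finset

namespace Pool.Agent.S10

open Pool.Agent.H19.Cub Pool.Agent.H77.SX Pool.Agent.H37.TM Pool.Agent.S9 Pool.Agent.S9.U
  Pool.Agent.S9.M

variable {V : Type} [DecidableEq V] [Fintype V] {W : Type} [Group W]

/-- **BLOCK M**, from the end for the subgroups of `Γ` -/
theorem M_mainX {X Γ : Type} [Fintype X] [Group Γ]
    (Q : CubeComplex V X) {x₀ : X} [MulAction Γ (Q.Cover x₀)] (hΓ : IsDeck Γ Q x₀)
    {d : ℕ} (hd : DimLe Q d) {i : ℕ} (hi : 1 ≤ i)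
    {K : Type} [Field K] [CharP K 2] [Algebra (ZMod 2) K] (hM : ∀ Γ' : Subgroup Γ, EndM Γ' d i K)
    (R : Rac Q.graph W) {Φ : Subgroup W} (hΦ : Lev0 R Φ) (hker : ∀ g ∈ Φ, xh Q R g = 1)
    (χ : Φ →* Kˣ) (hEff : EffA R (acQ Q R x₀) K Φ (sqr χ))
    (hl : ∀ z₀ ∈ Za R (acQ Q R x₀) Φ (ch χ) i, LiftsA R (acQ Q R x₀) Φ χ i z₀) :
    ∀ z₀ ∈ Za R (acQ Q R x₀) Φ (ch χ) i, z₀ ∈ Ba R (acQ Q R x₀) Φ (ch χ) i := by
  classical
  have hN := hΦ.normal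
  have hF := hΦ.fin
  have hk : Φ ≤ raKer Q R := le_raKer hker
  let _ : Fintype (W ⧸ Φ) := Fintype.ofFinite _
  obtain ⟨Γ', iact, hD⟩ := exists_deckL hk x₀ hΓ
  refine M_main_of (Q := QL hk x₀) (x₀ := (1 : W ⧸ Φ)) (Γ := Γ') (R := R)
    (fun bit hb => dQ_exact _ _ hb) hD (dimLeL hk x₀ hd) hi (hM Γ') hΦ (isActv Q R x₀ hker)
    (fun w => ?_) χ hEff hl
  obtain ⟨u, c, hu, rfl⟩ := exists_pos hk x₀ w
  refine ⟨thL hk x₀ hD u, jL R hk x₀ u, bitL R Φ hΦ.bits u, ?_, ⟨1, c, (one_mul _).symm⟩,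
    isBitL hk x₀ hΦ.bits u, bitL_proj hk x₀ hΦ.bits u⟩
  rw [acQ_actv]
  exact isEmbL hk x₀ hD hu

/-- the end for a homology manifold -/
theorem endM_mfd {U Γ : Type} [DecidableEq U] [Group Γ] [MulAction Γ U] {M B : Set (Finset U)}
    {n d : ℕ} (hM : Mfd M B n) (hK : AcycLt M d) (hA : SAct Γ M B) {i : ℕ} (hi : n < 2 * i)
    (K : Type) [Field K] [CharP K 2] [Algebra (ZMod 2) K] : EndM Γ d i K :=
  fun _ _ _ _ _ _ _ _ _ hbit hΓ hd _ _ θ χ hEff _ hz hzg hl _ hx hxg hxd =>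
    m_mfdR hbit hΓ hd hM hK hA θ χ hEff hi hz hzg hl hx hxg hxd

/-- **BLOCK M** -/
theorem M_mainA {X U Γ : Type} [Fintype X] [DecidableEq U] [Group Γ] [MulAction Γ U]
    (Q : CubeComplex V X) {x₀ : X} [MulAction Γ (Q.Cover x₀)] (hΓ : IsDeck Γ Q x₀)
    {M B : Set (Finset U)} {n d : ℕ} (hd : DimLe Q d) (hM : Mfd M B n) (hK : AcycLt M d)
    (hA : SAct Γ M B) {i : ℕ} (hi : n < 2 * i)
    (R : Rac Q.graph W) {Φ : Subgroup W} (hΦ : Lev0 R Φ) (hker : ∀ g ∈ Φ, xh Q R g = 1)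
    {K : Type} [Field K] [CharP K 2] (χ : Φ →* Kˣ) (hEff : EffA R (acQ Q R x₀) K Φ (sqr χ))
    (hl : ∀ z₀ ∈ Za R (acQ Q R x₀) Φ (ch χ) i, LiftsA R (acQ Q R x₀) Φ χ i z₀) :
    ∀ z₀ ∈ Za R (acQ Q R x₀) Φ (ch χ) i, z₀ ∈ Ba R (acQ Q R x₀) Φ (ch χ) i := by
  let _ : Algebra (ZMod 2) K := ZMod.algebra K 2
  have hA' : ∀ Γ' : Subgroup Γ, SAct Γ' M B := fun Γ' =>
    ⟨fun g s hs => hA.K_mem g s hs, fun g s hs => hA.B_mem g s hs, fun g s hs h =>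
      Subtype.ext (hA.free g s hs h)⟩
  exact M_mainX Q hΓ hd (by omega) (fun Γ' => endM_mfd hM hK (hA' Γ') hi K) R hΦ hker χ hEff hl

end Pool.Agent.S10
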