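import Pool.Agent.S10.Phi
import Pool.Agent.S10.EA.Main
import Pool.Agent.S10.Eff
import Pool.Agent.S10.GzQ
import Pool.Agent.S10.MMain
import Pool.Agent.H37.TM.VirtP

/-!
# Project S10: the theorem
-/

set_option autoImplicit false
set_option linter.unusedSectionVars false

open Finset

namespace Pool.Agent.S10

open Pool.Agent.S9 Pool.Agent.H19.Cub Pool.Agent.H77.SX Pool.Agent.H37.TM Pool.Agent.H65.RM Pool.Agent.H19.LI
open Pool.Agent.H4.Singer (RGrp)

variable {V : Type} [DecidableEq V] [Fintype V]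

/-- **the theorem for a finite special cube complex with bits** -/
theorem S10_bit {X U Γ : Type} [Fintype X] [DecidableEq U] [Group Γ] [MulAction Γ U] (Q : CubeComplex V X) {x₀ : X}
    [MulAction Γ (Q.Cover x₀)] {bit : X → V → ZMod 2} (hbit : IsBit Q bit) (hsurj : Function.Surjective (Q.proj x₀))
    (hΓ : IsDeck Γ Q x₀) {M B : Set (Finset U)} {n d : ℕ} (hd : DimLe Q d) (hM : Mfd M B n) (hK : AcycLt M d)
    (hA : SAct Γ M B) {i : ℕ} (hi : n < 2 * i) : L2HomologyZero (Q.cover x₀) i := by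
  classical
  have hfin : Finite (Equiv.Perm X)ᵐᵒᵖ := Finite.of_injective MulOpposite.unop MulOpposite.unop_injective
  obtain ⟨W, _, ⟨R⟩⟩ := rac_ex Q.graph
  obtain ⟨Φ, hΦ, hker⟩ := exists_Phi R (xh Q R)
  have ha := isActv Q R x₀ hker
  obtain ⟨m, K, _, _, χ, h1, h2⟩ := EA.EA_main R hΦ _ ha i
  have hle : twr Φ m ≤ Φ := twr_anti Φ (Nat.zero_le m)
  refine L2_mainA Q x₀ hbit hsurj R hΦ hker (h2 ?_)
  exact M_mainA Q hΓ hd hM hK hA hi R (hΦ.twr m) (fun g hg => hker g (hle hg)) χ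
    (G_mainA R (hΦ.twr m) (ha.mono hle) K _) h1

/-- **S10 for proper actions** -/
theorem l2_of_properA {X U Γ : Type} [Fintype X] [DecidableEq U]
    [Group Γ] [MulAction Γ U] (Q : CubeComplex V X) (x₀ : X) [MulAction Γ (Q.Cover x₀)]
    (hΓ : IsDeck Γ Q x₀) {M B : Set (Finset U)} {n d : ℕ} (hd : DimLe Q d) (hM : Mfd M B n)
    (hK : AcycLt M d) (hA : PAct Γ M B) {i : ℕ} (hn : n < 2 * i) : L2HomologyZero (Q.cover x₀) i := by
  rcases Nat.lt_or_ge d i with h | h
  · exact l2_aboveP hd h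
  · obtain ⟨V', X', _, _, _, Q', y₀, bit', hbit', hsurj', hd', hmax', ⟨Γ', act', hΓ'⟩, htr⟩ :=
      relabel_reduce Q x₀ (by omega) hd hΓ
    refine htr i ?_
    exact S10_bit Q' hbit' hsurj' hΓ' hd' hM hK
      (sact_of_proper hbit' hΓ' (PAct.sub hA Γ') hM.ne hM.down) hn

/-- the theorem for special actions -/
theorem l2_specialA {V X U Γ : Type} [DecidableEq V] [DecidableEq U] [Group Γ] [MulAction Γ V]
    [MulAction Γ X] [MulAction Γ U] [Finite (QX Γ X)] (C : CubeComplex V X) (hC : IsCAT0 C)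
    (hA : IsAutAct Γ C) (hS : IsSpecial Γ C) {M B : Set (Finset U)} {n d : ℕ} (hd : DimLe C d)
    (hM : Mfd M B n) (hK : AcycLt M d) (hP : PAct Γ M B) {i : ℕ} (hn : n < 2 * i) : L2Zero C i := by
  rcases isEmpty_or_nonempty X with hX | ⟨⟨x₀⟩⟩
  · intro ν _ z hz _ ε hε
    refine ⟨z, ⟨fun σ x => (hX.false x).elim, fun σ x => (hX.false x).elim, hz.l2⟩, ?_, ?_⟩
    · have h1 : IsEmpty (Finset V × X) := inferInstance
      exact summable_empty
    · have h1 : IsEmpty (Finset V × X) := inferInstance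
      rw [tsum_empty]
      exact hε
  · have hC' := cut_cat0 hC
    let _ := qact hA hS hC' x₀
    have hfv := finite_qv (Γ := Γ) (C := C) hA
    let _ : Fintype (QV Γ C) := Fintype.ofFinite _
    let _ : Fintype (QX Γ X) := Fintype.ofFinite _
    have h1 := l2_of_properA (quo hA hS) (qx Γ x₀) (isDeck_quo hA hS hC' x₀)
      (dimLe_quo hA hS hd) hM hK hP hn
    exact cut_l2zero (l2zero_of_cov (lft_cov (quo_cov hA hS) hC' x₀)
      (lft_bij (quo_cov hA hS) hC' x₀) i h1)

/-- the theorem for virtually special actions -/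
theorem l2_virtA {V X U G : Type} [DecidableEq V] [DecidableEq U] [Group G]
    [MulAction G V] [MulAction G X] [MulAction G U] (C : CubeComplex V X) (hC : IsCAT0 C)
    (hG : IsGeom G C) (hS : ∃ H : Subgroup G, H.FiniteIndex ∧ IsSpecial H C)
    {M B : Set (Finset U)} {n d : ℕ} (hd : DimLe C d) (hM : Mfd M B n) (hK : AcycLt M d)
    (hA : PAct G M B) {i : ℕ} (hn : n < 2 * i) : L2Zero C i := by
  obtain ⟨H, hH, hS⟩ := hS
  have hfx : Finite (QX H X) := finite_qx H hG.cocompact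
  have hAH : IsAutAct H C :=
    ⟨fun g u v => hG.graph g u v, fun g v x => hG.lab g v x, fun g v x => hG.nb g v x⟩
  exact l2_specialA C hC hAH hS hd hM hK (PAct.sub hA H) hn

/-- **The theorem for virtually special groups** -/
theorem l2_virtPA {V X U G : Type} [DecidableEq V] [DecidableEq U] [Group G]
    [MulAction G V] [MulAction G X] (C : CubeComplex V X) (hC : IsCAT0 C)
    (hG : IsGeom G C) (hS : ∃ H : Subgroup G, H.FiniteIndex ∧ IsSpecial H C)
    (P : Subgroup G) (hP : P.FiniteIndex) [MulAction P U]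
    {M B : Set (Finset U)} {n d : ℕ} (hd : DimLe C d) (hM : Mfd M B n) (hK : AcycLt M d)
    (hA : PAct P M B) {i : ℕ} (hn : n < 2 * i) : L2Zero C i := by
  obtain ⟨H, hH, hS⟩ := hS
  have hH' : (H.subgroupOf P).FiniteIndex := inferInstance
  exact l2_virtA C hC (IsGeom.sub hG P) ⟨H.subgroupOf P, hH', IsSpecial.sub hS P⟩ hd hM hK hA hn

end Pool.Agent.S10
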