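import Pool.Agent.S10.DuEnd
import Pool.Agent.S10.Main

/-!
# Project S10D: virtually special groups which act on manifolds or on duality pairs
-/

set_option autoImplicit false
set_option linter.unusedSectionVars false

open Finset Pointwise

namespace Pool.Agent.S10

open Pool.Agent.S9 Pool.Agent.H19.Cub Pool.Agent.H77.SX Pool.Agent.H37.TM Pool.Agent.H65.RM Pool.Agent.H19.LI
open Pool.Agent.H4.Singer (RGrp)

/-- `M` is a homology manifold with boundary `B`, acyclic in the degrees less than `d`, or a duality pair with a cycle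
which is invariant under the group `P` -/
def ManOrDual (P : Type) [Group P] {U : Type} [DecidableEq U] [MulAction P U] (M B : Set (Finset U)) (n d : ℕ) : Prop :=
  (Mfd M B n ∧ AcycLt M d) ∨ ∃ mu, Dual M B mu n d ∧ ∀ (g : P) (s : Finset U), s ∈ mu → g • s ∈ mu

section

variable {U P : Type} [DecidableEq U] [Group P] [MulAction P U] {M B : Set (Finset U)} {n d : ℕ}

theorem ManOrDual.ne (h : ManOrDual P M B n d) : ∀ s ∈ M, s.Nonempty := by
  rcases h with h | ⟨mu, h, -⟩
  · exact h.1.ne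
  · exact h.ne

theorem ManOrDual.down (h : ManOrDual P M B n d) : ∀ s ∈ M, ∀ t, t ⊆ s → t.Nonempty → t ∈ M := by
  rcases h with h | ⟨mu, h, -⟩
  · exact h.1.down
  · exact h.down

theorem ManOrDual.sub (h : ManOrDual P M B n d) (Γ : Subgroup P) : ManOrDual Γ M B n d := by
  rcases h with h | ⟨mu, h, h'⟩
  · exact Or.inl h
  · exact Or.inr ⟨mu, h, fun g s hs => h' g s hs⟩

/-- the end for a duality pair -/
theorem endM_dual {mu : Set (Finset U)} (hM : Dual M B mu n d) (hA : SAct P M B)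
    (hmu : ∀ (g : P) (s : Finset U), s ∈ mu → g • s ∈ mu) {i : ℕ} (hi : n < 2 * i)
    (K : Type) [Field K] [CharP K 2] [Algebra (ZMod 2) K] : EndM P d i K :=
  fun _ _ _ _ _ _ _ _ _ hbit hΓ hd _ _ θ χ hEff _ hz hzg hl _ hx hxg hxd =>
    m_dualR hbit hΓ hd hM hA hmu θ χ hEff hi hz hzg hl hx hxg hxd

theorem endM_or (hM : ManOrDual P M B n d) (hA : SAct P M B) {i : ℕ} (hi : n < 2 * i)
    (K : Type) [Field K] [CharP K 2] [Algebra (ZMod 2) K] : EndM P d i K := by
  rcases hM with h | ⟨mu, h, h'⟩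
  · exact endM_mfd h.1 h.2 hA hi K
  · exact endM_dual h hA h' hi K

end

/-- **the theorem for a finite special cube complex with bits**, from the end for the subgroups -/
theorem S10_bitX {V X Γ : Type} [DecidableEq V] [Fintype V] [Fintype X] [Group Γ] (Q : CubeComplex V X) {x₀ : X}
    [MulAction Γ (Q.Cover x₀)] {bit : X → V → ZMod 2} (hbit : IsBit Q bit) (hsurj : Function.Surjective (Q.proj x₀))
    (hΓ : IsDeck Γ Q x₀) {d : ℕ} (hd : DimLe Q d) {i : ℕ} (hi : 1 ≤ i)
    (hM : ∀ (K : Type) [Field K] [CharP K 2] [Algebra (ZMod 2) K] (Γ' : Subgroup Γ), EndM Γ' d i K) :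
    L2HomologyZero (Q.cover x₀) i := by
  classical
  have hfin : Finite (Equiv.Perm X)ᵐᵒᵖ := Finite.of_injective MulOpposite.unop MulOpposite.unop_injective
  obtain ⟨W, _, ⟨R⟩⟩ := rac_ex Q.graph
  obtain ⟨Φ, hΦ, hker⟩ := exists_Phi R (xh Q R)
  have ha := isActv Q R x₀ hker
  obtain ⟨m, K, _, _, χ, h1, h2⟩ := EA.EA_main R hΦ _ ha i
  have hle : twr Φ m ≤ Φ := twr_anti Φ (Nat.zero_le m)
  let _ : Algebra (ZMod 2) K := ZMod.algebra K 2
  refine L2_mainA Q x₀ hbit hsurj R hΦ hker (h2 ?_)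
  exact M_mainX Q hΓ hd hi (hM K) R (hΦ.twr m) (fun g hg => hker g (hle hg)) χ
    (G_mainA R (hΦ.twr m) (ha.mono hle) K _) h1

/-- **S10 for proper actions** -/
theorem l2_of_properD {V X U Γ : Type} [DecidableEq V] [Fintype V] [Fintype X] [DecidableEq U]
    [Group Γ] [MulAction Γ U] (Q : CubeComplex V X) (x₀ : X) [MulAction Γ (Q.Cover x₀)]
    (hΓ : IsDeck Γ Q x₀) {M B : Set (Finset U)} {n d : ℕ} (hd : DimLe Q d) (hM : ManOrDual Γ M B n d)
    (hA : PAct Γ M B) {i : ℕ} (hn : n < 2 * i) : L2HomologyZero (Q.cover x₀) i := by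
  rcases Nat.lt_or_ge d i with h | h
  · exact l2_aboveP hd h
  · obtain ⟨V', X', _, _, _, Q', y₀, bit', hbit', hsurj', hd', hmax', ⟨Γ', act', hΓ'⟩, htr⟩ :=
      relabel_reduce Q x₀ (by omega) hd hΓ
    refine htr i ?_
    have hA' : SAct Γ' M B := sact_of_proper hbit' hΓ' (PAct.sub hA Γ') hM.ne hM.down
    refine S10_bitX Q' hbit' hsurj' hΓ' hd' (by omega) fun K _ _ _ Γ'' => ?_
    exact endM_or ((hM.sub Γ').sub Γ'')
      ⟨fun g s hs => hA'.K_mem g s hs, fun g s hs => hA'.B_mem g s hs,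
        fun g s hs h => Subtype.ext (hA'.free g s hs h)⟩ hn K

/-- the theorem for special actions -/
theorem l2_specialD {V X U Γ : Type} [DecidableEq V] [DecidableEq U] [Group Γ] [MulAction Γ V]
    [MulAction Γ X] [MulAction Γ U] [Finite (QX Γ X)] (C : CubeComplex V X) (hC : IsCAT0 C)
    (hA : IsAutAct Γ C) (hS : IsSpecial Γ C) {M B : Set (Finset U)} {n d : ℕ} (hd : DimLe C d)
    (hM : ManOrDual Γ M B n d) (hP : PAct Γ M B) {i : ℕ} (hn : n < 2 * i) : L2Zero C i := by
  rcases isEmpty_or_nonempty X with hX | ⟨⟨x₀⟩⟩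
  · intro ν _ z hz _ ε hε
    refine ⟨z, ⟨fun σ x => (hX.false x).elim, fun σ x => (hX.false x).elim, hz.l2⟩, ?_, ?_⟩
    · have h1 : IsEmpty (Finset V × X) := inferInstance
      exact summable_empty
    · have h1 : IsEmpty (Finset V × X) := inferInstance
      rw [tsum_empty]
      exact hε
  · have hC' := cut_cat0 hC
    let _ := qact hA hS hC' x₀
    have hfv := finite_qv (Γ := Γ) (C := C) hA
    let _ : Fintype (QV Γ C) := Fintype.ofFinite _
    let _ : Fintype (QX Γ X) := Fintype.ofFinite _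
    have h1 := l2_of_properD (quo hA hS) (qx Γ x₀) (isDeck_quo hA hS hC' x₀)
      (dimLe_quo hA hS hd) hM hP hn
    exact cut_l2zero (l2zero_of_cov (lft_cov (quo_cov hA hS) hC' x₀)
      (lft_bij (quo_cov hA hS) hC' x₀) i h1)

/-- the theorem for virtually special actions -/
theorem l2_virtD {V X U G : Type} [DecidableEq V] [DecidableEq U] [Group G]
    [MulAction G V] [MulAction G X] [MulAction G U] (C : CubeComplex V X) (hC : IsCAT0 C)
    (hG : IsGeom G C) (hS : ∃ H : Subgroup G, H.FiniteIndex ∧ IsSpecial H C)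
    {M B : Set (Finset U)} {n d : ℕ} (hd : DimLe C d) (hM : ManOrDual G M B n d)
    (hA : PAct G M B) {i : ℕ} (hn : n < 2 * i) : L2Zero C i := by
  obtain ⟨H, hH, hS⟩ := hS
  have hfx : Finite (QX H X) := finite_qx H hG.cocompact
  have hAH : IsAutAct H C :=
    ⟨fun g u v => hG.graph g u v, fun g v x => hG.lab g v x, fun g v x => hG.nb g v x⟩
  exact l2_specialD C hC hAH hS hd (hM.sub H) (PAct.sub hA H) hn

/-- **The theorem for virtually special groups** -/
theorem l2_virtPD {V X U G : Type} [DecidableEq V] [DecidableEq U] [Group G]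
    [MulAction G V] [MulAction G X] (C : CubeComplex V X) (hC : IsCAT0 C)
    (hG : IsGeom G C) (hS : ∃ H : Subgroup G, H.FiniteIndex ∧ IsSpecial H C)
    (P : Subgroup G) (hP : P.FiniteIndex) [MulAction P U]
    {M B : Set (Finset U)} {n d : ℕ} (hd : DimLe C d) (hM : ManOrDual P M B n d)
    (hA : PAct P M B) {i : ℕ} (hn : n < 2 * i) : L2Zero C i := by
  obtain ⟨H, hH, hS⟩ := hS
  have hH' : (H.subgroupOf P).FiniteIndex := inferInstance
  exact l2_virtD C hC (IsGeom.sub hG P) ⟨H.subgroupOf P, hH', IsSpecial.sub hS P⟩ hd hM hA hn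

end Pool.Agent.S10
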