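import Pool.Agent.H37.TM.StarB0

/-!
# Project S10D: duality pairs

`Dual K B mu n d`: `K` a locally finite simplicial complex, `B` a subcomplex, `mu` a cycle modulo two of dimension
`n` of `K` relative to `B` (infinite chains), such that the cohomology with compact supports of `(K, B)` is zero in
the degrees `j` with `n - d < j < n`, and the evaluation at `mu` is an isomorphism from the cohomology in the
degree `n` onto the field of two elements. `K` may have any dimension.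
-/

set_option autoImplicit false
set_option linter.unusedSectionVars false

open Finset Pointwise

namespace Pool.Agent.S10

open Pool.Agent.H37.TM

variable {U : Type} [DecidableEq U]

/-- duality pairs over the field of two elements -/
structure Dual (K B mu : Set (Finset U)) (n d : ℕ) : Prop where
  ne : ∀ s ∈ K, s.Nonempty
  down : ∀ s ∈ K, ∀ t, t ⊆ s → t.Nonempty → t ∈ K
  bd_sub : B ⊆ K
  bd_down : ∀ s ∈ B, ∀ t, t ⊆ s → t.Nonempty → t ∈ B
  locfin : ∀ s ∈ K, {t | t ∈ K ∧ s ⊆ t}.Finite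
  mu_sub : ∀ t ∈ mu, t ∈ K ∧ t ∉ B ∧ t.card = n + 1
  even : ∀ s ∈ K, s ∉ B → s.card = n → Even {t | t ∈ mu ∧ s ⊆ t}.ncard
  low : ∀ j < n, n < j + d → ∀ f : Finset U →₀ ZMod 2, Rel K B ∅ (j + 1) f → IsCob K B ∅ f 0 →
    ∃ g : Finset U →₀ ZMod 2, Rel K B ∅ j g ∧ IsCob K B ∅ g f
  top : ∀ f : Finset U →₀ ZMod 2, Rel K B ∅ (n + 1) f → IsCob K B ∅ f 0 → ∑ᶠ t ∈ mu, f t = 0 →
    ∃ g : Finset U →₀ ZMod 2, Rel K B ∅ n g ∧ IsCob K B ∅ g f
  ex : ∃ f : Finset U →₀ ZMod 2, Rel K B ∅ (n + 1) f ∧ IsCob K B ∅ f 0 ∧ ∑ᶠ t ∈ mu, f t = 1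

/-- the simplicial complex generated by `mu` -/
def gen (mu : Set (Finset U)) : Set (Finset U) := {s | s.Nonempty ∧ ∃ t ∈ mu, s ⊆ t}

variable {K B mu : Set (Finset U)} {n d : ℕ}

theorem gen_sub (hD : Dual K B mu n d) : gen mu ⊆ K := by
  rintro s ⟨h1, t, ht, hst⟩
  exact hD.down t (hD.mu_sub t ht).1 s hst h1

/-- the top simplices of the generated complex -/
theorem gen_top (hD : Dual K B mu n d) {t : Finset U} (ht : t ∈ gen mu) (hc : t.card = n + 1) : t ∈ mu := by
  obtain ⟨-, t', ht', htt'⟩ := ht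
  have h1 := eq_of_subset_of_card_le htt' (by rw [(hD.mu_sub t' ht').2.2, hc])
  rw [h1]
  exact ht'

theorem mu_gen (hD : Dual K B mu n d) {t : Finset U} (ht : t ∈ mu) : t ∈ gen mu :=
  ⟨hD.ne t (hD.mu_sub t ht).1, t, ht, subset_rfl⟩

/-- the generated complex is a pseudomanifold with the boundary in `B` -/
theorem gen_psm (hD : Dual K B mu n d) : Psm (gen mu) (B ∩ gen mu) n where
  ne := fun s hs => hs.1
  down := by
    rintro s ⟨-, t, ht, hst⟩ t' hts' hne
    exact ⟨hne, t, ht, hts'.trans hst⟩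
  bd_sub := Set.inter_subset_right
  bd_down := by
    rintro s ⟨h1, h2, t, ht, hst⟩ t' hts' hne
    exact ⟨hD.bd_down s h1 t' hts' hne, hne, t, ht, hts'.trans hst⟩
  locfin := fun s hs => (hD.locfin s (gen_sub hD hs)).subset fun t ht => ⟨gen_sub hD ht.1, ht.2⟩
  card_le := by
    rintro s ⟨-, t, ht, hst⟩
    rw [← (hD.mu_sub t ht).2.2]
    exact card_le_card hst
  even := by
    intro s hs hB hc
    have hsK := gen_sub hD hs
    have hsB : s ∉ B := fun h => hB ⟨h, hs⟩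
    have h1 := hD.even s hsK hsB hc
    have hset : {t | t ∈ mu ∧ s ⊆ t} = {t' | t' ∈ gen mu ∧ s ⊆ t' ∧ t'.card = n + 1} := by
      ext t
      constructor
      · rintro ⟨h2, h3⟩
        exact ⟨mu_gen hD h2, h3, (hD.mu_sub t h2).2.2⟩
      · rintro ⟨h2, h3, h4⟩
        exact ⟨gen_top hD h2 h4, h3⟩
    have hfin : {t' | t' ∈ gen mu ∧ s ⊆ t' ∧ t'.card = n + 1}.Finite :=
      (hD.locfin s hsK).subset fun t ht => ⟨gen_sub hD ht.1, ht.2.1⟩
    have h2 : (cofs (gen mu) s (n + 1)).card = {t | t ∈ mu ∧ s ⊆ t}.ncard := by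
      unfold cofs
      rw [dif_pos hfin, hset, Set.ncard_eq_toFinset_card _ hfin]
    rw [h2]
    exact (ZMod.natCast_eq_zero_iff_even).2 h1

/-- the free actions -/
theorem gen_sact {Γ : Type} [Group Γ] [MulAction Γ U] (hD : Dual K B mu n d) (hA : SAct Γ K B)
    (hmu : ∀ (g : Γ) (s : Finset U), s ∈ mu → g • s ∈ mu) : SAct Γ (gen mu) (B ∩ gen mu) := by
  have h1 : ∀ (g : Γ) (s : Finset U), s ∈ gen mu → g • s ∈ gen mu := by
    rintro g s ⟨h1, t, ht, hst⟩
    exact ⟨h1.smul_finset, g • t, hmu g t ht, smul_finset_subset_smul_finset hst⟩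
  exact
    { K_mem := h1
      B_mem := fun g s hs => ⟨hA.B_mem g s hs.1, h1 g s hs.2⟩
      free := fun g s hs => hA.free g s (gen_sub hD hs) }

end Pool.Agent.S10
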