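import Pool.Agent.H37.TM.SdD
import Pool.Agent.H37.TM.StarB0
import Pool.Agent.H37.TM.StarA

/-!
# Project S10D: the kernel of the projection of the complex of pairs to the cochains is exact

`al : TN K B n (i + 1) → C^(n - i)(K, B)`. Columns: for a fixed simplex `τ` the pairs `(σ, τ)` form the chain
complex of the simplex `τ`; the cone with a vertex of `τ` contracts it.
-/

set_option autoImplicit false
set_option linter.unusedSectionVars false

open Finset Pointwise

namespace Pool.Agent.S10

open Pool.Agent.H37.TM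

variable {U : Type} [DecidableEq U] {K B : Set (Finset U)} {n : ℕ}

/-- the value of `DP` inside the complex -/
theorem DP_of {z : Finset U × Finset U → ZMod 2} {s t : Finset U} (hst : s ⊆ t) (ht : t ∈ K) :
    DP K z (s, t) = ∑ w ∈ t \ s, (z (insert w s, t) + z (s, t.erase w)) := by
  unfold DP
  exact if_pos ⟨hst, ht⟩

theorem DP_of_not {z : Finset U × Finset U → ZMod 2} {s t : Finset U} (h : ¬ (s ⊆ t ∧ t ∈ K)) :
    DP K z (s, t) = 0 := by
  unfold DP
  exact if_neg h

/-- the square of the boundary -/
theorem DP_DP (hM : Psm K B n) (z : Finset U × Finset U → ZMod 2) {s t : Finset U} (hs : s.Nonempty) :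
    DP K (DP K z) (s, t) = 0 := by
  classical
  by_cases h : s ⊆ t ∧ t ∈ K
  swap
  · exact DP_of_not h
  obtain ⟨hst, ht⟩ := h
  rw [DP_of hst ht]
  have key : ∀ w ∈ t \ s, (DP K z (insert w s, t) + DP K z (s, t.erase w)) =
      ∑ u ∈ (t \ s).erase w, ((z (insert u (insert w s), t) + z (insert w s, t.erase u)) +
        (z (insert u s, t.erase w) + z (s, (t.erase w).erase u))) := by
    intro w hw
    rw [Finset.mem_sdiff] at hw
    have h1 : insert w s ⊆ t := Finset.insert_subset hw.1 hst
    have h2 : s ⊆ t.erase w := Finset.subset_erase.2 ⟨hst, hw.2⟩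
    have h3 : t.erase w ∈ K := hM.down t ht _ (Finset.erase_subset _ _) (hs.mono h2)
    have e1 : t \ insert w s = (t \ s).erase w := by
      ext u; simp only [Finset.mem_sdiff, Finset.mem_insert, Finset.mem_erase]; tauto
    have e2 : t.erase w \ s = (t \ s).erase w := by
      ext u; simp only [Finset.mem_sdiff, Finset.mem_erase]; tauto
    rw [DP_of h1 ht, DP_of h2 h3, e1, e2, ← Finset.sum_add_distrib]
  rw [Finset.sum_congr rfl key]
  refine TotX.sum_pairs_symm (t \ s) (fun w u => (z (insert u (insert w s), t) +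
    z (insert w s, t.erase u)) + (z (insert u s, t.erase w) + z (s, (t.erase w).erase u))) ?_
  intro u w
  rw [Finset.insert_comm u w s, Finset.erase_right_comm (a := w) (b := u)]
  ring

theorem tn_of {i : ℕ} {x : Finset U × Finset U →₀ ZMod 2} (h : ∀ e, x e ≠ 0 → e ∈ TCell K B n i) :
    x ∈ TN K B n i :=
  (Finsupp.mem_supported _ _).2 fun e he => h e (Finsupp.mem_support_iff.1 he)

/-- one step: make the columns over the simplices with `p` vertices zero -/
theorem ker_step (hM : Psm K B n) {m p : ℕ} {x : Finset U × Finset U →₀ ZMod 2}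
    (hx : x ∈ TN K B n (m + 1)) (h0 : ∀ s t, s.Nonempty → DP K x (s, t) = 0) (ha : ∀ t ∈ K, al x t = 0)
    (hp : ∀ s t, x (s, t) ≠ 0 → p ≤ t.card) :
    ∃ y ∈ TN K B n (m + 2), (∀ t, al y t = 0) ∧
      ∀ s t, s.Nonempty → t.card ≤ p → DP K y (s, t) = x (s, t) := by
  classical
  have hxc := tn_cell hx
  rcases isEmpty_or_nonempty U with hU | hU
  · have hx0 : ∀ e, x e = 0 := by
      intro e
      by_contra h
      obtain ⟨u, -⟩ := (hxc e h).1
      exact hU.false u
    refine ⟨0, Submodule.zero_mem _, fun t => ?_, fun s t hs _ => ?_⟩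
    · unfold al
      simp
    · obtain ⟨u, -⟩ := hs
      exact (hU.false u).elim
  -- a vertex of every simplex
  have hv : ∀ t : Finset U, ∃ v : U, t.Nonempty → v ∈ t := by
    intro t
    by_cases h : t.Nonempty
    · obtain ⟨u, hu⟩ := h
      exact ⟨u, fun _ => hu⟩
    · exact ⟨Classical.choice hU, fun h' => absurd h' h⟩
  choose v hv using hv
  -- the cone
  let b : Finset U × Finset U → ZMod 2 := fun e =>
    if e.2.card = p ∧ v e.2 ∈ e.1 then x (e.1.erase (v e.2), e.2) else 0
  have hb1 : ∀ s t, t.card = p → v t ∈ s → b (s, t) = x (s.erase (v t), t) := fun s t h1 h2 => if_pos ⟨h1, h2⟩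
  have hb2 : ∀ s t, v t ∉ s → b (s, t) = 0 := fun s t h => if_neg fun h' => h h'.2
  have hb3 : ∀ s t, t.card ≠ p → b (s, t) = 0 := fun s t h => if_neg fun h' => h h'.1
  have hsup : ∀ e, b e ≠ 0 → e.2.card = p ∧ v e.2 ∈ e.1 ∧ x (e.1.erase (v e.2), e.2) ≠ 0 := by
    intro e he
    by_cases h : e.2.card = p ∧ v e.2 ∈ e.1
    · refine ⟨h.1, h.2, fun h' => he ?_⟩
      show (if e.2.card = p ∧ v e.2 ∈ e.1 then x (e.1.erase (v e.2), e.2) else 0) = 0
      rw [h', ite_self]
    · exact absurd (if_neg h) he
  let y : Finset U × Finset U →₀ ZMod 2 :=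
    Finsupp.onFinset (x.support.image fun e => (insert (v e.2) e.1, e.2)) b (by
      rintro ⟨s, t⟩ he
      obtain ⟨h1, h2, h3⟩ := hsup _ he
      refine mem_image.2 ⟨(s.erase (v t), t), Finsupp.mem_support_iff.2 h3, ?_⟩
      show (insert (v t) (s.erase (v t)), t) = (s, t)
      rw [insert_erase h2])
  have hyb : ∀ e, y e = b e := fun e => rfl
  refine ⟨y, tn_of ?_, ?_, ?_⟩
  · rintro ⟨s, t⟩ he
    obtain ⟨h1, h2, h3⟩ := hsup _ he
    obtain ⟨h5, h6, h7, h8, h9⟩ := hxc _ h3
    simp only at h1 h2 h5 h6 h7 h8 h9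
    refine ⟨⟨v t, h2⟩, ?_, h7, h8, ?_⟩
    · intro w hw
      by_cases h10 : w = v t
      · rw [h10]
        exact hv t (hM.ne t h7)
      · exact h6 (mem_erase.2 ⟨h10, hw⟩)
    · show s.card + n = t.card + (m + 1)
      rw [card_erase_of_mem h2] at h9
      have := card_pos.2 ⟨v t, h2⟩
      omega
  · intro t
    unfold al
    refine sum_eq_zero fun u _ => ?_
    rw [hyb]
    by_contra he
    obtain ⟨h1, h2, h3⟩ := hsup _ he
    simp only [mem_singleton] at h2
    have h4 := (hxc _ h3).1
    simp only [h2] at h4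
    rw [erase_singleton] at h4
    exact not_nonempty_empty h4
  · intro s t hs htp
    by_cases hst : s ⊆ t ∧ t ∈ K
    swap
    · rw [DP_of_not hst]
      by_contra h
      obtain ⟨h5, h6, h7, h8, h9⟩ := hxc _ (Ne.symm h)
      exact hst ⟨h6, h7⟩
    obtain ⟨hst, htK⟩ := hst
    have hvt := hv t (hM.ne t htK)
    rcases Nat.lt_or_ge t.card p with hlt | hge
    · -- both sides vanish
      have h1 : x (s, t) = 0 := by
        by_contra h
        have := hp s t h
        omega
      rw [h1, DP_of hst htK]
      refine sum_eq_zero fun w hw => ?_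
      rw [hyb, hyb, hb3 _ _ (by omega), hb3 _ _ (by
        rw [card_erase_of_mem (mem_sdiff.1 hw).1]
        omega), add_zero]
    have htp : t.card = p := le_antisymm htp hge
    have hxe : ∀ w ∈ t, ∀ s', x (s', t.erase w) = 0 := by
      intro w hw s'
      by_contra h
      have h1 := hp s' _ h
      rw [card_erase_of_mem hw] at h1
      have := card_pos.2 ⟨w, hw⟩
      omega
    have h2 : DP K y (s, t) = ∑ w ∈ t \ s, y (insert w s, t) := by
      rw [DP_of hst htK]
      refine sum_congr rfl fun w hw => ?_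
      rw [hyb (s, t.erase w), hb3 _ _ (by
        rw [card_erase_of_mem (mem_sdiff.1 hw).1]
        have := card_pos.2 ⟨w, (mem_sdiff.1 hw).1⟩
        omega), add_zero]
    rw [h2]
    by_cases hvs : v t ∈ s
    · -- the cycle condition
      have h3 : ∀ w ∈ t \ s, y (insert w s, t) = x (insert w (s.erase (v t)), t) := by
        intro w hw
        have hwv : w ≠ v t := fun h => (mem_sdiff.1 hw).2 (h ▸ hvs)
        rw [hyb, hb1 _ _ htp (mem_insert_of_mem hvs), erase_insert_of_ne hwv]
      rw [sum_congr rfl h3]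
      have h4 : t \ s.erase (v t) = insert (v t) (t \ s) := by
        ext u
        simp only [mem_sdiff, mem_erase, mem_insert, not_and]
        by_cases hu : u = v t
        · simp [hu, hvt]
        · simp [hu]
      have h5 : v t ∉ t \ s := fun h => (mem_sdiff.1 h).2 hvs
      have h6 : ∑ w ∈ t \ s.erase (v t), x (insert w (s.erase (v t)), t) = 0 := by
        by_cases hne : (s.erase (v t)).Nonempty
        · have h7 := h0 (s.erase (v t)) t hne
          rw [DP_of ((erase_subset _ _).trans hst) htK] at h7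
          rw [← h7]
          refine sum_congr rfl fun w hw => ?_
          rw [hxe w (mem_sdiff.1 hw).1, add_zero]
        · rw [not_nonempty_iff_eq_empty] at hne
          rw [hne]
          have h7 := ha t htK
          unfold al at h7
          rw [← h7, sdiff_empty]
          exact sum_congr rfl fun w _ => rfl
      rw [h4, sum_insert h5, insert_erase hvs] at h6
      exact (CharTwo.add_eq_zero.1 h6).symm
    · rw [sum_eq_single_of_mem (v t) (mem_sdiff.2 ⟨hvt, hvs⟩), hyb, hb1 _ _ htp (mem_insert_self _ _),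
        erase_insert hvs]
      intro w _ hwv
      rw [hyb]
      refine hb2 _ _ fun h => ?_
      rw [mem_insert] at h
      rcases h with h | h
      · exact hwv h.symm
      · exact hvs h

/-- the coboundary of the zero cochain -/
theorem cob_zero_of {f : Finset U → ZMod 2} (h : ∀ t, f t = 0) (t : Finset U) : cob f t = 0 := by
  unfold cob
  exact sum_eq_zero fun v _ => h _

/-- **the kernel is exact** -/
theorem ker_exact (hM : Psm K B n) {m : ℕ} : ∀ q p : ℕ, p + q = n + 2 → ∀ x : Finset U × Finset U →₀ ZMod 2,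
    x ∈ TN K B n (m + 1) → (∀ s t, s.Nonempty → DP K x (s, t) = 0) → (∀ t ∈ K, al x t = 0) →
    (∀ s t, x (s, t) ≠ 0 → p ≤ t.card) →
    ∃ y ∈ TN K B n (m + 2), (∀ t, al y t = 0) ∧ ∀ s t, s.Nonempty → DP K y (s, t) = x (s, t) := by
  classical
  intro q
  induction q with
  | zero =>
    intro p hpq x hx _ _ hp
    have h1 : ∀ e, x e = 0 := by
      rintro ⟨s, t⟩
      by_contra h
      obtain ⟨h5, h6, h7, h8, h9⟩ := tn_cell hx _ h
      have h2 := hM.card_le t h7
      have h3 := hp s t h
      omega
    refine ⟨0, Submodule.zero_mem _, fun t => ?_, fun s t _ => ?_⟩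
    · unfold al
      simp
    · rw [h1]
      by_cases h : s ⊆ t ∧ t ∈ K
      · rw [DP_of h.1 h.2]
        simp
      · exact DP_of_not h
  | succ q ih =>
    intro p hpq x hx h0 ha hp
    obtain ⟨y, hy, hya, hyx⟩ := ker_step hM hx h0 ha hp
    have hby := bdT_mem hM hy
    have hco : ∀ s t, s.Nonempty → bdT K n y (s, t) = DP K y (s, t) := fun s t hs => bdT_coeff hM hy hs
    have hDadd : ∀ s t, s.Nonempty → DP K (x + bdT K n y : Finset U × Finset U →₀ ZMod 2) (s, t) =
        DP K x (s, t) + DP K (DP K y) (s, t) := by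
      intro s t hs
      by_cases h : s ⊆ t ∧ t ∈ K
      · rw [DP_of h.1 h.2, DP_of h.1 h.2, DP_of h.1 h.2, ← sum_add_distrib]
        refine sum_congr rfl fun w _ => ?_
        rw [Finsupp.add_apply, Finsupp.add_apply, hco _ _ (insert_nonempty _ _), hco _ _ hs]
        ring
      · rw [DP_of_not h, DP_of_not h, DP_of_not h, add_zero]
    obtain ⟨z, hz, hza, hzx⟩ := ih (p + 1) (by omega) (x + bdT K n y) (Submodule.add_mem _ hx hby)
      (fun s t hs => by rw [hDadd s t hs, h0 s t hs, DP_DP hM _ hs, add_zero])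
      (fun t ht => by
        rw [al_add', ha t ht, al_bdT hM hy ht, cob_zero_of hya, add_zero])
      (fun s t hst => by
        by_contra hlt
        have hs : s.Nonempty := (tn_cell (Submodule.add_mem _ hx hby) _ hst).1
        rw [Finsupp.add_apply, hco s t hs, hyx s t hs (by omega)] at hst
        exact hst (CharTwo.add_self_eq_zero _))
    refine ⟨y + z, Submodule.add_mem _ hy hz, fun t => by rw [al_add', hya, hza, add_zero], fun s t hs => ?_⟩
    have h1 : DP K (y + z : Finset U × Finset U →₀ ZMod 2) (s, t) = DP K y (s, t) + DP K z (s, t) := by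
      have h2 := congrFun (DP_add (K := K) (y : Finset U × Finset U → ZMod 2) z) (s, t)
      rw [Pi.add_apply] at h2
      rw [← h2]
      rfl
    rw [h1, hzx s t hs, Finsupp.add_apply, hco s t hs, add_left_comm, CharTwo.add_self_eq_zero, add_zero]

end Pool.Agent.S10
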