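import Pool.Agent.S10.DuDefs
import Pool.Agent.S10.DuKer

/-!
# Project S10D: the chain map from the cubes to the complex of pairs of the cycle of a duality pair
-/

set_option autoImplicit false
set_option linter.unusedSectionVars false

open Finset Pointwise

namespace Pool.Agent.S10

open Pool.Agent.H19.Cub Pool.Agent.H77.SX Pool.Agent.H37.TM

variable {U : Type} [DecidableEq U] {K B mu : Set (Finset U)} {n d : ℕ}

/-! ### The coboundary -/

/-- the coboundary of the finite cochains of `K` -/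
noncomputable def coF (K : Set (Finset U)) : (Finset U →₀ ZMod 2) →ₗ[ZMod 2] (Finset U →₀ ZMod 2) :=
  lin fun τ => ∑ t ∈ cofs K τ (τ.card + 1), Finsupp.single t 1

theorem mem_cofsD (hD : Dual K B mu n d) {t : Finset U} (ht : t ∈ K) {j : ℕ} {t' : Finset U} :
    t' ∈ cofs K t j ↔ t' ∈ K ∧ t ⊆ t' ∧ t'.card = j := by
  have h : {t' | t' ∈ K ∧ t ⊆ t' ∧ t'.card = j}.Finite :=
    (hD.locfin t ht).subset fun t' h => ⟨h.1, h.2.1⟩
  unfold cofs
  rw [dif_pos h, Set.Finite.mem_toFinset]
  rfl

theorem coF_apply (hD : Dual K B mu n d) {f : Finset U →₀ ZMod 2} (hf : ∀ t, f t ≠ 0 → t ∈ K) (t : Finset U) :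
    coF K f t = open Classical in if t ∈ K then ∑ v ∈ t, f (t.erase v) else 0 := by
  classical
  unfold coF lin
  rw [Finsupp.linearCombination_apply, Finsupp.sum, Finsupp.finsetSum_apply]
  have h1 : ∀ τ ∈ f.support, (f τ • ∑ t' ∈ cofs K τ (τ.card + 1), Finsupp.single t' (1 : ZMod 2)) t =
      if t ∈ K ∧ τ ⊆ t ∧ t.card = τ.card + 1 then f τ else 0 := by
    intro τ hτ
    have hτK := hf τ (Finsupp.mem_support_iff.1 hτ)
    rw [Finsupp.smul_apply, Finsupp.finsetSum_apply]
    simp only [Finsupp.single_apply]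
    rw [sum_ite_eq', smul_eq_mul]
    by_cases h : t ∈ K ∧ τ ⊆ t ∧ t.card = τ.card + 1
    · rw [if_pos ((mem_cofsD hD hτK).2 h), if_pos h, mul_one]
    · rw [if_neg fun h' => h ((mem_cofsD hD hτK).1 h'), if_neg h, mul_zero]
  rw [sum_congr rfl h1]
  by_cases ht : t ∈ K
  · rw [if_pos ht]
    have h2 : ∑ v ∈ t, f (t.erase v) = ∑ τ ∈ t.image t.erase, f τ :=
      (sum_image fun v hv w hw h => erase_injOn t hv hw h).symm
    rw [h2, ← sum_filter]
    refine sum_subset ?_ ?_
    · intro τ hτ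
      rw [mem_filter] at hτ
      obtain ⟨-, -, h3, h4⟩ := hτ
      have h5 : (t \ τ).card = 1 := by
        rw [card_sdiff_of_subset h3]
        omega
      obtain ⟨w, hw⟩ := card_eq_one.1 h5
      have hw1 : w ∈ t ∧ w ∉ τ := by
        rw [← mem_sdiff, hw]
        exact mem_singleton_self w
      refine mem_image.2 ⟨w, hw1.1, ?_⟩
      have h8 : τ ⊆ t.erase w := subset_erase.2 ⟨h3, hw1.2⟩
      refine (eq_of_subset_of_card_le h8 ?_).symm
      rw [card_erase_of_mem hw1.1]
      omega
    · intro τ hτ hn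
      obtain ⟨w, hw, rfl⟩ := mem_image.1 hτ
      by_contra h
      refine hn (mem_filter.2 ⟨Finsupp.mem_support_iff.2 h, ht, erase_subset _ _, ?_⟩)
      rw [card_erase_of_mem hw]
      have := card_pos.2 ⟨w, hw⟩
      omega
  · rw [if_neg ht]
    exact sum_eq_zero fun τ _ => if_neg fun h => ht h.1

/-! ### The augmentation -/

theorem aug_eq (hD : Dual K B mu n d) {y : Finset U × Finset U →₀ ZMod 2}
    (hy : y ∈ TN (gen mu) (B ∩ gen mu) n 1) :
    bdT (gen mu) n y = Finsupp.single (∅, ∅) (∑ᶠ t ∈ mu, al y t) := by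
  classical
  have hc : ∀ e ∈ y.support, e ∈ TCell (gen mu) (B ∩ gen mu) n 1 := fun e he =>
    (Finsupp.mem_supported _ _).1 hy he
  have hpsm := gen_psm hD
  have hval : ∀ e, y e ≠ 0 → ∃ v ∈ e.2, e.1 = {v} ∧ e.2 ∈ mu := by
    intro e he
    have h1 := hc e (Finsupp.mem_support_iff.2 he)
    obtain ⟨h2, h3, -⟩ := bdE_one hpsm h1
    obtain ⟨h4, h5, h6, h7, h8⟩ := h1
    obtain ⟨v, hv⟩ := card_eq_one.1 h2
    refine ⟨v, h5 ?_, hv, gen_top hD h6 h3⟩
    rw [hv]
    exact mem_singleton_self v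
  have h1 : bdT (gen mu) n y = Finsupp.single (∅, ∅) (∑ e ∈ y.support, y e) := by
    unfold bdT
    rw [Finsupp.linearCombination_apply, Finsupp.sum, Finsupp.single_finsetSum]
    refine sum_congr rfl fun e he => ?_
    rw [(bdE_one hpsm (hc e he)).2.2, Finsupp.smul_single, smul_eq_mul, mul_one]
  rw [h1]
  congr 1
  have h2 : ∑ᶠ t ∈ mu, al y t = ∑ t ∈ y.support.image Prod.snd, al y t := by
    refine finsum_mem_eq_sum_of_inter_support_eq _ ?_
    ext t
    simp only [Set.mem_inter_iff, Function.mem_support, Finset.mem_coe]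
    refine and_congr_left fun h => ⟨fun _ => ?_, fun h3 => ?_⟩
    · unfold al at h
      obtain ⟨v, -, hv⟩ := exists_ne_zero_of_sum_ne_zero h
      exact mem_image.2 ⟨({v}, t), Finsupp.mem_support_iff.2 hv, rfl⟩
    · obtain ⟨e, he, rfl⟩ := mem_image.1 h3
      obtain ⟨v, -, -, h4⟩ := hval e (Finsupp.mem_support_iff.1 he)
      exact h4
  rw [h2, ← sum_fiberwise_of_maps_to (s := y.support) (t := y.support.image Prod.snd) (g := Prod.snd)
    (fun e he => mem_image_of_mem _ he)]
  refine sum_congr rfl fun t _ => ?_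
  unfold al
  have h3 : ∑ v ∈ t, y ({v}, t) = ∑ e ∈ t.image fun v => (({v} : Finset U), t), y e :=
    (sum_image fun v _ w _ h => by
      rw [Prod.mk.injEq] at h
      exact singleton_inj.1 h.1).symm
  rw [h3]
  refine sum_subset ?_ ?_
  · intro e he
    obtain ⟨he1, he2⟩ := mem_filter.1 he
    obtain ⟨v, hv, h4, -⟩ := hval e (Finsupp.mem_support_iff.1 he1)
    rw [he2] at hv
    exact mem_image.2 ⟨v, hv, by rw [← h4, ← he2]⟩
  · intro e he hn
    obtain ⟨v, hv, rfl⟩ := mem_image.1 he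
    by_contra h
    exact hn (mem_filter.2 ⟨Finsupp.mem_support_iff.2 h, rfl⟩)

/-- cochains lift to the complex of pairs -/
theorem exists_sec {g : Finset U →₀ ZMod 2} {k : ℕ}
    (hg : ∀ t, g t ≠ 0 → t ∈ K ∧ t ∉ B ∧ t.card + k = n + 1) :
    ∃ y ∈ TN (gen mu) (B ∩ gen mu) n (k + 1), ∀ τ ∈ gen mu, al y τ = g τ := by
  classical
  have hv : ∀ t : Finset U, ∃ s : Finset U, t.Nonempty → ∃ v ∈ t, s = {v} := by
    intro t
    by_cases h : t.Nonempty
    · obtain ⟨u, hu⟩ := h
      exact ⟨{u}, fun _ => ⟨u, hu, rfl⟩⟩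
    · exact ⟨∅, fun h' => absurd h' h⟩
  choose s hs using hv
  refine ⟨∑ τ ∈ g.support with τ ∈ gen mu, g τ • Finsupp.single (s τ, τ) 1, ?_, ?_⟩
  · refine Submodule.sum_mem _ fun τ hτ => Submodule.smul_mem _ _ ?_
    obtain ⟨h1, h2⟩ := mem_filter.1 hτ
    obtain ⟨h3, h4, h5⟩ := hg τ (Finsupp.mem_support_iff.1 h1)
    obtain ⟨v, hv, h6⟩ := hs τ h2.1
    refine Finsupp.single_mem_supported _ _ ⟨?_, ?_, h2, fun h => h4 h.1, ?_⟩
    · show (s τ).Nonempty
      rw [h6]
      exact singleton_nonempty v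
    · show s τ ⊆ τ
      rw [h6]
      exact singleton_subset_iff.2 hv
    · show (s τ).card + n = τ.card + k
      rw [h6, card_singleton]
      omega
  · intro τ hτ
    obtain ⟨v, hv, h6⟩ := hs τ hτ.1
    rw [al_sum']
    have h1 : ∀ τ' : Finset U, al (g τ' • Finsupp.single (s τ', τ') (1 : ZMod 2)) τ = if τ' = τ then g τ else 0 := by
      intro τ'
      rw [al_smul'', al_single]
      by_cases h : τ' = τ
      · subst h
        rw [if_pos rfl, h6]
        simp only [and_true, singleton_inj]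
        rw [sum_ite_eq, if_pos hv, mul_one]
      · rw [if_neg h, sum_eq_zero, mul_zero]
        exact fun w _ => if_neg fun h' => h h'.2
    rw [sum_congr rfl fun τ' _ => h1 τ', sum_ite_eq']
    split_ifs with h
    · rfl
    · by_contra h2
      exact h (mem_filter.2 ⟨Finsupp.mem_support_iff.2 (Ne.symm h2), hτ⟩)

/-! ### The target complex -/

/-- pairs of a chain of the complex of pairs and a cochain of `K` with the same image -/
noncomputable def MM (K B mu : Set (Finset U)) (n : ℕ) :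
    ℕ → Submodule (ZMod 2) ((Finset U × Finset U →₀ ZMod 2) × (Finset U →₀ ZMod 2))
  | 0 => (TN (gen mu) (B ∩ gen mu) n 0).prod ⊥
  | m + 1 =>
    { carrier := {x | x.1 ∈ TN (gen mu) (B ∩ gen mu) n (m + 1) ∧
        x.2 ∈ Finsupp.supported (ZMod 2) (ZMod 2) {t | t ∈ K ∧ t ∉ B ∧ t.card + m = n + 1} ∧
        ∀ t ∈ gen mu, al x.1 t = x.2 t}
      add_mem' := by
        rintro x y ⟨h1, h2, h3⟩ ⟨h4, h5, h6⟩
        refine ⟨Submodule.add_mem _ h1 h4, Submodule.add_mem _ h2 h5, fun t ht => ?_⟩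
        show al (x.1 + y.1) t = x.2 t + y.2 t
        rw [al_add', h3 t ht, h6 t ht]
      zero_mem' := by
        refine ⟨Submodule.zero_mem _, Submodule.zero_mem _, fun t _ => ?_⟩
        show al (0 : Finset U × Finset U →₀ ZMod 2) t = 0
        unfold al
        simp
      smul_mem' := by
        rintro c x ⟨h1, h2, h3⟩
        refine ⟨Submodule.smul_mem _ c h1, Submodule.smul_mem _ c h2, fun t ht => ?_⟩
        show al (c • x.1) t = c * x.2 t
        rw [al_smul'', h3 t ht] }

/-- the boundary of the target complex -/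
noncomputable def DD (K mu : Set (Finset U)) (n : ℕ) :
    ((Finset U × Finset U →₀ ZMod 2) × (Finset U →₀ ZMod 2)) →ₗ[ZMod 2]
      ((Finset U × Finset U →₀ ZMod 2) × (Finset U →₀ ZMod 2)) :=
  (bdT (gen mu) n).prodMap (coF K)

/-- a finite cocycle in the degree `n - m` is a coboundary -/
theorem exists_cob (hD : Dual K B mu n d) {m : ℕ} (hm : m + 1 ≤ d) {f : Finset U →₀ ZMod 2}
    (hf : ∀ t, f t ≠ 0 → t ∈ K ∧ t ∉ B ∧ t.card + m = n + 1) (h0 : coF K f = 0)
    (h1 : m = 0 → ∑ᶠ t ∈ mu, f t = 0) :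
    ∃ g : Finset U →₀ ZMod 2, (∀ t, g t ≠ 0 → t ∈ K ∧ t ∉ B ∧ t.card + (m + 1) = n + 1) ∧ coF K g = f := by
  classical
  have hcoc : IsCob K B ∅ f 0 := by
    intro t ht _ _
    have h2 := DFunLike.congr_fun h0 t
    rw [coF_apply hD (fun t h => (hf t h).1), if_pos ht] at h2
    rw [sdiff_empty]
    exact h2
  have key : ∀ j : ℕ, j + m = n → (∃ g : Finset U →₀ ZMod 2, Rel K B ∅ j g ∧ IsCob K B ∅ g f) →
      ∃ g : Finset U →₀ ZMod 2, (∀ t, g t ≠ 0 → t ∈ K ∧ t ∉ B ∧ t.card + (m + 1) = n + 1) ∧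
        coF K g = f := by
    rintro j hj ⟨g, hg, hgf⟩
    refine ⟨g, fun t ht => ?_, ?_⟩
    · obtain ⟨h2, h3, -, h4⟩ := hg t ht
      exact ⟨h2, h3, by omega⟩
    · ext t
      rw [coF_apply hD (fun t h => (hg t h).1)]
      by_cases htK : t ∈ K
      · rw [if_pos htK]
        by_cases htB : t ∈ B
        · have h2 : f t = 0 := by
            by_contra h
            exact (hf t h).2.1 htB
          rw [h2]
          refine sum_eq_zero fun v _ => ?_
          by_contra h
          obtain ⟨h3, h4, -⟩ := hg _ h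
          exact h4 (hD.bd_down t htB _ (erase_subset _ _) (hD.ne _ h3))
        · have h2 := hgf t htK htB (empty_subset t)
          rw [sdiff_empty] at h2
          exact h2
      · rw [if_neg htK]
        by_contra h
        exact htK (hf t (Ne.symm h)).1
  rcases Nat.lt_or_ge n m with hmn | hmn
  · refine ⟨0, fun t ht => absurd rfl ht, ?_⟩
    rw [map_zero]
    ext t
    by_contra h
    obtain ⟨h2, h3, h4⟩ := hf t (Ne.symm h)
    have := card_pos.2 (hD.ne t h2)
    omega
  rcases Nat.eq_zero_or_pos m with rfl | hm0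
  · refine key n (by omega) (hD.top f (fun t ht => ?_) hcoc (h1 rfl))
    obtain ⟨h2, h3, h4⟩ := hf t ht
    exact ⟨h2, h3, empty_subset _, by omega⟩
  · refine key (n - m) (by omega) (hD.low (n - m) (by omega) (by omega) f (fun t ht => ?_) hcoc)
    obtain ⟨h2, h3, h4⟩ := hf t ht
    exact ⟨h2, h3, empty_subset _, by omega⟩

/-- **the target complex is exact** -/
theorem mm_exact (hD : Dual K B mu n d) (i : ℕ) (hi : i ≤ d)
    (x : (Finset U × Finset U →₀ ZMod 2) × (Finset U →₀ ZMod 2)) (hx : x ∈ MM K B mu n i)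
    (h0 : DD K mu n x = 0) : ∃ y ∈ MM K B mu n (i + 1), DD K mu n y = x := by
  classical
  have hpsm := gen_psm hD
  obtain ⟨y, f⟩ := x
  have h0a : bdT (gen mu) n y = 0 := congrArg Prod.fst h0
  have h0b : coF K f = 0 := congrArg Prod.snd h0
  match i with
  | 0 =>
    obtain ⟨hy, hf⟩ := hx
    have hf0 : f = 0 := hf
    obtain ⟨f1, hf1, hf2, hf3⟩ := hD.ex
    have hf4 : ∀ t, f1 t ≠ 0 → t ∈ K ∧ t ∉ B ∧ t.card + 0 = n + 1 := fun t ht => by
      obtain ⟨h2, h3, -, h4⟩ := hf1 t ht
      exact ⟨h2, h3, by omega⟩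
    obtain ⟨y1, hy1, hy1f⟩ := exists_sec (mu := mu) hf4
    have h1 : coF K f1 = 0 := by
      ext t
      rw [coF_apply hD (fun t h => (hf1 t h).1)]
      by_cases htK : t ∈ K
      · rw [if_pos htK]
        by_cases htB : t ∈ B
        · refine sum_eq_zero fun v _ => ?_
          by_contra h
          obtain ⟨h3, h4, -⟩ := hf1 _ h
          exact h4 (hD.bd_down t htB _ (erase_subset _ _) (hD.ne _ h3))
        · have h2 := hf2 t htK htB (empty_subset t)
          rw [sdiff_empty] at h2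
          exact h2
      · rw [if_neg htK]
        rfl
    have h2 : ∑ᶠ t ∈ mu, al y1 t = 1 := by
      rw [← hf3]
      exact finsum_mem_congr rfl fun t ht => hy1f t (mu_gen hD ht)
    have h3 : y = Finsupp.single (∅, ∅) (y (∅, ∅)) := by
      ext e
      rw [Finsupp.single_apply]
      split_ifs with h
      · rw [h]
      · by_contra h4
        exact h ((Set.mem_singleton_iff.1 ((Finsupp.mem_supported _ _).1 hy
          (Finsupp.mem_support_iff.2 h4))).symm)
    refine ⟨y (∅, ∅) • (y1, f1), Submodule.smul_mem _ _ ⟨hy1, ?_, hy1f⟩, ?_⟩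
    · exact (Finsupp.mem_supported _ _).2 fun t ht => hf4 t (Finsupp.mem_support_iff.1 ht)
    · rw [map_smul]
      show y (∅, ∅) • ((bdT (gen mu) n y1, coF K f1) : _ × _) = (y, f)
      rw [h1, aug_eq hD hy1, h2, hf0, Prod.smul_mk, smul_zero, Finsupp.smul_single, smul_eq_mul,
        mul_one, ← h3]
  | m + 1 =>
    obtain ⟨hy, hf, hyf⟩ := hx
    simp only at hy hf hyf
    have hfs : ∀ t, f t ≠ 0 → t ∈ K ∧ t ∉ B ∧ t.card + m = n + 1 := fun t ht =>
      (Finsupp.mem_supported _ _).1 hf (Finsupp.mem_support_iff.2 ht)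
    obtain ⟨g, hg, hgf⟩ := exists_cob hD hi hfs h0b (by
      rintro rfl
      have h1 := aug_eq hD hy
      rw [h0a] at h1
      have h2 := DFunLike.congr_fun h1 ((∅, ∅) : Finset U × Finset U)
      rw [Finsupp.single_eq_same] at h2
      rw [← finsum_mem_congr rfl fun t ht => hyf t (mu_gen hD ht), ← h2]
      rfl)
    obtain ⟨y1, hy1, hy1g⟩ := exists_sec (mu := mu) hg
    have hby := bdT_mem hpsm hy1
    have hco : ∀ s t, s.Nonempty → bdT (gen mu) n y1 (s, t) = DP (gen mu) y1 (s, t) :=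
      fun s t hs => bdT_coeff hpsm hy1 hs
    obtain ⟨z, hz, hza, hzx⟩ := ker_exact hpsm (m := m) (n + 2) 0 (by omega) (y + bdT (gen mu) n y1)
      (Submodule.add_mem _ hy hby)
      (fun s t hs => by
        have h3 : DP (gen mu) y (s, t) = 0 := by
          rw [← bdT_coeff hpsm hy hs, h0a]
          rfl
        have h4 := DP_DP hpsm (y1 : Finset U × Finset U → ZMod 2) (t := t) hs
        by_cases h : s ⊆ t ∧ t ∈ gen mu
        · rw [DP_of h.1 h.2] at h3 h4 ⊢
          refine Eq.trans ?_ ((congrArg₂ (· + ·) h3 h4).trans (add_zero 0))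
          show _ = _ + _
          rw [← sum_add_distrib]
          refine sum_congr rfl fun w _ => ?_
          rw [Finsupp.add_apply, Finsupp.add_apply, hco _ _ (insert_nonempty _ _), hco _ _ hs]
          ring
        · exact DP_of_not h)
      (fun t ht => by
        rw [al_add', hyf t ht, al_bdT hpsm hy1 ht]
        have h3 : cob (al y1) t = f t := by
          rw [← hgf, coF_apply hD (fun t h => (hg t h).1), if_pos (gen_sub hD ht)]
          unfold cob
          refine sum_congr rfl fun v hv => ?_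
          by_cases hne : (t.erase v).Nonempty
          · exact hy1g _ (hpsm.down t ht _ (erase_subset _ _) hne)
          · rw [not_nonempty_iff_eq_empty] at hne
            rw [hne]
            have h4 : g ∅ = 0 := by
              by_contra h
              exact not_nonempty_empty (hD.ne _ (hg _ h).1)
            rw [h4]
            unfold al
            simp
        rw [h3]
        exact CharTwo.add_self_eq_zero _)
      (fun s t _ => Nat.zero_le _)
    refine ⟨(y1 + z, g), ⟨Submodule.add_mem _ hy1 hz, ?_, fun t ht => ?_⟩, ?_⟩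
    · exact (Finsupp.mem_supported _ _).2 fun t ht => hg t (Finsupp.mem_support_iff.1 ht)
    · show al (y1 + z) t = g t
      rw [al_add', hy1g t ht, hza, add_zero]
    · show ((bdT (gen mu) n (y1 + z), coF K g) : _ × _) = (y, f)
      rw [hgf]
      congr 1
      ext ⟨s, t⟩
      by_cases hs : s.Nonempty
      · rw [map_add, Finsupp.add_apply, bdT_coeff hpsm hz hs, hzx s t hs, Finsupp.add_apply,
          add_left_comm, CharTwo.add_self_eq_zero, add_zero]
      · have h5 : ∀ x ∈ TN (gen mu) (B ∩ gen mu) n (m + 1), x (s, t) = 0 := by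
          intro x hx
          by_contra h
          exact hs (tn_cell hx _ h).1
        rw [h5 y hy, h5 _ (bdT_mem hpsm (Submodule.add_mem _ hy1 hz))]

end Pool.Agent.S10
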