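import Pool.Agent.S9.Defs
import Pool.Agent.H19.Cub.Compl
import Pool.Agent.H37.TM.Defs

/-!
# Project S10: the dictionary between special cube complexes and finite sets with an action of `W`

`Q` is a cube complex with labelled edges, `R : Rac Q.graph W`. The group `W` acts from the right on the vertices of `Q`
through the completed involutions (`rx`). A label `v` is active at `w ∈ W` (`Act`) if it is a label at the vertex
`rx x₀ w`. The map `jj : Q.Cover x₀ → W` (product of the labels of a path) is a bijection onto the component of `1` in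
the graph of the active edges, and the deck group is the group of the elements of this component which fix `x₀`.
-/

set_option autoImplicit false
set_option linter.unusedSectionVars false

open Finset

namespace Pool.Agent.S10.DX

open Pool.Agent.S9 Pool.Agent.H19.Cub Pool.Agent.H37.TM Pool.Agent.H85.Fold

/-! ### Right actions -/

section Ra

variable {V : Type} {G : SimpleGraph V} {W : Type} [Group W] (R : Rac G W) {S : Type}
  {σ : V → S → S}

theorem ra_ex (h : IsAct G σ) : ∃ f : S → W → S, (∀ x, f x 1 = x) ∧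
    (∀ x w w', f x (w * w') = f (f x w) w') ∧ ∀ x v, f x (R.s v) = σ v x := by
  obtain ⟨F, hF⟩ := R.lift (Equiv.Perm S)
    (fun v => ⟨σ v, σ v, fun x => h.inv v x, fun x => h.inv v x⟩)
    (fun v => Equiv.ext fun x => h.inv v x)
    (fun u v huv => Equiv.ext fun x => h.comm u v huv x)
  refine ⟨fun x w => F w⁻¹ x, fun x => ?_, fun x w w' => ?_, fun x v => ?_⟩
  · show F 1⁻¹ x = x
    rw [inv_one, map_one]
    rfl
  · show F (w * w')⁻¹ x = F w'⁻¹ (F w⁻¹ x)
    rw [mul_inv_rev, map_mul]
    rfl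
  · show F (R.s v)⁻¹ x = σ v x
    rw [map_inv, hF]
    rfl

/-- the right action of `W` on a set with involutions -/
noncomputable def ra (h : IsAct G σ) : S → W → S := (ra_ex R h).choose

theorem ra_one (h : IsAct G σ) (x : S) : ra R h x 1 = x := (ra_ex R h).choose_spec.1 x

theorem ra_mul (h : IsAct G σ) (x : S) (w w' : W) : ra R h x (w * w') = ra R h (ra R h x w) w' :=
  (ra_ex R h).choose_spec.2.1 x w w'

theorem ra_s (h : IsAct G σ) (x : S) (v : V) : ra R h x (R.s v) = σ v x :=
  (ra_ex R h).choose_spec.2.2 x v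

theorem ra_inv (h : IsAct G σ) (x y : S) (w : W) (e : ra R h x w = y) : ra R h y w⁻¹ = x := by
  rw [← e, ← ra_mul, mul_inv_cancel, ra_one]

/-- a right action with the same values on the generators is `ra` -/
theorem ra_unique (h : IsAct G σ) (f : S → W → S) (h1 : ∀ x, f x 1 = x)
    (h2 : ∀ x w w', f x (w * w') = f (f x w) w') (h3 : ∀ x v, f x (R.s v) = σ v x) (x : S) (w : W) :
    f x w = ra R h x w := by
  have hw : w ∈ Subgroup.closure (Set.range R.s) := by rw [R.gen]; exact Subgroup.mem_top w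
  induction hw using Subgroup.closure_induction generalizing x with
  | mem w hw =>
    obtain ⟨v, rfl⟩ := hw
    rw [h3, ra_s]
  | one => rw [h1, ra_one]
  | mul a b _ _ ha hb => rw [h2, ra_mul, ha, hb]
  | inv a _ ha =>
    have e : f (f x a⁻¹) a = x := by rw [← h2, inv_mul_cancel, h1]
    rw [ha] at e
    exact (ra_inv R h _ _ _ e).symm

end Ra

/-! ### The right action on the vertices of `Q` -/

section Rx

variable {V X : Type} [DecidableEq V] {Q : CubeComplex V X} {W : Type} [Group W]
  (R : Rac Q.graph W)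

/-- the right action of `W` on the vertices of `Q` -/
noncomputable def rx (x : X) (w : W) : X := ra R Q.isSpec.isAct x w

theorem rx_one (x : X) : rx R x 1 = x := ra_one R _ x

theorem rx_mul (x : X) (w w' : W) : rx R x (w * w') = rx R (rx R x w) w' := ra_mul R _ x w w'

theorem rx_s (x : X) (v : V) : rx R x (R.s v) = Q.cs v x := ra_s R _ x v

theorem rx_mul_s (x : X) (w : W) (v : V) : rx R x (w * R.s v) = Q.cs v (rx R x w) := by
  rw [rx_mul, rx_s]

theorem rx_inv {x y : X} {w : W} (e : rx R x w = y) : rx R y w⁻¹ = x := ra_inv R _ x y w e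

/-- the homomorphism to the permutations whose kernel acts trivially -/
noncomputable def rxHom : W →* Equiv.Perm X where
  toFun w :=
    { toFun := fun x => rx R x w⁻¹
      invFun := fun x => rx R x w
      left_inv := fun x => by
        show rx R (rx R x w⁻¹) w = x
        rw [← rx_mul, inv_mul_cancel, rx_one]
      right_inv := fun x => by
        show rx R (rx R x w) w⁻¹ = x
        rw [← rx_mul, mul_inv_cancel, rx_one] }
  map_one' := Equiv.ext fun x => by
    show rx R x 1⁻¹ = x
    rw [inv_one, rx_one]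
  map_mul' a b := Equiv.ext fun x => by
    show rx R x (a * b)⁻¹ = rx R (rx R x b⁻¹) a⁻¹
    rw [mul_inv_rev, rx_mul]

theorem rxHom_apply (w : W) (x : X) : rxHom R w x = rx R x w⁻¹ := rfl

theorem rx_of_ker {g : W} (hg : rxHom R g = 1) (x : X) : rx R x g = x := by
  have h1 : rxHom R g⁻¹ = 1 := by rw [map_inv, hg, inv_one]
  have h2 : rxHom R g⁻¹ x = x := by rw [h1]; rfl
  rwa [rxHom_apply, inv_inv] at h2

/-- the label `v` is active at `w` -/
def Act (x₀ : X) (v : V) (w : W) : Prop := v ∈ Q.lab (rx R x₀ w)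

theorem mem_cs_self (v : V) (x : X) : v ∈ Q.lab (Q.cs v x) ↔ v ∈ Q.lab x := by
  by_cases hv : v ∈ Q.lab x
  · rw [Q.cs_of_mem hv]
    exact ⟨fun _ => hv, fun _ => Q.lab_nb v x hv⟩
  · rw [Q.cs_of_not_mem hv]

theorem mem_cs_adj {u v : V} (huv : Q.graph.Adj u v) (x : X) :
    v ∈ Q.lab (Q.cs u x) ↔ v ∈ Q.lab x := by
  by_cases hu : u ∈ Q.lab x
  · rw [Q.cs_of_mem hu]
    refine ⟨fun hv => ?_, fun hv => Q.lab_adj v u x huv.symm hv hu⟩
    have h2 := Q.lab_adj v u (Q.nb u x) huv.symm hv (Q.lab_nb u x hu)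
    rwa [Q.nb_nb u x hu] at h2
  · rw [Q.cs_of_not_mem hu]

theorem act_self {x₀ : X} (v : V) (w : W) : Act R x₀ v (w * R.s v) ↔ Act R x₀ v w := by
  unfold Act
  rw [rx_mul_s, mem_cs_self]

theorem act_adj {x₀ : X} {u v : V} (huv : Q.graph.Adj u v) (w : W) :
    Act R x₀ v (w * R.s u) ↔ Act R x₀ v w := by
  unfold Act
  rw [rx_mul_s, mem_cs_adj huv]

theorem act_left {x₀ : X} {g : W} (hg : rx R x₀ g = x₀) (v : V) (w : W) :
    Act R x₀ v (g * w) ↔ Act R x₀ v w := by
  unfold Act
  rw [rx_mul, hg]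

theorem act_base {x₀ : X} (g : W) (v : V) (w : W) :
    Act R x₀ v (g * w) ↔ Act R (rx R x₀ g) v w := by
  unfold Act
  rw [rx_mul]

/-- the cube spanned by the labels `A` at `w` is active -/
theorem act_cell {x₀ : X} {A : Finset V} {w : W} :
    (∀ v ∈ A, Act R x₀ v w) ↔ A ⊆ Q.lab (rx R x₀ w) := Iff.rfl

end Rx

/-! ### The universal cover -/

section Cov

variable {V X : Type} [DecidableEq V] {Q : CubeComplex V X} {W : Type} [Group W]
  (R : Rac Q.graph W)

/-- the product of the generators along a list of labels -/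
def wd {G : SimpleGraph V} (R : Rac G W) (l : List V) : W := (l.map R.s).prod

theorem wd_nil {G : SimpleGraph V} (R : Rac G W) : wd R [] = 1 := rfl

theorem wd_cons {G : SimpleGraph V} (R : Rac G W) (v : V) (l : List V) :
    wd R (v :: l) = R.s v * wd R l := by
  unfold wd
  rw [List.map_cons, List.prod_cons]

theorem wd_append {G : SimpleGraph V} (R : Rac G W) (a b : List V) :
    wd R (a ++ b) = wd R a * wd R b := by
  unfold wd
  rw [List.map_append, List.prod_append]

theorem wd_step {G : SimpleGraph V} (R : Rac G W) {l l' : List V} (h : Step G l l') :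
    wd R l = wd R l' := by
  cases h with
  | back a b v =>
    rw [wd_append, wd_append, wd_cons, wd_cons, ← mul_assoc (R.s v), R.sq, one_mul]
  | square a b u v h =>
    rw [wd_append, wd_append, wd_cons, wd_cons, wd_cons, wd_cons, ← mul_assoc (R.s u),
      ← mul_assoc (R.s v), R.comm u v h]

theorem rx_wd (x : X) (l : List V) (h : Q.IsPath x l) : rx R x (wd R l) = Q.fin x l := by
  induction l generalizing x with
  | nil => exact rx_one R x
  | cons v l ih =>
    rw [wd_cons, rx_mul, rx_s, Q.cs_of_mem h.1]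
    exact ih _ h.2

variable (x₀ : X)

/-- the base point of the universal cover -/
def bse (Q : CubeComplex V X) (x₀ : X) : Q.Cover x₀ := Quot.mk _ ⟨[], trivial⟩

/-- the end point in `W` of the path: the product of the labels -/
def jj : Q.Cover x₀ → W := Quot.lift (fun l => wd R l.1) fun _ _ h => wd_step R h

theorem jj_mk (l : {l : List V // Q.IsPath x₀ l}) : jj R x₀ (Quot.mk _ l) = wd R l.1 := rfl

theorem jj_base : jj R x₀ (bse Q x₀) = 1 := rfl

theorem proj_base : Q.proj x₀ (bse Q x₀) = x₀ := rfl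

theorem jj_nb {v : V} {c : Q.Cover x₀} (hv : v ∈ Q.lab (Q.proj x₀ c)) :
    jj R x₀ (Q.nbc x₀ v c) = jj R x₀ c * R.s v := by
  induction c using Quot.ind with
  | mk l =>
    have h' : v ∈ Q.lab (Q.fin x₀ l.1) := hv
    rw [Q.nbc_mk x₀ v l h', jj_mk, jj_mk, wd_append, wd_cons, wd_nil, mul_one]

theorem rx_jj (c : Q.Cover x₀) : rx R x₀ (jj R x₀ c) = Q.proj x₀ c := by
  induction c using Quot.ind with
  | mk l => exact rx_wd R x₀ l.1 l.2

/-- induction over the vertices of the universal cover -/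
theorem cov_ind {p : Q.Cover x₀ → Prop} (h0 : p (bse Q x₀))
    (h1 : ∀ (c : Q.Cover x₀) (v : V), v ∈ Q.lab (Q.proj x₀ c) → p c → p (Q.nbc x₀ v c))
    (c : Q.Cover x₀) : p c := by
  induction c using Quot.ind with
  | mk l =>
    obtain ⟨l, hl⟩ := l
    induction l using List.reverseRecOn with
    | nil => exact h0
    | append_singleton l v ih =>
      have h2 := (Q.isPath_append x₀ l [v]).1 hl
      have h3 := h1 (Quot.mk _ ⟨l, h2.1⟩) v h2.2.1 (ih h2.1)
      rw [Q.nbc_mk x₀ v ⟨l, h2.1⟩ h2.2.1] at h3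
      exact h3

/-- `W` acts on the universal cover (completion of the involutions); the base point is moved to `c` by `jj c` -/
theorem ra_jj (c : Q.Cover x₀) :
    ra R (G := Q.graph) (σ := (Q.cover x₀).cs) (Q.cover x₀).isSpec.isAct (bse Q x₀) (jj R x₀ c) = c := by
  induction c using cov_ind with
  | h0 => rw [jj_base, ra_one]
  | h1 c v hv ih =>
    rw [jj_nb R x₀ hv, ra_mul, ih, ra_s]
    exact (Q.cover x₀).cs_of_mem hv

theorem jj_inj : Function.Injective (jj R x₀ : Q.Cover x₀ → W) := fun c c' h => by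
  rw [← ra_jj R x₀ c, h, ra_jj]

/-! ### The component -/

/-- the active edges -/
def Edg (w w' : W) : Prop := ∃ v, Act R x₀ v w ∧ w' = w * R.s v

/-- `w` and `w'` are in the same component of the graph of the active edges -/
def Con (w w' : W) : Prop := Relation.ReflTransGen (Edg R x₀) w w'

theorem edg_symm {w w' : W} (h : Edg R x₀ w w') : Edg R x₀ w' w := by
  obtain ⟨v, h1, rfl⟩ := h
  exact ⟨v, (act_self R v w).2 h1, by rw [mul_assoc, R.sq, mul_one]⟩

theorem con_refl (w : W) : Con R x₀ w w := Relation.ReflTransGen.refl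

theorem con_symm {w w' : W} (h : Con R x₀ w w') : Con R x₀ w' w := by
  induction h with
  | refl => exact Relation.ReflTransGen.refl
  | tail _ h ih => exact Relation.ReflTransGen.head (edg_symm R x₀ h) ih

theorem con_trans {w w' w'' : W} (h : Con R x₀ w w') (h' : Con R x₀ w' w'') : Con R x₀ w w'' :=
  Relation.ReflTransGen.trans h h'

theorem con_s {w : W} {v : V} (h : Act R x₀ v w) : Con R x₀ w (w * R.s v) :=
  Relation.ReflTransGen.single ⟨v, h, rfl⟩

/-- translation of the components; the base point changes -/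
theorem con_left (g w w' : W) : Con R x₀ (g * w) (g * w') ↔ Con R (rx R x₀ g) w w' := by
  constructor
  · intro h
    have key : ∀ a b : W, Con R x₀ a b → Con R (rx R x₀ g) (g⁻¹ * a) (g⁻¹ * b) := by
      intro a b h
      induction h with
      | refl => exact Relation.ReflTransGen.refl
      | tail _ h ih =>
        obtain ⟨v, h1, rfl⟩ := h
        refine Relation.ReflTransGen.tail ih ⟨v, ?_, by rw [mul_assoc]⟩
        rw [← act_base, mul_inv_cancel_left]
        exact h1
    have h1 := key _ _ h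
    rwa [inv_mul_cancel_left, inv_mul_cancel_left] at h1
  · intro h
    induction h with
    | refl => exact Relation.ReflTransGen.refl
    | tail _ h ih =>
      obtain ⟨v, h1, rfl⟩ := h
      refine Relation.ReflTransGen.tail ih ⟨v, ?_, by rw [mul_assoc]⟩
      rw [act_base]
      exact h1

/-- the image of the universal cover is the component of `1` -/
theorem range_jj (w : W) : (∃ c : Q.Cover x₀, jj R x₀ c = w) ↔ Con R x₀ 1 w := by
  constructor
  · rintro ⟨c, rfl⟩
    induction c using cov_ind with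
    | h0 => exact con_refl R x₀ 1
    | h1 c v hv ih =>
      rw [jj_nb R x₀ hv]
      refine con_trans R x₀ ih (con_s R x₀ ?_)
      unfold Act
      rw [rx_jj]
      exact hv
  · intro h
    induction h with
    | refl => exact ⟨bse Q x₀, jj_base R x₀⟩
    | tail _ h ih =>
      obtain ⟨c, rfl⟩ := ih
      obtain ⟨v, h1, rfl⟩ := h
      have h2 : v ∈ Q.lab (Q.proj x₀ c) := by
        rw [← rx_jj R x₀ c]
        exact h1
      exact ⟨Q.nbc x₀ v c, jj_nb R x₀ h2⟩

/-- the component of `w` is `w` times the image of the universal cover with the base point `rx x₀ w` -/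
theorem comp_iff (w w' : W) : Con R x₀ w w' ↔ ∃ c : Q.Cover (rx R x₀ w), w * jj R (rx R x₀ w) c = w' := by
  have h1 : Con R x₀ (w * 1) (w * (w⁻¹ * w')) ↔ Con R (rx R x₀ w) 1 (w⁻¹ * w') :=
    con_left R x₀ w 1 (w⁻¹ * w')
  rw [mul_one, mul_inv_cancel_left] at h1
  rw [h1, ← range_jj]
  constructor
  · rintro ⟨c, hc⟩
    exact ⟨c, by rw [hc, mul_inv_cancel_left]⟩
  · rintro ⟨c, rfl⟩
    exact ⟨c, by rw [inv_mul_cancel_left]⟩

/-- the preimage of an element of the component -/
theorem exists_jj {w : W} (h : Con R x₀ 1 w) : ∃ c : Q.Cover x₀, jj R x₀ c = w := (range_jj R x₀ w).2 h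

/-- every component is a translate of the component of `1` by an element which fixes the base point, if `Q` is
connected -/
theorem comp_trans (hs : Function.Surjective (Q.proj x₀)) (w : W) :
    ∃ g : W, rx R x₀ g = x₀ ∧ Con R x₀ g w := by
  obtain ⟨c, hc⟩ := hs (rx R x₀ w)
  refine ⟨w * (jj R x₀ c)⁻¹, ?_, ?_⟩
  · rw [rx_mul]
    exact rx_inv R (by rw [rx_jj, hc])
  · have h1 : rx R x₀ (w * (jj R x₀ c)⁻¹) = x₀ := by
      rw [rx_mul]
      exact rx_inv R (by rw [rx_jj, hc])
    have h2 := (con_left R x₀ (w * (jj R x₀ c)⁻¹) 1 (jj R x₀ c)).2 (by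
      rw [h1]
      exact (range_jj R x₀ _).1 ⟨c, rfl⟩)
    rwa [mul_one, inv_mul_cancel_right] at h2

end Cov

/-! ### The deck group -/

section Deck

variable {V X : Type} [DecidableEq V] {Q : CubeComplex V X} {W : Type} [Group W]
  (R : Rac Q.graph W) (x₀ : X) {Γ : Type} [Group Γ] [MulAction Γ (Q.Cover x₀)]

theorem jj_smul (hΓ : IsDeck Γ Q x₀) (g : Γ) (c : Q.Cover x₀) :
    jj R x₀ (g • c) = jj R x₀ (g • bse Q x₀) * jj R x₀ c := by
  induction c using cov_ind with
  | h0 => rw [jj_base, mul_one]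
  | h1 c v hv ih =>
    rw [← hΓ.nb g v c hv, jj_nb R x₀ (by rw [hΓ.proj]; exact hv), ih, jj_nb R x₀ hv, mul_assoc]

/-- **the deck group** as a subgroup of `W` -/
def eta (hΓ : IsDeck Γ Q x₀) : Γ →* W where
  toFun g := jj R x₀ (g • bse Q x₀)
  map_one' := by rw [one_smul, jj_base]
  map_mul' g h := by rw [mul_smul, jj_smul R x₀ hΓ g (h • bse Q x₀)]

theorem eta_apply (hΓ : IsDeck Γ Q x₀) (g : Γ) : eta R x₀ hΓ g = jj R x₀ (g • bse Q x₀) := rfl

theorem jj_eta (hΓ : IsDeck Γ Q x₀) (g : Γ) (c : Q.Cover x₀) :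
    jj R x₀ (g • c) = eta R x₀ hΓ g * jj R x₀ c := jj_smul R x₀ hΓ g c

theorem eta_inj (hΓ : IsDeck Γ Q x₀) : Function.Injective (eta R x₀ hΓ) := by
  rw [injective_iff_map_eq_one]
  intro g hg
  refine hΓ.free g (bse Q x₀) (jj_inj R x₀ ?_)
  rw [← eta_apply R x₀ hΓ, hg, jj_base]

theorem rx_eta (hΓ : IsDeck Γ Q x₀) (g : Γ) : rx R x₀ (eta R x₀ hΓ g) = x₀ := by
  rw [eta_apply, rx_jj, hΓ.proj, proj_base]

theorem con_eta (hΓ : IsDeck Γ Q x₀) (g : Γ) : Con R x₀ 1 (eta R x₀ hΓ g) :=
  (range_jj R x₀ _).1 ⟨_, rfl⟩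

/-- the elements of the component of `1` which fix the base point -/
theorem range_eta (hΓ : IsDeck Γ Q x₀) (w : W) :
    w ∈ (eta R x₀ hΓ).range ↔ rx R x₀ w = x₀ ∧ Con R x₀ 1 w := by
  constructor
  · rintro ⟨g, rfl⟩
    exact ⟨rx_eta R x₀ hΓ g, con_eta R x₀ hΓ g⟩
  · rintro ⟨h1, h2⟩
    obtain ⟨c, rfl⟩ := exists_jj R x₀ h2
    rw [rx_jj] at h1
    obtain ⟨g, hg⟩ := hΓ.trans (bse Q x₀) c (by rw [h1, proj_base])
    exact ⟨g, by rw [eta_apply, hg]⟩

/-- two elements of the component of `1` over the same vertex -/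
theorem eta_trans (hΓ : IsDeck Γ Q x₀) {w w' : W} (h : Con R x₀ 1 w) (h' : Con R x₀ 1 w')
    (e : rx R x₀ w = rx R x₀ w') : ∃ g : Γ, w' = eta R x₀ hΓ g * w := by
  obtain ⟨c, rfl⟩ := exists_jj R x₀ h
  obtain ⟨c', rfl⟩ := exists_jj R x₀ h'
  rw [rx_jj, rx_jj] at e
  obtain ⟨g, rfl⟩ := hΓ.trans c c' e
  exact ⟨g, jj_eta R x₀ hΓ g c⟩

/-- an element which fixes the base point and maps some element of the component into it is in the deck group, and it
preserves the component -/
theorem stab_iff (hΓ : IsDeck Γ Q x₀) {p w : W} (hp : rx R x₀ p = x₀) (hw : Con R x₀ 1 w) :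
    Con R x₀ 1 (p * w) ↔ p ∈ (eta R x₀ hΓ).range := by
  constructor
  · intro h
    obtain ⟨g, hg⟩ := eta_trans R x₀ hΓ hw h (by rw [rx_mul, hp])
    exact ⟨g, (mul_right_cancel hg).symm⟩
  · intro h
    have h1 := (range_eta R x₀ hΓ p).1 h
    refine con_trans R x₀ h1.2 ?_
    have h2 := (con_left R x₀ p 1 w).2 (by rw [hp]; exact hw)
    rwa [mul_one] at h2

/-- the subgroup of the deck group which corresponds to a subgroup of `W` -/
def dk (hΓ : IsDeck Γ Q x₀) (P : Subgroup W) : Subgroup Γ := P.comap (eta R x₀ hΓ)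

instance dk_fin (hΓ : IsDeck Γ Q x₀) (P : Subgroup W) [P.FiniteIndex] :
    (dk R x₀ hΓ P).FiniteIndex := by
  refine ⟨?_⟩
  unfold dk
  rw [Subgroup.index_comap]
  have h : (P.subgroupOf (eta R x₀ hΓ).range).FiniteIndex := inferInstance
  exact h.index_ne_zero

instance dk_normal (hΓ : IsDeck Γ Q x₀) (P : Subgroup W) [P.Normal] : (dk R x₀ hΓ P).Normal := by
  unfold dk
  infer_instance

theorem mem_dk (hΓ : IsDeck Γ Q x₀) {P : Subgroup W} {g : Γ} :
    g ∈ dk R x₀ hΓ P ↔ eta R x₀ hΓ g ∈ P := Iff.rfl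

end Deck

end Pool.Agent.S10.DX
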