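import Pool.Agent.S10.DuPsi
import Pool.Agent.H65.RM.Equi

/-!
# Project S10D: chain maps from arbitrary free complexes to the complex of pairs of the cycle of a duality pair
-/

set_option autoImplicit false
set_option linter.unusedSectionVars false

open Finset Pointwise

namespace Pool.Agent.S10

open Pool.Agent.H37.TM

/-- `Psi` is an equivariant chain map from the complex with the cells `cell i`, the boundary `bd` and the
augmentation `ep` to the complex of pairs -/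
structure PsiG (Γ : Type) [Group Γ] {A U : Type} [MulAction Γ A] [DecidableEq U] [MulAction Γ U] (cell : ℕ → Set A)
    (bd : A → (A →₀ ZMod 2)) (ep : A → ZMod 2) (K B : Set (Finset U)) (n : ℕ)
    (Ψ : A → (Finset U × Finset U →₀ ZMod 2)) : Prop where
  mem : ∀ i, ∀ a ∈ cell i, Ψ a ∈ TN K B n (i + 1)
  smul : ∀ (g : Γ) i, ∀ a ∈ cell i, Ψ (g • a) = (Ψ a).mapDomain (g • ·)
  bd : ∀ i, ∀ a ∈ cell i, bdT K n (Ψ a) = Finsupp.single (∅, ∅) (ep a) + lin Ψ (bd a)

/-- the action on the target complex -/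
noncomputable def rhoG (Γ U : Type) [DecidableEq U] [Group Γ] [MulAction Γ U] :
    Γ →* (((Finset U × Finset U →₀ ZMod 2) × (Finset U →₀ ZMod 2)) →ₗ[ZMod 2]
      ((Finset U × Finset U →₀ ZMod 2) × (Finset U →₀ ZMod 2))) where
  toFun g := (Finsupp.lmapDomain (ZMod 2) (ZMod 2) (g • ·)).prodMap
    (Finsupp.lmapDomain (ZMod 2) (ZMod 2) (g • ·))
  map_one' := by
    have h1 : (fun x : Finset U × Finset U => (1 : Γ) • x) = id := funext fun x => one_smul Γ x
    have h2 : (fun x : Finset U => (1 : Γ) • x) = id := funext fun x => one_smul Γ x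
    rw [h1, h2, Finsupp.lmapDomain_id, Finsupp.lmapDomain_id]
    rfl
  map_mul' g h := by
    have h1 : (fun x : Finset U × Finset U => (g * h) • x) = (fun x => g • x) ∘ fun x => h • x :=
      funext fun x => mul_smul g h x
    have h2 : (fun x : Finset U => (g * h) • x) = (fun x => g • x) ∘ fun x => h • x :=
      funext fun x => mul_smul g h x
    rw [h1, h2, Finsupp.lmapDomain_comp, Finsupp.lmapDomain_comp]
    rfl

section

variable {U Γ : Type} [DecidableEq U] [Group Γ] [MulAction Γ U] {K B mu : Set (Finset U)} {n d : ℕ}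

theorem rhoG_fst (g : Γ) (x : (Finset U × Finset U →₀ ZMod 2) × (Finset U →₀ ZMod 2)) :
    (rhoG Γ U g x).1 = x.1.mapDomain (g • ·) := rfl

theorem rhoG_snd (g : Γ) (x : (Finset U × Finset U →₀ ZMod 2) × (Finset U →₀ ZMod 2)) :
    (rhoG Γ U g x).2 = x.2.mapDomain (g • ·) := rfl

theorem map_apply_inv {A : Type} [MulAction Γ A] (g : Γ) (x : A →₀ ZMod 2) (a : A) :
    x.mapDomain (g • ·) a = x (g⁻¹ • a) := by
  have h := Finsupp.mapDomain_apply (MulAction.injective g) x (g⁻¹ • a)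
  rwa [smul_inv_smul] at h

theorem al_map_inv (g : Γ) (y : Finset U × Finset U →₀ ZMod 2) (t : Finset U) :
    al (y.mapDomain (g • ·)) t = al y (g⁻¹ • t) := by
  unfold al
  have h1 : ∑ v ∈ g⁻¹ • t, y ({v}, g⁻¹ • t) = ∑ v ∈ t, y ({g⁻¹ • v}, g⁻¹ • t) := by
    have hsm : g⁻¹ • t = t.map ⟨fun u => g⁻¹ • u, MulAction.injective g⁻¹⟩ := by
      rw [Finset.map_eq_image]
      rfl
    conv_lhs => rw [hsm]
    rw [Finset.sum_map, ← hsm]
    rfl
  rw [h1]
  refine sum_congr rfl fun v _ => ?_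
  rw [map_apply_inv]
  show y (g⁻¹ • ({v} : Finset U), g⁻¹ • t) = _
  rw [Finset.smul_finset_singleton]

/-- the proper actions on the generated complex -/
theorem gen_pact (hD : Dual K B mu n d) (hA : Pool.Agent.H65.RM.PAct Γ K B)
    (hmu : ∀ (g : Γ) (s : Finset U), s ∈ mu → g • s ∈ mu) :
    Pool.Agent.H65.RM.PAct Γ (gen mu) (B ∩ gen mu) := by
  have h1 : ∀ (g : Γ) (s : Finset U), s ∈ gen mu → g • s ∈ gen mu := by
    rintro g s ⟨h1, t, ht, hst⟩
    exact ⟨h1.smul_finset, g • t, hmu g t ht, smul_finset_subset_smul_finset hst⟩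
  exact
    { K_mem := h1
      B_mem := fun g s hs => ⟨hA.B_mem g s hs.1, h1 g s hs.2⟩
      proper := fun u w hu => hA.proper u w (gen_sub hD hu) }

theorem coF_smulP (hA : Pool.Agent.H65.RM.PAct Γ K B) (g : Γ) (f : Finset U →₀ ZMod 2) :
    coF K (f.mapDomain (g • ·)) = (coF K f).mapDomain (g • ·) := by
  unfold coF
  rw [Pool.Agent.H65.RM.lin_mapDomain, Pool.Agent.H65.RM.mapDomain_lin]
  refine lin_congr fun τ _ => ?_
  rw [Finset.card_smul_finset, Pool.Agent.H65.RM.cofs_smul hA, Finset.sum_map,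
    Finsupp.mapDomain_finsetSum]
  refine sum_congr rfl fun t _ => ?_
  rw [Finsupp.mapDomain_single]
  rfl

theorem mm_smulP (hD : Dual K B mu n d) (hA : Pool.Agent.H65.RM.PAct Γ K B)
    (hmu : ∀ (g : Γ) (s : Finset U), s ∈ mu → g • s ∈ mu) (i : ℕ) (g : Γ)
    (x : (Finset U × Finset U →₀ ZMod 2) × (Finset U →₀ ZMod 2)) (hx : x ∈ MM K B mu n i) :
    rhoG Γ U g x ∈ MM K B mu n i := by
  have hA' := gen_pact hD hA hmu
  cases i with
  | zero =>
    obtain ⟨h1, h2⟩ := hx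
    refine ⟨Pool.Agent.H65.RM.tn_smul hA' g 0 x.1 h1, ?_⟩
    have h3 : x.2 = 0 := h2
    show x.2.mapDomain (g • ·) = 0
    rw [h3, Finsupp.mapDomain_zero]
  | succ m =>
    obtain ⟨h1, h2, h3⟩ := hx
    refine ⟨Pool.Agent.H65.RM.tn_smul hA' g (m + 1) x.1 h1, ?_, fun t ht => ?_⟩
    · rw [rhoG_snd]
      refine (Finsupp.mem_supported _ _).2 fun t ht => ?_
      have h4 := Finsupp.mem_support_iff.1 ht
      rw [map_apply_inv] at h4
      obtain ⟨h5, h6, h7⟩ := (Finsupp.mem_supported _ _).1 h2 (Finsupp.mem_support_iff.2 h4)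
      refine ⟨(Pool.Agent.H65.RM.smul_mem_iff hA g⁻¹ t).1 h5,
        fun h => h6 ((Pool.Agent.H65.RM.smul_memB_iff hA g⁻¹ t).2 h), ?_⟩
      rw [Finset.card_smul_finset] at h7
      exact h7
    · rw [rhoG_fst, rhoG_snd, al_map_inv, map_apply_inv]
      exact h3 _ (hA'.K_mem g⁻¹ t ht)

/-- **The chain map to the complex of pairs of the cycle of a duality pair**, from an arbitrary free complex. -/
theorem exists_psiG {A : Type} [MulAction Γ A] (cell : ℕ → Set A)
    (hcell : ∀ i, ∀ g : Γ, ∀ a ∈ cell i, g • a ∈ cell i)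
    (hdisj : ∀ i j, ∀ a ∈ cell i, a ∈ cell j → i = j)
    (hfree : ∀ i, ∀ a ∈ cell i, ∀ g : Γ, g • a = a → g = 1)
    (bd : A → (A →₀ ZMod 2)) (hbd : ∀ i, ∀ a ∈ cell (i + 1), ∀ b, bd a b ≠ 0 → b ∈ cell i)
    (hbd0 : ∀ a ∈ cell 0, bd a = 0)
    (hbdg : ∀ i, ∀ g : Γ, ∀ a ∈ cell i, bd (g • a) = (bd a).mapDomain (g • ·))
    (hbd2 : ∀ i, ∀ a ∈ cell i, lin bd (bd a) = 0)
    (ep : A → ZMod 2) (hep1 : ∀ i, ∀ a ∈ cell (i + 1), ep a = 0)
    (hepg : ∀ i, ∀ g : Γ, ∀ a ∈ cell i, ep (g • a) = ep a) (hepb : ∀ i, ∀ a ∈ cell i, lin ep (bd a) = 0)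
    (hD : Dual K B mu n d) (hA : Pool.Agent.H65.RM.PAct Γ K B)
    (hmu : ∀ (g : Γ) (s : Finset U), s ∈ mu → g • s ∈ mu)
    (hdim : ∀ i, (∃ a, a ∈ cell i) → i ≤ d) :
    ∃ Ψ : A → (Finset U × Finset U →₀ ZMod 2), PsiG Γ cell bd ep (gen mu) (B ∩ gen mu) n Ψ := by
  classical
  have hA' := gen_pact hD hA hmu
  let L : ZMod 2 →ₗ[ZMod 2] ((Finset U × Finset U →₀ ZMod 2) × (Finset U →₀ ZMod 2)) :=
    (Finsupp.lsingle ((∅ : Finset U), (∅ : Finset U))).prod 0
  have hL1 : ∀ c, (L c).1 = Finsupp.single (∅, ∅) c := fun c => rfl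
  have hL2 : ∀ c, (L c).2 = 0 := fun c => rfl
  obtain ⟨H, h1, h2, h3⟩ := lift_free (Γ := Γ) (A := A)
    (N := (Finset U × Finset U →₀ ZMod 2) × (Finset U →₀ ZMod 2)) cell hcell hdisj hfree bd hbd hbd0 hbdg hbd2
    (rhoG Γ U) (DD K mu n)
    (fun g x => by
      refine Prod.ext ?_ ?_
      · exact Pool.Agent.H65.RM.bdT_smul hA' g x.1
      · exact coF_smulP hA g x.2)
    (MM K B mu n) (fun i g x hx => mm_smulP hD hA hmu i g x hx)
    (fun i hi x hx h0 => mm_exact hD i (hdim i hi) x hx h0)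
    (fun a => L (ep a))
    (fun i a ha => by
      cases i with
      | zero =>
        exact ⟨Finsupp.single_mem_supported (ZMod 2) (ep a)
          (show ((∅ : Finset U), (∅ : Finset U)) ∈ TCell (gen mu) (B ∩ gen mu) n 0 from rfl), rfl⟩
      | succ i =>
        rw [hep1 i a ha, map_zero]
        exact Submodule.zero_mem _)
    (fun i g a ha => by
      rw [hepg i g a ha]
      refine Prod.ext ?_ ?_
      · rw [rhoG_fst, hL1, Finsupp.mapDomain_single]
        congr 1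
      · rw [rhoG_snd, hL2, Finsupp.mapDomain_zero])
    (fun i a ha => by
      have h4 : lin (fun a => L (ep a)) (bd a) = L (lin ep (bd a)) := (map_lin L).symm
      rw [h4, hepb i a ha, map_zero]
      refine Prod.ext ?_ ?_
      · change lin (bdE (gen mu) n) (Finsupp.single ((∅ : Finset U), (∅ : Finset U)) (ep a)) = 0
        unfold lin
        rw [Finsupp.linearCombination_single]
        unfold bdE
        rw [if_pos rfl, smul_zero]
      · exact map_zero (coF K))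
  refine ⟨fun a => (H a).1, ⟨fun i a ha => (h1 i a ha).1, fun g i a ha => ?_, fun i a ha => ?_⟩⟩
  · show (H (g • a)).1 = (H a).1.mapDomain (g • ·)
    rw [h2 i g a ha, rhoG_fst]
  · have h4 := congrArg Prod.fst (h3 i a ha)
    have h5 : (lin H (bd a)).1 = lin (fun a => (H a).1) (bd a) :=
      map_lin (LinearMap.fst (ZMod 2) (Finset U × Finset U →₀ ZMod 2) (Finset U →₀ ZMod 2))
    rw [Prod.fst_add, h5, hL1] at h4
    exact h4

end

end Pool.Agent.S10
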