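import Pool.Agent.S9.MCl

/-!
# Project S10, block M: the unstable relation with restricted modules on a manifold

As `Pool.Agent.S9.MCl`, but all coefficient modules are modules over a group `Φ`, restricted along `θ : Γ →* Φ`.
-/

set_option autoImplicit false
set_option linter.unusedSectionVars false

open Finset Pointwise

namespace Pool.Agent.S10

open Pool.Agent.H37.TM Pool.Agent.S9

/-- **Effaceability for tuples, restricted modules**: every `Γ`-equivariant cocycle of degree `k + 1` (on the lists with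
`k + 2` elements of the set `C`) with coefficients in the restriction of a triangular `Φ`-module becomes a coboundary in
a larger triangular `Φ`-module -/
def EffR (K : Type) [Field K] {Γ Φ : Type} [Group Γ] [Group Φ] (θ : Γ →* Φ) (C : Type)
    [MulAction Γ C] (Λ : Subgroup Kˣ) : Prop :=
  ∀ (k : ℕ) (E : Type) [AddCommGroup E] [Module K E] [FiniteDimensional K E]
    (ρ : Φ →* Module.End K E), Tri Λ ρ → ∀ x : List C → E, (∀ L, x L ≠ 0 → L.length = k + 2) →
    (∀ (g : Γ) L, x (L.map (g • ·)) = ρ (θ g) (x L)) → (∀ L, dT x L = 0) →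
    ∃ (E' : Type) (_ : AddCommGroup E') (_ : Module K E') (_ : FiniteDimensional K E')
      (ρ' : Φ →* Module.End K E') (ι : E →ₗ[K] E') (y : List C → E'),
      Tri Λ ρ' ∧ Function.Injective ι ∧ (∀ g e, ι (ρ g e) = ρ' g (ι e)) ∧
      (∀ L, y L ≠ 0 → L.length = k + 1) ∧ (∀ (g : Γ) L, y (L.map (g • ·)) = ρ' (θ g) (y L)) ∧
      ∀ L, L.length = k + 2 → dT y L = ι (x L)

variable {U Γ Φ : Type} [DecidableEq U] [Group Γ] [Group Φ] [MulAction Γ U]
  {M B : Set (Finset U)} {n : ℕ} {ht : U → ℕ} {C : Type} [MulAction Γ C] {K : Type} [Field K]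

/-- **The unstable relation**: `m - 1` is the order of the product, `i + j = n`, `j < i` -/
theorem claimR [CharP K 2] (hM : Psm M B n) (hA : MAct Γ M B n ht) {f : U → C} (hf : IsVMap Γ f)
    (θ : Γ →* Φ) (χ : Φ →* Kˣ) (hEff : EffR K θ C (sqr χ)) {c : ℕ}
    (m : ℕ) : ∀ (_ : c + m ≤ n) (N : Type) [AddCommGroup N] [Module K N] [FiniteDimensional K N]
      (rN : Φ →* Module.End K N) (_ : Tri (sqr χ) rN) (E : Type) [AddCommGroup E] [Module K E]
      [FiniteDimensional K E] (rE : Φ →* Module.End K E) (_ : Tri (sqr χ) rE)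
      (b : N →ₗ[K] N →ₗ[K] (E →ₗ[K] K)) (_ : ∀ n n' e, b n n' e = b n' n e)
      (_ : ∀ g n n' e, (χ g : K) ^ 2 * b (rN g n) (rN g n') (rE g e) = b n n' e)
      (x : List C → E) (_ : ∀ L, x L ≠ 0 → L.length = c + m + 1) (_ : TEq (rE.comp θ) x)
      (_ : ∀ L, dT x L = 0),
      ∃ (N' : Type) (_ : AddCommGroup N') (_ : Module K N') (_ : FiniteDimensional K N')
        (r' : Φ →* Module.End K N') (p : N' →ₗ[K] N), Tri (sqr χ) r' ∧ Function.Surjective p ∧
        (∀ g s, p (r' g s) = rN g (p s)) ∧
        ∀ a : Finset U → N', Rcc M B (χ.comp θ) (r'.comp θ) a →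
          ITM Γ M n ht f (c + m) x (cupB ht m b (fun t => p (a t)) fun t => p (a t)) = 0 := by
  induction m with
  | zero =>
    intro _ N _ _ _ rN hN E _ _ _ rE hE b hsym hb x hx1 hx2 hx3
    refine ⟨N, inferInstance, inferInstance, inferInstance, rN, LinearMap.id, hN, fun y => ⟨y, rfl⟩,
      fun _ _ => rfl, fun a ha => ?_⟩
    have h1 : (cupB ht 0 b (fun t => LinearMap.id (R := K) (a t)) fun t => LinearMap.id (R := K) (a t)) =
        fun _ => 0 := by
      funext t
      exact cupB_zero b _ ha.emp t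
    rw [h1]
    classical
    unfold ITM
    have h2 : (fun τ : Finset U => if τ ∈ M ∧ τ.card = n + 1 then
        gP ht (c + 0) (fun L => x (L.map f)) (fun _ => (0 : E →ₗ[K] K)) τ else 0) = fun _ => 0 := by
      funext τ
      split_ifs
      · by_contra h
        obtain ⟨t, _, h3⟩ := gP_ne_zero _ h
        exact h3 rfl
      · rfl
    rw [h2]
    unfold osum
    exact finsum_zero
  | succ m ih =>
    intro hcm N _ _ _ rN hN E _ _ _ rE hE b hsym hb x hx1 hx2 hx3
    obtain ⟨E', _, _, _, rE', ι, y, hE', hι, hιg, hy1, hy2, hy3⟩ := hEff (c + m) E rE hE x hx1 hx2 hx3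
    obtain ⟨N₁, _, _, _, r₁, p, E₁, _, _, _, rE₁, q, bt, b₁, h1, h2, h3, h4, h5, h6, h7, h8, h9, h10,
      h11⟩ := alg_step χ hN hE' ι hι hιg b hsym hb
    obtain ⟨N', _, _, _, r', p', g1, g2, g3, g4⟩ := ih (by omega) N₁ r₁ h1 E₁ rE₁ h2 b₁ h11 h10
      (fun L => q (y L)) (fun L hL => hy1 L fun h0 => hL (by
        show q (y L) = 0
        rw [h0, map_zero])) (fun γ L => by
        show q (y (L.map (γ • ·))) = rE₁ (θ γ) (q (y L))
        rw [hy2, h5]) (fun L => by
        have h12 := dT_hom q.toAddMonoidHom L y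
        by_cases hL : L.length = c + m + 2
        · rw [hy3 L hL] at h12
          refine h12.trans ?_
          exact h6 _
        · rw [show (fun L => q (y L)) = fun L => q.toAddMonoidHom (y L) from rfl, h12]
          rw [show dT y L = 0 from ?_, map_zero]
          refine (dT_congr L (y := fun _ => 0) fun l hl => ?_).trans (dT_zero L)
          by_contra h0
          exact hL (by have := hy1 l h0; omega))
    refine ⟨N', inferInstance, inferInstance, inferInstance, r', p.comp p', g1, h3.comp g2,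
      fun g s => ?_, fun a ha => ?_⟩
    · show p (p' (r' g s)) = rN g (p (p' s))
      rw [g3, h4]
    · have ha₁ : Rcc M B (χ.comp θ) (r₁.comp θ) fun τ => p' (a τ) := ha.map p' fun g s => g3 (θ g) s
      have e1 : ITM Γ M n ht f (c + (m + 1)) x (cupB ht (m + 1) b (fun t => p.comp p' (a t))
          fun t => p.comp p' (a t)) = ITM Γ M n ht f (c + m + 1) (dT y)
            (cupB ht (m + 1) bt (fun t => p' (a t)) fun t => p' (a t)) := by
        rw [ITM_comp (x := x) (x' := dT y) ι (fun L hL => hy3 L hL)]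
        refine ITM_congr fun τ _ _ t _ => ?_
        refine LinearMap.ext fun e => ?_
        unfold cupB
        rw [LinearMap.comp_apply, LinearMap.sum_apply, LinearMap.sum_apply]
        exact sum_congr rfl fun D _ => (h7 _ _ e).symm
      have hdt : DEq (rE'.comp θ) (cupB ht (m + 1) bt (fun t => p' (a t)) fun t => p' (a t)) :=
        ha₁.dEq hA (rE := rE'.comp θ) (fun g n n' e => h9 (θ g) n n' e) (m + 1)
      have hsup : SupC Γ M B (cupB ht (m + 1) bt (fun t => p' (a t)) fun t => p' (a t)) :=
        ha₁.sup.of_ne fun τ h => cupB_ne_zero h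
      rw [e1, ITM_stokes hM hA hf (ρ := rE'.comp θ) hy2 hdt hsup (by omega)]
      refine Eq.trans ?_ (g4 a ha)
      rw [ITM_comp (x := y) (x' := fun L => q (y L)) q (fun L _ => rfl)]
      refine ITM_congr fun τ hτ _ t ht' => ?_
      rw [cob_cupB m bt _ _ t ((hA.ht_inj τ hτ).mono (by exact_mod_cast ht'))
        (fun t' h' => ha₁.coc' hM hτ t' (h'.trans ht')) (fun t' h' => ha₁.coc' hM hτ t' (h'.trans ht'))]
      refine LinearMap.ext fun e => ?_
      unfold cupB
      rw [LinearMap.comp_apply, LinearMap.add_apply, LinearMap.sum_apply, LinearMap.sum_apply,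
        LinearMap.sum_apply, ← sum_add_distrib]
      exact sum_congr rfl fun D _ => (h8 _ _ e).symm

end Pool.Agent.S10
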