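import Pool.Agent.S10.DuPsi
import Pool.Agent.S10.MEnd

/-!
# Project S10D: the end on the manifold side for a duality pair
-/

set_option autoImplicit false
set_option linter.unusedSectionVars false

open Finset Pointwise

namespace Pool.Agent.S10

open Pool.Agent.H19.Cub Pool.Agent.H77.SX Pool.Agent.H37.TM Pool.Agent.S9 Pool.Agent.S9.U
  Pool.Agent.S9.M

section

variable {V X U Γ : Type} [DecidableEq V] [DecidableEq U] [Group Γ] [MulAction Γ U]
  {Q : CubeComplex V X} {x₀ : X} [MulAction Γ (Q.Cover x₀)] {bit : X → V → ZMod 2}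
  {K B mu : Set (Finset U)} {n d : ℕ}

/-- the action on the target complex -/
noncomputable def rhoD (Γ U : Type) [DecidableEq U] [Group Γ] [MulAction Γ U] :
    Γ →* (((Finset U × Finset U →₀ ZMod 2) × (Finset U →₀ ZMod 2)) →ₗ[ZMod 2]
      ((Finset U × Finset U →₀ ZMod 2) × (Finset U →₀ ZMod 2))) where
  toFun g := (rhoE Γ U g).prodMap (rhoM Γ (Finset U) (fun g e => g • e)
    (funext fun e => one_smul Γ e) (fun g h => funext fun e => mul_smul g h e) g)
  map_one' := by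
    rw [map_one, map_one]
    rfl
  map_mul' g h := by
    rw [map_mul, map_mul]
    rfl

theorem rhoD_fst (g : Γ) (x : (Finset U × Finset U →₀ ZMod 2) × (Finset U →₀ ZMod 2)) :
    (rhoD Γ U g x).1 = x.1.mapDomain (g • ·) := rfl

theorem rhoD_snd (g : Γ) (x : (Finset U × Finset U →₀ ZMod 2) × (Finset U →₀ ZMod 2)) :
    (rhoD Γ U g x).2 = x.2.mapDomain (g • ·) := rfl

theorem map_smul_apply {A : Type} [MulAction Γ A] (g : Γ) (x : A →₀ ZMod 2) (a : A) :
    x.mapDomain (g • ·) a = x (g⁻¹ • a) := by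
  have h := Finsupp.mapDomain_apply (MulAction.injective g) x (g⁻¹ • a)
  rwa [smul_inv_smul] at h

theorem al_map (g : Γ) (y : Finset U × Finset U →₀ ZMod 2) (t : Finset U) :
    al (y.mapDomain (g • ·)) t = al y (g⁻¹ • t) := by
  unfold al
  have h1 : ∑ v ∈ g⁻¹ • t, y ({v}, g⁻¹ • t) = ∑ v ∈ t, y ({g⁻¹ • v}, g⁻¹ • t) := by
    have hsm : g⁻¹ • t = t.map ⟨fun u => g⁻¹ • u, MulAction.injective g⁻¹⟩ := by
      rw [Finset.map_eq_image]
      rfl
    conv_lhs => rw [hsm]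
    rw [Finset.sum_map, ← hsm]
    rfl
  rw [h1]
  refine sum_congr rfl fun v _ => ?_
  rw [map_smul_apply]
  show y (g⁻¹ • ({v} : Finset U), g⁻¹ • t) = _
  rw [Finset.smul_finset_singleton]

theorem coF_smul (hA : SAct Γ K B) (g : Γ) (f : Finset U →₀ ZMod 2) :
    coF K (f.mapDomain (g • ·)) = (coF K f).mapDomain (g • ·) := by
  unfold coF
  rw [lin_mapDomain, mapDomain_lin]
  refine lin_congr fun τ _ => ?_
  rw [Finset.card_smul_finset, cofs_smul hA, Finset.sum_map, Finsupp.mapDomain_finsetSum]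
  refine sum_congr rfl fun t _ => ?_
  rw [Finsupp.mapDomain_single]
  rfl

theorem mm_smul (hD : Dual K B mu n d) (hA : SAct Γ K B)
    (hmu : ∀ (g : Γ) (s : Finset U), s ∈ mu → g • s ∈ mu) (i : ℕ) (g : Γ)
    (x : (Finset U × Finset U →₀ ZMod 2) × (Finset U →₀ ZMod 2)) (hx : x ∈ MM K B mu n i) :
    rhoD Γ U g x ∈ MM K B mu n i := by
  have hA' := gen_sact hD hA hmu
  cases i with
  | zero =>
    obtain ⟨h1, h2⟩ := hx
    refine ⟨tn_smul hA' g 0 x.1 h1, ?_⟩
    have h3 : x.2 = 0 := h2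
    show x.2.mapDomain (g • ·) = 0
    rw [h3, Finsupp.mapDomain_zero]
  | succ m =>
    obtain ⟨h1, h2, h3⟩ := hx
    refine ⟨tn_smul hA' g (m + 1) x.1 h1, ?_, fun t ht => ?_⟩
    · rw [rhoD_snd]
      refine (Finsupp.mem_supported _ _).2 fun t ht => ?_
      have h4 := Finsupp.mem_support_iff.1 ht
      rw [map_smul_apply] at h4
      obtain ⟨h5, h6, h7⟩ := (Finsupp.mem_supported _ _).1 h2 (Finsupp.mem_support_iff.2 h4)
      refine ⟨(smul_mem_iff hA g⁻¹ t).1 h5, fun h => h6 ((smul_memB_iff hA g⁻¹ t).2 h), ?_⟩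
      rw [Finset.card_smul_finset] at h7
      exact h7
    · rw [rhoD_fst, rhoD_snd, al_map, map_smul_apply]
      exact h3 _ (hA'.K_mem g⁻¹ t ht)

/-- **the chain map for a duality pair** -/
theorem exists_psiD (hbit : IsBit Q bit) (hΓ : IsDeck Γ Q x₀) (hd : DimLe Q d)
    (hD : Dual K B mu n d) (hA : SAct Γ K B) (hmu : ∀ (g : Γ) (s : Finset U), s ∈ mu → g • s ∈ mu) :
    ∃ Ψ : Q.Cover x₀ × Finset V → (Finset U × Finset U →₀ ZMod 2),
      IsPsi Γ Q x₀ bit (gen mu) (B ∩ gen mu) n Ψ := by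
  classical
  have hA' := gen_sact hD hA hmu
  let F : Finset V → (Finset U × Finset U →₀ ZMod 2) × (Finset U →₀ ZMod 2) :=
    fun σ => (if σ = ∅ then Finsupp.single (∅, ∅) 1 else 0, 0)
  have hF0 : F ∅ = (Finsupp.single (∅, ∅) 1, 0) := by
    show (if (∅ : Finset V) = ∅ then Finsupp.single (∅, ∅) 1 else 0, 0) = _
    rw [if_pos rfl]
  have hF1 : ∀ σ, σ ≠ ∅ → F σ = 0 := by
    intro σ hσ
    show (if σ = ∅ then Finsupp.single (∅, ∅) 1 else 0, 0) = _
    rw [if_neg hσ]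
    rfl
  obtain ⟨H, h1, h2, h3⟩ := lift_free (Γ := Γ) (A := Q.Cover x₀ × Finset V)
    (N := (Finset U × Finset U →₀ ZMod 2) × (Finset U →₀ ZMod 2)) (Cell Q x₀ bit)
    (fun i g e he => (cell_smul hΓ g e).2 he) cell_disj
    (fun i e _ g h => cu_free hΓ e g h) (bdD Q x₀)
    (fun i e he b hb => bdD_cell hbit he b hb) (fun e he => cell_zero he)
    (fun i g e he => bdD_smul hΓ g he) (fun i e he => bdD_bdD he)
    (rhoD Γ U) (DD K mu n)
    (fun g x => by
      refine Prod.ext ?_ ?_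
      · change bdT (gen mu) n (x.1.mapDomain (g • ·)) = (bdT (gen mu) n x.1).mapDomain (g • ·)
        change lin (bdE (gen mu) n) (x.1.mapDomain (g • ·)) =
          (lin (bdE (gen mu) n) x.1).mapDomain (g • ·)
        rw [lin_mapDomain, mapDomain_lin]
        exact lin_congr fun c _ => bdE_smul hA' g c
      · exact coF_smul hA g x.2)
    (MM K B mu n) (fun i g x hx => mm_smul hD hA hmu i g x hx)
    (fun i ⟨e, he⟩ x hx h0 => mm_exact hD i (he.2.2.1 ▸ hd _ _ he.1 he.2.1) x hx h0)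
    (fun e => F e.2)
    (fun i e he => by
      by_cases h : e.2 = ∅
      · have hi : i = 0 := by
          rw [← cell_card he, h, Finset.card_empty]
        subst hi
        rw [h, hF0]
        exact ⟨Finsupp.single_mem_supported (ZMod 2) (1 : ZMod 2)
          (show ((∅ : Finset U), (∅ : Finset U)) ∈ TCell (gen mu) (B ∩ gen mu) n 0 from rfl), rfl⟩
      · rw [hF1 _ h]
        exact Submodule.zero_mem _)
    (fun i g e he => by
      rw [cu_smul]
      dsimp only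
      by_cases h : e.2 = ∅
      · rw [h, hF0]
        refine Prod.ext ?_ ?_
        · change _ = (Finsupp.single ((∅ : Finset U), (∅ : Finset U)) (1 : ZMod 2)).mapDomain (g • ·)
          rw [Finsupp.mapDomain_single]
          congr 1
        · change (0 : Finset U →₀ ZMod 2) = (0 : Finset U →₀ ZMod 2).mapDomain (g • ·)
          rw [Finsupp.mapDomain_zero]
      · rw [hF1 _ h, map_zero])
    (fun i e he => by
      rw [lin_bdD_const F e]
      by_cases h : e.2 = ∅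
      · rw [h, hF0]
        refine Prod.ext ?_ ?_
        · change lin (bdE (gen mu) n) (Finsupp.single ((∅ : Finset U), (∅ : Finset U)) (1 : ZMod 2)) = 0
          rw [lin_single]
          unfold bdE
          rw [if_pos rfl]
        · exact map_zero (coF K)
      · rw [hF1 _ h, map_zero])
  refine ⟨fun e => (H e).1, fun i e he => (h1 i e he).1, fun g i e he => ?_, fun i e he => ?_⟩
  · show (H (g • e)).1 = (H e).1.mapDomain (g • ·)
    rw [h2 i g e he, rhoD_fst]
  · have h4 := congrArg Prod.fst (h3 i e he)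
    have h5 : (lin H (bdD Q x₀ e)).1 = lin (fun e => (H e).1) (bdD Q x₀ e) :=
      map_lin (LinearMap.fst (ZMod 2) (Finset U × Finset U →₀ ZMod 2) (Finset U →₀ ZMod 2))
    rw [Prod.fst_add, h5] at h4
    refine h4.trans ?_
    congr 1
    have h := cell_card he
    by_cases hi : i = 0
    · subst hi
      rw [if_pos rfl, Finset.card_eq_zero.1 h, hF0]
    · rw [if_neg hi, hF1]
      · rfl
      · intro h'
        rw [h', Finset.card_empty] at h
        exact hi h.symm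

end

variable {V X U Γ Φ : Type} [DecidableEq V] [DecidableEq U] [Group Γ] [Group Φ] [MulAction Γ U]
  {Q : CubeComplex V X} {x₀ : X} [MulAction Γ (Q.Cover x₀)] {bit : X → V → ZMod 2}
  {M B mu : Set (Finset U)} {n d : ℕ} {K : Type} [Field K] [Algebra (ZMod 2) K]

/-- **The end, for a pseudomanifold which is not subdivided.** -/
theorem m_psmR [Fintype V] [Fintype X] [CharP K 2] (hbit : IsBit Q bit) (hΓ : IsDeck Γ Q x₀)
    (hM : Psm M B n) (hA : SAct Γ M B) {Ψ : Q.Cover x₀ × Finset V → (Finset U × Finset U →₀ ZMod 2)}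
    (hΨ : IsPsi Γ Q x₀ bit M B n Ψ) (θ : Γ →* Φ) (χ : Φ →* Kˣ)
    (hEff : EffR K θ (Q.Cover x₀) (sqr χ)) {i : ℕ} (hi : n < 2 * i)
    {z₀ : Q.Cover x₀ × Finset V → K} (hz : CycN Q x₀ i z₀)
    (hzg : ∀ (γ : Γ) e, z₀ (γ • e) = (χ (θ γ) : K) * z₀ e) (hl : LiftsR θ Q x₀ χ i z₀)
    {x : List (Q.Cover x₀) → K} (hx : ∀ L, x L ≠ 0 → L.length = i + 1)
    (hxg : ∀ (γ : Γ) L, x (L.map (γ • ·)) = (im2 χ (θ γ) : K) * x L) (hxd : ∀ L, dT x L = 0) :
    osum Γ (fun e : Q.Cover x₀ × Finset V => open Classical in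
      if e ∈ Cell Q x₀ bit i then lin x (TT Q x₀ e) * z₀ e ^ 2 else 0) = 0 := by
  classical
  let iact : MulAction Γ (Sx M) :=
    { smul := fun g a => ⟨g • a.1, hA.K_mem g a.1 a.2⟩
      one_smul := fun a => Subtype.ext (one_smul Γ a.1)
      mul_smul := fun g h a => Subtype.ext (mul_smul g h a.1) }
  have hact : ∀ (g : Γ) (a : Sx M), (g • a).1 = g • a.1 := fun _ _ => rfl
  obtain ⟨φ, hφ, hφg⟩ := exists_phi hM hact hA.free
  by_cases hin : n < i
  · exact m_psi_gt hbit hΓ (sd_psm hM) (sd_mact hM hact hA.B_mem hA.free) sd_singleton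
      (sd_psi hM hφ hact hφg hΨ) (χ.comp θ) hin hz hzg (x := x) (fun γ L => hxg γ L) hxd
  exact m_psiR hbit hΓ (sd_psm hM) (sd_mact hM hact hA.B_mem hA.free) sd_singleton
    (sd_psi hM hφ hact hφg hΨ) θ χ hEff (i := i) (j := n - i) (by omega) (by omega) hz hzg hl
    hx hxg hxd

/-- **The end, for a duality pair.** -/
theorem m_dualR [Fintype V] [Fintype X] [CharP K 2] (hbit : IsBit Q bit) (hΓ : IsDeck Γ Q x₀)
    (hd : DimLe Q d) (hM : Dual M B mu n d) (hA : SAct Γ M B)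
    (hmu : ∀ (g : Γ) (s : Finset U), s ∈ mu → g • s ∈ mu) (θ : Γ →* Φ)
    (χ : Φ →* Kˣ)
    (hEff : EffR K θ (Q.Cover x₀) (sqr χ)) {i : ℕ} (hi : n < 2 * i)
    {z₀ : Q.Cover x₀ × Finset V → K} (hz : CycN Q x₀ i z₀)
    (hzg : ∀ (γ : Γ) e, z₀ (γ • e) = (χ (θ γ) : K) * z₀ e) (hl : LiftsR θ Q x₀ χ i z₀)
    {x : List (Q.Cover x₀) → K} (hx : ∀ L, x L ≠ 0 → L.length = i + 1)
    (hxg : ∀ (γ : Γ) L, x (L.map (γ • ·)) = (im2 χ (θ γ) : K) * x L) (hxd : ∀ L, dT x L = 0) :
    osum Γ (fun e : Q.Cover x₀ × Finset V => open Classical in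
      if e ∈ Cell Q x₀ bit i then lin x (TT Q x₀ e) * z₀ e ^ 2 else 0) = 0 := by
  obtain ⟨Ψ, hΨ⟩ := exists_psiD (Γ := Γ) (x₀ := x₀) (bit := bit) hbit hΓ hd hM hA hmu
  exact m_psmR hbit hΓ (gen_psm hM) (gen_sact hM hA hmu) hΨ θ χ hEff hi hz hzg hl hx hxg hxd

end Pool.Agent.S10
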