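/-
S10 (MP_ea75ba_gt, note 4276): integrality over an arbitrary start `Φ`, for every stable subspace
of the equivariant functions `T → W → F`.  helper27.
-/
import Pool.Agent.S9.IntAct
import Pool.Agent.S9.IntT
import Pool.Agent.S9.Tow

set_option autoImplicit false
set_option linter.unusedSectionVars false

open Finset

namespace Pool.Agent.S10

open Pool.Agent.S9 Module

section Up

variable {W : Type} [Group W]

/-- **the quotients of the tower have unique products** (arbitrary start) -/
theorem up_twr (Φ : Subgroup W) {N : Subgroup W} [N.Normal] {m : ℕ} (hN : N ≤ kr (twr Φ m))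
    (h : UniqueProds ((twr Φ m).map (QuotientGroup.mk' N))) {l : ℕ} (hl : l ≤ m) :
    UniqueProds ((twr Φ l).map (QuotientGroup.mk' N)) := by
  induction hl using Nat.decreasingInduction with
  | self => exact h
  | of_succ k hk ih => exact up_map (hN.trans (kr_mono (twr_anti Φ hk.le))) ih

/-- the quotient of the start by the kernel of the last term has unique products -/
theorem up_quot_twr (Φ : Subgroup W) {N : Subgroup W} [N.Normal] {m : ℕ} {A : Type} [Group A]
    [UniqueProds A] (ab : twr Φ m →* A) (hN : ∀ g : twr Φ m, (g : W) ∈ N ↔ ab g = 1)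
    (hN' : N ≤ kr (twr Φ m)) : UniqueProds (Φ ⧸ N.subgroupOf Φ) := by
  have h1 : UniqueProds (Φ.map (QuotientGroup.mk' N)) :=
    up_twr Φ hN' (up_last ab hN) (Nat.zero_le m)
  let p : Φ →* Φ.map (QuotientGroup.mk' N) := (QuotientGroup.mk' N).subgroupMap Φ
  have hk : N.subgroupOf Φ ≤ p.ker := by
    intro g hg
    exact Subtype.ext ((QuotientGroup.eq_one_iff (g : W)).2 (Subgroup.mem_subgroupOf.1 hg))
  let q : Φ ⧸ N.subgroupOf Φ →* Φ.map (QuotientGroup.mk' N) :=
    QuotientGroup.lift (N.subgroupOf Φ) p fun g hg => p.mem_ker.1 (hk hg)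
  refine UniqueProds.of_injective_mulHom (q : _ →ₙ* _) ?_ h1
  intro x y hxy
  rw [← inv_mul_eq_one]
  have h2 : q (x⁻¹ * y) = 1 := by
    rw [map_mul, map_inv]
    have : q x = q y := hxy
    rw [this, inv_mul_cancel]
  obtain ⟨g, hg⟩ := QuotientGroup.mk_surjective (x⁻¹ * y)
  rw [← hg] at h2 ⊢
  have h3 : (QuotientGroup.mk' N) (g : W) = 1 := congrArg Subtype.val h2
  exact (QuotientGroup.eq_one_iff g).2
    (Subgroup.mem_subgroupOf.2 ((QuotientGroup.eq_one_iff (g : W)).1 h3))

end Up

section Main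

variable {W : Type} [Group W] {F : Type} [Field F]

/-- the equivariant functions -/
def Eqv {Γ : Subgroup W} (χ : Γ →* Fˣ) {T : Type} (c : T → W → F) : Prop :=
  ∀ (t : T) (γ : Γ) (w : W), c t (γ * w) = (χ γ : F) * c t w

/-- the left action twisted by `σ` -/
def La (σ : W → F →+* F) (g : W) {T : Type} (c : T → W → F) : T → W → F :=
  fun t w => σ g (c t (g⁻¹ * w))

end Main

section Int

variable {W : Type} [Group W]

/-- **Integrality, arbitrary start.** -/
theorem int_stable (Φ : Subgroup W) [hΦ : Φ.Normal] (m : ℕ) [hf : (twr Φ m).FiniteIndex] {r : ℕ}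
    (ab : twr Φ m →* Multiplicative (Fin r → ℤ))
    (hab : Function.Surjective ab)
    (h0 : ∀ f : twr Φ m →* Multiplicative ℤ, ∀ g, ab g = 1 → f g = 1)
    (χ : twr Φ m →* (FractionRing (AddMonoidAlgebra (ZMod 2) (Fin r → ℤ)))ˣ)
    (hχ : ∀ γ, (χ γ : FractionRing (AddMonoidAlgebra (ZMod 2) (Fin r → ℤ))) =
      algebraMap _ _ (AddMonoidAlgebra.single (Multiplicative.toAdd (ab γ)) (1 : ZMod 2))) :
    ∃ σ : W → FractionRing (AddMonoidAlgebra (ZMod 2) (Fin r → ℤ)) →+*
        FractionRing (AddMonoidAlgebra (ZMod 2) (Fin r → ℤ)),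
      (∀ (T : Type) (g : W) (c : T → W → FractionRing (AddMonoidAlgebra (ZMod 2) (Fin r → ℤ))),
        Eqv χ c → Eqv χ (La σ g c)) ∧
      ∀ (T : Type) (S : Submodule (FractionRing (AddMonoidAlgebra (ZMod 2) (Fin r → ℤ)))
          (T → W → FractionRing (AddMonoidAlgebra (ZMod 2) (Fin r → ℤ)))),
        (∀ c ∈ S, Eqv χ c) → (∀ g ∈ Φ, ∀ c ∈ S, La σ g c ∈ S) →
        (twr Φ m).relIndex Φ ∣
          finrank (FractionRing (AddMonoidAlgebra (ZMod 2) (Fin r → ℤ))) S := by
  have hn : (twr Φ m).Normal := inferInstance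
  have hkz : (kr (twr Φ m)).Normal := inferInstanceAs (kz (twr Φ m)).Normal
  -- the kernel of `ab` is stable under the conjugations
  have hconj : ∀ (w : W) (γ : twr Φ m), ab γ = 1 → ab (MulAut.conjNormal w γ) = 1 := by
    intro w γ hγ
    have key : ∀ i : Fin r, Multiplicative.toAdd (ab (MulAut.conjNormal w γ)) i = 0 := by
      intro i
      let p : Multiplicative (Fin r → ℤ) →* Multiplicative ℤ :=
        AddMonoidHom.toMultiplicative (Pi.evalAddMonoidHom (fun _ : Fin r => ℤ) i)
      have := h0 ((p.comp ab).comp (MulAut.conjNormal w : MulAut (twr Φ m)).toMonoidHom) γ hγ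
      exact this
    apply Multiplicative.toAdd.injective
    funext i
    exact key i
  -- the kernel
  have hN : ∀ g : twr Φ m, (g : W) ∈ kr (twr Φ m) ↔ ab g = 1 := by
    intro g
    constructor
    · rintro ⟨_, h1⟩
      apply Multiplicative.toAdd.injective
      funext i
      let p : Multiplicative (Fin r → ℤ) →* Multiplicative ℤ :=
        AddMonoidHom.toMultiplicative (Pi.evalAddMonoidHom (fun _ : Fin r => ℤ) i)
      exact h1 (p.comp ab)
    · intro h1
      exact ⟨g.2, fun f => h0 f g h1⟩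
  have hup := up_quot_twr Φ ab hN le_rfl
  have hno : ((kr (twr Φ m)).subgroupOf Φ).Normal := inferInstance
  -- the ring isomorphism
  let e := AddMonoidAlgebra.toMultiplicative (ZMod 2) (Fin r → ℤ)
  let F := FractionRing (AddMonoidAlgebra (ZMod 2) (Fin r → ℤ))
  letI : Algebra (MonoidAlgebra (ZMod 2) (Multiplicative (Fin r → ℤ))) F :=
    ((algebraMap (AddMonoidAlgebra (ZMod 2) (Fin r → ℤ)) F).comp e.symm.toRingHom).toAlgebra
  haveI : IsFractionRing (MonoidAlgebra (ZMod 2) (Multiplicative (Fin r → ℤ))) F := by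
    have h1 := IsLocalization.isLocalization_of_base_ringEquiv
      (nonZeroDivisors (AddMonoidAlgebra (ZMod 2) (Fin r → ℤ))) F e
    have h2 : (nonZeroDivisors (AddMonoidAlgebra (ZMod 2) (Fin r → ℤ))).map e =
      nonZeroDivisors (MonoidAlgebra (ZMod 2) (Multiplicative (Fin r → ℤ))) :=
      MulEquivClass.map_nonZeroDivisors e
    rw [IsFractionRing, ← h2]
    exact h1
  have hχ' : ∀ γ, (χ γ : F) = algebraMap (MonoidAlgebra (ZMod 2) (Multiplicative (Fin r → ℤ))) F
      (MonoidAlgebra.single (ab γ) 1) := by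
    intro γ
    rw [hχ γ]
    change _ = algebraMap (AddMonoidAlgebra (ZMod 2) (Fin r → ℤ)) F
      (e.symm (MonoidAlgebra.single (ab γ) 1))
    congr 1
    rw [RingEquiv.eq_symm_apply]
    exact AddMonoidAlgebra.toMultiplicative_single _ _
  refine ⟨sigma ab hab hconj F, fun T g c hc t γ w => ?_, fun T S hS hst => ?_⟩
  · have hc' : ∀ (t : T) (γ : twr Φ m) (w : W), c t (γ * w) =
        algebraMap (MonoidAlgebra (ZMod 2) (Multiplicative (Fin r → ℤ))) F
          (MonoidAlgebra.single (ab γ) 1) * c t w := fun t γ w => by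
      rw [hc t γ w, hχ']
    rw [hχ']
    exact Lact_equiv ab hab hconj g c hc' t γ w
  · refine index_dvd_stable (K := F) ab hab hconj Φ (twr_le Φ m)
      (Subgroup.instFiniteIndex_subgroupOf (twr Φ m) Φ).index_ne_zero
      ((kr (twr Φ m)).subgroupOf Φ) (fun g => ?_) S (fun c hc t γ w => ?_) hst
    · rw [Subgroup.mem_subgroupOf]
      constructor
      · intro h1
        obtain ⟨h2, h3⟩ := h1
        exact ⟨h2, (hN ⟨g, h2⟩).1 ⟨h2, h3⟩⟩
      · rintro ⟨h2, h3⟩
        exact (hN ⟨g, h2⟩).2 h3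
    · rw [hS c hc t γ w, hχ']

end Int

end Pool.Agent.S10
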