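import Pool.Agent.S10.Emb
import Pool.Agent.S9.MG3

/-!
# Project S10, block M: cochains of the tuples and cochains of the cubes of the universal cover

`zq l c`: the vertex of the cube spanned by the labels `l` at `c` whose bits vanish on `l`; `Tq k x`: the restriction of
the cochain `x` of the tuples to the cubes.
-/

set_option autoImplicit false
set_option linter.unusedSectionVars false

open Finset

namespace Pool.Agent.S10

open Pool.Agent.H19.Cub Pool.Agent.H77.SX Pool.Agent.H37.TM Pool.Agent.S9 Pool.Agent.S9.U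
  Pool.Agent.S9.M

variable {V X Γ Φ : Type} [DecidableEq V] [Fintype V] [Group Γ] [Group Φ] {Q : CubeComplex V X} {x₀ : X}
  [MulAction Γ (Q.Cover x₀)] {bit : X → V → ZMod 2}

/-! ### the vertex with the bits zero -/

/-- `A` spans a cube at `c` -/
def Vd (Q : CubeComplex V X) (x₀ : X) (c : Q.Cover x₀) (A : Finset V) : Prop :=
  A ⊆ Q.lab (Q.proj x₀ c) ∧ Q.graph.IsClique (A : Set V)

theorem Vd.nbc {c : Q.Cover x₀} {A : Finset V} (h : Vd Q x₀ c A) {v : V} (hv : v ∈ A) :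
    Vd Q x₀ (Q.nbc x₀ v c) A := by
  refine ⟨fun u hu => ?_, h.2⟩
  by_cases huv : u = v
  · rw [huv]
    exact (Q.cover x₀).lab_nb v c (h.1 hv)
  · exact (Q.cover x₀).lab_adj u v c (h.2 (mem_coe.2 hu) (mem_coe.2 hv) huv) (h.1 hu) (h.1 hv)

theorem Vd.nn {c : Q.Cover x₀} {A : Finset V} (h : Vd Q x₀ c A) {v : V} (hv : v ∈ A) :
    Q.nbc x₀ v (Q.nbc x₀ v c) = c := (Q.cover x₀).nb_nb v c (h.1 hv)

theorem Vd.comm {c : Q.Cover x₀} {A : Finset V} (h : Vd Q x₀ c A) {u v : V} (hu : u ∈ A)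
    (hv : v ∈ A) : Q.nbc x₀ u (Q.nbc x₀ v c) = Q.nbc x₀ v (Q.nbc x₀ u c) := by
  by_cases huv : u = v
  · rw [huv]
  · exact (Q.cover x₀).nb_comm u v c (h.2 (mem_coe.2 hu) (mem_coe.2 hv) huv) (h.1 hu) (h.1 hv)

theorem Vd.sub {c : Q.Cover x₀} {A B : Finset V} (h : Vd Q x₀ c A) (hB : B ⊆ A) : Vd Q x₀ c B :=
  ⟨hB.trans h.1, h.2.subset (by exact_mod_cast hB)⟩

theorem Vd.bt {c : Q.Cover x₀} {A : Finset V} (h : Vd Q x₀ c A) (hbit : IsBit Q bit) {v : V}
    (hv : v ∈ A) (u : V) :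
    bit (Q.proj x₀ (Q.nbc x₀ v c)) u = bit (Q.proj x₀ c) u + if u = v then 1 else 0 := by
  rw [proj_nbc Q x₀ c (h.1 hv)]
  exact hbit v _ (h.1 hv) u

theorem Vd.smul {c : Q.Cover x₀} {A : Finset V} (hΓ : IsDeck Γ Q x₀) (g : Γ) :
    Vd Q x₀ (g • c) A ↔ Vd Q x₀ c A := by
  unfold Vd
  rw [hΓ.proj]

/-- the vertex whose bits vanish on `l` -/
noncomputable def zq (Q : CubeComplex V X) (x₀ : X) (bit : X → V → ZMod 2) : List V → Q.Cover x₀ → Q.Cover x₀
  | [], c => c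
  | v :: l, c => zq Q x₀ bit l (if bit (Q.proj x₀ c) v = 0 then c else Q.nbc x₀ v c)

theorem zq_cons (v : V) (l : List V) (c : Q.Cover x₀) : zq Q x₀ bit (v :: l) c =
    zq Q x₀ bit l (if bit (Q.proj x₀ c) v = 0 then c else Q.nbc x₀ v c) := rfl

private theorem z2 {a : ZMod 2} (h : ¬ a = 0) : a + 1 = 0 := by
  revert h
  revert a
  decide

private theorem z3 {a : ZMod 2} (h : a = 0) : ¬ a + 1 = 0 := by
  revert h
  revert a
  decide

/-- properties which do not change along the edges of the cube -/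
theorem zq_inv {Y : Type} (f : Q.Cover x₀ → Y) {A : Finset V}
    (hf : ∀ c, Vd Q x₀ c A → ∀ v ∈ A, f (Q.nbc x₀ v c) = f c) : ∀ (l : List V) (c : Q.Cover x₀),
    (∀ v ∈ l, v ∈ A) → Vd Q x₀ c A → f (zq Q x₀ bit l c) = f c ∧ Vd Q x₀ (zq Q x₀ bit l c) A
  | [], _, _, hc => ⟨rfl, hc⟩
  | v :: l, c, hl, hc => by
    have hv : v ∈ A := hl v List.mem_cons_self
    have hl' : ∀ u ∈ l, u ∈ A := fun u hu => hl u (List.mem_cons_of_mem v hu)
    rw [zq_cons]
    by_cases hb : bit (Q.proj x₀ c) v = 0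
    · rw [if_pos hb]
      exact zq_inv f hf l c hl' hc
    · rw [if_neg hb]
      have h1 := zq_inv f hf l (Q.nbc x₀ v c) hl' (hc.nbc hv)
      exact ⟨h1.1.trans (hf c hc v hv), h1.2⟩

theorem zq_bit (hbit : IsBit Q bit) {A : Finset V} : ∀ (l : List V) (c : Q.Cover x₀), l.Nodup →
    (∀ v ∈ l, v ∈ A) → Vd Q x₀ c A → ∀ u, bit (Q.proj x₀ (zq Q x₀ bit l c)) u =
      if u ∈ l then 0 else bit (Q.proj x₀ c) u
  | [], c, _, _, _, u => by
    rw [if_neg List.not_mem_nil]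
    rfl
  | v :: l, c, hn, hl, hc, u => by
    have hv : v ∈ A := hl v List.mem_cons_self
    have hl' : ∀ u ∈ l, u ∈ A := fun u hu => hl u (List.mem_cons_of_mem v hu)
    obtain ⟨hvl, hn'⟩ := List.nodup_cons.1 hn
    rw [zq_cons]
    by_cases hb : bit (Q.proj x₀ c) v = 0
    · rw [if_pos hb, zq_bit hbit l c hn' hl' hc u]
      by_cases hu : u ∈ l
      · rw [if_pos hu, if_pos (List.mem_cons_of_mem v hu)]
      · rw [if_neg hu]
        by_cases huv : u = v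
        · rw [huv, if_pos List.mem_cons_self, hb]
        · rw [if_neg fun h => (List.mem_cons.1 h).elim huv hu]
    · rw [if_neg hb, zq_bit hbit l _ hn' hl' (hc.nbc hv) u]
      by_cases hu : u ∈ l
      · rw [if_pos hu, if_pos (List.mem_cons_of_mem v hu)]
      · rw [if_neg hu, hc.bt hbit hv]
        by_cases huv : u = v
        · rw [huv, if_pos rfl, if_pos List.mem_cons_self]
          exact z2 hb
        · rw [if_neg huv, add_zero, if_neg fun h => (List.mem_cons.1 h).elim huv hu]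

theorem zq_of : ∀ (l : List V) (c : Q.Cover x₀), (∀ v ∈ l, bit (Q.proj x₀ c) v = 0) →
    zq Q x₀ bit l c = c
  | [], _, _ => rfl
  | v :: l, c, h => by
    rw [zq_cons, if_pos (h v List.mem_cons_self)]
    exact zq_of l c fun u hu => h u (List.mem_cons_of_mem v hu)

theorem zq_nbc (hbit : IsBit Q bit) {A : Finset V} {v : V} (hv : v ∈ A) : ∀ (l : List V)
    (c : Q.Cover x₀), (∀ v ∈ l, v ∈ A) → Vd Q x₀ c A → v ∈ l →
    zq Q x₀ bit l (Q.nbc x₀ v c) = zq Q x₀ bit l c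
  | u :: l, c, hl, hc, hvl => by
    have hu : u ∈ A := hl u List.mem_cons_self
    have hl' : ∀ u ∈ l, u ∈ A := fun w hw => hl w (List.mem_cons_of_mem u hw)
    rw [zq_cons, zq_cons, hc.bt hbit hv]
    by_cases huv : u = v
    · subst huv
      rw [if_pos rfl]
      by_cases hb : bit (Q.proj x₀ c) u = 0
      · rw [if_pos hb, if_neg (z3 hb), hc.nn hv]
      · rw [if_neg hb, if_pos (z2 hb)]
    · rw [if_neg huv, add_zero]
      have hvl' : v ∈ l := (List.mem_cons.1 hvl).elim (fun h => absurd h.symm huv) id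
      by_cases hb : bit (Q.proj x₀ c) u = 0
      · rw [if_pos hb, if_pos hb]
        exact zq_nbc hbit hv l c hl' hc hvl'
      · rw [if_neg hb, if_neg hb, hc.comm hu hv]
        exact zq_nbc hbit hv l (Q.nbc x₀ u c) hl' (hc.nbc hu) hvl'

theorem zq_smul (hΓ : IsDeck Γ Q x₀) (g : Γ) {A : Finset V} : ∀ (l : List V) (c : Q.Cover x₀),
    (∀ v ∈ l, v ∈ A) → Vd Q x₀ c A → zq Q x₀ bit l (g • c) = g • zq Q x₀ bit l c
  | [], _, _, _ => rfl
  | v :: l, c, hl, hc => by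
    have hv : v ∈ A := hl v List.mem_cons_self
    have hl' : ∀ u ∈ l, u ∈ A := fun u hu => hl u (List.mem_cons_of_mem v hu)
    rw [zq_cons, zq_cons, hΓ.proj]
    by_cases hb : bit (Q.proj x₀ c) v = 0
    · rw [if_pos hb, if_pos hb]
      exact zq_smul hΓ g l c hl' hc
    · rw [if_neg hb, if_neg hb, hΓ.nb g v c (hc.1 hv)]
      exact zq_smul hΓ g l _ hl' (hc.nbc hv)

/-- the cell of the cube `(c, A)` -/
noncomputable def zc (Q : CubeComplex V X) (x₀ : X) (bit : X → V → ZMod 2)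
    (e : Q.Cover x₀ × Finset V) : Q.Cover x₀ × Finset V := (zq Q x₀ bit e.2.toList e.1, e.2)

theorem zc_cell (hbit : IsBit Q bit) {e : Q.Cover x₀ × Finset V} (he : Vd Q x₀ e.1 e.2) :
    zc Q x₀ bit e ∈ Cell Q x₀ bit e.2.card := by
  have h1 := zq_inv (bit := bit) (fun _ => ()) (fun _ _ _ _ => rfl) e.2.toList e.1
    (fun v hv => mem_toList.1 hv) he
  refine ⟨h1.2.1, h1.2.2, rfl, fun v hv => ?_⟩
  show bit (Q.proj x₀ (zq Q x₀ bit e.2.toList e.1)) v = 0
  have hv' : v ∈ e.2.toList := mem_toList.2 hv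
  rw [zq_bit hbit e.2.toList e.1 (nodup_toList _) (fun v hv => mem_toList.1 hv) he v,
    if_pos hv']

theorem zc_of {e : Q.Cover x₀ × Finset V} (h : ∀ v ∈ e.2, bit (Q.proj x₀ e.1) v = 0) :
    zc Q x₀ bit e = e := by
  unfold zc
  rw [zq_of _ _ fun v hv => h v (mem_toList.1 hv)]

theorem zc_of_cell {k : ℕ} {e : Q.Cover x₀ × Finset V} (h : e ∈ Cell Q x₀ bit k) :
    zc Q x₀ bit e = e := zc_of h.2.2.2

theorem zc_nbc (hbit : IsBit Q bit) {c : Q.Cover x₀} {A : Finset V} (h : Vd Q x₀ c A) {v : V}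
    (hv : v ∈ A) : zc Q x₀ bit (Q.nbc x₀ v c, A) = zc Q x₀ bit (c, A) := by
  unfold zc
  show (zq Q x₀ bit A.toList (Q.nbc x₀ v c), A) = (zq Q x₀ bit A.toList c, A)
  rw [zq_nbc hbit hv A.toList c (fun v hv => mem_toList.1 hv) h (mem_toList.2 hv)]

theorem zc_smul (hΓ : IsDeck Γ Q x₀) (g : Γ) {e : Q.Cover x₀ × Finset V} (he : Vd Q x₀ e.1 e.2) :
    zc Q x₀ bit (g • e.1, e.2) = (g • (zc Q x₀ bit e).1, (zc Q x₀ bit e).2) := by
  unfold zc
  show (zq Q x₀ bit e.2.toList (g • e.1), e.2) = (g • zq Q x₀ bit e.2.toList e.1, e.2)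
  rw [zq_smul hΓ g e.2.toList e.1 (fun v hv => mem_toList.1 hv) he]

theorem zc_inv {Y : Type} (f : Q.Cover x₀ → Y) {A : Finset V}
    (hf : ∀ c, Vd Q x₀ c A → ∀ v ∈ A, f (Q.nbc x₀ v c) = f c) {c : Q.Cover x₀} (h : Vd Q x₀ c A) :
    f (zc Q x₀ bit (c, A)).1 = f c :=
  (zq_inv f hf A.toList c (fun v hv => mem_toList.1 hv) h).1

/-! ### the restriction of the cochains of the tuples -/

section Tst

variable {K : Type} [Field K] {E : Type} [AddCommGroup E] [Module K E] [Module (ZMod 2) E]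

open Classical in
/-- the restriction of a cochain of the tuples to the cubes of dimension `k` -/
noncomputable def Tq (Q : CubeComplex V X) (x₀ : X) (bit : X → V → ZMod 2) (k : ℕ)
    (x : List (Q.Cover x₀) → E) : Q.Cover x₀ × Finset V → E :=
  fun e => if Vd Q x₀ e.1 e.2 ∧ e.2.card = k then lin x (TT Q x₀ (zc Q x₀ bit e)) else 0

theorem Tq_pos {k : ℕ} (x : List (Q.Cover x₀) → E) {e : Q.Cover x₀ × Finset V}
    (h : Vd Q x₀ e.1 e.2) (hk : e.2.card = k) :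
    Tq Q x₀ bit k x e = lin x (TT Q x₀ (zc Q x₀ bit e)) := if_pos ⟨h, hk⟩

theorem Tq_cell {k : ℕ} (x : List (Q.Cover x₀) → E) {e : Q.Cover x₀ × Finset V}
    (he : e ∈ Cell Q x₀ bit k) : Tq Q x₀ bit k x e = lin x (TT Q x₀ e) := by
  rw [Tq_pos x ⟨he.1, he.2.1⟩ he.2.2.1, zc_of_cell he]

theorem Tq_CubC (hbit : IsBit Q bit) (hΓ : IsDeck Γ Q x₀) {k : ℕ} {x : List (Q.Cover x₀) → E}
    {θ : Γ →* Φ} {ρ : Φ →* Module.End K E}
    (hx : ∀ (g : Γ) L, x (L.map (g • ·)) = ρ (θ g) (x L)) :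
    CubC Q x₀ θ ρ k (Tq Q x₀ bit k x) := by
  classical
  refine ⟨fun e h => ?_, fun y σ hσ v hv => ?_, fun g e => ?_⟩
  · by_cases h1 : Vd Q x₀ e.1 e.2 ∧ e.2.card = k
    · exact ⟨h1.1.1, h1.1.2, h1.2⟩
    · exact absurd (if_neg h1) h
  · by_cases h : Q.graph.IsClique (σ : Set V) ∧ σ.card = k
    · have h1 : Vd Q x₀ y σ := ⟨hσ, h.1⟩
      rw [Tq_pos x (h1.nbc hv) h.2, Tq_pos x h1 h.2, zc_nbc hbit h1 hv]
    · have h1 : ∀ c : Q.Cover x₀, Tq Q x₀ bit k x (c, σ) = 0 := fun c =>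
        if_neg fun h' => h ⟨h'.1.2, h'.2⟩
      rw [h1, h1]
  · by_cases h : Vd Q x₀ e.1 e.2 ∧ e.2.card = k
    · rw [Tq_pos x (e := (g • e.1, e.2)) ((Vd.smul hΓ g).2 h.1) h.2, Tq_pos x h.1 h.2,
        zc_smul hΓ g h.1,
        TT_smul hΓ (zc_cell hbit h.1) g, lin_map]
      have h1 : (fun L => x (List.map (g • ·) L)) = fun L => zl (ρ (θ g)) (x L) :=
        funext fun L => hx g L
      rw [h1, ← map_lin]
      rfl
    · have h1 : Tq Q x₀ bit k x e = 0 := if_neg h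
      rw [h1, map_zero]
      exact if_neg fun h' => h ⟨(Vd.smul hΓ g).1 h'.1, h'.2⟩

theorem cbC_pos {N : Type} [AddCommGroup N] (c : Q.Cover x₀ × Finset V → N)
    {e : Q.Cover x₀ × Finset V} (h : Vd Q x₀ e.1 e.2) : cbC Q x₀ c e =
      ∑ v ∈ e.2, (c (e.1, e.2.erase v) + c (Q.nbc x₀ v e.1, e.2.erase v)) := if_pos h

theorem cbC_neg {N : Type} [AddCommGroup N] (c : Q.Cover x₀ × Finset V → N)
    {e : Q.Cover x₀ × Finset V} (h : ¬ Vd Q x₀ e.1 e.2) : cbC Q x₀ c e = 0 := if_neg h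

/-- the coboundary does not depend on the vertex of the cube -/
theorem cbC_nbc {N : Type} [AddCommGroup N] {c : Q.Cover x₀ × Finset V → N}
    (hc : ∀ y σ, σ ⊆ Q.lab (Q.proj x₀ y) → ∀ v ∈ σ, c (Q.nbc x₀ v y, σ) = c (y, σ))
    {y : Q.Cover x₀} {A : Finset V} (h : Vd Q x₀ y A) {v : V} (hv : v ∈ A) :
    cbC Q x₀ c (Q.nbc x₀ v y, A) = cbC Q x₀ c (y, A) := by
  rw [cbC_pos c (e := (Q.nbc x₀ v y, A)) (h.nbc hv), cbC_pos c (e := (y, A)) h]
  refine sum_congr rfl fun u hu => ?_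
  show c (Q.nbc x₀ v y, A.erase u) + c (Q.nbc x₀ u (Q.nbc x₀ v y), A.erase u) =
    c (y, A.erase u) + c (Q.nbc x₀ u y, A.erase u)
  by_cases huv : v = u
  · subst huv
    rw [h.nn hv, add_comm]
  · have h1 : v ∈ A.erase u := mem_erase.2 ⟨huv, hv⟩
    have h2 : A.erase u ⊆ Q.lab (Q.proj x₀ y) := (h.sub (erase_subset u A)).1
    have h3 : A.erase u ⊆ Q.lab (Q.proj x₀ (Q.nbc x₀ u y)) :=
      ((h.nbc hu).sub (erase_subset u A)).1
    rw [hc y _ h2 v h1, h.comm hu hv, hc _ _ h3 v h1]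

theorem lin_bdDQ {N : Type} [AddCommGroup N] [Module (ZMod 2) N]
    (F : Q.Cover x₀ × Finset V → N) (e : Q.Cover x₀ × Finset V) :
    lin F (bdD Q x₀ e) =
      ∑ v ∈ e.2, (F (e.1, e.2.erase v) + F (Q.nbc x₀ v e.1, e.2.erase v)) := by
  rw [bdD, map_sum]
  exact sum_congr rfl fun v _ => by rw [map_add, lin_single, lin_single]

/-- the restriction commutes with the coboundaries -/
theorem cbC_Tq (hbit : IsBit Q bit) (k : ℕ) (x : List (Q.Cover x₀) → E)
    (e : Q.Cover x₀ × Finset V) :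
    cbC Q x₀ (Tq Q x₀ bit k x) e = Tq Q x₀ bit (k + 1) (dT x) e := by
  classical
  have hc : ∀ y σ, σ ⊆ Q.lab (Q.proj x₀ y) → ∀ v ∈ σ,
      Tq Q x₀ bit k x (Q.nbc x₀ v y, σ) = Tq Q x₀ bit k x (y, σ) := by
    intro y σ hσ v hv
    by_cases h : Q.graph.IsClique (σ : Set V) ∧ σ.card = k
    · have h1 : Vd Q x₀ y σ := ⟨hσ, h.1⟩
      rw [Tq_pos x (h1.nbc hv) h.2, Tq_pos x h1 h.2, zc_nbc hbit h1 hv]
    · have h1 : ∀ c : Q.Cover x₀, Tq Q x₀ bit k x (c, σ) = 0 := fun c =>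
        if_neg fun h' => h ⟨h'.1.2, h'.2⟩
      rw [h1, h1]
  obtain ⟨c, A⟩ := e
  by_cases hA : Vd Q x₀ c A
  · by_cases hk : A.card = k + 1
    · rw [Tq_pos _ (e := (c, A)) hA hk,
        ← zc_inv (bit := bit) (fun y => cbC Q x₀ (Tq Q x₀ bit k x) (y, A))
          (fun _ hy _ hv => cbC_nbc hc hy hv) hA]
      have he := zc_cell hbit (e := (c, A)) hA
      set e' := zc Q x₀ bit (c, A) with he'
      have he2 : e'.2 = A := rfl
      rw [show (zc Q x₀ bit (c, A)).1 = e'.1 from rfl] at *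
      have he3 : e' ∈ Cell Q x₀ bit (k + 1) := by
        have h0 : (c, A).2.card = k + 1 := hk
        rwa [h0] at he
      have h2 : dT x = fun L => lin x (bdl L) := funext fun L => dT_eq x L
      have h3 : lin (fun L => lin x (bdl L)) (TT Q x₀ e') = lin x (BL (TT Q x₀ e')) := lin_lin
      have hv' : Vd Q x₀ e'.1 A := ⟨he3.1, he3.2.1⟩
      rw [h2, h3, BL_TT he3, if_neg (Nat.succ_ne_zero k), ← lin_lin, lin_bdDQ, he2,
        cbC_pos _ (e := (e'.1, A)) hv']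
      refine sum_congr rfl fun v hv => ?_
      have h5 : (A.erase v).card = k := by
        rw [card_erase_of_mem hv, hk]
        rfl
      have h6 : (e'.1, A.erase v) ∈ Cell Q x₀ bit k := ⟨(hv'.sub (erase_subset v A)).1,
        (hv'.sub (erase_subset v A)).2, h5, fun u hu => he3.2.2.2 u (mem_of_mem_erase hu)⟩
      have h7 : (Q.nbc x₀ v e'.1, A.erase v) ∈ Cell Q x₀ bit k := by
        refine ⟨((hv'.nbc hv).sub (erase_subset v A)).1, (hv'.sub (erase_subset v A)).2, h5,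
          fun u hu => ?_⟩
        obtain ⟨h8, h9⟩ := mem_erase.1 hu
        show bit (Q.proj x₀ (Q.nbc x₀ v e'.1)) u = 0
        rw [hv'.bt hbit hv, if_neg h8, add_zero]
        exact he3.2.2.2 u h9
      rw [Tq_cell x h6, Tq_cell x h7]
    · have h1 : Tq Q x₀ bit (k + 1) (dT x) (c, A) = 0 := if_neg fun h => hk h.2
      rw [h1, cbC_pos _ (e := (c, A)) hA]
      refine sum_eq_zero fun v hv => ?_
      have h3 : ∀ y : Q.Cover x₀, Tq Q x₀ bit k x (y, A.erase v) = 0 := fun y => if_neg (by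
        rintro ⟨-, h4⟩
        apply hk
        have hv' : v ∈ A := hv
        have h5 : (A.erase v).card = k := h4
        rw [card_erase_of_mem hv'] at h5
        have h6 : 0 < A.card := card_pos.2 ⟨v, hv'⟩
        omega)
      show Tq Q x₀ bit k x (c, A.erase v) + Tq Q x₀ bit k x (Q.nbc x₀ v c, A.erase v) = 0
      rw [h3, h3, add_zero]
  · have h1 : Tq Q x₀ bit (k + 1) (dT x) (c, A) = 0 := if_neg fun h => hA h.1
    rw [h1]
    exact cbC_neg _ hA

end Tst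

end Pool.Agent.S10
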