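import Pool.Agent.S10.Defs
import Pool.Agent.S10.Dic
import Pool.Agent.S10.MEnd

/-!
# Project S10, block M: the universal cover of a level in the right-angled Coxeter group, cochains on its cubes

`IsEmb`: the universal cover of the labelled complex `Q`, with a group `Γ`, is a component of the active subcomplex with
its stabilizer. `CubC`: equivariant cochains (or chains) on the cubes of the universal cover, with coefficients in a module
of the larger group `Φ`. `EffC`: effaceability for them. `NQ`, `dQ`, `MQ`: the augmented cubical chain complex of the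
universal cover.
-/

set_option autoImplicit false
set_option linter.unusedSectionVars false

open Finset

namespace Pool.Agent.S10

open Pool.Agent.H19.Cub Pool.Agent.H77.SX Pool.Agent.H37.TM Pool.Agent.S9 Pool.Agent.S9.U
  Pool.Agent.S9.M

/-- the universal cover of `Q` with the action of `Γ` is a component of the active subcomplex of the Davis complex,
with its stabilizer in `Φ` -/
structure IsEmb {V X Γ W : Type} [DecidableEq V] [Group Γ] [Group W] (Q : CubeComplex V X)
    (R : Rac Q.graph W) (Φ : Subgroup W) (act : V → W → Prop) (x₀ : X)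
    [MulAction Γ (Q.Cover x₀)] (θ : Γ →* Φ) (j : Q.Cover x₀ → W) : Prop where
  nb : ∀ c v, v ∈ Q.lab (Q.proj x₀ c) → j (Q.nbc x₀ v c) = j c * R.s v
  act : ∀ c v, act v (j c) ↔ v ∈ Q.lab (Q.proj x₀ c)
  smul : ∀ (g : Γ) c, j (g • c) = (θ g : W) * j c
  sep : ∀ (φ : Φ) c c', (φ : W) * j c = j c' → ∃ g : Γ, θ g = φ ∧ g • c = c'

section Cub

variable {V X Γ Φ : Type} [DecidableEq V] [Group Γ] [Group Φ] (Q : CubeComplex V X) (x₀ : X)
  [MulAction Γ (Q.Cover x₀)] {K : Type} [Field K] {E : Type} [AddCommGroup E] [Module K E]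

/-- equivariant cochains of degree `k` on the cubes of the universal cover -/
structure CubC (θ : Γ →* Φ) (ρ : Φ →* Module.End K E) (k : ℕ) (c : Q.Cover x₀ × Finset V → E) :
    Prop where
  valid : ∀ e, c e ≠ 0 → e.2 ⊆ Q.lab (Q.proj x₀ e.1) ∧ Q.graph.IsClique (e.2 : Set V) ∧
    e.2.card = k
  nb : ∀ y σ, σ ⊆ Q.lab (Q.proj x₀ y) → ∀ v ∈ σ, c (Q.nbc x₀ v y, σ) = c (y, σ)
  smul : ∀ (g : Γ) (e : Q.Cover x₀ × Finset V), c (g • e.1, e.2) = ρ (θ g) (c e)

open Classical in
/-- the coboundary -/
noncomputable def cbC (c : Q.Cover x₀ × Finset V → E) (e : Q.Cover x₀ × Finset V) : E :=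
  if e.2 ⊆ Q.lab (Q.proj x₀ e.1) ∧ Q.graph.IsClique (e.2 : Set V) then
    ∑ v ∈ e.2, (c (e.1, e.2.erase v) + c (Q.nbc x₀ v e.1, e.2.erase v)) else 0

/-- effaceability for the cochains on the cubes of the universal cover -/
def EffC (K : Type) [Field K] (θ : Γ →* Φ) (Λ : Subgroup Kˣ) : Prop :=
  ∀ (k : ℕ) (E : Type) [AddCommGroup E] [Module K E] [FiniteDimensional K E]
    (ρ : Φ →* Module.End K E), Tri Λ ρ → ∀ x : Q.Cover x₀ × Finset V → E,
    CubC Q x₀ θ ρ (k + 1) x → (∀ e, cbC Q x₀ x e = 0) →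
    ∃ (E' : Type) (_ : AddCommGroup E') (_ : Module K E') (_ : FiniteDimensional K E')
      (ρ' : Φ →* Module.End K E') (ι : E →ₗ[K] E') (y : Q.Cover x₀ × Finset V → E'),
      Tri Λ ρ' ∧ Function.Injective ι ∧ (∀ g e, ι (ρ g e) = ρ' g (ι e)) ∧
      CubC Q x₀ θ ρ' k y ∧ ∀ e, cbC Q x₀ y e = ι (x e)

end Cub

section Aug

variable {V X : Type} [DecidableEq V] (Q : CubeComplex V X) (x₀ : X) (bit : X → V → ZMod 2)

/-- the chains of the augmented cubical complex of the universal cover: `none` is the augmentation cell -/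
abbrev NQ : Type := Option (Q.Cover x₀ × Finset V) →₀ ZMod 2

/-- the boundary of a cell of the augmented complex -/
noncomputable def dQ1 : Option (Q.Cover x₀ × Finset V) → NQ Q x₀
  | none => 0
  | some e => if e.2 = ∅ then Finsupp.single none 1 else (bdD Q x₀ e).mapDomain some

theorem dQ1_empty {e : Q.Cover x₀ × Finset V} (h : e.2 = ∅) :
    dQ1 Q x₀ (some e) = Finsupp.single none 1 := if_pos h

/-- the boundary of the augmented complex -/
noncomputable def dQ : NQ Q x₀ →ₗ[ZMod 2] NQ Q x₀ := lin (dQ1 Q x₀)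

/-- the chains of degree `i - 1` of the augmented complex -/
noncomputable def MQ : ℕ → Submodule (ZMod 2) (NQ Q x₀)
  | 0 => Finsupp.supported (ZMod 2) (ZMod 2) {none}
  | i + 1 => Finsupp.supported (ZMod 2) (ZMod 2) (some '' Cell Q x₀ bit i)

end Aug

end Pool.Agent.S10
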