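import Pool.Agent.S10.Emb
import Pool.Agent.H37.TM.StarC

/-!
# Project S10, block M: the augmented cubical chains of the universal cover and the tuples

`rhoQ`: the action of the deck group on the augmented cubical chains `NQ`. If this complex is exact (`ExQ`), there is an
equivariant chain map `S` from the tuples to the cubes (`exists_S`) and an equivariant homotopy between the identity and
the composition of the subdivision `TT` with `S` (`exists_Hm`).
-/

set_option autoImplicit false
set_option linter.unusedSectionVars false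

open Finset

namespace Pool.Agent.S10

open Pool.Agent.H19.Cub Pool.Agent.H77.SX Pool.Agent.H37.TM

section

variable {V X Γ : Type} [DecidableEq V] [Group Γ] (Q : CubeComplex V X) (x₀ : X)
  [MulAction Γ (Q.Cover x₀)]

/-- the action on the cells of the augmented complex -/
private noncomputable def aQ (g : Γ) :
    Option (Q.Cover x₀ × Finset V) → Option (Q.Cover x₀ × Finset V) :=
  Option.map fun e => (g • e.1, e.2)

private theorem aQ_one : aQ Q x₀ (1 : Γ) = id := by
  funext a
  cases a with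
  | none => rfl
  | some e =>
    show some ((1 : Γ) • e.1, e.2) = some e
    rw [one_smul]

private theorem aQ_mul (g h : Γ) : aQ Q x₀ (g * h) = aQ Q x₀ g ∘ aQ Q x₀ h := by
  funext a
  cases a with
  | none => rfl
  | some e =>
    show some ((g * h) • e.1, e.2) = some (g • h • e.1, e.2)
    rw [mul_smul]

/-- the action on the chains of the augmented complex -/
noncomputable def rhoQ : Γ →* (NQ Q x₀ →ₗ[ZMod 2] NQ Q x₀) where
  toFun g := Finsupp.lmapDomain (ZMod 2) (ZMod 2) (Option.map fun e => (g • e.1, e.2))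
  map_one' := by
    refine LinearMap.ext fun x => ?_
    show x.mapDomain (aQ Q x₀ (1 : Γ)) = x
    rw [aQ_one, Finsupp.mapDomain_id]
  map_mul' g h := by
    refine LinearMap.ext fun x => ?_
    show x.mapDomain (aQ Q x₀ (g * h)) = (x.mapDomain (aQ Q x₀ h)).mapDomain (aQ Q x₀ g)
    rw [aQ_mul, Finsupp.mapDomain_comp]

theorem rhoQ_apply (g : Γ) (x : NQ Q x₀) :
    rhoQ Q x₀ g x = x.mapDomain (Option.map fun e => (g • e.1, e.2)) := rfl

private theorem rhoQ_apply' (g : Γ) (x : NQ Q x₀) : rhoQ Q x₀ g x = x.mapDomain (aQ Q x₀ g) := rfl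

private theorem rhoQ_single' (g : Γ) (a : Option (Q.Cover x₀ × Finset V)) :
    rhoQ Q x₀ g (Finsupp.single a 1) = Finsupp.single (aQ Q x₀ g a) 1 := by
  rw [rhoQ_apply', Finsupp.mapDomain_single]

theorem rhoQ_none (g : Γ) : rhoQ Q x₀ g (Finsupp.single none 1) = Finsupp.single none 1 :=
  rhoQ_single' Q x₀ g none

theorem rhoQ_some (g : Γ) (e : Q.Cover x₀ × Finset V) :
    rhoQ Q x₀ g (Finsupp.single (some e) 1) = Finsupp.single (some (g • e.1, e.2)) 1 :=
  rhoQ_single' Q x₀ g (some e)

variable {Q x₀}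

theorem nbc_smul (hΓ : IsDeck Γ Q x₀) (g : Γ) (v : V) (c : Q.Cover x₀) :
    Q.nbc x₀ v (g • c) = g • Q.nbc x₀ v c := by
  by_cases h : v ∈ Q.lab (Q.proj x₀ c)
  · exact hΓ.nb g v c h
  · rw [nbc_of_notMem h, nbc_of_notMem]
    rwa [hΓ.proj]

theorem bdD_smul (hΓ : IsDeck Γ Q x₀) (g : Γ) (e : Q.Cover x₀ × Finset V) :
    bdD Q x₀ (g • e.1, e.2) = (bdD Q x₀ e).mapDomain fun e => (g • e.1, e.2) := by
  unfold bdD
  rw [show (Finsupp.mapDomain (fun e : Q.Cover x₀ × Finset V => (g • e.1, e.2))
      (∑ v ∈ e.2, (Finsupp.single (e.1, e.2.erase v) (1 : ZMod 2) +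
        Finsupp.single (Q.nbc x₀ v e.1, e.2.erase v) 1))) =
      Finsupp.lmapDomain (ZMod 2) (ZMod 2) (fun e : Q.Cover x₀ × Finset V => (g • e.1, e.2))
      (∑ v ∈ e.2, (Finsupp.single (e.1, e.2.erase v) (1 : ZMod 2) +
        Finsupp.single (Q.nbc x₀ v e.1, e.2.erase v) 1)) from rfl, map_sum]
  refine sum_congr rfl fun v _ => ?_
  rw [map_add, Finsupp.lmapDomain_apply, Finsupp.lmapDomain_apply, Finsupp.mapDomain_single,
    Finsupp.mapDomain_single, nbc_smul hΓ]

private theorem dQ1_rho (hΓ : IsDeck Γ Q x₀) (g : Γ) (a : Option (Q.Cover x₀ × Finset V)) :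
    dQ1 Q x₀ (aQ Q x₀ g a) = rhoQ Q x₀ g (dQ1 Q x₀ a) := by
  cases a with
  | none => exact (map_zero _).symm
  | some e =>
    show (if e.2 = ∅ then Finsupp.single none 1 else
      (bdD Q x₀ (g • e.1, e.2)).mapDomain some) =
      rhoQ Q x₀ g (if e.2 = ∅ then Finsupp.single none 1 else (bdD Q x₀ e).mapDomain some)
    by_cases h : e.2 = ∅
    · rw [if_pos h, if_pos h, rhoQ_none]
    · rw [if_neg h, if_neg h, bdD_smul hΓ, rhoQ_apply', ← Finsupp.mapDomain_comp,
        ← Finsupp.mapDomain_comp]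
      rfl

/-- the boundary is equivariant -/
theorem dQ_rho (hΓ : IsDeck Γ Q x₀) (g : Γ) (x : NQ Q x₀) :
    dQ Q x₀ (rhoQ Q x₀ g x) = rhoQ Q x₀ g (dQ Q x₀ x) := by
  unfold dQ
  rw [rhoQ_apply', lin_map, map_lin]
  congr 1
  congr 1
  funext a
  exact dQ1_rho hΓ g a

variable {bit : X → V → ZMod 2}

theorem cell_smul (hΓ : IsDeck Γ Q x₀) {i : ℕ} (g : Γ) {e : Q.Cover x₀ × Finset V}
    (he : e ∈ Cell Q x₀ bit i) : (g • e.1, e.2) ∈ Cell Q x₀ bit i := by
  obtain ⟨h1, h2, h3, h4⟩ := he
  refine ⟨?_, h2, h3, fun v hv => ?_⟩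
  · show e.2 ⊆ Q.lab (Q.proj x₀ (g • e.1))
    rw [hΓ.proj]
    exact h1
  · show bit (Q.proj x₀ (g • e.1)) v = 0
    rw [hΓ.proj]
    exact h4 v hv

theorem MQ_rho (hΓ : IsDeck Γ Q x₀) (i : ℕ) (g : Γ) (x : NQ Q x₀) (hx : x ∈ MQ Q x₀ bit i) :
    rhoQ Q x₀ g x ∈ MQ Q x₀ bit i := by
  classical
  rw [rhoQ_apply']
  cases i with
  | zero =>
    refine (Finsupp.mem_supported _ _).2 fun b hb => ?_
    obtain ⟨a, ha, rfl⟩ := Finset.mem_image.1 (Finsupp.mapDomain_support hb)
    have h1 : a = none := (Finsupp.mem_supported _ _).1 hx ha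
    rw [h1]
    rfl
  | succ i =>
    refine (Finsupp.mem_supported _ _).2 fun b hb => ?_
    obtain ⟨a, ha, rfl⟩ := Finset.mem_image.1 (Finsupp.mapDomain_support hb)
    obtain ⟨e, he, rfl⟩ := (Finsupp.mem_supported _ _).1 hx ha
    exact ⟨_, cell_smul hΓ g he, rfl⟩

variable (Q x₀ bit) in
/-- the augmented cubical complex is exact -/
def ExQ : Prop := ∀ (i : ℕ) (x : NQ Q x₀), x ∈ MQ Q x₀ bit i → dQ Q x₀ x = 0 →
  ∃ y ∈ MQ Q x₀ bit (i + 1), dQ Q x₀ y = x

/-! ### the chain map from the tuples -/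

/-- all faces of a tuple have one element less -/
theorem bdl_len {α : Type} : ∀ (L : List α) (b : List α), bdl L b ≠ 0 →
    b.length + 1 = L.length
  | [], b, h => absurd rfl h
  | x :: l, b, h => by
    classical
    by_cases h1 : b = l
    · rw [h1]
      rfl
    · have h2 : (bdl l).mapDomain (x :: ·) b ≠ 0 := by
        intro h3
        apply h
        have e : bdl (x :: l) = Finsupp.single l 1 + (bdl l).mapDomain (x :: ·) := rfl
        rw [e, Finsupp.add_apply, h3, Finsupp.single_eq_of_ne h1, add_zero]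
      obtain ⟨c, hc, rfl⟩ := Finset.mem_image.1
        (Finsupp.mapDomain_support (Finsupp.mem_support_iff.2 h2))
      have h3 := bdl_len l c (Finsupp.mem_support_iff.1 hc)
      rw [List.length_cons, List.length_cons, h3]

/-- **A chain map from the tuples to the cubes.** -/
theorem exists_S (hΓ : IsDeck Γ Q x₀) (hex : ExQ Q x₀ bit) : ∃ S : List (Q.Cover x₀) → NQ Q x₀,
    (∀ i L, L.length = i + 1 → S L ∈ MQ Q x₀ bit (i + 1)) ∧
    (∀ (g : Γ) L, L ≠ [] → S (L.map (g • ·)) = rhoQ Q x₀ g (S L)) ∧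
    (∀ c, dQ Q x₀ (S [c]) = Finsupp.single none 1) ∧
    ∀ L, 2 ≤ L.length → dQ Q x₀ (S L) = lin S (bdl L) := by
  classical
  let act : MulAction Γ (List (Q.Cover x₀)) :=
    { smul := fun g L => L.map (g • ·)
      one_smul := fun L => by
        show L.map ((1 : Γ) • ·) = L
        simp
      mul_smul := fun g h L => by
        show L.map ((g * h) • ·) = (L.map (h • ·)).map (g • ·)
        rw [List.map_map]
        congr 1
        funext c
        exact mul_smul g h c }
  have hact : ∀ (g : Γ) (L : List (Q.Cover x₀)), g • L = L.map (g • ·) :=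
    fun _ _ => rfl
  obtain ⟨bd, hbdef⟩ : ∃ bd : List (Q.Cover x₀) → (List (Q.Cover x₀) →₀ ZMod 2),
    ∀ L, bd L = if L.length ≤ 1 then 0 else bdl L := ⟨_, fun _ => rfl⟩
  obtain ⟨F, hFdef⟩ : ∃ F : List (Q.Cover x₀) → NQ Q x₀,
    ∀ L, F L = if L.length = 1 then Finsupp.single none 1 else 0 := ⟨_, fun _ => rfl⟩
  have hF1 : ∀ c, F [c] = Finsupp.single none 1 := fun c => by
    rw [hFdef]
    exact if_pos rfl
  have hfaces : ∀ L b, bd L b ≠ 0 → b.length + 1 = L.length ∧ 2 ≤ L.length := by
    intro L b h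
    rw [hbdef] at h
    by_cases h1 : L.length ≤ 1
    · rw [if_pos h1] at h
      exact absurd rfl h
    · rw [if_neg h1] at h
      exact ⟨bdl_len L b h, by omega⟩
  obtain ⟨H, hH1, hH2, hH3⟩ := lift_free (Γ := Γ) (A := List (Q.Cover x₀)) (N := NQ Q x₀)
    (fun i => {L | L.length = i + 1})
    (fun i g L (hL : L.length = i + 1) => by
      show (L.map (g • ·)).length = i + 1
      rw [List.length_map]
      exact hL)
    (fun i j L (hi : L.length = i + 1) (hj : L.length = j + 1) => by omega)
    (fun i L (hi : L.length = i + 1) g hg => by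
      match L, hi with
      | c :: l, _ =>
        have h1 : g • c :: l.map (g • ·) = c :: l := hg
        exact hΓ.free g c (List.cons.inj h1).1)
    bd
    (fun i L (hL : L.length = i + 1 + 1) b hb => by
      have := (hfaces L b hb).1
      show b.length = i + 1
      omega)
    (fun L (hL : L.length = 0 + 1) => by rw [hbdef, if_pos (by omega)])
    (fun i g L _ => by
      rw [hact, hbdef, hbdef, List.length_map]
      by_cases h : L.length ≤ 1
      · rw [if_pos h, if_pos h, Finsupp.mapDomain_zero]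
      · rw [if_neg h, if_neg h, bdl_map]
        rfl)
    (fun i L (hL : L.length = i + 1) => by
      by_cases h : L.length ≤ 1
      · rw [hbdef L, if_pos h, map_zero]
      · by_cases h2 : L.length = 2
        · rw [lin_congr (f' := bd) (f := fun _ => 0) (fun c hc => by
            have h3 := hfaces L c hc
            rw [hbdef, if_pos (by omega)])]
          exact lin_fun_zero _
        · rw [lin_congr (f' := bd) (f := bdl) (fun c hc => by
            have h3 := hfaces L c hc
            rw [hbdef, if_neg (by omega)]), hbdef L, if_neg h]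
          exact BL_bdl L)
    (rhoQ Q x₀) (dQ Q x₀) (dQ_rho hΓ) (MQ Q x₀ bit) (MQ_rho hΓ)
    (fun i _ x hx hd => hex i x hx hd)
    F
    (fun i L (hL : L.length = i + 1) => by
      rw [hFdef]
      by_cases h : L.length = 1
      · rw [if_pos h]
        have h1 : i = 0 := by omega
        subst h1
        exact Finsupp.single_mem_supported _ _ rfl
      · rw [if_neg h]
        exact Submodule.zero_mem _)
    (fun i g L _ => by
      rw [hact, hFdef, hFdef, List.length_map]
      by_cases h : L.length = 1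
      · rw [if_pos h, rhoQ_none]
      · rw [if_neg h, map_zero])
    (fun i L (hL : L.length = i + 1) => by
      by_cases h : L.length ≤ 1
      · have h1 : L.length = 1 := by omega
        rw [hbdef, if_pos h, map_zero, hFdef, if_pos h1]
        exact lin_single _ _
      · rw [hFdef, if_neg (by omega), map_zero]
        by_cases h2 : L.length = 2
        · match L, h2 with
          | [x, y], _ =>
            rw [hbdef, if_neg h]
            simp only [bdl, Finsupp.mapDomain_zero, add_zero, Finsupp.mapDomain_single]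
            rw [map_add, lin_single, lin_single, hF1, hF1]
            exact (chain_add_self _).symm
        · rw [lin_congr (f' := F) (f := fun _ => 0) (fun c hc => by
            have h3 := hfaces L c hc
            rw [hFdef, if_neg (by omega)])]
          exact (lin_fun_zero _).symm)
  refine ⟨H, fun i L hL => hH1 i L hL, fun g L hL => ?_, fun c => ?_, fun L hL => ?_⟩
  · have h1 : 0 < L.length := List.length_pos_iff.2 hL
    exact hH2 (L.length - 1) g L (show L.length = L.length - 1 + 1 by omega)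
  · have h1 := hH3 0 [c] rfl
    have h2 : bd [c] = 0 := by
      rw [hbdef]
      exact if_pos (by simp)
    rw [hF1, h2, map_zero, add_zero] at h1
    exact h1
  · have h1 := hH3 (L.length - 1) L (show L.length = L.length - 1 + 1 by omega)
    rw [hFdef, if_neg (by omega), hbdef, if_neg (by omega), zero_add] at h1
    exact h1

variable (Q x₀) in
private theorem Tm_len : ∀ (k : ℕ) (c : Q.Cover x₀) (σ : Finset V)
    (L : List (Q.Cover x₀)), Tm Q x₀ k c σ L ≠ 0 → L.length = k + 1
  | 0, c, σ, L, h => by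
    classical
    have h1 : Tm Q x₀ 0 c σ = Finsupp.single [c] 1 := rfl
    rw [h1] at h
    by_cases h2 : L = [c]
    · rw [h2]
      rfl
    · exact absurd (Finsupp.single_eq_of_ne h2) h
  | k + 1, c, σ, L, h => by
    classical
    have h1 : Tm Q x₀ (k + 1) c σ =
      ∑ v ∈ σ, (Tm Q x₀ k (Q.nbc x₀ v c) (σ.erase v)).mapDomain (c :: ·) := rfl
    rw [h1, Finsupp.finsetSum_apply] at h
    obtain ⟨v, -, hv⟩ := exists_ne_zero_of_sum_ne_zero h
    obtain ⟨L', hL', rfl⟩ := Finset.mem_image.1
      (Finsupp.mapDomain_support (Finsupp.mem_support_iff.2 hv))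
    have h2 := Tm_len k _ _ L' (Finsupp.mem_support_iff.1 hL')
    rw [List.length_cons, h2]

/-- all lists of `TT e` have `e.2.card + 1` elements -/
theorem TT_len (e : Q.Cover x₀ × Finset V) (L : List (Q.Cover x₀))
    (h : TT Q x₀ e L ≠ 0) : L.length = e.2.card + 1 := Tm_len Q x₀ _ _ _ L h

/-- **The homotopy.** -/
theorem exists_Hm (hΓ : IsDeck Γ Q x₀) (hbit : IsBit Q bit) (hex : ExQ Q x₀ bit)
    {S : List (Q.Cover x₀) → NQ Q x₀}
    (hS1 : ∀ i L, L.length = i + 1 → S L ∈ MQ Q x₀ bit (i + 1))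
    (hS2 : ∀ (g : Γ) L, L ≠ [] → S (L.map (g • ·)) = rhoQ Q x₀ g (S L))
    (hS3 : ∀ c, dQ Q x₀ (S [c]) = Finsupp.single none 1)
    (hS4 : ∀ L, 2 ≤ L.length → dQ Q x₀ (S L) = lin S (bdl L)) :
    ∃ H : Q.Cover x₀ × Finset V → NQ Q x₀,
      (∀ i, ∀ e ∈ Cell Q x₀ bit i, H e ∈ MQ Q x₀ bit (i + 2)) ∧
      (∀ i (g : Γ), ∀ e ∈ Cell Q x₀ bit i, H (g • e.1, e.2) = rhoQ Q x₀ g (H e)) ∧
      ∀ i, ∀ e ∈ Cell Q x₀ bit i, dQ Q x₀ (H e) =
        Finsupp.single (some e) 1 + lin S (TT Q x₀ e) + lin H (bdD Q x₀ e) := by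
  classical
  let act : MulAction Γ (Q.Cover x₀ × Finset V) :=
    { smul := fun g e => (g • e.1, e.2)
      one_smul := fun e => by
        show ((1 : Γ) • e.1, e.2) = e
        rw [one_smul]
      mul_smul := fun g h e => by
        show ((g * h) • e.1, e.2) = (g • h • e.1, e.2)
        rw [mul_smul] }
  have hact : ∀ (g : Γ) (e : Q.Cover x₀ × Finset V), g • e = (g • e.1, e.2) :=
    fun _ _ => rfl
  refine lift_free (Γ := Γ) (A := Q.Cover x₀ × Finset V) (N := NQ Q x₀)
    (fun i => Cell Q x₀ bit i)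
    (fun i g e he => cell_smul hΓ g he)
    (fun i j e hi hj => hi.2.2.1.symm.trans hj.2.2.1)
    (fun i e he g hg => hΓ.free g e.1 (congrArg Prod.fst hg))
    (bdD Q x₀)
    (fun i e he b hb => bdD_cell hbit he b hb)
    (fun e he => by
      unfold bdD
      rw [card_eq_zero.1 he.2.2.1, sum_empty])
    (fun i g e _ => bdD_smul hΓ g e)
    (fun i e he => bdD_bdD he)
    (rhoQ Q x₀) (dQ Q x₀) (dQ_rho hΓ) (fun i => MQ Q x₀ bit (i + 1)) (fun i => MQ_rho hΓ (i + 1))
    (fun i _ x hx hd => hex (i + 1) x hx hd)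
    (fun e => Finsupp.single (some e) 1 + lin S (TT Q x₀ e))
    (fun i e he => ?_) (fun i g e he => ?_) (fun i e he => ?_)
  · refine Submodule.add_mem _ (Finsupp.single_mem_supported _ _ ⟨e, he, rfl⟩) ?_
    refine lin_mem fun L hL => hS1 i L ?_
    rw [TT_len e L hL, he.2.2.1]
  · show Finsupp.single (some (g • e.1, e.2)) 1 + lin S (TT Q x₀ (g • e.1, e.2)) = _
    rw [map_add, rhoQ_some, TT_smul hΓ he, lin_map, map_lin]
    congr 1
    refine lin_congr fun L hL => ?_
    refine hS2 g L ?_
    rintro rfl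
    have h1 := TT_len e [] hL
    simp at h1
  · show dQ Q x₀ (Finsupp.single (some e) 1 + lin S (TT Q x₀ e)) =
      lin (fun e => Finsupp.single (some e) 1 + lin S (TT Q x₀ e)) (bdD Q x₀ e)
    have h0 : dQ Q x₀ (Finsupp.single (some e) 1) = dQ1 Q x₀ (some e) := lin_single _ _
    rw [map_add, h0]
    cases i with
    | zero =>
      have h1 : e.2 = ∅ := card_eq_zero.1 he.2.2.1
      have h2 : bdD Q x₀ e = 0 := by
        unfold bdD
        rw [h1, sum_empty]
      have h3 : TT Q x₀ e = Finsupp.single [e.1] 1 := by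
        unfold TT
        rw [h1, card_empty]
        rfl
      rw [h2, map_zero, h3, lin_single, hS3, dQ1_empty Q x₀ h1, chain_add_self]
    | succ i =>
      have h1 : e.2 ≠ ∅ := by
        intro h
        have h4 := he.2.2.1
        rw [h, card_empty] at h4
        omega
      have h2 : dQ1 Q x₀ (some e) = (bdD Q x₀ e).mapDomain some := if_neg h1
      have h3 : dQ Q x₀ (lin S (TT Q x₀ e)) = lin S (BL (TT Q x₀ e)) := by
        rw [map_lin, lin_congr (f' := fun L => dQ Q x₀ (S L)) (f := fun L => lin S (bdl L))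
          (fun L hL => hS4 L (by
            have h4 := TT_len e L hL
            have h5 := he.2.2.1
            omega))]
        exact lin_lin
      have h4 := BL_TT he
      rw [if_neg (Nat.succ_ne_zero i)] at h4
      rw [h2, h3, h4, lin_add, lin_lin]
      congr 1
      unfold lin
      rw [Finsupp.linearCombination_apply, Finsupp.mapDomain]
      refine Finsupp.sum_congr fun c _ => ?_
      rw [Finsupp.smul_single, smul_eq_mul, mul_one]

end

end Pool.Agent.S10
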