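import Pool.Agent.H77.TC.Defs

/-!
# Project S10: the homology of the complex of `X × P` (definitions for the `ℓ²`-end)

`Q` is a finite labelled cube complex with the vertices `X`, `P` a finite group with the involutions `g v`. The cells of
`X × P` are the `(σ, x, p)`, `σ ⊆ Q.lab x` a clique, modulo `(x, p) ~ (x v, p g_v)`, `v ∈ σ`.
-/

set_option autoImplicit false
set_option linter.unusedSectionVars false

open Finset

namespace Pool.Agent.S10

open Pool.Agent.H19.Cub Pool.Agent.H77.SX Pool.Agent.H37.TM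

variable {V X : Type} [DecidableEq V]

/-- chains of degree `n` of `Q` with coefficients in `Y` -/
def CQ (K : Type) [Field K] (Q : CubeComplex V X) (n : ℕ) {Y : Type}
    [AddCommGroup Y] [Module K Y] (r : V → Y →ₗ[K] Y) : Submodule K (Finset V → X → Y) where
  carrier := {z | (∀ σ x, z σ x ≠ 0 → σ ⊆ Q.lab x ∧ Q.graph.IsClique (σ : Set V) ∧ σ.card = n) ∧
    ∀ σ x, σ ⊆ Q.lab x → ∀ v ∈ σ, z σ (Q.nb v x) = r v (z σ x)}
  zero_mem' := by
    refine ⟨fun σ x h => absurd rfl h, fun σ x _ v _ => ?_⟩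
    simp
  add_mem' := by
    rintro z w ⟨h1, h2⟩ ⟨h4, h5⟩
    refine ⟨fun σ x h => ?_, fun σ x hσ v hv => ?_⟩
    · by_cases hz : z σ x = 0
      · by_cases hw : w σ x = 0
        · exact absurd (by simp [hz, hw]) h
        · exact h4 σ x hw
      · exact h1 σ x hz
    · simp only [Pi.add_apply]
      rw [map_add, h2 σ x hσ v hv, h5 σ x hσ v hv]
  smul_mem' := by
    rintro c z ⟨h1, h2⟩
    refine ⟨fun σ x h => h1 σ x fun h0 => h ?_, fun σ x hσ v hv => ?_⟩
    · simp only [Pi.smul_apply, h0, smul_zero]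
    · simp only [Pi.smul_apply]
      rw [map_smul, h2 σ x hσ v hv]

theorem mem_CQ {K : Type} [Field K] {Q : CubeComplex V X} {n : ℕ} {Y : Type}
    [AddCommGroup Y] [Module K Y] {r : V → Y →ₗ[K] Y} {z : Finset V → X → Y} :
    z ∈ CQ K Q n r ↔
      (∀ σ x, z σ x ≠ 0 → σ ⊆ Q.lab x ∧ Q.graph.IsClique (σ : Set V) ∧ σ.card = n) ∧
      ∀ σ x, σ ⊆ Q.lab x → ∀ v ∈ σ, z σ (Q.nb v x) = r v (z σ x) := Iff.rfl

/-- the boundary -/
def bQ (K : Type) [Field K] [Fintype V] {Y : Type} [AddCommGroup Y] [Module K Y] :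
    (Finset V → X → Y) →ₗ[K] (Finset V → X → Y) where
  toFun z := fun κ x => ∑ v ∈ κᶜ, z (insert v κ) x
  map_add' z w := by
    funext κ x
    simp only [Pi.add_apply, sum_add_distrib]
  map_smul' c z := by
    funext κ x
    simp only [Pi.smul_apply, RingHom.id_apply, smul_sum]

theorem bQ_apply {K : Type} [Field K] [Fintype V] {Y : Type} [AddCommGroup Y] [Module K Y]
    (z : Finset V → X → Y) (κ : Finset V) (x : X) :
    bQ K z κ x = ∑ v ∈ κᶜ, z (insert v κ) x := rfl

/-- **the dimension of the homology** of `X × P` over `K` in degree `n` -/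
noncomputable def hQ (K : Type) [Field K] [Fintype V] (Q : CubeComplex V X) (n : ℕ) {P : Type}
    [Group P] (g : V → P) : ℤ :=
  (Module.finrank K (ZQ K Q n (rG K g)) : ℤ) -
    Module.finrank K ((CQ K Q (n + 1) (rG K g)).map (bQ K))

end Pool.Agent.S10
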