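import Pool.Agent.S10.L2D
import Pool.Agent.H77.TC.Final

/-!
# Project S10: counting of the cells by the bits, monotonicity, comparison
-/

set_option autoImplicit false
set_option linter.unusedSectionVars false

open Finset

namespace Pool.Agent.S10

open Pool.Agent.H19.Cub Pool.Agent.H77.SX Pool.Agent.H37.TM Pool.Agent.H77.TC
  Pool.Agent.H85.Fold Pool.Agent.H85.Fold2

/-! ### Extension by the bits -/

section Ext

variable {V Ω F : Type} [DecidableEq V] [Field F]

/-- commuting involutions on the subset `A`, with bits -/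
structure Bts (A : Ω → Prop) (s : V → Ω → Ω) (b : Ω → V → ZMod 2) (σ : Finset V) : Prop where
  mem : ∀ v ∈ σ, ∀ x, A x → A (s v x)
  inv : ∀ v ∈ σ, ∀ x, A x → s v (s v x) = x
  comm : ∀ u ∈ σ, ∀ v ∈ σ, ∀ x, A x → s u (s v x) = s v (s u x)
  bit : ∀ v ∈ σ, ∀ x, A x → ∀ u, b (s v x) u = b x u + if u = v then 1 else 0

theorem Bts.ex {A : Ω → Prop} {s : V → Ω → Ω} {b : Ω → V → ZMod 2} {σ : Finset V}
    (h : Bts A s b σ) (e : F) (he : e * e = 1) (f : Ω → F) :
    ∃ g : Ω → F, (∀ x, ¬ A x → g x = 0) ∧ (∀ v ∈ σ, ∀ x, A x → g (s v x) = e * g x) ∧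
      ∀ x, A x → (∀ v ∈ σ, b x v = 0) → g x = f x := by
  classical
  have key : ∀ S : Finset V, S ⊆ σ → ∃ g : Ω → F, (∀ x, ¬ A x → g x = 0) ∧
      (∀ v ∈ S, ∀ x, A x → g (s v x) = e * g x) ∧
      ∀ x, A x → (∀ v ∈ S, b x v = 0) → g x = f x := by
    intro S
    induction S using Finset.induction_on with
    | empty =>
      intro _
      refine ⟨fun x => if A x then f x else 0, fun x hx => if_neg hx, fun v hv => ?_,
        fun x hx _ => if_pos hx⟩
      exact absurd hv (notMem_empty v)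
    | insert v S hv ih =>
      intro hS
      obtain ⟨g, h1, h2, h3⟩ := ih ((subset_insert _ _).trans hS)
      have hvσ : v ∈ σ := hS (mem_insert_self _ _)
      have z2 : ∀ a : ZMod 2, ¬ a = 0 → a + 1 = 0 := by decide
      have z3 : ∀ a : ZMod 2, a = 0 → ¬ a + 1 = 0 := by decide
      refine ⟨fun x => if A x then (if b x v = 0 then g x else e * g (s v x)) else 0,
        fun x hx => if_neg hx, fun u hu x hx => ?_, fun x hx hb => ?_⟩
      · have huσ : u ∈ σ := hS hu
        show (if A (s u x) then (if b (s u x) v = 0 then g (s u x) else e * g (s v (s u x)))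
          else 0) = e * (if A x then (if b x v = 0 then g x else e * g (s v x)) else 0)
        rw [if_pos hx, if_pos (h.mem u huσ x hx), h.bit u huσ x hx v]
        rcases mem_insert.1 hu with rfl | huS
        · rw [if_pos rfl]
          by_cases hb : b x u = 0
          · rw [if_neg (z3 _ hb), if_pos hb, h.inv u huσ x hx]
          · rw [if_pos (z2 _ hb), if_neg hb, ← mul_assoc, he, one_mul]
        · have hne : v ≠ u := fun h' => hv (h' ▸ huS)
          rw [if_neg hne, add_zero]
          by_cases hb : b x v = 0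
          · rw [if_pos hb, if_pos hb, h2 u huS x hx]
          · rw [if_neg hb, if_neg hb, h.comm v hvσ u huσ x hx, h2 u huS _ (h.mem v hvσ x hx)]
      · show (if A x then (if b x v = 0 then g x else e * g (s v x)) else 0) = f x
        rw [if_pos hx, if_pos (hb v (mem_insert_self _ _))]
        exact h3 x hx fun u hu => hb u (mem_insert_of_mem hu)
  exact key σ Subset.rfl

theorem Bts.uniq {A : Ω → Prop} {s : V → Ω → Ω} {b : Ω → V → ZMod 2} {σ : Finset V}
    (h : Bts A s b σ) (e : F) (he : e * e = 1) (g : Ω → F)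
    (hg : ∀ v ∈ σ, ∀ x, A x → g (s v x) = e * g x)
    (h0 : ∀ x, A x → (∀ v ∈ σ, b x v = 0) → g x = 0) : ∀ x, A x → g x = 0 := by
  classical
  have key : ∀ S : Finset V, S ⊆ σ → (∀ x, A x → (∀ v ∈ S, b x v = 0) → g x = 0) →
      ∀ x, A x → g x = 0 := by
    intro S
    induction S using Finset.induction_on with
    | empty =>
      intro _ h1 x hx
      exact h1 x hx fun v hv => absurd hv (notMem_empty v)
    | insert v S hv ih =>
      intro hS h1
      have hvσ : v ∈ σ := hS (mem_insert_self _ _)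
      refine ih ((subset_insert _ _).trans hS) fun x hx hb => ?_
      by_cases hbv : b x v = 0
      · refine h1 x hx fun u hu => ?_
        rcases mem_insert.1 hu with rfl | hu
        · exact hbv
        · exact hb u hu
      · have z2 : ∀ a : ZMod 2, ¬ a = 0 → a + 1 = 0 := by decide
        have h2 := h1 (s v x) (h.mem v hvσ x hx) fun u hu => by
          rw [h.bit v hvσ x hx u]
          by_cases huv : u = v
          · rw [if_pos huv, huv]
            exact z2 _ hbv
          · rw [if_neg huv, add_zero]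
            exact hb u (mem_of_mem_insert_of_ne hu huv)
        rw [hg v hvσ x hx] at h2
        have h3 : e * (e * g x) = 0 := by rw [h2, mul_zero]
        rwa [← mul_assoc, he, one_mul] at h3
  exact key σ Subset.rfl h0

end Ext

variable {V X : Type} [DecidableEq V] [Fintype V] [Fintype X]

open Classical in
/-- the number of the cells of dimension `n` of `Q` -/
noncomputable def nC (Q : CubeComplex V X) (bit : X → V → ZMod 2) (n : ℕ) : ℕ :=
  ∑ σ ∈ univ.filter (fun σ : Finset V => Q.graph.IsClique (σ : Set V) ∧ σ.card = n),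
    (univ.filter fun x => σ ⊆ Q.lab x ∧ ∀ v ∈ σ, bit x v = 0).card

/-- the cells -/
def Cl0 (Q : CubeComplex V X) (bit : X → V → ZMod 2) (n : ℕ) (P : Type) : Type :=
  {c : Finset V × (X × P) // (Q.graph.IsClique (c.1 : Set V) ∧ c.1.card = n) ∧
    c.1 ⊆ Q.lab c.2.1 ∧ ∀ v ∈ c.1, bit c.2.1 v = 0}

noncomputable instance (Q : CubeComplex V X) (bit : X → V → ZMod 2) (n : ℕ) (P : Type)
    [Fintype P] : Fintype (Cl0 Q bit n P) := by
  classical
  unfold Cl0
  infer_instance

theorem card_Cl0 (Q : CubeComplex V X) (bit : X → V → ZMod 2) (n : ℕ) (P : Type) [Fintype P] :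
    Fintype.card (Cl0 Q bit n P) = nC Q bit n * Fintype.card P := by
  classical
  have e : Cl0 Q bit n P ≃ (Σ σ : {σ : Finset V // Q.graph.IsClique (σ : Set V) ∧ σ.card = n},
      {x : X // σ.1 ⊆ Q.lab x ∧ ∀ v ∈ σ.1, bit x v = 0}) × P :=
    { toFun := fun c => (⟨⟨c.1.1, c.2.1⟩, ⟨c.1.2.1, c.2.2⟩⟩, c.1.2.2)
      invFun := fun y => ⟨(y.1.1.1, (y.1.2.1, y.2)), ⟨y.1.1.2, y.1.2.2⟩⟩
      left_inv := fun c => rfl
      right_inv := fun y => rfl }
  rw [Fintype.card_congr e, Fintype.card_prod, Fintype.card_sigma]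
  congr 1
  unfold nC
  rw [← Finset.sum_subtype (univ.filter fun σ : Finset V => Q.graph.IsClique (σ : Set V) ∧ σ.card = n)
    (fun σ => by simp) (fun σ => Fintype.card {x : X // σ ⊆ Q.lab x ∧ ∀ v ∈ σ, bit x v = 0})]
  refine sum_congr ?_ fun σ _ => ?_
  · ext σ
    simp
  · rw [Fintype.card_subtype]

section Dim

variable {K : Type} [Field K] [CharP K 2] (Q : CubeComplex V X) {bit : X → V → ZMod 2}
  (hbit : IsBit Q bit) (n : ℕ) {P : Type} [Group P] [Fintype P] (g : V → P)
  (hg : ∀ v, g v * g v = 1)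
  (hgc : ∀ u v, Q.graph.Adj u v → g u * g v = g v * g u)

include hbit hg hgc

private theorem bts {σ : Finset V} (hσ : Q.graph.IsClique (σ : Set V)) :
    Bts (fun y : X × P => σ ⊆ Q.lab y.1) (prS Q.cs g) (fun y v => bit y.1 v) σ where
  mem v hv y hy := Q.isSpec.sub (fun u hu v hv huv => hσ hu hv huv) hv hy
  inv v _ y _ := (isSpec_pr Q.isSpec g hg hgc).inv v y
  comm u hu v hv y _ := by
    by_cases huv : u = v
    · rw [huv]
    · exact (isSpec_pr Q.isSpec g hg hgc).comm u v (hσ hu hv huv) y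
  bit v hv y hy u := by
    show bit (Q.cs v y.1) u = bit y.1 u + _
    rw [Q.cs_of_mem (hy hv)]
    exact hbit v y.1 (hy hv) u

/-- **the number of the cells** -/
theorem finrank_CQ : Module.finrank K (CQ K Q n (rG K g)) = nC Q bit n * Fintype.card P := by
  classical
  rw [← card_Cl0, ← Module.finrank_fintype_fun_eq_card K (η := Cl0 Q bit n P)]
  let E : (Finset V → X → P → K) →ₗ[K] (Cl0 Q bit n P → K) :=
    { toFun := fun z c => z c.1.1 c.1.2.1 c.1.2.2
      map_add' := fun _ _ => rfl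
      map_smul' := fun _ _ => rfl }
  have hE : ∀ z c, E z c = z c.1.1 c.1.2.1 c.1.2.2 := fun _ _ => rfl
  refine LinearEquiv.finrank_eq (LinearEquiv.ofBijective (E.comp (CQ K Q n (rG K g)).subtype)
    ⟨?_, ?_⟩)
  · rw [← LinearMap.ker_eq_bot, LinearMap.ker_eq_bot']
    rintro ⟨z, hz⟩ h
    obtain ⟨h1, h2⟩ := mem_CQ.1 hz
    apply Subtype.ext
    funext σ x p
    show z σ x p = 0
    by_cases hσ : Q.graph.IsClique (σ : Set V) ∧ σ.card = n
    · by_cases hx : σ ⊆ Q.lab x
      · refine (bts Q hbit g hg hgc hσ.1).uniq (1 : K) (one_mul 1) (fun y : X × P => z σ y.1 y.2)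
          (fun v hv y hy => ?_) (fun y hy hb => ?_) (x, p) hx
        · show z σ (Q.cs v y.1) (y.2 * g v) = 1 * z σ y.1 y.2
          rw [Q.cs_of_mem (hy hv), h2 σ y.1 hy v hv, one_mul]
          show z σ y.1 (y.2 * g v * g v) = _
          rw [mul_assoc, hg, mul_one]
        · exact congrFun h (⟨(σ, y), hσ, hy, hb⟩ : Cl0 Q bit n P)
      · by_contra hne
        exact hx (h1 σ x fun h0 => hne (by rw [h0]; rfl)).1
    · by_contra hne
      exact hσ (h1 σ x fun h0 => hne (by rw [h0]; rfl)).2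
  · intro f
    have h1 : ∀ σ : Finset V, ∃ w : X × P → K, (Q.graph.IsClique (σ : Set V) ∧ σ.card = n) →
        (∀ y, ¬ σ ⊆ Q.lab y.1 → w y = 0) ∧
        (∀ v ∈ σ, ∀ y : X × P, σ ⊆ Q.lab y.1 → w (prS Q.cs g v y) = w y) ∧
        ∀ y (h : (Q.graph.IsClique (σ : Set V) ∧ σ.card = n) ∧ σ ⊆ Q.lab y.1 ∧
          ∀ v ∈ σ, bit y.1 v = 0), w y = f ⟨(σ, y), h⟩ := by
      intro σ
      by_cases hσ : Q.graph.IsClique (σ : Set V) ∧ σ.card = n
      · obtain ⟨w, h3, h4, h5⟩ := (bts Q hbit g hg hgc hσ.1).ex (1 : K) (one_mul 1)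
          (fun y => if h : (Q.graph.IsClique (σ : Set V) ∧ σ.card = n) ∧ σ ⊆ Q.lab y.1 ∧
            ∀ v ∈ σ, bit y.1 v = 0 then f ⟨(σ, y), h⟩ else 0)
        refine ⟨w, fun _ => ⟨h3, fun v hv y hy => ?_, fun y h => ?_⟩⟩
        · rw [h4 v hv y hy, one_mul]
        · rw [h5 y h.2.1 h.2.2, dif_pos h]
      · exact ⟨0, fun h => absurd h hσ⟩
    choose w hw using h1
    refine ⟨⟨fun σ x p => if Q.graph.IsClique (σ : Set V) ∧ σ.card = n then w σ (x, p) else 0,
      mem_CQ.2 ⟨fun σ x h => ?_, fun σ x hx v hv => ?_⟩⟩, ?_⟩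
    · by_cases hσ : Q.graph.IsClique (σ : Set V) ∧ σ.card = n
      · refine ⟨?_, hσ⟩
        by_contra hx
        apply h
        funext p
        show (if _ then _ else _) = (0 : K)
        rw [if_pos hσ]
        exact (hw σ hσ).1 (x, p) hx
      · exfalso
        apply h
        funext p
        exact if_neg hσ
    · funext p
      show (if _ then w σ (Q.nb v x, p) else 0) = (if _ then w σ (x, p * g v) else (0 : K))
      by_cases hσ : Q.graph.IsClique (σ : Set V) ∧ σ.card = n
      · rw [if_pos hσ, if_pos hσ]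
        have h3 := (hw σ hσ).2.1 v hv (x, p * g v) hx
        have h4 : prS Q.cs g v (x, p * g v) = (Q.nb v x, p) := by
          unfold prS
          rw [Q.cs_of_mem (hx hv), mul_assoc, hg, mul_one]
        rwa [h4] at h3
      · rw [if_neg hσ, if_neg hσ]
    · funext c
      obtain ⟨⟨σ, y⟩, h⟩ := c
      show (if _ then w σ (y.1, y.2) else (0 : K)) = _
      rw [if_pos h.1]
      exact (hw σ h.1).2.2 y h

/-- the homology from the cycles and the number of the cells -/
theorem hQ_eq : hQ K Q n g = (dQ K Q n g : ℤ) + dQ K Q (n + 1) g -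
    nC Q bit (n + 1) * Fintype.card P := by
  have h := ((bQ K).domRestrict (CQ K Q (n + 1) (rG K g))).finrank_range_add_finrank_ker
  have h1 : LinearMap.range ((bQ K).domRestrict (CQ K Q (n + 1) (rG K g))) =
      (CQ K Q (n + 1) (rG K g)).map (bQ K) := LinearMap.range_domRestrict _ _
  have h2 : Module.finrank K (LinearMap.ker ((bQ K).domRestrict (CQ K Q (n + 1) (rG K g)))) =
      dQ K Q (n + 1) g := by
    unfold dQ
    have e : (LinearMap.ker ((bQ K).domRestrict (CQ K Q (n + 1) (rG K g)))).map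
        (CQ K Q (n + 1) (rG K g)).subtype = ZQ K Q (n + 1) (rG K g) := by
      ext z
      constructor
      · rintro ⟨⟨z, hz⟩, hk, rfl⟩
        obtain ⟨h3, h4⟩ := mem_CQ.1 hz
        refine mem_ZQ.2 ⟨h3, h4, fun κ x => ?_⟩
        have h5 : bQ K z = 0 := hk
        exact congrFun (congrFun h5 κ) x
      · intro hz
        obtain ⟨h3, h4, h5⟩ := mem_ZQ.1 hz
        refine ⟨⟨z, mem_CQ.2 ⟨h3, h4⟩⟩, ?_, rfl⟩
        show bQ K z = 0
        funext κ x
        exact h5 κ x
    rw [← e]
    exact (Submodule.equivMapOfInjective _ (Submodule.subtype_injective _) _).finrank_eq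
  rw [h1, h2, finrank_CQ Q hbit (n + 1) g hg hgc] at h
  unfold hQ
  have h3 : (Module.finrank K (ZQ K Q n (rG K g)) : ℤ) = dQ K Q n g := rfl
  rw [h3]
  have h4 : ((Module.finrank K ((CQ K Q (n + 1) (rG K g)).map (bQ K)) : ℕ) : ℤ) +
      (dQ K Q (n + 1) g : ℕ) = (nC Q bit (n + 1) * Fintype.card P : ℕ) := by exact_mod_cast h
  push_cast at h4
  linarith

end Dim

/-- **monotonicity** under surjections whose kernel is a two-group -/
theorem hQ_mono {K : Type} [Field K] [CharP K 2] (Q : CubeComplex V X) {bit : X → V → ZMod 2}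
    (hbit : IsBit Q bit) (n : ℕ) {P' P : Type} [Group P'] [Fintype P'] [Group P]
    [Fintype P] (g' : V → P') (g : V → P) (q : P' →* P) (hq : ∀ v, q (g' v) = g v)
    (hg' : ∀ v, g' v * g' v = 1)
    (hgc' : ∀ u v, Q.graph.Adj u v → g' u * g' v = g' v * g' u)
    (hsurj : Function.Surjective q) (h2 : IsPGroup 2 q.ker) :
    (Fintype.card P : ℤ) * hQ K Q n g' ≤ Fintype.card P' * hQ K Q n g := by
  have hg : ∀ v, g v * g v = 1 := fun v => by rw [← hq, ← map_mul, hg', map_one]
  have hgc : ∀ u v, Q.graph.Adj u v → g u * g v = g v * g u := fun u v h => by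
    rw [← hq, ← hq, ← map_mul, ← map_mul, hgc' u v h]
  rw [hQ_eq Q hbit n g' hg' hgc', hQ_eq Q hbit n g hg hgc]
  have h3 := mono (K := K) Q n g' g q hq hg hsurj h2
  have h4 := mono (K := K) Q (n + 1) g' g q hq hg hsurj h2
  have h5 : (Fintype.card P : ℤ) * dQ K Q n g' ≤ Fintype.card P' * dQ K Q n g := by exact_mod_cast h3
  have h6 : (Fintype.card P : ℤ) * dQ K Q (n + 1) g' ≤ Fintype.card P' * dQ K Q (n + 1) g := by
    exact_mod_cast h4
  nlinarith [h5, h6]

end Pool.Agent.S10
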