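import Pool.Agent.S10.L2E
import Pool.Agent.H19.LG.MCmp
import Pool.Agent.H19.LG.Core
import Pool.Agent.H19.Cub.Transf
import Pool.Agent.H73.GC.LuckA
import Pool.Agent.H4.Singer.NilCox
import Pool.Agent.H4.Singer.LuckVanish
import Pool.Agent.H4.Singer.Levels

/-!
# Project S10: vanishing mod 2 homology growth implies the vanishing of the reduced `ℓ²`-homology

For a finite special cube complex `Q` with bits and finite quotients `P` of its right-angled Coxeter group: `b_i` of
the covering `Q × P` over the field of two elements is `dim Z_i + dim Z_(i+1) - (number of cells of dimension i+1)`.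
The pattern is `Pool.Agent.H77.TC.count`.
-/

set_option autoImplicit false
set_option linter.unusedSectionVars false

open Finset Filter Topology

namespace Pool.Agent.S10

open Pool.Agent.H19.Cub Pool.Agent.H19.LG Pool.Agent.H37.TM Pool.Agent.H77.SX Pool.Agent.H77.TC
  Pool.Agent.H4.Singer Pool.Agent.H73.GC Pool.Agent.H85.Fold

variable {V X : Type} [DecidableEq V] [Fintype V] [Fintype X]

open Classical in
/-- every cube of the type `σ` has `2 ^ #B` vertices with prescribed bits in `σ \ B` -/
private theorem L2_half {Q : CubeComplex V X} {bit : X → V → ZMod 2} (hbit : IsBit Q bit)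
    {σ : Finset V} (hσ : Q.graph.IsClique (σ : Set V)) : ∀ B : Finset V, B ⊆ σ →
    2 ^ B.card * (univ.filter fun x => σ ⊆ Q.lab x ∧ ∀ v ∈ B, bit x v = 0).card =
      (univ.filter fun x => σ ⊆ Q.lab x).card := by
  intro B
  induction B using Finset.induction_on with
  | empty =>
    intro _
    rw [card_empty, pow_zero, one_mul]
    refine congrArg Finset.card (filter_congr fun x _ => ?_)
    simp
  | insert v B hv ih =>
    intro hB
    have hvσ : v ∈ σ := hB (mem_insert_self v B)
    have hsub : ∀ x, σ ⊆ Q.lab x → σ ⊆ Q.lab (Q.nb v x) := by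
      intro x hx u hu
      by_cases huv : u = v
      · rw [huv]
        exact Q.lab_nb v x (hx hvσ)
      · exact Q.lab_adj u v x (hσ (mem_coe.2 hu) (mem_coe.2 hvσ) huv) (hx hu) (hx hvσ)
    have h1 := ih fun u hu => hB (mem_insert_of_mem hu)
    have h01 : ∀ a : ZMod 2, a = 0 ∨ a = 1 := by decide
    have h2 : (univ.filter fun x => σ ⊆ Q.lab x ∧ ∀ u ∈ B, bit x u = 0).card =
        (univ.filter fun x => σ ⊆ Q.lab x ∧ ∀ u ∈ insert v B, bit x u = 0).card +
        (univ.filter fun x => (σ ⊆ Q.lab x ∧ ∀ u ∈ B, bit x u = 0) ∧ bit x v ≠ 0).card := by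
      rw [← card_filter_add_card_filter_not (s := univ.filter fun x => σ ⊆ Q.lab x ∧
        ∀ u ∈ B, bit x u = 0) (fun x => bit x v = 0), filter_filter, filter_filter]
      congr 1
      refine congrArg Finset.card (filter_congr fun x _ => ?_)
      rw [forall_mem_insert]
      tauto
    have h3 : (univ.filter fun x => (σ ⊆ Q.lab x ∧ ∀ u ∈ B, bit x u = 0) ∧ bit x v ≠ 0).card =
        (univ.filter fun x => σ ⊆ Q.lab x ∧ ∀ u ∈ insert v B, bit x u = 0).card := by
      refine Finset.card_bij' (fun x _ => Q.nb v x) (fun x _ => Q.nb v x) ?_ ?_ ?_ ?_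
      · intro x hx
        rw [mem_filter] at hx ⊢
        obtain ⟨-, ⟨hx1, hx2⟩, hx3⟩ := hx
        refine ⟨mem_univ _, hsub x hx1, fun u hu => ?_⟩
        rw [hbit v x (hx1 hvσ) u]
        rcases mem_insert.1 hu with h | h
        · rw [h, if_pos rfl, (h01 _).resolve_left hx3]
          decide
        · rw [if_neg (fun h' : u = v => hv (h' ▸ h)), add_zero]
          exact hx2 u h
      · intro x hx
        rw [mem_filter] at hx ⊢
        obtain ⟨-, hx1, hx2⟩ := hx
        refine ⟨mem_univ _, ⟨hsub x hx1, fun u hu => ?_⟩, ?_⟩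
        · rw [hbit v x (hx1 hvσ) u, if_neg (fun h' : u = v => hv (h' ▸ hu)), add_zero]
          exact hx2 u (mem_insert_of_mem hu)
        · rw [hbit v x (hx1 hvσ) v, if_pos rfl, hx2 v (mem_insert_self v B)]
          decide
      · intro x hx
        rw [mem_filter] at hx
        exact Q.nb_nb v x (hx.2.1.1 hvσ)
      · intro x hx
        rw [mem_filter] at hx
        exact Q.nb_nb v x (hx.2.1 hvσ)
    rw [card_insert_of_notMem hv, pow_succ, mul_assoc, ← h1, h2, h3]
    ring

/-- the number of the cubes and the number of the pairs of a cube and a vertex of it -/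
theorem nC_nn {Q : CubeComplex V X} {bit : X → V → ZMod 2} (hbit : IsBit Q bit) (k : ℕ) :
    2 ^ k * nC Q bit k = nn Q.graph Q.lab k := by
  classical
  have h1 : nn Q.graph Q.lab k =
      ∑ σ ∈ univ.filter (fun σ : Finset V => Q.graph.IsClique (σ : Set V) ∧ σ.card = k),
        (univ.filter fun x => σ ⊆ Q.lab x).card := by
    unfold nn
    have h4 : Fintype.card (RS Q.graph Q.lab k) = (univ.filter fun p : X × Finset V =>
        p.2 ⊆ Q.lab p.1 ∧ Q.graph.IsClique (p.2 : Set V) ∧ p.2.card = k).card := by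
      rw [← Fintype.card_subtype]
    rw [h4, card_filter, ← univ_product_univ, sum_product_right, sum_filter]
    refine sum_congr rfl fun σ _ => ?_
    split_ifs with h
    · rw [card_filter]
      refine sum_congr rfl fun x _ => ?_
      simp only [h, and_true]
    · refine sum_eq_zero fun x _ => if_neg fun h3 => h h3.2
  rw [h1]
  unfold nC
  rw [mul_sum]
  refine sum_congr rfl fun σ hσ => ?_
  rw [mem_filter] at hσ
  have h2 := L2_half hbit hσ.2.1 σ Subset.rfl
  rw [hσ.2.2] at h2
  exact h2

/-- the cycles of the covering are the cycles with coefficients in the regular representation -/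
private theorem L2_zT {Q : CubeComplex V X} {P : Type} [Group P] [Fintype P] (g : V → P)
    (hg : ∀ v, g v * g v = 1) (ν : V → ℕ) (n : ℕ) :
    zT F2 Q.graph (prY Q.lab P) (prS Q.cs g) ν n ≤ Module.finrank F2 (ZQ F2 Q n (rG F2 g)) := by
  let Ψ : (Finset V → X × P → Unit → F2) →ₗ[F2] (Finset V → X → P → F2) :=
    { toFun := fun f σ x p => f σ (x, p) ()
      map_add' := fun f f' => rfl
      map_smul' := fun a f => rfl }
  have hmem : ∀ f : SZ F2 Q.graph (prY Q.lab P) (fun _ => (1 : Matrix Unit Unit F2))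
      (prS Q.cs g) ν n, (Ψ.domRestrict _) f ∈ ZQ F2 Q n (rG F2 g) := by
    rintro ⟨f, ⟨⟨h1, h2⟩, h3⟩⟩
    show Ψ f ∈ _
    rw [mem_ZQ]
    refine ⟨fun σ x h => ?_, fun σ x hσ v hv => ?_, fun κ x => ?_⟩
    · by_contra hc
      apply h
      funext p
      show f σ (x, p) () = 0
      by_contra h4
      apply hc
      obtain ⟨h5, h6, h7⟩ := h1 σ (x, p) (fun h8 => h4 (by rw [h8]; rfl))
      exact ⟨h5, fun a ha c hc hac => h6 a (mem_coe.1 ha) c (mem_coe.1 hc) hac, h7⟩
    · funext p
      show f σ (Q.nb v x, p) () = f σ (x, p * g v) ()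
      have h4 := h2 σ v hv (x, p * g v)
      have h5 : prS Q.cs g v (x, p * g v) = (Q.nb v x, p) := by
        unfold prS
        rw [Q.cs_of_mem (hσ hv), mul_assoc, hg, mul_one]
      rw [h5, Matrix.one_mulVec] at h4
      rw [h4]
      show -(f σ (x, p * g v) ()) = _
      rw [ZModModule.neg_eq_self]
    · funext p
      rw [Finset.sum_apply]
      have h4 : tdl F2 ν f = 0 := h3
      have h5 := congrFun (congrFun (congrFun h4 κ) (x, p)) ()
      have h6 : (tdl F2 ν f) κ (x, p) () =
          ∑ v ∈ κᶜ, (sg ν v κ : F2) * f (insert v κ) (x, p) () := by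
        show (∑ v ∈ κᶜ, (sg ν v κ : F2) • f (insert v κ) (x, p)) () = _
        rw [Finset.sum_apply]
        rfl
      rw [h6] at h5
      refine Eq.trans (Finset.sum_congr rfl fun v _ => ?_) h5
      have h7 : (sg ν v κ : F2) = 1 := by
        unfold sg
        rw [Int.cast_pow, Int.cast_neg, Int.cast_one, ZModModule.neg_eq_self, one_pow]
      rw [h7, one_mul]
      rfl
  unfold zT
  refine LinearMap.finrank_le_finrank_of_injective
    (f := LinearMap.codRestrict (ZQ F2 Q n (rG F2 g)) (Ψ.domRestrict _) hmem) ?_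
  intro f f' hff
  have h1 : Ψ f.1 = Ψ f'.1 := congrArg Subtype.val hff
  apply Subtype.ext
  funext σ x u
  exact congrFun (congrFun (congrFun h1 σ) x.1) x.2

/-- the complex Betti numbers of the coverings with bits -/
private theorem L2_bT {Q : CubeComplex V X} {bit : X → V → ZMod 2} (hbit : IsBit Q bit)
    {P : Type} [Group P] [Fintype P] (g : V → P) (hg : ∀ v, g v * g v = 1)
    (hgc : ∀ u v, Q.graph.Adj u v → g u * g v = g v * g u) (b : P → V → Bool)
    (hb : ∀ p u v, b (p * g u) v = if u = v then !(b p v) else b p v) (ν : V → ℕ)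
    (hν : Function.Injective ν) (i : ℕ) :
    bT ℂ Q.graph (prY Q.lab P) (prS Q.cs g) ν i + nC Q bit (i + 1) * Fintype.card P ≤
      Module.finrank F2 (ZQ F2 Q i (rG F2 g)) + Module.finrank F2 (ZQ F2 Q (i + 1) (rG F2 g)) := by
  have hs : IsSpec Q.graph (prY Q.lab P) (prS Q.cs g) := isSpec_pr Q.isSpec g hg hgc
  have hb' : ∀ (x : X × P) (u v : V), b (prS Q.cs g u x).2 v =
      if u = v then !(b x.2 v) else b x.2 v := fun x u v => hb x.2 u v
  have h1 := bT_complex_le_field Q.graph (prY Q.lab P) (prS Q.cs g) hs (fun x => b x.2) hb' ν hν i F2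
  have h2 := bS_add F2 Q.graph (prY Q.lab P) (fun _ => (1 : Matrix Unit Unit F2)) (prS Q.cs g) hs ν
    hν i
  have h3 := two_pow_cT F2 Q.graph (prY Q.lab P) (prS Q.cs g) hs (fun x => b x.2) hb' (i + 1)
  have h4 := L2_zT (Q := Q) g hg ν i
  have h5 := L2_zT (Q := Q) g hg ν (i + 1)
  rw [nn_pr, ← nC_nn hbit] at h3
  have h6 : cT F2 Q.graph (prY Q.lab P) (prS Q.cs g) (i + 1) =
      nC Q bit (i + 1) * Fintype.card P := by
    refine Nat.eq_of_mul_eq_mul_left (pow_pos two_pos (i + 1)) (h3.trans ?_)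
    ring
  unfold cT at h6
  unfold zT at h4 h5
  unfold bT at h1 ⊢
  omega

/-- **The end.** If the mod 2 Betti numbers `b_i` of finite coverings `Q × P` (`P` a finite quotient of the right-angled
Coxeter group, or a finite group over a quotient) are at most `ε * #P` for all `ε > 0`, then the reduced `ℓ²`-homology
of the universal cover vanishes in the degree `i`. -/
theorem l2_end (Q : CubeComplex V X) (bit : X → V → ZMod 2) (hbit : IsBit Q bit) (i : ℕ)
    (h : ∀ ε : ℝ, 0 < ε → ∃ (P : Type) (_ : Group P) (_ : Fintype P) (g : V → P),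
      (∀ v, g v * g v = 1) ∧ (∀ u v, Q.graph.Adj u v → g u * g v = g v * g u) ∧
      ((Module.finrank (ZMod 2) (ZQ (ZMod 2) Q i (regP g)) : ℝ) +
        Module.finrank (ZMod 2) (ZQ (ZMod 2) Q (i + 1) (regP g)) ≤
          (nC Q bit (i + 1) + ε) * Fintype.card P))
    (x₀ : X) : L2HomologyZero (Q.cover x₀) i := by
  classical
  intro ν hν z hz hdz ε hε
  have hW : ∀ f : Finset V → X × RGrp Q.graph → ℂ,
      IsHarmS Q.graph (prY Q.lab (RGrp Q.graph)) (prS Q.cs (gen Q.graph)) ν i f → f = 0 := by
    choose P₁ grp₁ fin₁ π₁ hP₁ hsep using fun L => exists_two_group Q.graph L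
    have h2 := fun j : ℕ => h (1 / (j + 1 : ℝ)) (by positivity)
    choose P₂ grp₂ fin₂ g₂ hsq₂ hcm₂ hle using h2
    -- the two-group with bits
    let B : Type := Multiplicative (V → ZMod 2)
    let gg : ∀ j, V → (P₁ j × B) × P₂ j := fun j v =>
      ((π₁ j (gen Q.graph v), Multiplicative.ofAdd (Pi.single v (1 : ZMod 2))), g₂ j v)
    have hgg : ∀ j v, gg j v * gg j v = 1 := by
      intro j v
      refine Prod.ext (Prod.ext ?_ ?_) (hsq₂ j v)
      · change π₁ j (gen Q.graph v) * π₁ j (gen Q.graph v) = 1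
        rw [← map_mul, gen_mul_gen, map_one]
      · change Multiplicative.ofAdd
          ((Pi.single v (1 : ZMod 2) : V → ZMod 2) + Pi.single v (1 : ZMod 2)) = 1
        rw [ZModModule.add_self]
        rfl
    have hggc : ∀ j u v, Q.graph.Adj u v → gg j u * gg j v = gg j v * gg j u := by
      intro j u v huv
      refine Prod.ext (Prod.ext ?_ (mul_comm _ _)) (hcm₂ j u v huv)
      change π₁ j (gen Q.graph u) * π₁ j (gen Q.graph v) =
        π₁ j (gen Q.graph v) * π₁ j (gen Q.graph u)
      rw [← map_mul, ← map_mul, gen_comm Q.graph u v huv]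
    have h3 : ∀ j, ∃ π : RGrp Q.graph →* (P₁ j × B) × P₂ j, ∀ v, π (gen Q.graph v) = gg j v :=
      fun j => exists_lift Q.graph (gg j) (hgg j) (hggc j)
    choose π hπ using h3
    have hπ₁ : ∀ j w, (π j w).1.1 = π₁ j w := by
      intro j w
      have e1 : ((MonoidHom.fst (P₁ j) B).comp (MonoidHom.fst (P₁ j × B) (P₂ j))).comp (π j) =
          π₁ j := by
        refine (racg Q.graph).toCoxeterSystem.ext_simple fun v => ?_
        change (π j (gen Q.graph v)).1.1 = π₁ j (gen Q.graph v)
        rw [hπ]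
      exact DFunLike.congr_fun e1 w
    have hsep' : ∀ w : RGrp Q.graph, w ≠ 1 → ∀ᶠ j in atTop, π j w ≠ 1 := by
      intro w hw
      filter_upwards [eventually_ge_atTop ((racg Q.graph).toCoxeterSystem.length w)] with j hj hj'
      refine hsep j w hw hj ?_
      rw [← hπ₁, hj']
      rfl
    have hpow2 : ∀ x : B, x ^ 2 = 1 := by
      intro x
      rw [pow_two]
      change Multiplicative.ofAdd (Multiplicative.toAdd x + Multiplicative.toAdd x) = 1
      rw [ZModModule.add_self]
      rfl
    have hker : ∀ j, IsPGroup 2 (MonoidHom.snd (P₁ j × B) (P₂ j)).ker := by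
      rintro j ⟨⟨⟨a, b⟩, c⟩, hx⟩
      have hc : c = 1 := hx
      obtain ⟨k, hk⟩ := hP₁ j a
      refine ⟨k + 1, ?_⟩
      apply Subtype.ext
      have e1 : a ^ 2 ^ (k + 1) = 1 := by rw [pow_succ, pow_mul, hk, one_pow]
      have e2 : b ^ 2 ^ (k + 1) = 1 := by
        rw [pow_succ, mul_comm, pow_mul, hpow2, one_pow]
      change (((a, b), c) : (P₁ j × B) × P₂ j) ^ 2 ^ (k + 1) = 1
      rw [Prod.pow_mk, Prod.pow_mk, e1, e2, hc, one_pow]
      rfl
    let b : ∀ j, (P₁ j × B) × P₂ j → V → Bool := fun j p v =>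
      decide (Multiplicative.toAdd p.1.2 v = 1)
    have hb : ∀ j p u v, b j (p * π j (gen Q.graph u)) v = if u = v then !(b j p v) else b j p v := by
      intro j p u v
      have e1 : (p * π j (gen Q.graph u)).1.2 = p.1.2 * (gg j u).1.2 := by
        rw [hπ]
        rfl
      have e2 : Multiplicative.toAdd (p * π j (gen Q.graph u)).1.2 v =
          Multiplicative.toAdd p.1.2 v + (Pi.single u (1 : ZMod 2) : V → ZMod 2) v := by
        rw [e1]
        rfl
      change decide (Multiplicative.toAdd (p * π j (gen Q.graph u)).1.2 v = 1) = _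
      rw [e2]
      by_cases huv : u = v
      · subst huv
        rw [if_pos rfl, Pi.single_eq_same]
        have key : ∀ x : ZMod 2, decide (x + 1 = 1) = !(decide (x = 1)) := by decide
        exact key _
      · rw [if_neg huv, Pi.single_eq_of_ne (Ne.symm huv), add_zero]
    refine harm_infS Q.graph Q.lab Q.cs Q.isSpec ν i
      (l2ker_trivial π hsep' (HSA Q.graph Q.lab Q.cs ν i) ?_)
    intro η hη
    have hbd : ∀ j, (bT ℂ Q.graph (prY Q.lab ((P₁ j × B) × P₂ j))
        (prS Q.cs fun v => π j (gen Q.graph v)) ν i : ℝ) ≤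
          1 / (j + 1 : ℝ) * Fintype.card ((P₁ j × B) × P₂ j) := by
      intro j
      have hsq' : ∀ v, π j (gen Q.graph v) * π j (gen Q.graph v) = 1 := by
        intro v
        rw [← map_mul, gen_mul_gen, map_one]
      have hcm' : ∀ u v, Q.graph.Adj u v →
          π j (gen Q.graph u) * π j (gen Q.graph v) =
            π j (gen Q.graph v) * π j (gen Q.graph u) := by
        intro u v huv
        rw [← map_mul, ← map_mul, gen_comm Q.graph u v huv]
      have h3 := L2_bT hbit (fun v => π j (gen Q.graph v)) hsq' hcm' (b j) (hb j) ν hν i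
      have hmono := fun n => mono (K := F2) Q n (fun v => π j (gen Q.graph v)) (g₂ j)
        (MonoidHom.snd (P₁ j × B) (P₂ j)) (fun v => by rw [hπ]; rfl) (hsq₂ j)
        Prod.snd_surjective (hker j)
      have h4 := hmono i
      have h5 := hmono (i + 1)
      unfold dQ at h4 h5
      have h6 : (Module.finrank F2 (ZQ F2 Q i (rG F2 (g₂ j))) : ℝ) +
        Module.finrank F2 (ZQ F2 Q (i + 1) (rG F2 (g₂ j))) ≤
          (nC Q bit (i + 1) + 1 / (j + 1 : ℝ)) * Fintype.card (P₂ j) := hle j
      have hc2 : (0 : ℝ) < Fintype.card (P₂ j) := by exact_mod_cast Fintype.card_pos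
      have hc1 : (0 : ℝ) ≤ Fintype.card ((P₁ j × B) × P₂ j) := Nat.cast_nonneg _
      have h3' : (bT ℂ Q.graph (prY Q.lab ((P₁ j × B) × P₂ j))
          (prS Q.cs fun v => π j (gen Q.graph v)) ν i : ℝ) +
          nC Q bit (i + 1) * Fintype.card ((P₁ j × B) × P₂ j) ≤
          Module.finrank F2 (ZQ F2 Q i (rG F2 fun v => π j (gen Q.graph v))) +
          Module.finrank F2 (ZQ F2 Q (i + 1) (rG F2 fun v => π j (gen Q.graph v))) := by
        exact_mod_cast h3
      have h4' : (Fintype.card (P₂ j) : ℝ) *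
          Module.finrank F2 (ZQ F2 Q i (rG F2 fun v => π j (gen Q.graph v))) ≤
          Fintype.card ((P₁ j × B) × P₂ j) *
            Module.finrank F2 (ZQ F2 Q i (rG F2 (g₂ j))) := by
        exact_mod_cast h4
      have h5' : (Fintype.card (P₂ j) : ℝ) *
          Module.finrank F2 (ZQ F2 Q (i + 1) (rG F2 fun v => π j (gen Q.graph v))) ≤
          Fintype.card ((P₁ j × B) × P₂ j) *
            Module.finrank F2 (ZQ F2 Q (i + 1) (rG F2 (g₂ j))) := by
        exact_mod_cast h5
      have h7 := mul_le_mul_of_nonneg_left h6 hc1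
      refine le_of_mul_le_mul_left ?_ hc2
      nlinarith [mul_le_mul_of_nonneg_left h3' hc2.le]
    have hlim : Tendsto (fun j : ℕ => 1 / ((j : ℝ) + 1)) atTop (𝓝 0) :=
      tendsto_one_div_add_atTop_nhds_zero_nat
    filter_upwards [hlim.eventually (eventually_le_nhds hη)] with j hj
    refine (harm_finS Q.graph Q.lab Q.cs Q.isSpec ν hν i _ (π j)).trans ((hbd j).trans ?_)
    exact mul_le_mul_of_nonneg_right hj (Nat.cast_nonneg _)
  have h1 : ∀ f : Finset V → Q.Cover x₀ → ℂ,
      IsHarmS Q.graph (Q.cover x₀).lab (Q.cover x₀).cs ν i f → f = 0 :=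
    fun f hf => Q.harm_ext x₀ ν i hW f hf
  obtain ⟨y, hy, hye⟩ := hodgeS Q.graph (Q.cover x₀).lab (Q.cover x₀).cs (Q.cover x₀).isSpec ν hν i
    h1 z (((Q.cover x₀).isL2_iff i z).1 hz) hdz ε hε
  exact ⟨y, ((Q.cover x₀).isL2_iff (i + 1) y).2 hy, hye⟩

end Pool.Agent.S10
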