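import Pool.Agent.S10.Emb
import Pool.Agent.H37.TM.Rel

/-!
# Project S10, block M: the level complex

`QL`: the cube complex with the vertices `W ⧸ Φ`, where `Φ` is a normal subgroup which acts trivially on the vertices of
`Q`; it is a covering of `Q` (`isCovL`). The universal cover of `QL` is a component of the active subcomplex, in all
positions (`isEmbL`, `exists_pos`).
-/

set_option autoImplicit false
set_option linter.unusedSectionVars false

open Finset

namespace Pool.Agent.S10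

open Pool.Agent.H19.Cub Pool.Agent.S9 Pool.Agent.H37.TM

section Level

variable {V X : Type} [DecidableEq V] [Fintype V] {Q : CubeComplex V X} {W : Type} [Group W]
  {R : Rac Q.graph W} {Φ : Subgroup W} [Φ.Normal] (hk : Φ ≤ raKer Q R) (x₀ : X)

/-- the vertex of `Q` below a vertex of the level -/
noncomputable def lv : W ⧸ Φ → X :=
  Quotient.lift (fun w => ra Q R x₀ w) fun a b hab => by
    have h1 : a⁻¹ * b ∈ Φ := QuotientGroup.leftRel_apply.1 hab
    have h2 : ra Q R x₀ b = ra Q R (ra Q R x₀ a) (a⁻¹ * b) := by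
      rw [← ra_mul, mul_inv_cancel_left]
    show ra Q R x₀ a = ra Q R x₀ b
    rw [h2, (mem_raKer Q R).1 (hk h1)]

theorem lv_mk (w : W) : lv hk x₀ (QuotientGroup.mk w : W ⧸ Φ) = ra Q R x₀ w := rfl

theorem lv_one : lv hk x₀ (1 : W ⧸ Φ) = x₀ := ra_one Q R x₀

theorem lv_mul_s (p : W ⧸ Φ) (v : V) :
    lv hk x₀ (p * (QuotientGroup.mk (R.s v) : W ⧸ Φ)) = Q.cs v (lv hk x₀ p) := by
  induction p using QuotientGroup.induction_on with
  | H w => exact ra_mul_s Q R x₀ w v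

/-- **the level complex** -/
noncomputable def QL : CubeComplex V (W ⧸ Φ) where
  graph := Q.graph
  lab p := Q.lab (lv hk x₀ p)
  nb v p := p * (QuotientGroup.mk (R.s v) : W ⧸ Φ)
  lab_nb v p hv := by
    rw [lv_mul_s]
    exact (lab_cs_self Q v _).2 hv
  nb_nb v p _ := by
    rw [mul_assoc, ← QuotientGroup.mk_mul, R.sq, QuotientGroup.mk_one, mul_one]
  lab_adj u v p huv hu _ := by
    rw [lv_mul_s]
    exact (lab_cs_adj Q huv.symm _).2 hu
  nb_comm u v p huv _ _ := by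
    rw [mul_assoc, mul_assoc, ← QuotientGroup.mk_mul, ← QuotientGroup.mk_mul, R.comm u v huv]

theorem QL_graph : (QL hk x₀).graph = Q.graph := rfl

theorem QL_lab (p : W ⧸ Φ) : (QL hk x₀).lab p = Q.lab (lv hk x₀ p) := rfl

theorem QL_nb (v : V) (p : W ⧸ Φ) :
    (QL hk x₀).nb v p = p * (QuotientGroup.mk (R.s v) : W ⧸ Φ) := rfl

theorem isCovL : IsCov (QL hk x₀) Q id (lv hk x₀) where
  lab _ v hv := ⟨v, hv, rfl⟩
  lab' _ _ hv := hv
  inj _ _ _ _ _ h := h
  nb p v hv := by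
    rw [QL_nb, lv_mul_s]
    exact Q.cs_of_mem hv
  adj _ _ h := h
  adj' _ _ _ _ _ h := h

theorem dimLeL {d : ℕ} (hd : DimLe Q d) : DimLe (QL hk x₀) d := fun p σ h1 h2 =>
  hd (lv hk x₀ p) σ h1 h2

/-- the bits of the level, in the position `u` -/
noncomputable def bitL (R : Rac Q.graph W) (Φ : Subgroup W) (hb : ∀ g ∈ Φ, ∀ v, R.b g v = 0) (u : W) :
    W ⧸ Φ → V → ZMod 2 :=
  Quotient.lift (fun w v => R.b (u * w) v) fun a b hab => by
    have h1 : a⁻¹ * b ∈ Φ := QuotientGroup.leftRel_apply.1 hab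
    funext v
    show R.b (u * a) v = R.b (u * b) v
    have h2 : u * b = u * a * (a⁻¹ * b) := by group
    rw [h2, R.b_mul (u * a), hb _ h1 v, add_zero]

theorem bitL_mk (hb : ∀ g ∈ Φ, ∀ v, R.b g v = 0) (u w : W) (v : V) :
    bitL R Φ hb u (QuotientGroup.mk w : W ⧸ Φ) v = R.b (u * w) v := rfl

theorem isBitL (hb : ∀ g ∈ Φ, ∀ v, R.b g v = 0) (u : W) : IsBit (QL hk x₀) (bitL R Φ hb u) := by
  intro v p _ t
  induction p using QuotientGroup.induction_on with
  | H w =>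
    show R.b (u * (w * R.s v)) t = R.b (u * w) t + _
    rw [← mul_assoc, R.b_mul, R.b_s]
    by_cases h : t = v
    · rw [if_pos h, if_pos h.symm]
    · rw [if_neg h, if_neg fun h' => h h'.symm]

/-- the end point of a path in the level -/
theorem projL (c : (QL hk x₀).Cover 1) :
    (QL hk x₀).proj 1 c = (QuotientGroup.mk (em (QL hk x₀) R 1 c) : W ⧸ Φ) := by
  refine cover_ind (QL hk x₀) 1
    (fun c => (QL hk x₀).proj 1 c = (QuotientGroup.mk (em (QL hk x₀) R 1 c) : W ⧸ Φ)) ?_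
    (fun c v hv ih => ?_) c
  · rw [em_bp, proj_bp]
    rfl
  · rw [em_nbc (QL hk x₀) R 1 c hv, proj_nbc (QL hk x₀) 1 c hv, ih]
    rfl

theorem labL (c : (QL hk x₀).Cover 1) :
    (QL hk x₀).lab ((QL hk x₀).proj 1 c) = Q.lab (ra Q R x₀ (em (QL hk x₀) R 1 c)) := by
  rw [projL, QL_lab, lv_mk]

/-- the universal cover of the level is the same component -/
theorem exists_emL (c : Q.Cover x₀) : ∃ c' : (QL hk x₀).Cover 1,
    em (QL hk x₀) R 1 c' = em Q R x₀ c := by
  refine cover_ind Q x₀ (fun c => ∃ c' : (QL hk x₀).Cover 1,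
    em (QL hk x₀) R 1 c' = em Q R x₀ c) ⟨bp (QL hk x₀) 1, ?_⟩ (fun c v hv ih => ?_) c
  · rw [em_bp, em_bp]
  · obtain ⟨c', hc'⟩ := ih
    have hv' : v ∈ (QL hk x₀).lab ((QL hk x₀).proj 1 c') := by
      rw [labL, hc', ra_em]
      exact hv
    exact ⟨(QL hk x₀).nbc 1 v c', by rw [em_nbc (QL hk x₀) R 1 c' hv', em_nbc Q R x₀ c hv, hc']⟩

end Level

section DeckL

variable {V X : Type} [DecidableEq V] [Fintype V] {Q : CubeComplex V X} {W : Type} [Group W]
  {R : Rac Q.graph W} {Φ : Subgroup W} [Φ.Normal] (hk : Φ ≤ raKer Q R) (x₀ : X)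

private theorem deck_cov {V X V' X' Γ : Type} [DecidableEq V] [DecidableEq V'] [Group Γ]
    {Q' : CubeComplex V' X'} {Q : CubeComplex V X} {ψ : V' → V} {φ : X' → X} (h : IsCov Q' Q ψ φ)
    (y : X') (x : X) (hx : φ y = x) [MulAction Γ (Q.Cover x)] (hΓ : IsDeck Γ Q x) :
    ∃ (Γ' : Subgroup Γ) (_ : MulAction Γ' (Q'.Cover y)), IsDeck Γ' Q' y := by
  subst hx
  exact ⟨deckSub h y Γ, deckAct h y, isDeck_cov h y hΓ⟩

/-- the deck group of the level is a subgroup of the deck group of `Q` -/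
theorem exists_deckL {Γ : Type} [Group Γ] [MulAction Γ (Q.Cover x₀)] (hΓ : IsDeck Γ Q x₀) :
    ∃ (Γ' : Subgroup Γ) (_ : MulAction Γ' ((QL hk x₀).Cover 1)), IsDeck Γ' (QL hk x₀) 1 :=
  deck_cov (isCovL hk x₀) 1 x₀ (lv_one hk x₀) hΓ

variable {Γ : Type} [Group Γ] [MulAction Γ ((QL hk x₀).Cover 1)]

theorem jjL_mem (hΓ : IsDeck Γ (QL hk x₀) 1) (g : Γ) : jj (Q := QL hk x₀) R hΓ g ∈ Φ := by
  have h1 := projL hk x₀ (g • bp (QL hk x₀) 1)
  rw [hΓ.proj, proj_bp] at h1
  have h2 : (QuotientGroup.mk (jj (Q := QL hk x₀) R hΓ g) : W ⧸ Φ) = 1 := h1.symm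
  exact (QuotientGroup.eq_one_iff _).1 h2

/-- the deck group of the level as a subgroup of `Φ`, in the position `u` -/
noncomputable def thL (hΓ : IsDeck Γ (QL hk x₀) 1) (u : W) : Γ →* Φ where
  toFun g := ⟨u * jj (Q := QL hk x₀) R hΓ g * u⁻¹,
    (inferInstance : Φ.Normal).conj_mem _ (jjL_mem hk x₀ hΓ g) u⟩
  map_one' := Subtype.ext (by simp)
  map_mul' a b := Subtype.ext (by
    show u * jj (Q := QL hk x₀) R hΓ (a * b) * u⁻¹ = u * jj (Q := QL hk x₀) R hΓ a * u⁻¹ *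
      (u * jj (Q := QL hk x₀) R hΓ b * u⁻¹)
    rw [map_mul]
    group)

theorem thL_apply (hΓ : IsDeck Γ (QL hk x₀) 1) (u : W) (g : Γ) :
    (thL hk x₀ hΓ u g : W) = u * jj (Q := QL hk x₀) R hΓ g * u⁻¹ := rfl

/-- the universal cover of the level in the position `u` -/
noncomputable def jL (R : Rac Q.graph W) (hk : Φ ≤ raKer Q R) (x₀ : X) (u : W)
    (c : (QL hk x₀).Cover 1) : W := u * em (QL hk x₀) R 1 c

/-- **the universal cover of the level is a component of the active subcomplex**, in the position `u` -/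
theorem isEmbL (hΓ : IsDeck Γ (QL hk x₀) 1) {u : W} (hu : ra Q R x₀ u = x₀) :
    IsEmb (QL hk x₀) R Φ (actv Q R x₀) 1 (thL hk x₀ hΓ u) (jL R hk x₀ u) where
  nb c v hv := by
    unfold jL
    rw [em_nbc (QL hk x₀) R 1 c hv]
    exact (mul_assoc _ _ _).symm
  act c v := by
    unfold jL actv
    rw [ra_mul, hu, labL]
  smul g c := by
    unfold jL
    rw [em_smul (Q := QL hk x₀) (R := R) hΓ g c, thL_apply]
    group
  sep φ c c' h := by
    unfold jL at h
    have hm : u⁻¹ * (φ : W) * u ∈ Φ := by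
      have h1 := (inferInstance : Φ.Normal).conj_mem φ φ.2 u⁻¹
      rwa [inv_inv] at h1
    have he : em (QL hk x₀) R 1 c' = u⁻¹ * (φ : W) * u * em (QL hk x₀) R 1 c := by
      have h2 : em (QL hk x₀) R 1 c' = u⁻¹ * (u * em (QL hk x₀) R 1 c') := by group
      rw [h2, ← h]
      group
    have hp : (QL hk x₀).proj 1 c = (QL hk x₀).proj 1 c' := by
      rw [projL, projL, he, QuotientGroup.mk_mul, (QuotientGroup.eq_one_iff _).2 hm, one_mul]
    obtain ⟨g, hg⟩ := hΓ.trans c c' hp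
    refine ⟨g, Subtype.ext ?_, hg⟩
    have h3 := em_smul (Q := QL hk x₀) (R := R) hΓ g c
    rw [hg, he] at h3
    have h4 : u⁻¹ * (φ : W) * u = jj (Q := QL hk x₀) R hΓ g := mul_right_cancel h3
    rw [thL_apply, ← h4]
    group

/-- every element is in one of the positions -/
theorem exists_pos (w : W) : ∃ (u : W) (c : (QL hk x₀).Cover 1), ra Q R x₀ u = x₀ ∧
    w = jL R hk x₀ u c := by
  obtain ⟨g, y, hg, ⟨c, rfl⟩, rfl⟩ := exists_translate Q R x₀ w
  obtain ⟨c', hc'⟩ := exists_emL hk x₀ c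
  exact ⟨g, c', hg, by unfold jL; rw [hc']⟩

/-- the bits -/
theorem bitL_proj (hb : ∀ g ∈ Φ, ∀ v, R.b g v = 0) (u : W) (c : (QL hk x₀).Cover 1) (v : V) :
    bitL R Φ hb u ((QL hk x₀).proj 1 c) v = R.b (jL R hk x₀ u c) v := by
  rw [projL, bitL_mk]
  rfl

end DeckL

end Pool.Agent.S10
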