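import Pool.Agent.S10.Emb
import Pool.Agent.S10.Uc

/-!
# Project S10, block M: from the component to the active subcomplex and back

`ext`: the equivariant extension of a cochain of the component by zero; `effC_of_effA`, `liftsR_of_liftsA`: effaceability
and lifting for a component; `end_orb`: the end on the whole active subcomplex, from the components.
-/

set_option autoImplicit false
set_option linter.unusedSectionVars false

open Finset

namespace Pool.Agent.S10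

open Pool.Agent.H19.Cub Pool.Agent.H77.SX Pool.Agent.H37.TM Pool.Agent.S9 Pool.Agent.S9.U
  Pool.Agent.S9.M

variable {V X Γ W : Type} [DecidableEq V] [Fintype V] [Group Γ] [Group W] {Q : CubeComplex V X}
  {R : Rac Q.graph W} {Φ : Subgroup W} {act : V → W → Prop} {x₀ : X} [MulAction Γ (Q.Cover x₀)]
  {θ : Γ →* Φ} {j : Q.Cover x₀ → W}

/-! ### The orbit of the component -/

/-- the orbit of the component -/
def IsO (Φ : Subgroup W) (j : Q.Cover x₀ → W) (w : W) : Prop := ∃ (φ : Φ) (c : Q.Cover x₀), w = φ * j c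

theorem IsO.base (c : Q.Cover x₀) : IsO Φ j (j c) := ⟨1, c, (one_mul _).symm⟩

theorem IsO.smul {w : W} (h : IsO Φ j w) (φ : Φ) : IsO Φ j (φ * w) := by
  obtain ⟨φ', c, rfl⟩ := h
  exact ⟨φ * φ', c, (mul_assoc _ _ _).symm⟩

theorem isO_smul {w : W} {φ : Φ} : IsO Φ j ((φ : W) * w) ↔ IsO Φ j w := by
  refine ⟨fun h => ?_, fun h => h.smul φ⟩
  have h1 := h.smul φ⁻¹
  have h2 : ((φ⁻¹ : Φ) : W) * (φ * w) = w := by
    rw [InvMemClass.coe_inv, inv_mul_cancel_left]
  rwa [h2] at h1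

theorem IsEmb.act' (h : IsEmb Q R Φ act x₀ θ j) (hact : IsActv R Φ act) (φ : Φ) (c : Q.Cover x₀)
    (v : V) : act v (φ * j c) ↔ v ∈ Q.lab (Q.proj x₀ c) := by
  rw [hact.inv v φ φ.2, h.act]

theorem IsEmb.step (h : IsEmb Q R Φ act x₀ θ j) (φ : Φ) {c : Q.Cover x₀} {v : V}
    (hv : v ∈ Q.lab (Q.proj x₀ c)) : (φ : W) * j c * R.s v = φ * j (Q.nbc x₀ v c) := by
  rw [h.nb c v hv, mul_assoc]

theorem IsEmb.isO_s (h : IsEmb Q R Φ act x₀ θ j) (hact : IsActv R Φ act) {w : W} {v : V}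
    (hv : act v w) : IsO Φ j (w * R.s v) ↔ IsO Φ j w := by
  have h1 : ∀ w, act v w → IsO Φ j w → IsO Φ j (w * R.s v) := by
    rintro _ hv ⟨φ, c, rfl⟩
    rw [h.act' hact] at hv
    exact ⟨φ, Q.nbc x₀ v c, h.step φ hv⟩
  refine ⟨fun h2 => ?_, h1 w hv⟩
  have h3 := h1 _ ((hact.self v w).2 hv) h2
  rwa [mul_assoc, R.sq, mul_one] at h3

/-! ### The extension by zero -/

section Ext

variable {K : Type} [Field K] {E : Type} [AddCommGroup E] [Module K E]

open Classical in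
/-- **the equivariant extension by zero** -/
noncomputable def ext (j : Q.Cover x₀ → W) (ρ : Φ →* Module.End K E) (x : Q.Cover x₀ × Finset V → E)
    (A : Finset V) (w : W) : E :=
  if h : IsO Φ j w then ρ h.choose (x (h.choose_spec.choose, A)) else 0

theorem ext_neg {ρ : Φ →* Module.End K E} {x : Q.Cover x₀ × Finset V → E} {A : Finset V} {w : W}
    (h : ¬ IsO Φ j w) : ext j ρ x A w = 0 := dif_neg h

theorem ext_eq (h : IsEmb Q R Φ act x₀ θ j) {ρ : Φ →* Module.End K E}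
    {x : Q.Cover x₀ × Finset V → E}
    (hx : ∀ (g : Γ) (e : Q.Cover x₀ × Finset V), x (g • e.1, e.2) = ρ (θ g) (x e)) (A : Finset V)
    (φ : Φ) (c : Q.Cover x₀) : ext j ρ x A (φ * j c) = ρ φ (x (c, A)) := by
  have hO : IsO Φ j ((φ : W) * j c) := ⟨φ, c, rfl⟩
  have key : ∀ (φ' : Φ) (c' : Q.Cover x₀), (φ : W) * j c = φ' * j c' →
      ρ φ' (x (c', A)) = ρ φ (x (c, A)) := by
    intro φ' c' h1
    obtain ⟨g, hg1, hg2⟩ := h.sep (φ'⁻¹ * φ) c c' (by
      rw [Subgroup.coe_mul, InvMemClass.coe_inv, mul_assoc, h1, inv_mul_cancel_left])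
    rw [← hg2, hx g (c, A), hg1, ← Module.End.mul_apply, ← map_mul, mul_inv_cancel_left]
  unfold ext
  rw [dif_pos hO]
  exact key _ _ hO.choose_spec.choose_spec

theorem ext_base (h : IsEmb Q R Φ act x₀ θ j) {ρ : Φ →* Module.End K E}
    {x : Q.Cover x₀ × Finset V → E}
    (hx : ∀ (g : Γ) (e : Q.Cover x₀ × Finset V), x (g • e.1, e.2) = ρ (θ g) (x e)) (A : Finset V)
    (c : Q.Cover x₀) : ext j ρ x A (j c) = x (c, A) := by
  have h1 := ext_eq h hx A 1 c
  rw [map_one, Subgroup.coe_one, one_mul] at h1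
  exact h1

theorem ext_mem (h : IsEmb Q R Φ act x₀ θ j) (hact : IsActv R Φ act) {ρ : Φ →* Module.End K E}
    {k : ℕ} {x : Q.Cover x₀ × Finset V → E} (hx : CubC Q x₀ θ ρ k x) :
    ext j ρ x ∈ Ca R act Φ ρ k := by
  have hne : ∀ A w, ext j ρ x A w ≠ 0 → ∃ (φ : Φ) (c : Q.Cover x₀), w = φ * j c ∧ x (c, A) ≠ 0 := by
    intro A w hw
    by_cases hO : IsO Φ j w
    · obtain ⟨φ, c, rfl⟩ := hO
      refine ⟨φ, c, rfl, fun h0 => hw ?_⟩
      rw [ext_eq h hx.smul, h0, map_zero]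
    · exact absurd (ext_neg hO) hw
  have hinv : ∀ A, ∀ v ∈ A, ∀ w, ext j ρ x A w ≠ 0 → ext j ρ x A (w * R.s v) = ext j ρ x A w := by
    intro A v hv w hw
    obtain ⟨φ, c, rfl, hc⟩ := hne A w hw
    obtain ⟨h1, h2, h3⟩ := hx.valid (c, A) hc
    rw [h.step φ (h1 hv), ext_eq h hx.smul, ext_eq h hx.smul, hx.nb c A h1 v hv]
  refine (mem_Ca R act).2 ⟨(mem_Cc R).2 ⟨fun A hA => ?_, fun A v hv w => ?_, fun A g w => ?_⟩,
    fun A w hw v hv => ?_⟩
  · obtain ⟨w, hw⟩ := Function.ne_iff.1 hA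
    obtain ⟨φ, c, rfl, hc⟩ := hne A w hw
    exact (hx.valid (c, A) hc).2
  · by_cases hw : ext j ρ x A w = 0
    · by_contra h1
      rw [hw] at h1
      have h2 := hinv A v hv _ h1
      rw [mul_assoc, R.sq, mul_one, hw] at h2
      exact h1 h2.symm
    · exact hinv A v hv w hw
  · by_cases hO : IsO Φ j w
    · obtain ⟨φ, c, rfl⟩ := hO
      have h1 := ext_eq h hx.smul A (g * φ) c
      rw [Subgroup.coe_mul, mul_assoc] at h1
      rw [h1, ext_eq h hx.smul, map_mul, Module.End.mul_apply]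
    · rw [ext_neg hO, ext_neg fun h1 => hO (isO_smul.1 h1), map_zero]
  · obtain ⟨φ, c, rfl, hc⟩ := hne A w hw
    exact (h.act' hact φ c v).2 ((hx.valid (c, A) hc).1 hv)

theorem cba_ext (h : IsEmb Q R Φ act x₀ θ j) (hact : IsActv R Φ act) {ρ : Φ →* Module.End K E}
    {x : Q.Cover x₀ × Finset V → E}
    (hx : ∀ (g : Γ) (e : Q.Cover x₀ × Finset V), x (g • e.1, e.2) = ρ (θ g) (x e))
    (A : Finset V) (φ : Φ) (c : Q.Cover x₀) :
    cba R act (ext j ρ x) A (φ * j c) = ρ φ (cbC Q x₀ x (c, A)) := by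
  classical
  unfold cba cb cbC
  by_cases h1 : A ⊆ Q.lab (Q.proj x₀ c)
  · rw [if_pos fun v hv => (h.act' hact φ c v).2 (h1 hv)]
    by_cases h2 : Q.graph.IsClique (A : Set V)
    · rw [if_pos h2, if_pos ⟨h1, h2⟩, map_sum]
      refine sum_congr rfl fun v hv => ?_
      rw [h.step φ (h1 hv), ext_eq h hx, ext_eq h hx, map_add]
    · rw [if_neg h2, if_neg fun h3 => h2 h3.2, map_zero]
  · rw [if_neg fun h2 => h1 fun v hv => (h.act' hact φ c v).1 (h2 v hv), if_neg fun h3 => h1 h3.1,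
      map_zero]

theorem cba_ext_neg (h : IsEmb Q R Φ act x₀ θ j) (hact : IsActv R Φ act) {ρ : Φ →* Module.End K E}
    {x : Q.Cover x₀ × Finset V → E} (A : Finset V) {w : W} (hw : ¬ IsO Φ j w) :
    cba R act (ext j ρ x) A w = 0 := by
  classical
  unfold cba cb
  by_cases h1 : ∀ v ∈ A, act v w
  · rw [if_pos h1]
    by_cases h2 : Q.graph.IsClique (A : Set V)
    · rw [if_pos h2]
      refine sum_eq_zero fun v hv => ?_
      rw [ext_neg hw, ext_neg fun h3 => hw ((h.isO_s hact (h1 v hv)).1 h3), add_zero]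
    · rw [if_neg h2]
  · rw [if_neg h1]

/-! ### The restriction -/

/-- the restriction to the component -/
def res (j : Q.Cover x₀ → W) (y : Finset V → W → E) (e : Q.Cover x₀ × Finset V) : E := y e.2 (j e.1)

theorem res_mem (h : IsEmb Q R Φ act x₀ θ j) {ρ : Φ →* Module.End K E}
    {k : ℕ} {y : Finset V → W → E} (hy : y ∈ Ca R act Φ ρ k) : CubC Q x₀ θ ρ k (res j y) := by
  obtain ⟨h1, h2⟩ := (mem_Ca R act).1 hy
  obtain ⟨h3, h4, h5⟩ := (mem_Cc R).1 h1
  refine ⟨fun e he => ⟨fun v hv => (h.act _ _).1 (h2 _ _ he v hv), ?_⟩, fun c σ hσ v hv => ?_,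
    fun g e => ?_⟩
  · exact h3 e.2 fun h0 => he (by
      show y e.2 (j e.1) = 0
      rw [h0]
      rfl)
  · show y σ (j (Q.nbc x₀ v c)) = y σ (j c)
    rw [h.nb c v (hσ hv), h4 σ v hv]
  · show y e.2 (j (g • e.1)) = ρ (θ g) (y e.2 (j e.1))
    rw [h.smul, h5]

theorem cbC_res (h : IsEmb Q R Φ act x₀ θ j) (y : Finset V → W → E) (e : Q.Cover x₀ × Finset V) :
    cbC Q x₀ (res j y) e = cba R act y e.2 (j e.1) := by
  classical
  unfold cba cb cbC
  by_cases h1 : e.2 ⊆ Q.lab (Q.proj x₀ e.1)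
  · rw [if_pos fun v hv => (h.act e.1 v).2 (h1 hv)]
    by_cases h2 : Q.graph.IsClique (e.2 : Set V)
    · rw [if_pos h2, if_pos ⟨h1, h2⟩]
      refine sum_congr rfl fun v hv => ?_
      show y (e.2.erase v) (j e.1) + y (e.2.erase v) (j (Q.nbc x₀ v e.1)) = _
      rw [h.nb e.1 v (h1 hv)]
    · rw [if_neg h2, if_neg fun h3 => h2 h3.2]
  · rw [if_neg fun h3 => h1 h3.1, if_neg fun h2 => h1 fun v hv => (h.act e.1 v).1 (h2 v hv)]

end Ext

/-! ### Effaceability and lifting -/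

/-- **Effaceability for a component.** -/
theorem effC_of_effA (h : IsEmb Q R Φ act x₀ θ j) (hact : IsActv R Φ act) {K : Type} [Field K]
    {Λ : Subgroup Kˣ} (hE : EffA R act K Φ Λ) : EffC Q x₀ K θ Λ := by
  intro k E _ _ _ ρ hρ x hx hd
  obtain ⟨E', i1, i2, i3, ρ', ι, y, h1, h2, h3, h4, h5⟩ := hE k E ρ hρ (ext j ρ x)
    (ext_mem h hact hx) (by
      funext A w
      by_cases hO : IsO Φ j w
      · obtain ⟨φ, c, rfl⟩ := hO
        rw [cba_ext h hact hx.smul, hd, map_zero]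
        rfl
      · exact cba_ext_neg h hact A hO)
  refine ⟨E', i1, i2, i3, ρ', ι, res j y, h1, h2, h3, res_mem h h4, fun e => ?_⟩
  rw [cbC_res h, h5, ext_base h hx.smul]

/-- **Lifting for a component.** -/
theorem liftsR_of_liftsA (h : IsEmb Q R Φ act x₀ θ j) {K : Type} [Field K] {χ : Φ →* Kˣ} {i : ℕ}
    {z₀ : Finset V → W → K} (hl : LiftsA R act Φ χ i z₀) :
    LiftsR θ Q x₀ χ i (res j z₀) := by
  intro N _ _ _ _ ρ π h1 h2 h3
  obtain ⟨z, hz, hπ⟩ := hl N ρ π h1 h2 h3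
  obtain ⟨hz1, hz2⟩ := Submodule.mem_inf.1 hz
  have hc := res_mem h hz1
  refine ⟨res j z, ⟨hc.valid, hc.nb, fun c κ => ?_⟩, fun g e => hc.smul g e, fun e => hπ _ _⟩
  have h4 := congrFun (congrFun (LinearMap.mem_ker.1 hz2) κ) (j c)
  rw [bd_apply] at h4
  exact h4

/-- the restriction of a cycle -/
theorem cyc_res (h : IsEmb Q R Φ act x₀ θ j) {K : Type} [Field K] {χ : Φ →* Kˣ} {i : ℕ}
    {z₀ : Finset V → W → K} (hz : z₀ ∈ Za R act Φ (ch χ) i) :
    CycN Q x₀ i (res j z₀) ∧ ∀ (g : Γ) (e : Q.Cover x₀ × Finset V),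
      res j z₀ (g • e) = (χ (θ g) : K) * res j z₀ e := by
  obtain ⟨hz1, hz2⟩ := Submodule.mem_inf.1 hz
  have hc := res_mem h hz1
  refine ⟨⟨hc.valid, hc.nb, fun c κ => ?_⟩, fun g e => hc.smul g e⟩
  have h4 := congrFun (congrFun (LinearMap.mem_ker.1 hz2) κ) (j c)
  rw [bd_apply] at h4
  exact h4

/-! ### The end -/

section End

variable {K : Type} [Field K]

open Classical in
/-- the pairing on the orbit of the component -/
theorem pair_ext (h : IsEmb Q R Φ act x₀ θ j) (hact : IsActv R Φ act)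
    (hb : ∀ g ∈ Φ, ∀ v, R.b g v = 0) {F : Finset W} (hF : IsTr Φ F) (hΓ : IsDeck Γ Q x₀)
    {bit : X → V → ZMod 2} (hbit : ∀ c v, bit (Q.proj x₀ c) v = R.b (j c) v) {χ : Φ →* Kˣ} {i : ℕ}
    {z₀ : Finset V → W → K} (hz : z₀ ∈ Ca R act Φ (ch χ) i) {x : Q.Cover x₀ × Finset V → K}
    (hx : CubC Q x₀ θ (ch (im2 χ)) i x) :
    PAIR Q.graph R F (fun A w => ext j (ch (im2 χ)) x A w * z₀ A w ^ 2) =
      osum Γ (fun e : Q.Cover x₀ × Finset V =>
        if e ∈ Cell Q x₀ bit i then x e * res j z₀ e ^ 2 else 0) := by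
  obtain ⟨hz1, -⟩ := (mem_Ca R act).1 hz
  obtain ⟨-, -, hz3⟩ := (mem_Cc R).1 hz1
  have hw : ∀ (φ : Φ), (im2 χ φ : K) * (χ φ : K) ^ 2 = 1 := by
    intro φ
    rw [im2_apply, ← Units.val_pow_eq_pow_val, Units.inv_mul]
  have hval : ∀ (A : Finset V) (φ : Φ) (c : Q.Cover x₀),
      ext j (ch (im2 χ)) x A (φ * j c) * z₀ A (φ * j c) ^ 2 = x (c, A) * res j z₀ (c, A) ^ 2 := by
    intro A φ c
    rw [ext_eq h hx.smul, hz3]
    show (im2 χ φ : K) * x (c, A) * ((χ φ : K) * z₀ A (j c)) ^ 2 = x (c, A) * z₀ A (j c) ^ 2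
    rw [mul_pow, mul_mul_mul_comm, hw, one_mul]
  -- the representatives
  have hch : ∀ p : W, ∃ (φ : Φ) (c : Q.Cover x₀), IsO Φ j p → p = φ * j c := by
    intro p
    by_cases hO : IsO Φ j p
    · obtain ⟨φ, c, hp⟩ := hO
      exact ⟨φ, c, fun _ => hp⟩
    · by_cases hne : Nonempty (Q.Cover x₀)
      · exact ⟨1, hne.some, fun h1 => absurd h1 hO⟩
      · exact absurd ⟨bp Q x₀⟩ hne
  choose fp cp hp using hch
  let J := {y : Finset V × W // y ∈ ((univ : Finset (Finset V)) ×ˢ F) ∧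
    (Q.graph.IsClique (y.1 : Set V) ∧ y.2 ∈ bs R F y.1) ∧ IsO Φ j y.2}
  have hJ : Finite J := Finite.of_injective (β := ((univ : Finset (Finset V)) ×ˢ F : Finset _))
    (fun y => ⟨y.1, y.2.1⟩) fun y y' hyy => Subtype.ext (congrArg (fun t => t.1) hyy)
  have _ : Fintype J := Fintype.ofFinite J
  rw [osum_eq_of_reps (J := J) _ ?_ (fun y => (cp y.1.2, y.1.1)) ?_ ?_]
  · -- the sum
    unfold PAIR
    rw [sum_sigma']
    have e0 : ∀ y : J, (if (cp y.1.2, y.1.1) ∈ Cell Q x₀ bit i then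
        x (cp y.1.2, y.1.1) * res j z₀ (cp y.1.2, y.1.1) ^ 2 else 0) =
        ext j (ch (im2 χ)) x y.1.1 y.1.2 * z₀ y.1.1 y.1.2 ^ 2 := by
      intro y
      obtain ⟨⟨A, p⟩, h1, ⟨h2, h3⟩, h4⟩ := y
      show (if (cp p, A) ∈ Cell Q x₀ bit i then x (cp p, A) * res j z₀ (cp p, A) ^ 2 else 0) =
        ext j (ch (im2 χ)) x A p * z₀ A p ^ 2
      have h5 := hval A (fp p) (cp p)
      rw [← hp p h4] at h5
      rw [h5]
      by_cases hxz : x (cp p, A) = 0
      · rw [hxz, zero_mul, ite_self]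
      · obtain ⟨q1, q2, q3⟩ := hx.valid _ hxz
        rw [if_pos]
        refine ⟨q1, q2, q3, fun v hv => ?_⟩
        show bit (Q.proj x₀ (cp p)) v = 0
        rw [hbit]
        have h6 := ((mem_bs R).1 h3).2 v hv
        rw [hp p h4, R.b_mul, hb _ (fp p).2, zero_add] at h6
        exact h6
    rw [sum_congr rfl fun y _ => e0 y]
    symm
    refine sum_bij_ne_zero (fun y _ _ => ⟨y.1.1, y.1.2⟩) ?_ ?_ ?_ ?_
    · intro y _ _
      rw [mem_sigma]
      exact ⟨mem_filter.2 ⟨mem_univ _, y.2.2.1.1⟩, y.2.2.1.2⟩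
    · intro y _ _ y' _ _ hyy
      have h3 := Sigma.mk.inj_iff.1 hyy
      exact Subtype.ext (Prod.ext h3.1 (eq_of_heq h3.2))
    · rintro ⟨A, p⟩ hy hne
      obtain ⟨h1, h2⟩ := mem_sigma.1 hy
      have h3 : IsO Φ j p := by
        by_contra h4
        apply hne
        show ext j (ch (im2 χ)) x A p * z₀ A p ^ 2 = 0
        rw [ext_neg h4, zero_mul]
      exact ⟨⟨(A, p), mem_product.2 ⟨mem_univ _, ((mem_bs R).1 h2).1⟩,
        ⟨(mem_filter.1 h1).2, h2⟩, h3⟩, mem_univ _, hne, rfl⟩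
    · intro y _ _
      rfl
  · intro g e
    have h1 : (g • e ∈ Cell Q x₀ bit i) ↔ e ∈ Cell Q x₀ bit i := cell_smul hΓ g e
    by_cases h2 : e ∈ Cell Q x₀ bit i
    · rw [if_pos h2, if_pos (h1.2 h2)]
      have h3 : x (g • e) = (im2 χ (θ g) : K) * x e := hx.smul g e
      have h4 : res j z₀ (g • e) = (χ (θ g) : K) * res j z₀ e := (res_mem h hz).smul g e
      rw [h3, h4, mul_pow, mul_mul_mul_comm, hw, one_mul]
    · rw [if_neg h2, if_neg fun h3 => h2 (h1.1 h3)]
  · rintro ⟨⟨A, p⟩, h1, ⟨h2, h3⟩, h4⟩ ⟨⟨A', p'⟩, h1', ⟨h2', h3'⟩, h4'⟩ g hg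
    have hg1 : g • cp p = cp p' := congrArg Prod.fst hg
    have hg2 : A = A' := congrArg Prod.snd hg
    subst hg2
    have h5 : p' * p⁻¹ ∈ Φ := by
      have h6 : p' = (((fp p') * θ g * (fp p)⁻¹ : Φ) : W) * p := by
        have e1 : j (cp p) = ((fp p : Φ) : W)⁻¹ * p := eq_inv_mul_iff_mul_eq.2 (hp p h4).symm
        have e2 : p' = fp p' * j (cp p') := hp p' h4'
        rw [← hg1, h.smul, e1] at e2
        rw [Subgroup.coe_mul, Subgroup.coe_mul, InvMemClass.coe_inv, mul_assoc, mul_assoc]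
        exact e2
      rw [h6, mul_inv_cancel_right]
      exact Subtype.property _
    obtain ⟨p₀, -, hu⟩ := hF p'
    have h7 := hu p ⟨((mem_bs R).1 h3).1, h5⟩
    have h8 := hu p' ⟨((mem_bs R).1 h3').1, by rw [mul_inv_cancel]; exact Φ.one_mem⟩
    have h9 : p = p' := h7.trans h8.symm
    subst h9
    rfl
  · intro e he
    have hc : e ∈ Cell Q x₀ bit i := by
      by_contra hc
      exact he (if_neg hc)
    obtain ⟨c1, c2, c3, c4⟩ := hc
    obtain ⟨p, ⟨hp1, hp2⟩, -⟩ := hF (j e.1)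
    have h1 : p = (((⟨j e.1 * p⁻¹, hp2⟩ : Φ)⁻¹ : Φ) : W) * j e.1 := by
      rw [InvMemClass.coe_inv, mul_inv_rev, inv_inv, inv_mul_cancel_right]
    have h2 : IsO Φ j p := ⟨_, _, h1⟩
    have h3 : ((((fp p)⁻¹ * (⟨j e.1 * p⁻¹, hp2⟩ : Φ)⁻¹ : Φ)) : W) * j e.1 = j (cp p) := by
      rw [Subgroup.coe_mul, mul_assoc, ← h1, InvMemClass.coe_inv]
      exact (eq_inv_mul_iff_mul_eq.2 (hp p h2).symm).symm
    obtain ⟨g, -, hg⟩ := h.sep _ _ _ h3
    refine ⟨g, ⟨⟨(e.2, p), mem_product.2 ⟨mem_univ _, hp1⟩, ⟨c2, (mem_bs R).2 ⟨hp1, fun v hv => ?_⟩⟩,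
      h2⟩, ?_⟩⟩
    · rw [h1, R.b_mul, hb _ (Subtype.property _), zero_add, ← hbit]
      exact c4 v hv
    · show g • e = (cp p, e.2)
      rw [cu_smul, hg]

open Classical in
/-- **The end on the active subcomplex.** -/
theorem end_orb [CharP K 2] (hb : ∀ g ∈ Φ, ∀ v, R.b g v = 0) (hfin : Φ.FiniteIndex)
    (hact : IsActv R Φ act) (hΓ : IsDeck Γ Q x₀) {χ : Φ →* Kˣ} {i : ℕ} {z₀ : Finset V → W → K}
    (hz : z₀ ∈ Za R act Φ (ch χ) i)
    (h : ∀ w : W, ∃ (θ : Γ →* Φ) (j : Q.Cover x₀ → W) (bit : X → V → ZMod 2),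
      IsEmb Q R Φ act x₀ θ j ∧ (∃ (φ : Φ) (c : Q.Cover x₀), w = φ * j c) ∧
      (∀ c v, bit (Q.proj x₀ c) v = R.b (j c) v) ∧
      ∀ x : Q.Cover x₀ × Finset V → K, CubC Q x₀ θ (ch (im2 χ)) i x →
        (∀ e, cbC Q x₀ x e = 0) →
        osum Γ (fun e : Q.Cover x₀ × Finset V =>
          if e ∈ Cell Q x₀ bit i then x e * res j z₀ e ^ 2 else 0) = 0) :
    z₀ ∈ Ba R act Φ (ch χ) i := by
  obtain ⟨F, hF⟩ := tr_ex Φ
  refine ucA R hb hact hF χ hz fun x hx hcx => ?_
  have hc : (χ⁻¹ ^ 2 : Φ →* Kˣ) = im2 χ := MonoidHom.ext fun g => inv_pow (χ g) 2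
  rw [hc] at hx
  have hza := (Submodule.mem_inf.1 hz).1
  -- induction on the number of the representatives in the support
  have key : ∀ (n : ℕ) (x : Finset V → W → K), x ∈ Ca R act Φ (ch (im2 χ)) i → cba R act x = 0 →
      (F.filter fun p => ∃ A, x A p ≠ 0).card ≤ n →
      PAIR Q.graph R F (fun A w => x A w * z₀ A w ^ 2) = 0 := by
    intro n
    induction n with
    | zero =>
      intro x hx hcx hn
      have h1 : (F.filter fun p => ∃ A, x A p ≠ 0) = ∅ := card_eq_zero.1 (by omega)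
      unfold PAIR
      refine sum_eq_zero fun A _ => sum_eq_zero fun p hp => ?_
      have h2 : x A p = 0 := by
        by_contra h3
        have h4 : p ∈ F.filter fun p => ∃ A, x A p ≠ 0 :=
          mem_filter.2 ⟨((mem_bs R).1 hp).1, A, h3⟩
        rw [h1] at h4
        exact absurd h4 (notMem_empty _)
      show x A p * z₀ A p ^ 2 = 0
      rw [h2, zero_mul]
    | succ n ih =>
      intro x hx hcx hn
      by_cases hne : (F.filter fun p => ∃ A, x A p ≠ 0) = ∅
      · exact ih x hx hcx (by rw [hne, card_empty]; omega)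
      obtain ⟨w, hw⟩ := nonempty_iff_ne_empty.2 hne
      obtain ⟨θ, j, bit, h1, h2, h3, h4⟩ := h w
      have h5 := res_mem h1 hx
      have h6 : ∀ e, cbC Q x₀ (res j x) e = 0 := by
        intro e
        rw [cbC_res h1, hcx]
        rfl
      have h7 := h4 _ h5 h6
      rw [← pair_ext h1 hact hb hF hΓ h3 hza h5] at h7
      -- the rest
      set x' : Finset V → W → K := x - ext j (ch (im2 χ)) (res j x) with hx'
      have h8 : x' ∈ Ca R act Φ (ch (im2 χ)) i := Submodule.sub_mem _ hx (ext_mem h1 hact h5)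
      have hval : ∀ A w, IsO Φ j w → ext j (ch (im2 χ)) (res j x) A w = x A w := by
        rintro A _ ⟨φ, c, rfl⟩
        rw [ext_eq h1 h5.smul, ((mem_Cc R).1 ((mem_Ca R act).1 hx).1).2.2]
        rfl
      have h9 : cba R act x' = 0 := by
        funext A w
        have h10 : cba R act x' A w =
            cba R act x A w - cba R act (ext j (ch (im2 χ)) (res j x)) A w := by
          unfold cba cb
          by_cases q1 : ∀ v ∈ A, act v w
          · rw [if_pos q1, if_pos q1, if_pos q1]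
            by_cases q2 : Q.graph.IsClique (A : Set V)
            · rw [if_pos q2, if_pos q2, if_pos q2, ← sum_sub_distrib]
              refine sum_congr rfl fun v _ => ?_
              show (x (A.erase v) w - _) + (x (A.erase v) (w * R.s v) - _) = _
              ring
            · rw [if_neg q2, if_neg q2, if_neg q2, sub_zero]
          · rw [if_neg q1, if_neg q1, if_neg q1, sub_zero]
        rw [h10, hcx]
        by_cases hO : IsO Φ j w
        · obtain ⟨φ, c, rfl⟩ := hO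
          rw [cba_ext h1 hact h5.smul, h6, map_zero, sub_zero]
        · rw [cba_ext_neg h1 hact A hO, sub_zero]
      have h11 := ih x' h8 h9 (by
        have h12 : (F.filter fun p => ∃ A, x' A p ≠ 0) ⊆
            (F.filter fun p => ∃ A, x A p ≠ 0).erase w := by
          intro p hp
          obtain ⟨hp1, A, hp2⟩ := mem_filter.1 hp
          have hO : ¬ IsO Φ j p := by
            intro hO
            apply hp2
            show x A p - ext j (ch (im2 χ)) (res j x) A p = 0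
            rw [hval A p hO, sub_self]
          have h13 : x' A p = x A p := by
            show x A p - ext j (ch (im2 χ)) (res j x) A p = x A p
            rw [ext_neg hO, sub_zero]
          rw [h13] at hp2
          refine mem_erase.2 ⟨fun h14 => hO (h14 ▸ h2), mem_filter.2 ⟨hp1, A, hp2⟩⟩
        have h15 := card_le_card h12
        rw [card_erase_of_mem hw] at h15
        omega)
      have h16 : PAIR Q.graph R F (fun A w => x A w * z₀ A w ^ 2) =
          PAIR Q.graph R F (fun A w => ext j (ch (im2 χ)) (res j x) A w * z₀ A w ^ 2) +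
          PAIR Q.graph R F (fun A w => x' A w * z₀ A w ^ 2) := by
        unfold PAIR
        rw [← sum_add_distrib]
        refine sum_congr rfl fun A _ => ?_
        rw [← sum_add_distrib]
        refine sum_congr rfl fun p _ => ?_
        show x A p * z₀ A p ^ 2 = ext j (ch (im2 χ)) (res j x) A p * z₀ A p ^ 2 +
          (x A p - ext j (ch (im2 χ)) (res j x) A p) * z₀ A p ^ 2
        ring
      rw [h16, h7, h11, add_zero]
  exact key _ x hx hcx le_rfl

end End

end Pool.Agent.S10
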