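import Pool.Agent.S10.Pair
import Pool.Agent.S10.Orb
import Pool.Agent.S10.MEnd

/-!
# Project S10, block M: the end, for a labelled complex whose universal cover is a component of the active subcomplex

`EndM`: the end for a group `Γ` with the action on a manifold, in the form which is used. `M_main_of`: the universal
cover of `Q` with its deck group is (a translate of) every component of the active subcomplex of the Davis complex, with
its stabilizer in `Φ`.
-/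

set_option autoImplicit false
set_option linter.unusedSectionVars false

open Finset

namespace Pool.Agent.S10

open Pool.Agent.H19.Cub Pool.Agent.H77.SX Pool.Agent.H37.TM Pool.Agent.S9 Pool.Agent.S9.U
  Pool.Agent.S9.M

open Classical in
/-- **The end for a group `Γ`, in the degree `i`**: a cocycle of the tuples pairs to zero with the square of a cycle
which lifts, on all finite labelled complexes of dimension at most `d` with the deck group `Γ` -/
def EndM (Γ : Type) [Group Γ] (d i : ℕ) (K : Type) [Field K] [Algebra (ZMod 2) K] : Prop :=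
  ∀ (V X : Type) [DecidableEq V] [Fintype V] [Fintype X] (Q : CubeComplex V X) (x₀ : X)
    [MulAction Γ (Q.Cover x₀)] (bit : X → V → ZMod 2), IsBit Q bit → IsDeck Γ Q x₀ → DimLe Q d →
    ∀ (Φ : Type) [Group Φ] (θ : Γ →* Φ) (χ : Φ →* Kˣ), EffR K θ (Q.Cover x₀) (sqr χ) →
    ∀ z₀ : Q.Cover x₀ × Finset V → K, CycN Q x₀ i z₀ →
    (∀ (γ : Γ) e, z₀ (γ • e) = (χ (θ γ) : K) * z₀ e) → LiftsR θ Q x₀ χ i z₀ →
    ∀ x : List (Q.Cover x₀) → K, (∀ L, x L ≠ 0 → L.length = i + 1) →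
    (∀ (γ : Γ) L, x (L.map (γ • ·)) = (im2 χ (θ γ) : K) * x L) → (∀ L, dT x L = 0) →
    osum Γ (fun e : Q.Cover x₀ × Finset V =>
      if e ∈ Cell Q x₀ bit i then lin x (TT Q x₀ e) * z₀ e ^ 2 else 0) = 0

/-- **The end**, for a labelled complex whose universal cover is a component of the active subcomplex. -/
theorem M_main_of {V X Γ W : Type} [DecidableEq V] [Fintype V] [Fintype X]
    [Group Γ] [Group W] {Q : CubeComplex V X} {x₀ : X} [MulAction Γ (Q.Cover x₀)]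
    (hex : ∀ bit : X → V → ZMod 2, IsBit Q bit → ExQ Q x₀ bit) (hΓ : IsDeck Γ Q x₀)
    {d : ℕ} (hd : DimLe Q d) {i : ℕ} (hi : 1 ≤ i)
    {K : Type} [Field K] [CharP K 2] [Algebra (ZMod 2) K] (hM : EndM Γ d i K)
    {R : Rac Q.graph W} {Φ : Subgroup W}
    (hΦ : Lev0 R Φ) {act : V → W → Prop} (hact : IsActv R Φ act)
    (hemb : ∀ w : W, ∃ (θ : Γ →* Φ) (j : Q.Cover x₀ → W) (bit : X → V → ZMod 2),
      IsEmb Q R Φ act x₀ θ j ∧ (∃ (φ : Φ) (c : Q.Cover x₀), w = φ * j c) ∧ IsBit Q bit ∧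
      ∀ c v, bit (Q.proj x₀ c) v = R.b (j c) v)
    (χ : Φ →* Kˣ) (hEff : EffA R act K Φ (sqr χ))
    (hl : ∀ z₀ ∈ Za R act Φ (ch χ) i, LiftsA R act Φ χ i z₀) :
    ∀ z₀ ∈ Za R act Φ (ch χ) i, z₀ ∈ Ba R act Φ (ch χ) i := by
  classical
  intro z₀ hz
  refine end_orb hΦ.bits hΦ.fin hact hΓ hz fun w => ?_
  obtain ⟨θ, j, bit, h1, h2, hb, h3⟩ := hemb w
  refine ⟨θ, j, bit, h1, h2, h3, ?_⟩
  obtain ⟨S, hS1, hS2, hS3, hS4⟩ := exists_S hΓ (hex _ hb)
  have hSD : SD Γ Q x₀ bit S := ⟨hS1, hS2, hS3, hS4⟩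
  have hR : EffR K θ (Q.Cover x₀) (sqr χ) := effR_of_effC hb hΓ hSD θ (effC_of_effA h1 hact hEff)
  obtain ⟨hc1, hc2⟩ := cyc_res h1 hz
  refine pair_zero hb hΓ (hex _ hb) θ χ hi hc1 hc2 fun x hx1 hx2 hx3 => ?_
  exact hM V X Q x₀ bit hb hΓ hd Φ θ χ hR _ hc1 hc2 (liftsR_of_liftsA h1 (hl z₀ hz)) x hx1 hx2 hx3

end Pool.Agent.S10
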