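import Pool.Agent.S10.EffR
import Pool.Agent.S10.ExtQ

/-!
# Project S10, block M: all cubical cocycles pair to zero with the square of the cycle
-/

set_option autoImplicit false
set_option linter.unusedSectionVars false

open Finset

namespace Pool.Agent.S10

open Pool.Agent.H19.Cub Pool.Agent.H77.SX Pool.Agent.H37.TM Pool.Agent.S9 Pool.Agent.S9.U
  Pool.Agent.S9.M

variable {V X Γ Φ : Type} [DecidableEq V] [Fintype V] [Fintype X] [Group Γ] [Group Φ]
  {Q : CubeComplex V X} {x₀ : X} [MulAction Γ (Q.Cover x₀)] {bit : X → V → ZMod 2}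

/-- a coboundary pairs to zero with the square of a cycle -/
theorem pair_cob {K : Type} [Field K] [Algebra (ZMod 2) K] [CharP K 2] {d : ℕ} (hbit : IsBit Q bit)
    (hΓ : IsDeck Γ Q x₀) {c : Γ → K} {β z : Q.Cover x₀ × Finset V → K} (hz : CycN Q x₀ (d + 1) z)
    (hze : ∀ (γ : Γ) (e : Q.Cover x₀ × Finset V), z (γ • e) = c γ * z e)
    (hβ : ∀ (γ : Γ) (e : Q.Cover x₀ × Finset V), β (γ • e) * c γ ^ 2 = β e) :
    osum Γ (fun e : Q.Cover x₀ × Finset V => open Classical in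
      if e ∈ Cell Q x₀ bit (d + 1) then cbC Q x₀ β e * z e ^ 2 else 0) = 0 := by
  classical
  have hzs : Cyc Q x₀ (d + 1) z := ⟨hz.valid, hz.nb, hz.bd⟩
  have hbe : ∀ e ∈ Cell Q x₀ bit (d + 1), cbC Q x₀ β e =
      ∑ b ∈ (bdD Q x₀ e).support, bdD Q x₀ e b • β b := by
    intro e he
    have h1 := lin_bdDQ β e
    rw [cbC_pos β ⟨he.1, he.2.1⟩, ← h1]
    unfold lin
    rw [Finsupp.linearCombination_apply]
    rfl
  set k : Q.Cover x₀ × Finset V → Q.Cover x₀ × Finset V → K := fun e b =>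
    if e ∈ Cell Q x₀ bit (d + 1) then bdD Q x₀ e b • (β b * z e ^ 2) else 0 with hk
  have hk0 : ∀ e b, k e b ≠ 0 → e ∈ Cell Q x₀ bit (d + 1) ∧ bdD Q x₀ e b ≠ 0 := by
    intro e b h
    by_cases he : e ∈ Cell Q x₀ bit (d + 1)
    · refine ⟨he, fun h0 => h ?_⟩
      simp only [hk, if_pos he, h0, zero_smul]
    · exact absurd (by simp only [hk, if_neg he]) h
  have hrow : ∀ e, (if e ∈ Cell Q x₀ bit (d + 1) then cbC Q x₀ β e * z e ^ 2 else 0) =
      ∑ᶠ b, k e b := by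
    intro e
    rw [finsum_eq_sum_of_support_subset (s := (bdD Q x₀ e).support) (k e) (fun b hb => by
      rw [mem_coe, Finsupp.mem_support_iff]
      exact (hk0 e b hb).2)]
    by_cases he : e ∈ Cell Q x₀ bit (d + 1)
    · simp only [hk, if_pos he]
      rw [hbe e he, sum_mul]
      exact sum_congr rfl fun b _ => smul_mul_assoc _ _ _
    · simp only [hk, if_neg he, sum_const_zero]
  have hinv : ∀ (γ : Γ) e b, k (γ • e) (γ • b) = k e b := by
    intro γ e b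
    by_cases he : e ∈ Cell Q x₀ bit (d + 1)
    · have he' : γ • e ∈ Cell Q x₀ bit (d + 1) := (Pool.Agent.H37.TM.cell_smul hΓ γ e).2 he
      simp only [hk, if_pos he, if_pos he']
      rw [bdD_smul_apply hΓ he, hze, ← hβ γ b]
      congr 1
      ring
    · have he' : γ • e ∉ Cell Q x₀ bit (d + 1) :=
        fun h => he ((Pool.Agent.H37.TM.cell_smul hΓ γ e).1 h)
      simp only [hk, if_neg he, if_neg he']
  have h1 : osum Γ (fun e => ∑ᶠ b, k e b) = osum Γ fun b => ∑ᶠ e, k e b := by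
    refine osum_comm k hinv (fun e b _ γ h => cu_free hΓ e γ h) (fun e b _ γ h => cu_free hΓ b γ h)
      (fun e => ?_) ?_
    · exact (bdD Q x₀ e).support.finite_toSet.subset fun b hb => by
        rw [mem_coe, Finsupp.mem_support_iff]
        exact (hk0 e b hb).2
    · obtain ⟨S, hS⟩ := cu_fin (Q := Q) (x₀ := x₀) hΓ
      exact ⟨S, fun e _ _ => hS e⟩
  have h2 : (fun e : Q.Cover x₀ × Finset V =>
      if e ∈ Cell Q x₀ bit (d + 1) then cbC Q x₀ β e * z e ^ 2 else 0) = fun e => ∑ᶠ b, k e b :=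
    funext hrow
  rw [h2, h1]
  have hcol : ∀ b, ∑ᶠ e, k e b = 0 := by
    intro b
    by_cases hb : b ∈ Cell Q x₀ bit d
    · obtain ⟨hf1, hf2⟩ := sum_cofaces hbit (fun e => z e ^ 2) hzs.sq.valid hzs.sq.nb hzs.sq.bd b hb
      have h4 : ∀ e, k e b = β b *
          (if e ∈ Cell Q x₀ bit (d + 1) then bdD Q x₀ e b • (z e ^ 2) else 0) := by
        intro e
        by_cases he : e ∈ Cell Q x₀ bit (d + 1)
        · simp only [hk, if_pos he]
          exact (mul_smul_comm _ _ _).symm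
        · simp only [hk, if_neg he, mul_zero]
      rw [finsum_congr h4, ← mul_finsum, hf2, mul_zero]
    · refine finsum_eq_zero_of_forall_eq_zero fun e => ?_
      by_contra h
      exact hb (bdD_cell hbit (hk0 e b h).1 b (hk0 e b h).2)
  simp only [hcol]
  unfold osum
  exact finsum_zero

/-- **Cubical cocycles pair to zero with the square of the cycle**, if the cocycles of the tuples do. -/
theorem pair_zero {K : Type} [Field K] [Algebra (ZMod 2) K] [CharP K 2] (hbit : IsBit Q bit)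
    (hΓ : IsDeck Γ Q x₀) (hex : ExQ Q x₀ bit) (θ : Γ →* Φ) (χ : Φ →* Kˣ) {i : ℕ} (hi : 1 ≤ i)
    {z₀ : Q.Cover x₀ × Finset V → K} (hz : CycN Q x₀ i z₀)
    (hzg : ∀ (γ : Γ) e, z₀ (γ • e) = (χ (θ γ) : K) * z₀ e)
    (hT : ∀ x : List (Q.Cover x₀) → K, (∀ L, x L ≠ 0 → L.length = i + 1) →
      (∀ (γ : Γ) L, x (L.map (γ • ·)) = (im2 χ (θ γ) : K) * x L) → (∀ L, dT x L = 0) →
      osum Γ (fun e : Q.Cover x₀ × Finset V => open Classical in
        if e ∈ Cell Q x₀ bit i then lin x (TT Q x₀ e) * z₀ e ^ 2 else 0) = 0)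
    (x : Q.Cover x₀ × Finset V → K) (hx : CubC Q x₀ θ (ch (im2 χ)) i x)
    (hd : ∀ e, cbC Q x₀ x e = 0) :
    osum Γ (fun e : Q.Cover x₀ × Finset V => open Classical in
      if e ∈ Cell Q x₀ bit i then x e * z₀ e ^ 2 else 0) = 0 := by
  classical
  obtain ⟨S, hS1, hS2, hS3, hS4⟩ := exists_S hΓ hex
  obtain ⟨H, hH1, hH2, hH3⟩ := exists_Hm hΓ hbit hex hS1 hS2 hS3 hS4
  have hSD : SD Γ Q x₀ bit S := ⟨hS1, hS2, hS3, hS4⟩
  have hHD : HD Γ Q x₀ bit S H := ⟨hH1, hH2, hH3⟩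
  obtain ⟨xT, β, h1, h2, h3, h4, h5, h6, h7⟩ := exists_extQ hbit hΓ hSD hHD hx hd
  have h8 := hT xT h1 (fun γ L => h2 γ L) h3
  obtain ⟨d, rfl⟩ : ∃ d, i = d + 1 := ⟨i - 1, by omega⟩
  have hc2 : ∀ γ : Γ, ((im2 χ (θ γ) : Kˣ) : K) * (χ (θ γ) : K) ^ 2 = 1 := by
    intro γ
    rw [im2_apply, ← Units.val_pow_eq_pow_val, Units.inv_mul]
  have h9 := pair_cob hbit hΓ (c := fun γ => (χ (θ γ) : K)) (β := β) hz hzg (fun γ e => by
    have h10 := h6 γ e
    have h11 : β (γ • e) = ((im2 χ (θ γ) : Kˣ) : K) * β e := h10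
    rw [h11, mul_right_comm, hc2, one_mul])
  obtain ⟨F, hF⟩ := cu_fin (Q := Q) (x₀ := x₀) hΓ
  have h12 := osum_add (Γ := Γ)
    (fun e : Q.Cover x₀ × Finset V =>
      if e ∈ Cell Q x₀ bit (d + 1) then x e * z₀ e ^ 2 else 0)
    (fun e : Q.Cover x₀ × Finset V =>
      if e ∈ Cell Q x₀ bit (d + 1) then cbC Q x₀ β e * z₀ e ^ 2 else 0)
    ⟨F, fun e _ => hF e⟩ ⟨F, fun e _ => hF e⟩
  have h13 : (fun e : Q.Cover x₀ × Finset V =>
      (if e ∈ Cell Q x₀ bit (d + 1) then x e * z₀ e ^ 2 else 0) +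
      if e ∈ Cell Q x₀ bit (d + 1) then cbC Q x₀ β e * z₀ e ^ 2 else 0) =
      fun e => if e ∈ Cell Q x₀ bit (d + 1) then lin xT (TT Q x₀ e) * z₀ e ^ 2 else 0 := by
    funext e
    by_cases he : e ∈ Cell Q x₀ bit (d + 1)
    · rw [if_pos he, if_pos he, if_pos he, h7 e he, add_mul]
    · rw [if_neg he, if_neg he, if_neg he, add_zero]
  rw [h13, h8] at h12
  have h14 : osum Γ (fun e : Q.Cover x₀ × Finset V =>
      if e ∈ Cell Q x₀ bit (d + 1) then cbC Q x₀ β e * z₀ e ^ 2 else 0) = 0 := h9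
  rw [h14, add_zero] at h12
  exact h12.symm

end Pool.Agent.S10
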