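import Pool.Agent.S10.Defs

/-!
# Project S10: the start of the tower

For every homomorphism `f` of `W` to a finite group there is a normal subgroup `Φ` of finite index in the kernel of `f` and of
the bits which is preserved by the retractions.
-/

set_option autoImplicit false
set_option linter.unusedSectionVars false

open Finset

namespace Pool.Agent.S10

open Pool.Agent.S9

variable {V : Type} [DecidableEq V] [Fintype V] {G : SimpleGraph V} {W : Type} [Group W]

theorem exists_Phi (R : Rac G W) {P : Type} [Group P] [Finite P] (f : W →* P) :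
    ∃ Φ : Subgroup W, Lev0 R Φ ∧ ∀ g ∈ Φ, f g = 1 := by
  classical
  have hfin : Finite (W →* P) := by
    refine Finite.of_injective (fun f : W →* P => fun v => f (R.s v)) fun f g h => ?_
    exact R.hom_ext fun v => congrFun h v
  have hk := lev_ker R
  obtain ⟨Φ, hΦ⟩ : ∃ Φ : Subgroup W, Φ = R.bh.ker ⊓ ⨅ f : W →* P, f.ker := ⟨_, rfl⟩
  have hmem : ∀ g, g ∈ Φ ↔ g ∈ R.bh.ker ∧ ∀ f : W →* P, f g = 1 := by
    intro g
    rw [hΦ, Subgroup.mem_inf, Subgroup.mem_iInf]
    rfl
  refine ⟨Φ, ⟨⟨fun g hg w => ?_⟩, ?_, fun g hg v => hk.bits g ((hmem g).1 hg).1 v, fun U g hg => ?_⟩,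
    fun g hg => ((hmem g).1 hg).2 f⟩
  · rw [hmem] at hg ⊢
    refine ⟨hk.normal.conj_mem g hg.1 w, fun f => ?_⟩
    rw [map_mul, map_mul, hg.2 f, mul_one, ← map_mul, mul_inv_cancel, map_one]
  · rw [hΦ]
    have h1 : R.bh.ker.FiniteIndex := hk.fin
    have h2 : (⨅ f : W →* P, f.ker).FiniteIndex := Subgroup.finiteIndex_iInf fun f => inferInstance
    infer_instance
  · rw [hmem] at hg ⊢
    exact ⟨hk.ret U g hg.1, fun f => hg.2 (f.comp (R.r U))⟩

end Pool.Agent.S10
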